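import Mathlib
import Pool.Agent.Lib.MP_8f3271_al.L.A

/-!
# Hermitian spaces over finite fields and their special unitary groups

`q` is the order of the fixed field of `star`; the field `F` has `q ^ 2` elements.
-/

set_option autoImplicit false

open Pool.Agent.GPerm59 Pointwise Module

namespace Pool.Agent.Lib.MP_8f3271_al.PSU

/-- `F` has `q ^ 2` elements, `star x = x ^ q` and `q ≥ 3`. -/
structure IsUF (F : Type*) [Field F] [StarRing F] (q : ℕ) : Prop where
  card : Nat.card F = q ^ 2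
  star_eq : ∀ x : F, star x = x ^ q
  three_le : 3 ≤ q

/-- A nondegenerate hermitian form. -/
structure Herm (F V : Type*) [Field F] [StarRing F] [AddCommGroup V] [Module F V] where
  /-- the form -/
  f : V → V → F
  add_left : ∀ x y z, f (x + y) z = f x z + f y z
  smul_left : ∀ (c : F) (x y : V), f (c • x) y = c * f x y
  symm : ∀ x y, f y x = star (f x y)
  nondeg : ∀ x, (∀ y, f x y = 0) → x = 0

namespace Herm

variable {F V W : Type*} [Field F] [StarRing F] [AddCommGroup V] [Module F V] [AddCommGroup W]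
  [Module F W] (h : Herm F V)

theorem add_right (x y z : V) : h.f x (y + z) = h.f x y + h.f x z := by
  rw [h.symm (y + z) x, h.add_left, star_add, ← h.symm, ← h.symm]

theorem smul_right (c : F) (x y : V) : h.f x (c • y) = star c * h.f x y := by
  rw [h.symm (c • y) x, h.smul_left, star_mul', ← h.symm]

theorem zero_left (x : V) : h.f 0 x = 0 := by
  have := h.smul_left 0 0 x
  simpa using this

theorem zero_right (x : V) : h.f x 0 = 0 := by
  have := h.smul_right 0 x 0
  simpa using this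

theorem neg_left (x y : V) : h.f (-x) y = -h.f x y := by
  have := h.smul_left (-1) x y
  simpa using this

theorem neg_right (x y : V) : h.f x (-y) = -h.f x y := by
  have := h.smul_right (-1) x y
  simpa using this

theorem sub_left (x y z : V) : h.f (x - y) z = h.f x z - h.f y z := by
  rw [sub_eq_add_neg, h.add_left, h.neg_left, sub_eq_add_neg]

theorem sub_right (x y z : V) : h.f x (y - z) = h.f x y - h.f x z := by
  rw [sub_eq_add_neg, h.add_right, h.neg_right, sub_eq_add_neg]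

/-- The functional `y ↦ h y x`. -/
def toDual (x : V) : Dual F V where
  toFun y := h.f y x
  map_add' y z := h.add_left y z x
  map_smul' c y := h.smul_left c y x

@[simp] theorem toDual_apply (x y : V) : h.toDual x y = h.f y x := rfl

theorem sum_left {ι : Type*} (s : Finset ι) (x : ι → V) (y : V) :
    h.f (∑ i ∈ s, x i) y = ∑ i ∈ s, h.f (x i) y := map_sum (h.toDual y) x s

theorem sum_right {ι : Type*} (s : Finset ι) (x : ι → V) (y : V) :
    h.f y (∑ i ∈ s, x i) = ∑ i ∈ s, h.f y (x i) := by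
  rw [h.symm (∑ i ∈ s, x i) y, h.sum_left, star_sum]
  exact Finset.sum_congr rfl fun i _ => (h.symm (x i) y).symm

theorem self_star (x : V) : star (h.f x x) = h.f x x := (h.symm x x).symm

/-- orthogonal sum -/
def prod (h : Herm F V) (h' : Herm F W) : Herm F (V × W) where
  f x y := h.f x.1 y.1 + h'.f x.2 y.2
  add_left x y z := by
    rw [Prod.fst_add, Prod.snd_add, h.add_left, h'.add_left]
    ring
  smul_left c x y := by
    rw [Prod.smul_fst, Prod.smul_snd, h.smul_left, h'.smul_left]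
    ring
  symm x y := by rw [star_add, ← h.symm, ← h'.symm]
  nondeg x hx := by
    apply Prod.ext
    · refine h.nondeg _ fun y => ?_
      have := hx (y, 0)
      rwa [h'.zero_right, add_zero] at this
    · refine h'.nondeg _ fun y => ?_
      have := hx (0, y)
      rwa [h.zero_right, zero_add] at this

theorem prod_f (h : Herm F V) (h' : Herm F W) (x y : V × W) :
    (h.prod h').f x y = h.f x.1 y.1 + h'.f x.2 y.2 := rfl

/-- the form `x * star y` on `F` -/
def std (F : Type*) [Field F] [StarRing F] : Herm F F where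
  f x y := x * star y
  add_left x y z := add_mul _ _ _
  smul_left c x y := mul_assoc _ _ _
  symm x y := by rw [star_mul', star_star, mul_comm]
  nondeg x hx := by
    have := hx 1
    simpa using this

theorem std_f (x y : F) : (std F).f x y = x * star y := rfl

end Herm

/-- The special unitary group of `h`. -/
def SU {F V : Type*} [Field F] [StarRing F] [AddCommGroup V] [Module F V] (h : Herm F V) :
    Subgroup (V ≃ₗ[F] V) where
  carrier := {g | (∀ x y, h.f (g x) (g y) = h.f x y) ∧ LinearEquiv.det g = 1}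
  mul_mem' := by
    rintro a b ⟨ha, ha'⟩ ⟨hb, hb'⟩
    refine ⟨fun x y => ?_, by rw [map_mul, ha', hb', one_mul]⟩
    change h.f (a (b x)) (a (b y)) = _
    rw [ha, hb]
  one_mem' := ⟨fun x y => rfl, map_one _⟩
  inv_mem' := by
    rintro a ⟨ha, ha'⟩
    refine ⟨fun x y => ?_, by rw [map_inv, ha', inv_one]⟩
    have h1 := ha (a⁻¹ x) (a⁻¹ y)
    have h2 : ∀ z, a (a⁻¹ z) = z := fun z => a.apply_symm_apply z
    rw [h2, h2] at h1
    exact h1.symm

section

variable {F V G : Type*} [Field F] [StarRing F] [AddCommGroup V] [Module F V] {h : Herm F V}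
  [Group G]

theorem mem_SU {g : V ≃ₗ[F] V} :
    g ∈ SU h ↔ (∀ x y, h.f (g x) (g y) = h.f x y) ∧ LinearEquiv.det g = 1 := Iff.rfl

theorem SU.isom (g : SU h) (x y : V) : h.f (g.1 x) (g.1 y) = h.f x y := g.2.1 x y

theorem SU.det (g : SU h) : LinearEquiv.det g.1 = 1 := g.2.2

theorem SU.mul_apply (g g' : SU h) (x : V) : (g * g').1 x = g.1 (g'.1 x) := rfl

theorem SU.one_apply (x : V) : (1 : SU h).1 x = x := rfl

theorem SU.apply_inv (g : SU h) (x : V) : g.1 ((g⁻¹).1 x) = x := g.1.apply_symm_apply x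

theorem SU.inv_apply (g : SU h) (x : V) : (g⁻¹).1 (g.1 x) = x := g.1.symm_apply_apply x

theorem SU.ext {g g' : SU h} (e : ∀ x, g.1 x = g'.1 x) : g = g' :=
  Subtype.ext (LinearEquiv.ext e)

/-- `π` maps `SU h` onto `G`, its kernel consists of the scalars in `SU h`. -/
structure IsProjU (h : Herm F V) (π : SU h →* G) : Prop where
  surj : Function.Surjective π
  ker : ∀ g : SU h, π g = 1 ↔ ∃ c : F, ∀ x : V, g.1 x = c • x

variable {π : SU h →* G} {A : Subgroup G}

/-- `A` permutes with a conjugate of every subgroup, elementwise. -/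
theorem exists_perm (hπ : IsProjU h π) (hA : GPermutable A) (T : Subgroup (SU h)) :
    ∃ k : SU h, ∀ g : SU h, π g ∈ A → ∀ t ∈ T, ∃ t' ∈ T, ∃ g' : SU h, π g' ∈ A ∧
      g * (k⁻¹ * t * k) = (k⁻¹ * t' * k) * g' := by
  obtain ⟨x, hx⟩ := hA (T.map π)
  obtain ⟨k, rfl⟩ := hπ.surj x
  refine ⟨k, fun g hg t ht => ?_⟩
  have h1 : (π k)⁻¹ * π t * π k ∈ conj (T.map π) (π k) := conj_mem (Subgroup.mem_map_of_mem π ht)
  have h2 : π g * ((π k)⁻¹ * π t * π k) ∈ (A : Set G) * (conj (T.map π) (π k) : Set G) :=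
    Set.mul_mem_mul hg h1
  rw [hx] at h2
  obtain ⟨b', hb', a', ha', hba⟩ := Set.mem_mul.1 h2
  obtain ⟨t', ht', hMb⟩ := Subgroup.mem_map.1 (mem_conj.1 hb')
  have hb : b' = (π k)⁻¹ * π t' * π k := by
    rw [hMb]
    simp [mul_assoc]
  refine ⟨t', ht', (k⁻¹ * t' * k)⁻¹ * (g * (k⁻¹ * t * k)), ?_, (mul_inv_cancel_left _ _).symm⟩
  have h3 : π ((k⁻¹ * t' * k)⁻¹ * (g * (k⁻¹ * t * k))) = a' := by
    have h4 : a' = b'⁻¹ * (π g * ((π k)⁻¹ * π t * π k)) := by
      rw [← hba, inv_mul_cancel_left]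
    rw [h4, hb]
    simp only [map_mul, map_inv]
  rw [h3]
  exact ha'

/-- Permutability of a cyclic `A` with a cyclic group. -/
theorem exists_cyc [Finite G] [Nontrivial V] (hπ : IsProjU h π) (hA : GPermutable A) (g : SU h)
    (hg : A = Subgroup.zpowers (π g)) (he : 2 ≤ orderOf (π g)) (t : SU h) :
    ∃ (k : SU h) (j : ℕ) (i : ℤ) (ζ : F), 0 < j ∧ j < orderOf (π g) ∧ ζ ≠ 0 ∧
      ∀ x, g.1 (((k⁻¹ * t * k) ^ (j : ℤ)).1 x) = ζ • ((k⁻¹ * t * k) ^ ((j : ℤ) * i)).1 (g.1 x) := by
  obtain ⟨x, hx⟩ := hA (Subgroup.zpowers (π t))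
  obtain ⟨k, rfl⟩ := hπ.surj x
  have hconj : conj (Subgroup.zpowers (π t)) (π k) = Subgroup.zpowers (π (k⁻¹ * t * k)) := by
    rw [conj, MonoidHom.map_zpowers]
    congr 1
    simp
  rw [hconj, hg] at hx
  obtain ⟨j, hj0, hj1, hj2⟩ := cyc_prod hx he
  set t₁ := k⁻¹ * t * k
  obtain ⟨i, hi⟩ := Subgroup.mem_zpowers_iff.1 hj2
  have hker : π ((t₁ ^ ((j : ℤ) * i))⁻¹ * (g * t₁ ^ (j : ℤ) * g⁻¹)) = 1 := by
    rw [map_mul, map_inv, inv_mul_eq_one, map_mul, map_mul, map_inv, map_zpow, map_zpow, zpow_mul,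
      zpow_natCast]
    exact hi
  obtain ⟨ζ, hζ⟩ := (hπ.ker _).1 hker
  have hkey : ∀ x, g.1 ((t₁ ^ (j : ℤ)).1 x) = ζ • (t₁ ^ ((j : ℤ) * i)).1 (g.1 x) := by
    intro x
    have h1 := hζ (g.1 x)
    rw [SU.mul_apply, SU.mul_apply, SU.mul_apply, SU.inv_apply] at h1
    have h2 := congrArg (fun y => (t₁ ^ ((j : ℤ) * i)).1 y) h1
    simp only [SU.apply_inv, map_smul] at h2
    exact h2
  refine ⟨k, j, i, ζ, hj0, hj1, ?_, hkey⟩
  rintro rfl
  obtain ⟨x, hx⟩ := exists_ne (0 : V)
  have h1 := hkey x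
  rw [zero_smul] at h1
  exact hx ((t₁ ^ (j : ℤ)).1.map_eq_zero_iff.1 (g.1.map_eq_zero_iff.1 h1))

end

end Pool.Agent.Lib.MP_8f3271_al.PSU
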