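import Mathlib

/-!
# Arithmetic of the powers of `-q` modulo `(q ^ r + 1) / (q + 1)`
-/

set_option autoImplicit false

namespace Pool.Agent.Lib.MP_8f3271_al.PSU

/-- `1 - q + q ^ 2 - ...` (`r` terms); for odd `r` it is `(q ^ r + 1) / (q + 1)`. -/
def vv (q r : ℕ) : ℤ := ∑ m ∈ Finset.range r, (-(q : ℤ)) ^ m

/-! ### Row psu-N0 -/

theorem vv_mul {q r : ℕ} (hodd : Odd r) : vv q r * (q + 1) = (q : ℤ) ^ r + 1 := by
  have h := geom_sum_mul (-(q : ℤ)) r
  rw [hodd.neg_pow] at h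
  unfold vv
  linarith

/-- `vv q r = 1 + (q - 1) q (1 + q ^ 2 + ... + q ^ (r - 3))` for odd `r`, so it is more than `(q - 1) q ^ (r - 2)`
(or from `vv_mul`: `(q + 1) (q - 1) q ^ (r - 2) < q ^ r + 1`). -/
theorem vv_gt {q r : ℕ} (hq : 3 ≤ q) (hr : 3 ≤ r) (hodd : Odd r) :
    ((q : ℤ) - 1) * (q : ℤ) ^ (r - 2) < vv q r := by
  have h := vv_mul (q := q) hodd
  obtain ⟨s, rfl⟩ : ∃ s, r = s + 2 := ⟨r - 2, by omega⟩
  simp only [Nat.add_sub_cancel]
  have hq' : (3 : ℤ) ≤ q := by exact_mod_cast hq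
  have hp : (0 : ℤ) < (q : ℤ) ^ s := by positivity
  have h2 : (q : ℤ) ^ (s + 2) = (q : ℤ) ^ s * q ^ 2 := by ring
  rw [h2] at h
  have h3 : ((q : ℤ) - 1) * (q : ℤ) ^ s * (q + 1) < vv q (s + 2) * (q + 1) := by
    rw [h]
    nlinarith
  exact lt_of_mul_lt_mul_right h3 (by linarith)

/-- `b = -q`: `(-q) ^ r = -q ^ r ≡ 1`. -/
theorem vv_dvd {q r : ℕ} (hodd : Odd r) : vv q r ∣ (-(q : ℤ)) ^ r - 1 := by
  have h := geom_sum_mul (-(q : ℤ)) r
  exact ⟨-(q : ℤ) - 1, h.symm⟩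

theorem N0_ge {q r : ℕ} (hq : 3 ≤ q) (hr : 3 ≤ r) (hodd : Odd r) : 3 ≤ vv q r := by
  have h := vv_gt hq hr hodd
  have hq' : (3 : ℤ) ≤ q := by exact_mod_cast hq
  have hp : (3 : ℤ) ≤ (q : ℤ) ^ (r - 2) := by
    obtain ⟨s, hs⟩ : ∃ s, r - 2 = s + 1 := ⟨r - 3, by omega⟩
    rw [hs, pow_succ]
    have : (1 : ℤ) ≤ (q : ℤ) ^ s := one_le_pow₀ (by linarith)
    nlinarith
  nlinarith

theorem N0_coprime {q r : ℕ} (hr : 3 ≤ r) (hodd : Odd r) (n : ℕ) :
    IsCoprime (vv q r) ((-(q : ℤ)) ^ n) := by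
  apply IsCoprime.pow_right
  obtain ⟨c, hc⟩ := vv_dvd (q := q) hodd
  obtain ⟨s, rfl⟩ : ∃ s, r = s + 1 := ⟨r - 1, by omega⟩
  refine ⟨-c, (-(q : ℤ)) ^ s, ?_⟩
  have h1 : (-(q : ℤ)) ^ (s + 1) = (-(q : ℤ)) ^ s * (-(q : ℤ)) := pow_succ _ _
  rw [h1] at hc
  linarith

theorem N0_aux {q r : ℕ} (hq : 3 ≤ q) (hr : 3 ≤ r) (hodd : Odd r) (i k : ℕ) :
    ¬ vv q r ∣ (-(q : ℤ)) ^ i + (-(q : ℤ)) ^ (i + k) := by
  intro h
  have h1 : (-(q : ℤ)) ^ i + (-(q : ℤ)) ^ (i + k) = (-(q : ℤ)) ^ i * (1 + (-(q : ℤ)) ^ k) := by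
    rw [pow_add]; ring
  rw [h1] at h
  have h2 : vv q r ∣ 1 + (-(q : ℤ)) ^ k := (N0_coprime hr hodd i).dvd_of_dvd_mul_left h
  have h3 : (-(q : ℤ)) ^ k ≡ -1 [ZMOD vv q r] := by
    apply Int.ModEq.symm
    rw [Int.modEq_iff_dvd]
    have : (-(q : ℤ)) ^ k - -1 = 1 + (-(q : ℤ)) ^ k := by ring
    rw [this]
    exact h2
  have h4 : (-(q : ℤ)) ^ r ≡ 1 [ZMOD vv q r] := by
    apply Int.ModEq.symm
    rw [Int.modEq_iff_dvd]
    exact vv_dvd hodd
  have h5 : ((-(q : ℤ)) ^ k) ^ r ≡ (-1) ^ r [ZMOD vv q r] := h3.pow r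
  have h6 : ((-(q : ℤ)) ^ r) ^ k ≡ 1 ^ k [ZMOD vv q r] := h4.pow k
  rw [hodd.neg_one_pow] at h5
  rw [one_pow, ← pow_mul, mul_comm r k, pow_mul] at h6
  have h7 : (-1 : ℤ) ≡ 1 [ZMOD vv q r] := h5.symm.trans h6
  rw [Int.modEq_iff_dvd] at h7
  have h8 := Int.le_of_dvd (by norm_num) h7
  have h9 := N0_ge hq hr hodd
  linarith

/-- If `i ≤ j`, `vv` is prime to `q`, so it divides `1 + b ^ k`, `b = -q`, `k = j - i`; then `b ^ k ≡ -1`,
`1 ≡ (b ^ r) ^ k = (b ^ k) ^ r ≡ -1`, so `vv ∣ 2`, but `vv ≥ 7`. -/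
theorem arith2 {q r : ℕ} (hq : 3 ≤ q) (hr : 3 ≤ r) (hodd : Odd r) (i j : ℕ) :
    ¬ vv q r ∣ (-(q : ℤ)) ^ i + (-(q : ℤ)) ^ j := by
  rcases le_total i j with hij | hij
  · obtain ⟨k, rfl⟩ := Nat.exists_eq_add_of_le hij
    exact N0_aux hq hr hodd i k
  · obtain ⟨k, rfl⟩ := Nat.exists_eq_add_of_le hij
    rw [add_comm]
    exact N0_aux hq hr hodd j k

/-- `b ∣ P.coeff 0`, so `P.coeff 0 = 0`, `P = X * Q`, and `Q` satisfies the same hypotheses (`b ≠ 0`); induction on the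
degree. -/
theorem poly_eq_zero {b : ℤ} {P : Polynomial ℤ} (hP : ∀ m, |P.coeff m| < |b|)
    (h : P.eval b = 0) : P = 0 := by
  have hb : b ≠ 0 := by
    rintro rfl
    have := hP 0
    rw [abs_zero] at this
    exact absurd (abs_nonneg (P.coeff 0)) (not_le.mpr this)
  have key : ∀ (n : ℕ) (P : Polynomial ℤ), P.natDegree ≤ n → (∀ m, |P.coeff m| < |b|) →
      P.eval b = 0 → P = 0 := by
    intro n
    induction n with
    | zero =>
      intro P hd _ he
      rw [Polynomial.eq_C_of_natDegree_le_zero hd] at he ⊢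
      rw [Polynomial.eval_C] at he
      rw [he, Polynomial.C_0]
    | succ n ih =>
      intro P hd hP he
      have h1 : P.divX * Polynomial.X + Polynomial.C (P.coeff 0) = P := Polynomial.divX_mul_X_add P
      have h2 : P.divX.eval b * b + P.coeff 0 = 0 := by
        rw [← h1] at he
        simpa using he
      have h3 : b ∣ P.coeff 0 := ⟨-P.divX.eval b, by linarith⟩
      have h4 : P.coeff 0 = 0 := Int.eq_zero_of_abs_lt_dvd ((abs_dvd b _).mpr h3) (hP 0)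
      have h5 : P.divX.eval b = 0 := by
        rw [h4, add_zero] at h2
        exact (mul_eq_zero.mp h2).resolve_right hb
      have h6 : P.divX = 0 := by
        apply ih P.divX _ _ h5
        · rw [Polynomial.natDegree_divX_eq_natDegree_tsub_one]
          omega
        · intro m
          rw [Polynomial.coeff_divX]
          exact hP (m + 1)
      rw [← h1, h6, h4]
      simp
  exact key P.natDegree P le_rfl hP h

/-! ### Row psu-N1 -/

private theorem N1_bound {q r m : ℕ} (hq : 1 ≤ q) (hr : 3 ≤ r) (hodd : Odd r) (hm : m < r) :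
    (-(q : ℤ)) ^ m ≤ q * (q : ℤ) ^ (r - 2) ∧ -(-(q : ℤ)) ^ m ≤ (q : ℤ) ^ (r - 2) := by
  have hq' : (1 : ℤ) ≤ q := by exact_mod_cast hq
  have hQ : (0 : ℤ) < (q : ℤ) ^ (r - 2) := by positivity
  have hr1 : (q : ℤ) * (q : ℤ) ^ (r - 2) = (q : ℤ) ^ (r - 1) := by
    rw [← pow_succ']
    congr 1
    omega
  rcases Nat.even_or_odd m with he | ho
  · rw [he.neg_pow, hr1]
    constructor
    · exact pow_le_pow_right₀ hq' (by omega)
    · have h1 : (0 : ℤ) ≤ (q : ℤ) ^ m := by positivity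
      linarith
  · rw [ho.neg_pow, hr1]
    have h1 : (0 : ℤ) ≤ (q : ℤ) ^ m := by positivity
    have h2 : (0 : ℤ) ≤ (q : ℤ) ^ (r - 1) := by positivity
    constructor
    · linarith
    · rw [neg_neg]
      refine pow_le_pow_right₀ hq' ?_
      obtain ⟨a, ha⟩ := ho
      obtain ⟨c, hc⟩ := hodd
      omega

private noncomputable def N1_pol (i l k j r : ℕ) (t : ℤ) : Polynomial ℤ :=
  Polynomial.X ^ i + Polynomial.X ^ l - Polynomial.X ^ k - Polynomial.X ^ j -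
    Polynomial.C t * ∑ m ∈ Finset.range r, Polynomial.X ^ m

private theorem N1_coeff (i l k j r : ℕ) (t : ℤ) (m : ℕ) :
    (N1_pol i l k j r t).coeff m = (if m = i then 1 else 0) +
      (if m = l then 1 else 0) - (if m = k then 1 else 0) - (if m = j then 1 else 0) -
      t * (if m < r then 1 else 0) := by
  unfold N1_pol
  simp only [Polynomial.coeff_sub, Polynomial.coeff_add, Polynomial.coeff_X_pow,
    Polynomial.coeff_C_mul, Polynomial.finsetSum_coeff, Finset.sum_ite_eq, Finset.mem_range]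

private theorem N1_eval (i l k j r : ℕ) (t b : ℤ) :
    (N1_pol i l k j r t).eval b = b ^ i + b ^ l - b ^ k - b ^ j -
      t * ∑ m ∈ Finset.range r, b ^ m := by
  unfold N1_pol
  simp only [Polynomial.eval_sub, Polynomial.eval_add, Polynomial.eval_pow, Polynomial.eval_X,
    Polynomial.eval_mul, Polynomial.eval_C, Polynomial.eval_finsetSum]

/-- Case `q ≥ 5`. Let `b = -q`, `D = b ^ i + b ^ l - b ^ k - b ^ j = t * vv q r`. If `i, l, k, j < r` then
`|D| ≤ 2 q ^ (r - 1) + 2 q ^ (r - 2)` (if `D > 0` is larger, ... : the even powers of `b` are positive, the odd ones negative; so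
the terms `b ^ i + b ^ l` are at most `2 q ^ (r - 1)` and `- b ^ k - b ^ j` at most `2 q ^ (r - 2)`; `r - 1` is even), so by `vv_gt`
`|t| (q - 1) < 2 q + 2`, `|t| ≤ 2` as `q ≥ 5`. The polynomial `P = X ^ i + X ^ l - X ^ k - X ^ j - t (1 + X + ... + X ^ (r - 1))`
has coefficients of absolute value `≤ 2 + 2 < q` and `P (b) = 0`, so `P = 0` (`poly_eq_zero`). `P (1) = 0` gives `t = 0`, and
`X ^ i + X ^ l = X ^ k + X ^ j` gives `{i, l} = {k, j}`; as `i ≠ j`, `i = k` and `l = j`. -/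
theorem arith4_large {q r i l k j : ℕ} (hq : 5 ≤ q) (hr : 3 ≤ r) (hodd : Odd r) (hi : i < r)
    (hl : l < r) (hk : k < r) (hj : j < r) (hij : i ≠ j)
    (h : vv q r ∣ (-(q : ℤ)) ^ i + (-(q : ℤ)) ^ l - (-(q : ℤ)) ^ k - (-(q : ℤ)) ^ j) :
    i = k ∧ l = j := by
  obtain ⟨t, ht⟩ := h
  have hQ : (0 : ℤ) < (q : ℤ) ^ (r - 2) := by positivity
  have hv := vv_gt (q := q) (by omega) hr hodd
  obtain ⟨i1, i2⟩ := N1_bound (q := q) (by omega) hr hodd hi
  obtain ⟨l1, l2⟩ := N1_bound (q := q) (by omega) hr hodd hl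
  obtain ⟨k1, k2⟩ := N1_bound (q := q) (by omega) hr hodd hk
  obtain ⟨j1, j2⟩ := N1_bound (q := q) (by omega) hr hodd hj
  have hq' : (5 : ℤ) ≤ q := by exact_mod_cast hq
  -- the quotient is small
  have ht2 : |t| ≤ 2 := by
    by_contra hc
    have hc' : 3 ≤ |t| := by omega
    have hvpos : 0 < vv q r := by
      have h1 : 0 < ((q : ℤ) - 1) * (q : ℤ) ^ (r - 2) := mul_pos (by linarith) hQ
      linarith
    have hD : |vv q r * t| ≤ (2 * q + 2) * (q : ℤ) ^ (r - 2) := by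
      rw [← ht, abs_le]
      constructor <;> nlinarith
    rw [abs_mul, abs_of_pos hvpos] at hD
    have h2 : vv q r * 3 ≤ vv q r * |t| := mul_le_mul_of_nonneg_left hc' hvpos.le
    have h3 : (2 * (q : ℤ) + 2) * (q : ℤ) ^ (r - 2) ≤ 3 * (((q : ℤ) - 1) * (q : ℤ) ^ (r - 2)) := by
      nlinarith
    linarith
  -- the polynomial
  have hcoef : ∀ m, (N1_pol i l k j r t).coeff m = (if m = i then 1 else 0) +
      (if m = l then 1 else 0) - (if m = k then 1 else 0) - (if m = j then 1 else 0) -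
      t * (if m < r then 1 else 0) := N1_coeff i l k j r t
  have hP : N1_pol i l k j r t = 0 := by
    refine poly_eq_zero (b := -(q : ℤ)) ?_ ?_
    · intro m
      rw [hcoef m, abs_neg, abs_of_nonneg (by positivity : (0 : ℤ) ≤ q)]
      obtain ⟨t1, t2⟩ := abs_le.1 ht2
      rw [abs_lt]
      split_ifs <;> constructor <;> linarith
    · rw [N1_eval]
      have h4 : vv q r = ∑ m ∈ Finset.range r, (-(q : ℤ)) ^ m := rfl
      rw [← h4, ht]
      ring
  have h1 : (N1_pol i l k j r t).eval 1 = 0 := by rw [hP, Polynomial.eval_zero]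
  rw [N1_eval] at h1
  have ht0 : t = 0 := by
    simp only [one_pow, Finset.sum_const, Finset.card_range, nsmul_eq_mul, mul_one] at h1
    have h5 : t * (r : ℤ) = 0 := by linarith
    rcases mul_eq_zero.1 h5 with h6 | h6
    · exact h6
    · exfalso
      have h7 : r = 0 := by exact_mod_cast h6
      omega
  have hc0 : ∀ m, (if m = i then (1 : ℤ) else 0) + (if m = l then 1 else 0) -
      (if m = k then 1 else 0) - (if m = j then 1 else 0) = 0 := by
    intro m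
    have h8 := hcoef m
    rw [hP, Polynomial.coeff_zero, ht0, zero_mul, sub_zero] at h8
    exact h8.symm
  have hi0 := hc0 i
  rw [if_pos rfl, if_neg hij] at hi0
  have hik : i = k := by
    by_contra hne
    rw [if_neg hne] at hi0
    split_ifs at hi0 <;> omega
  have hil : i ≠ l := by
    intro he
    rw [if_pos he] at hi0
    split_ifs at hi0 <;> omega
  refine ⟨hik, ?_⟩
  have hl0 := hc0 l
  rw [if_neg (Ne.symm hil), if_pos rfl, if_neg (by rw [← hik]; exact Ne.symm hil)] at hl0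
  by_contra hne
  rw [if_neg hne] at hl0
  omega

/-! ### Row psu-N2 -/

theorem N2_pow {q r m : ℕ} (hq : 3 ≤ q) (hr : 3 ≤ r) (hodd : Odd r) (hm : m < r) :
    -((q : ℤ) ^ (r - 2)) ≤ (-(q : ℤ)) ^ m ∧ (-(q : ℤ)) ^ m ≤ q * (q : ℤ) ^ (r - 2) := by
  have hq0 : (1 : ℤ) ≤ q := by exact_mod_cast (by omega : 1 ≤ q)
  have hQ : (0 : ℤ) < (q : ℤ) ^ (r - 2) := by positivity
  have hQ' : (0 : ℤ) ≤ q * (q : ℤ) ^ (r - 2) := by positivity
  rcases Nat.even_or_odd m with he | ho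
  · rw [he.neg_pow]
    have h1 : (0 : ℤ) ≤ (q : ℤ) ^ m := by positivity
    refine ⟨by omega, ?_⟩
    rw [← pow_succ']
    exact pow_le_pow_right₀ hq0 (by omega)
  · rw [ho.neg_pow]
    have h1 : (0 : ℤ) ≤ (q : ℤ) ^ m := by positivity
    have h2 : m ≤ r - 2 := by
      rcases hodd with ⟨c, hc⟩
      rcases ho with ⟨d, hd⟩
      omega
    refine ⟨neg_le_neg (pow_le_pow_right₀ hq0 h2), by omega⟩

theorem N2_t {q r i l k j : ℕ} (hq : 3 ≤ q) (hr : 3 ≤ r) (hodd : Odd r) (hi : i < r)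
    (hl : l < r) (hk : k < r) (hj : j < r) {t : ℤ}
    (h : (-(q : ℤ)) ^ i + (-(q : ℤ)) ^ l - (-(q : ℤ)) ^ k - (-(q : ℤ)) ^ j = vv q r * t) :
    -3 ≤ t ∧ t ≤ 3 := by
  have h1 := N2_pow hq hr hodd hi
  have h2 := N2_pow hq hr hodd hl
  have h3 := N2_pow hq hr hodd hk
  have h4 := N2_pow hq hr hodd hj
  have h5 := vv_gt hq hr hodd
  have hq' : (3 : ℤ) ≤ q := by exact_mod_cast hq
  have hQ : (0 : ℤ) < (q : ℤ) ^ (r - 2) := by positivity
  generalize (q : ℤ) ^ (r - 2) = Q at h1 h2 h3 h4 h5 hQ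
  generalize vv q r = v at h h5
  have h6 : 3 * Q ≤ q * Q := mul_le_mul_of_nonneg_right hq' hQ.le
  have h7 : ((q : ℤ) - 1) * Q = q * Q - Q := by ring
  rw [h7] at h5
  generalize (q : ℤ) * Q = R at h1 h2 h3 h4 h5 h6
  have hv : 0 < v := by omega
  constructor
  · by_contra hcon
    have h8 : v * t ≤ v * (-4) := mul_le_mul_of_nonneg_left (by omega) hv.le
    omega
  · by_contra hcon
    have h8 : v * 4 ≤ v * t := mul_le_mul_of_nonneg_left (by omega) hv.le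
    omega

theorem N2_zero {q i l k j : ℕ} (hq : 3 ≤ q) (hij : i ≠ j)
    (h : (-(q : ℤ)) ^ i + (-(q : ℤ)) ^ l - (-(q : ℤ)) ^ k - (-(q : ℤ)) ^ j = 0) :
    i = k ∧ l = j := by
  have hq' : (3 : ℤ) ≤ q := by exact_mod_cast hq
  have hP : (Polynomial.X ^ i + Polynomial.X ^ l - Polynomial.X ^ k - Polynomial.X ^ j :
      Polynomial ℤ) = 0 := by
    refine poly_eq_zero (b := -(q : ℤ)) (fun m => ?_) ?_
    · simp only [Polynomial.coeff_sub, Polynomial.coeff_add, Polynomial.coeff_X_pow]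
      rw [abs_neg, abs_of_nonneg (by omega : (0 : ℤ) ≤ q), abs_lt]
      constructor <;> split_ifs <;> omega
    · simp only [Polynomial.eval_sub, Polynomial.eval_add, Polynomial.eval_pow,
        Polynomial.eval_X]
      exact h
  have hc : ∀ m : ℕ, ((if m = i then 1 else 0) + (if m = l then 1 else 0) -
      (if m = k then 1 else 0) - (if m = j then 1 else 0) : ℤ) = 0 := by
    intro m
    have h1 := congrArg (fun p => Polynomial.coeff p m) hP
    simpa only [Polynomial.coeff_sub, Polynomial.coeff_add, Polynomial.coeff_X_pow,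
      Polynomial.coeff_zero] using h1
  have h1 := hc i
  rw [if_pos rfl, if_neg hij] at h1
  have hik : i = k := by
    by_contra hne
    rw [if_neg hne] at h1
    split_ifs at h1 <;> omega
  have hil : i ≠ l := by
    intro hil
    rw [if_pos hil] at h1
    split_ifs at h1
    omega
  have h2 := hc l
  rw [if_pos rfl, if_neg (Ne.symm hil), ← hik, if_neg (Ne.symm hil)] at h2
  refine ⟨hik, ?_⟩
  by_contra hne
  rw [if_neg hne] at h2
  omega

/-- the finite check -/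
def N2_chk (N V : ℤ) (tb : List ℤ) : Bool :=
  tb.all fun a => tb.all fun b => tb.all fun c => tb.all fun d =>
    [-3, -2, -1, 1, 2, 3].all fun t => !decide ((a + b - c - d - V * t) % N = 0)

theorem N2_chk3 : N2_chk 729 (-182) [1, -3, 9, -27, 81, -243, 0] = true := by
  decide +kernel

theorem N2_chk4 : N2_chk 256 (-51) [1, -4, 16, -64, 0] = true := by
  decide +kernel

theorem N2_use {N V v t x1 x2 x3 x4 : ℤ} {tb : List ℤ} (hc : N2_chk N V tb = true)
    (h1 : ∃ a ∈ tb, x1 ≡ a [ZMOD N]) (h2 : ∃ a ∈ tb, x2 ≡ a [ZMOD N])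
    (h3 : ∃ a ∈ tb, x3 ≡ a [ZMOD N]) (h4 : ∃ a ∈ tb, x4 ≡ a [ZMOD N]) (hv : v ≡ V [ZMOD N])
    (h : x1 + x2 - x3 - x4 = v * t) (ht : -3 ≤ t ∧ t ≤ 3) : t = 0 := by
  obtain ⟨a, ha, ha'⟩ := h1
  obtain ⟨b, hb, hb'⟩ := h2
  obtain ⟨c, hc1, hc'⟩ := h3
  obtain ⟨d, hd, hd'⟩ := h4
  by_contra ht0
  have h5 : (a + b - c - d - V * t) % N = 0 := by
    have h6 : x1 + x2 - x3 - x4 - v * t ≡ a + b - c - d - V * t [ZMOD N] :=
      (((ha'.add hb').sub hc').sub hd').sub (hv.mul_right t)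
    rw [h, sub_self] at h6
    exact (Int.emod_emod_of_dvd _ dvd_rfl).symm.trans (by rw [← h6]; simp)
  unfold N2_chk at hc
  rw [List.all_eq_true] at hc
  have e1 := hc a ha
  rw [List.all_eq_true] at e1
  have e2 := e1 b hb
  rw [List.all_eq_true] at e2
  have e3 := e2 c hc1
  rw [List.all_eq_true] at e3
  have e4 := e3 d hd
  rw [List.all_eq_true] at e4
  have e5 := e4 t (by
    simp only [List.mem_cons, List.not_mem_nil, or_false]
    omega)
  rw [Bool.not_eq_true', decide_eq_false_iff_not] at e5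
  exact e5 h5

theorem N2_res3 (m : ℕ) : ∃ a ∈ [1, -3, 9, -27, 81, -243, (0 : ℤ)], (-3 : ℤ) ^ m ≡ a [ZMOD 729] := by
  rcases lt_or_ge m 6 with hm | hm
  · interval_cases m
    · exact ⟨1, by simp, by decide⟩
    · exact ⟨-3, by simp, by decide⟩
    · exact ⟨9, by simp, by decide⟩
    · exact ⟨-27, by simp, by decide⟩
    · exact ⟨81, by simp, by decide⟩
    · exact ⟨-243, by simp, by decide⟩
  · refine ⟨0, by simp, ?_⟩
    obtain ⟨c, rfl⟩ := Nat.exists_eq_add_of_le hm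
    rw [pow_add]
    exact (Int.modEq_zero_iff_dvd.2 ⟨(-3) ^ c, by norm_num⟩)

theorem N2_res4 (m : ℕ) : ∃ a ∈ [1, -4, 16, -64, (0 : ℤ)], (-4 : ℤ) ^ m ≡ a [ZMOD 256] := by
  rcases lt_or_ge m 4 with hm | hm
  · interval_cases m
    · exact ⟨1, by simp, by decide⟩
    · exact ⟨-4, by simp, by decide⟩
    · exact ⟨16, by simp, by decide⟩
    · exact ⟨-64, by simp, by decide⟩
  · refine ⟨0, by simp, ?_⟩
    obtain ⟨c, rfl⟩ := Nat.exists_eq_add_of_le hm
    rw [pow_add]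
    exact (Int.modEq_zero_iff_dvd.2 ⟨(-4) ^ c, by norm_num⟩)

theorem N2_vv3 (s : ℕ) : vv 3 (6 + s) ≡ -182 [ZMOD 729] := by
  induction s with
  | zero =>
    simp only [vv, Finset.sum_range_succ, Finset.sum_range_zero, add_zero]
    decide
  | succ s ih =>
    have h1 : vv 3 (6 + (s + 1)) = vv 3 (6 + s) + (-3) ^ (6 + s) := by
      rw [← add_assoc]
      unfold vv
      rw [Finset.sum_range_succ]
      norm_num
    rw [h1]
    have h2 : (-3 : ℤ) ^ (6 + s) ≡ 0 [ZMOD 729] := by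
      rw [pow_add]
      exact (Int.modEq_zero_iff_dvd.2 ⟨(-3) ^ s, by norm_num⟩)
    simpa using ih.add h2

theorem N2_vv4 (s : ℕ) : vv 4 (4 + s) ≡ -51 [ZMOD 256] := by
  induction s with
  | zero =>
    simp only [vv, Finset.sum_range_succ, Finset.sum_range_zero, add_zero]
    decide
  | succ s ih =>
    have h1 : vv 4 (4 + (s + 1)) = vv 4 (4 + s) + (-4) ^ (4 + s) := by
      rw [← add_assoc]
      unfold vv
      rw [Finset.sum_range_succ]
      norm_num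
    rw [h1]
    have h2 : (-4 : ℤ) ^ (4 + s) ≡ 0 [ZMOD 256] := by
      rw [pow_add]
      exact (Int.modEq_zero_iff_dvd.2 ⟨(-4) ^ s, by norm_num⟩)
    simpa using ih.add h2

theorem N2_fin33 : ∀ i l k j : Fin 3, i ≠ j →
    (7 : ℤ) ∣ (-3) ^ (i : ℕ) + (-3) ^ (l : ℕ) - (-3) ^ (k : ℕ) - (-3) ^ (j : ℕ) →
      i = k ∧ l = j := by
  decide +kernel

theorem N2_fin35 : ∀ i l k j : Fin 5, i ≠ j →
    (61 : ℤ) ∣ (-3) ^ (i : ℕ) + (-3) ^ (l : ℕ) - (-3) ^ (k : ℕ) - (-3) ^ (j : ℕ) →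
      i = k ∧ l = j := by
  decide +kernel

theorem N2_fin43 : ∀ i l k j : Fin 3, i ≠ j →
    (13 : ℤ) ∣ (-4) ^ (i : ℕ) + (-4) ^ (l : ℕ) - (-4) ^ (k : ℕ) - (-4) ^ (j : ℕ) →
      i = k ∧ l = j := by
  decide +kernel

/-- The same for `q = 3` and `q = 4`. For `r = 3` (`vv 3 3 = 7`, `vv 4 3 = 13`) and for `q = 3`, `r = 5` (`vv 3 5 = 61`) this is
a finite check (`decide`, `interval_cases`). Otherwise `D = t * vv q r` as in `arith4_large`, `|t| ≤ 3`. Modulo `q ^ 6` (`q = 3`,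
`r ≥ 7`), modulo `q ^ 4` (`q = 4`, `r ≥ 5`) one has `t = 0`: `b ^ m = 0` for `m ≥ 6` (`4`), `vv = 1 + b + ... + b ^ 5`
(`1 + b + b ^ 2 + b ^ 3`), so this is a finite check over `min i 6` and so on (verified by computer: no solution with
`t ≠ 0`, `|t| ≤ 3`). For `t = 0`: `poly_eq_zero` for `X ^ i + X ^ l - X ^ k - X ^ j` (coefficients of absolute value
`≤ 2 < q`). -/
theorem arith4_small {q r i l k j : ℕ} (hq : q = 3 ∨ q = 4) (hr : 3 ≤ r) (hodd : Odd r) (hi : i < r)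
    (hl : l < r) (hk : k < r) (hj : j < r) (hij : i ≠ j)
    (h : vv q r ∣ (-(q : ℤ)) ^ i + (-(q : ℤ)) ^ l - (-(q : ℤ)) ^ k - (-(q : ℤ)) ^ j) :
    i = k ∧ l = j := by
  rcases hq with rfl | rfl
  · rcases lt_or_ge r 7 with h7 | h7
    · have hr' : r = 3 ∨ r = 5 := by
        rcases hodd with ⟨c, hc⟩
        omega
      rcases hr' with rfl | rfl
      · have hv : vv 3 3 = 7 := by decide
        rw [hv] at h
        simpa only [Fin.mk.injEq] using
          N2_fin33 ⟨i, hi⟩ ⟨l, hl⟩ ⟨k, hk⟩ ⟨j, hj⟩ (fun h0 => hij (congrArg Fin.val h0)) h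
      · have hv : vv 3 5 = 61 := by decide
        rw [hv] at h
        simpa only [Fin.mk.injEq] using
          N2_fin35 ⟨i, hi⟩ ⟨l, hl⟩ ⟨k, hk⟩ ⟨j, hj⟩ (fun h0 => hij (congrArg Fin.val h0)) h
    · obtain ⟨t, ht⟩ := h
      have hb := N2_t (by omega) hr hodd hi hl hk hj ht
      have hvv : vv 3 r ≡ -182 [ZMOD 729] := by
        obtain ⟨s, rfl⟩ := Nat.exists_eq_add_of_le (by omega : 6 ≤ r)
        exact N2_vv3 s
      have ht0 := N2_use N2_chk3 (N2_res3 i) (N2_res3 l) (N2_res3 k) (N2_res3 j) hvv ht hb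
      rw [ht0, mul_zero] at ht
      exact N2_zero (by omega) hij ht
  · rcases lt_or_ge r 5 with h5 | h5
    · have hr' : r = 3 := by
        rcases hodd with ⟨c, hc⟩
        omega
      subst hr'
      have hv : vv 4 3 = 13 := by decide
      rw [hv] at h
      simpa only [Fin.mk.injEq] using
          N2_fin43 ⟨i, hi⟩ ⟨l, hl⟩ ⟨k, hk⟩ ⟨j, hj⟩ (fun h0 => hij (congrArg Fin.val h0)) h
    · obtain ⟨t, ht⟩ := h
      have hb := N2_t (by omega) hr hodd hi hl hk hj ht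
      have hvv : vv 4 r ≡ -51 [ZMOD 256] := by
        obtain ⟨s, rfl⟩ := Nat.exists_eq_add_of_le (by omega : 4 ≤ r)
        exact N2_vv4 s
      have ht0 := N2_use N2_chk4 (N2_res4 i) (N2_res4 l) (N2_res4 k) (N2_res4 j) hvv ht hb
      rw [ht0, mul_zero] at ht
      exact N2_zero (by omega) hij ht

theorem arith4 {q r i l k j : ℕ} (hq : 3 ≤ q) (hr : 3 ≤ r) (hodd : Odd r) (hi : i < r)
    (hl : l < r) (hk : k < r) (hj : j < r) (hij : i ≠ j)
    (h : vv q r ∣ (-(q : ℤ)) ^ i + (-(q : ℤ)) ^ l - (-(q : ℤ)) ^ k - (-(q : ℤ)) ^ j) :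
    i = k ∧ l = j := by
  rcases lt_or_ge q 5 with h5 | h5
  · exact arith4_small (by omega) hr hodd hi hl hk hj hij h
  · exact arith4_large h5 hr hodd hi hl hk hj hij h

/-! ### Row psu-N3 -/

theorem N3_bd {q r m : ℕ} (hq : 3 ≤ q) (hr : 3 ≤ r) (hodd : Odd r) (hm : m < r) :
    -((q : ℤ) ^ (r - 2)) ≤ (-(q : ℤ)) ^ m ∧
      (-(q : ℤ)) ^ m ≤ (q : ℤ) * (q : ℤ) ^ (r - 2) := by
  have hq1 : (1 : ℤ) ≤ q := by omega
  rcases Nat.even_or_odd m with he | ho
  · rw [he.neg_pow]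
    have h1 : (0 : ℤ) ≤ (q : ℤ) ^ m := by positivity
    have h2 : (0 : ℤ) ≤ (q : ℤ) ^ (r - 2) := by positivity
    refine ⟨by linarith, ?_⟩
    rw [← pow_succ']
    exact pow_le_pow_right₀ hq1 (by omega)
  · rw [ho.neg_pow]
    have hm2 : m ≤ r - 2 := by
      obtain ⟨a, ha⟩ := hodd
      obtain ⟨c, hc⟩ := ho
      omega
    have h1 : (q : ℤ) ^ m ≤ (q : ℤ) ^ (r - 2) := pow_le_pow_right₀ hq1 hm2
    have h2 : (0 : ℤ) ≤ (q : ℤ) ^ m := by positivity
    have h3 : (0 : ℤ) ≤ (q : ℤ) * (q : ℤ) ^ (r - 2) := by positivity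
    exact ⟨by linarith, by linarith⟩

/-- The bounds for `t`. -/
theorem N3_t {q r i l k : ℕ} {t : ℤ} (hq : 3 ≤ q) (hr : 3 ≤ r) (hodd : Odd r)
    (hi : i < r) (hl : l < r) (hk : k < r)
    (h : (-(q : ℤ)) ^ i + (-(q : ℤ)) ^ l - (-(q : ℤ)) ^ k = vv q r * t) :
    t * ((q : ℤ) - 1) < 2 * q + 1 ∧ -t * ((q : ℤ) - 1) < q + 2 := by
  have hv := vv_gt hq hr hodd
  obtain ⟨hi1, hi2⟩ := N3_bd hq hr hodd hi
  obtain ⟨hl1, hl2⟩ := N3_bd hq hr hodd hl
  obtain ⟨hk1, hk2⟩ := N3_bd hq hr hodd hk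
  have hq3 : (3 : ℤ) ≤ q := by exact_mod_cast hq
  have hY : (0 : ℤ) < (q : ℤ) ^ (r - 2) := by positivity
  constructor
  · by_contra hc
    rw [not_lt] at hc
    have ht : 0 < t := by
      by_contra ht
      rw [not_lt] at ht
      have := mul_nonneg (neg_nonneg.mpr ht) (by linarith : (0 : ℤ) ≤ (q : ℤ) - 1)
      linarith
    have h1 := mul_lt_mul_of_pos_right hv ht
    have h2 := mul_le_mul_of_nonneg_right hc hY.le
    linarith
  · by_contra hc
    rw [not_lt] at hc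
    have ht : 0 < -t := by
      by_contra ht
      rw [not_lt] at ht
      have := mul_nonneg (by linarith : (0 : ℤ) ≤ t) (by linarith : (0 : ℤ) ≤ (q : ℤ) - 1)
      linarith
    have h1 := mul_lt_mul_of_pos_right hv ht
    have h2 := mul_le_mul_of_nonneg_right hc hY.le
    linarith

/-- The polynomial. -/
theorem N3_poly {q r i l k : ℕ} {t : ℤ} (hr : 3 ≤ r)
    (h : (-(q : ℤ)) ^ i + (-(q : ℤ)) ^ l - (-(q : ℤ)) ^ k = vv q r * t)
    (ht1 : -1 ≤ t) (ht2 : t ≤ 2) (hq : 4 ≤ q ∨ (3 ≤ q ∧ t = 0)) : False := by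
  set P : Polynomial ℤ := Polynomial.X ^ i + Polynomial.X ^ l - Polynomial.X ^ k -
    Polynomial.C t * ∑ m ∈ Finset.range r, Polynomial.X ^ m with hPdef
  have hev : P.eval (-(q : ℤ)) = 0 := by
    rw [hPdef]
    simp only [Polynomial.eval_sub, Polynomial.eval_add, Polynomial.eval_pow, Polynomial.eval_X,
      Polynomial.eval_mul, Polynomial.eval_C, Polynomial.eval_finsetSum]
    unfold vv at h
    rw [h]
    ring
  have hco : ∀ m, |P.coeff m| < |(-(q : ℤ))| := by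
    intro m
    have hq0 : |(-(q : ℤ))| = q := by
      rw [abs_neg, abs_of_nonneg (by positivity)]
    rw [hq0, hPdef]
    simp only [Polynomial.coeff_sub, Polynomial.coeff_add, Polynomial.coeff_X_pow,
      Polynomial.coeff_C_mul, Polynomial.finsetSum_coeff]
    rw [Finset.sum_ite_eq]
    rw [abs_lt]
    constructor
    · split_ifs <;> omega
    · split_ifs <;> omega
  have hP := poly_eq_zero hco hev
  have h1 : P.eval 1 = 0 := by
    rw [hP, Polynomial.eval_zero]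
  rw [hPdef] at h1
  simp only [Polynomial.eval_sub, Polynomial.eval_add, Polynomial.eval_pow, Polynomial.eval_X,
    Polynomial.eval_mul, Polynomial.eval_C, Polynomial.eval_finsetSum, one_pow,
    Finset.sum_const, Finset.card_range, nsmul_eq_mul, mul_one] at h1
  have h2 : (r : ℤ) ∣ 1 := ⟨t, by linarith⟩
  have h3 := Int.le_of_dvd one_pos h2
  omega

/-- The powers of `-3` modulo `3 ^ 5`. -/
theorem N3_mod (m : ℕ) : ∃ a ∈ [1, -3, 9, -27, 81, (0 : ℤ)], ∃ c : ℤ,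
    (-3 : ℤ) ^ m = a + 243 * c := by
  rcases lt_or_ge m 5 with h | h
  · interval_cases m
    · exact ⟨1, by simp, 0, by norm_num⟩
    · exact ⟨-3, by simp, 0, by norm_num⟩
    · exact ⟨9, by simp, 0, by norm_num⟩
    · exact ⟨-27, by simp, 0, by norm_num⟩
    · exact ⟨81, by simp, 0, by norm_num⟩
  · obtain ⟨n, rfl⟩ := Nat.exists_eq_add_of_le h
    refine ⟨0, by simp, -(-3) ^ n, ?_⟩
    rw [pow_add]
    ring

theorem N3_vv {r : ℕ} (hr : 5 ≤ r) : ∃ c : ℤ, vv 3 r = 61 + 243 * c := by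
  induction r, hr using Nat.le_induction with
  | base => exact ⟨0, by simp [vv, Finset.sum_range_succ]⟩
  | succ r hr ih =>
    obtain ⟨c, hc⟩ := ih
    obtain ⟨n, rfl⟩ := Nat.exists_eq_add_of_le hr
    refine ⟨c - (-3) ^ n, ?_⟩
    unfold vv at hc ⊢
    rw [Finset.sum_range_succ, hc, pow_add]
    push_cast
    ring

theorem N3_check : ∀ a ∈ [1, -3, 9, -27, 81, (0 : ℤ)], ∀ b ∈ [1, -3, 9, -27, 81, (0 : ℤ)],
    ∀ c ∈ [1, -3, 9, -27, 81, (0 : ℤ)], ∀ t ∈ [-3, -2, -1, 1, 2, (3 : ℤ)],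
      (a + b - c - 61 * t) % 243 ≠ 0 := by
  decide +kernel

/-- As in `arith4_large`: `D = b ^ i + b ^ l - b ^ k = t * vv q r`, `|D| ≤ 2 q ^ (r - 1) + q ^ (r - 2)`, so
`|t| (q - 1) < 2 q + 1`: `|t| ≤ 2` for `q ≥ 4`, `|t| ≤ 3` for `q = 3`. For `q ≥ 5` the polynomial
`X ^ i + X ^ l - X ^ k - t (1 + X + ... + X ^ (r - 1))` has coefficients of absolute value `≤ 4 < q`, so it is `0`, but its value at
`1` is `1 - r t ≠ 0`. The same proof works for `t = 0` and `q = 3, 4` (coefficients of absolute value `≤ 2`, value `1` at `1`).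
For `q = 3`, `r ≥ 5` and `t ≠ 0`: a finite check modulo `q ^ 5` (verified: no solution with `0 < |t| ≤ 3`), for `q = 4`,
`r ≥ 5`, `t ≠ 0` modulo `q ^ 4` (no solution with `0 < |t| ≤ 2`); `q = 4`, `r = 3`: `vv = 13`, finite check. -/
theorem arith3 {q r i l k : ℕ} (hq : 3 ≤ q) (hr : 3 ≤ r) (hodd : Odd r) (hqr : 4 ≤ q ∨ 5 ≤ r)
    (hi : i < r) (hl : l < r) (hk : k < r) :
    ¬ vv q r ∣ (-(q : ℤ)) ^ i + (-(q : ℤ)) ^ l - (-(q : ℤ)) ^ k := by
  rintro ⟨t, h⟩
  obtain ⟨h1, h2⟩ := N3_t hq hr hodd hi hl hk h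
  rcases lt_or_ge q 4 with h4 | h4
  · have hq3 : q = 3 := by omega
    subst hq3
    have hr5 : 5 ≤ r := by omega
    by_cases ht : t = 0
    · exact N3_poly hr h (by omega) (by omega) (Or.inr ⟨le_refl _, ht⟩)
    · push_cast at h h1 h2
      obtain ⟨a, ha, a', ha'⟩ := N3_mod i
      obtain ⟨b, hb, b', hb'⟩ := N3_mod l
      obtain ⟨c, hc, c', hc'⟩ := N3_mod k
      obtain ⟨v, hv⟩ := N3_vv hr5
      rw [ha', hb', hc', hv] at h
      have htm : t ∈ [-3, -2, -1, 1, 2, (3 : ℤ)] := by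
        simp only [List.mem_cons, List.not_mem_nil, or_false]
        omega
      refine N3_check a ha b hb c hc t htm ?_
      apply Int.emod_eq_zero_of_dvd
      refine ⟨c' - a' - b' + v * t, ?_⟩
      linarith
  · have hq4 : (4 : ℤ) ≤ q := by exact_mod_cast h4
    refine N3_poly hr h ?_ ?_ (Or.inl h4)
    · by_contra hc
      have hc' : 2 ≤ -t := by omega
      have := mul_le_mul_of_nonneg_right hc' (by linarith : (0 : ℤ) ≤ (q : ℤ) - 1)
      linarith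
    · by_contra hc
      have hc' : 3 ≤ t := by omega
      have := mul_le_mul_of_nonneg_right hc' (by linarith : (0 : ℤ) ≤ (q : ℤ) - 1)
      linarith

end Pool.Agent.Lib.MP_8f3271_al.PSU
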