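import Mathlib
import Pool.Agent.Lib.MP_8f3271_al.P.Base
import Pool.Agent.Lib.MP_8f3271_al.P.N

/-!
# Extensions of odd degree of the field with `q ^ 2` elements
-/

set_option autoImplicit false

open Pool.Agent.GPerm59 Pointwise Module

namespace Pool.Agent.Lib.MP_8f3271_al.PSU

/-- `τ` is the automorphism `x ↦ x ^ (q ^ [K : F])`, an involution which extends `star`. -/
structure IsTau (F : Type*) {K : Type*} [Field F] [StarRing F] [Field K] [Algebra F K] (q : ℕ)
    (τ : K ≃+* K) : Prop where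
  pow : ∀ x, τ x = x ^ q ^ finrank F K
  invol : ∀ x, τ (τ x) = x
  alg : ∀ a : F, τ (algebraMap F K a) = algebraMap F K (star a)

variable {F K : Type*} [Field F] [Finite F] [StarRing F] {q : ℕ} [Field K] [Algebra F K]
  [FiniteDimensional F K]

/-! ### Row psu-K1 -/

/-- the powers of the Frobenius automorphism of `K` -/
theorem K1_frob (hF : IsUF F q) (m : ℕ) : ∃ κ : K ≃+* K, ∀ x, κ x = x ^ q ^ m := by
  obtain ⟨p, hp⟩ := CharP.exists F
  have : Fintype F := Fintype.ofFinite F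
  obtain ⟨n, hp1, hn⟩ := FiniteField.card F p
  have hfp : Fact p.Prime := ⟨hp1⟩
  have hc : Fintype.card F = q ^ 2 := by
    rw [← Nat.card_eq_fintype_card]
    exact hF.card
  obtain ⟨f, -, hf⟩ : ∃ f ≤ (n : ℕ), q = p ^ f := by
    rw [← Nat.dvd_prime_pow hp1, ← hn, hc]
    exact ⟨q, sq q⟩
  have : Finite K := Module.finite_of_finite F
  have : CharP K p := charP_of_injective_algebraMap (algebraMap F K).injective p
  have : ExpChar K p := ExpChar.prime hp1
  refine ⟨iterateFrobeniusEquiv K p (f * m), fun x => ?_⟩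
  rw [iterateFrobeniusEquiv_def, pow_mul, ← hf]

theorem K1_powF (hF : IsUF F q) (a : F) : a ^ q ^ 2 = a := by
  have : Fintype F := Fintype.ofFinite F
  have h := FiniteField.pow_card a
  rw [← Nat.card_eq_fintype_card, hF.card] at h
  exact h

theorem K1_powF2 (hF : IsUF F q) (a : F) (s : ℕ) : a ^ q ^ (2 * s) = a := by
  induction s with
  | zero => simp
  | succ s ih =>
    have e : q ^ (2 * (s + 1)) = q ^ (2 * s) * q ^ 2 := by ring
    rw [e, pow_mul, ih, K1_powF hF]

/-- `q = p ^ f`, `τ` is the power `f * [K : F]` of the Frobenius automorphism (`frobeniusEquiv`, `iterateFrobeniusEquiv`);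
`|K| = q ^ (2 r)`, so `τ ^ 2 = 1`; on `F` one has `x ^ (q ^ 2) = x`, so `x ^ (q ^ r) = x ^ q = star x` for odd `r`. -/
theorem exists_tau (hF : IsUF F q) (hodd : Odd (finrank F K)) :
    ∃ τ : K ≃+* K, IsTau F q τ := by
  obtain ⟨τ, hτ⟩ := K1_frob (K := K) hF (finrank F K)
  refine ⟨τ, ⟨hτ, ?_, ?_⟩⟩
  · intro x
    have : Finite K := Module.finite_of_finite F
    have : Fintype K := Fintype.ofFinite K
    have h := FiniteField.pow_card x
    rw [← Nat.card_eq_fintype_card, Module.natCard_eq_pow_finrank (K := F), hF.card] at h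
    rw [hτ, hτ, ← pow_mul]
    have e : q ^ finrank F K * q ^ finrank F K = (q ^ 2) ^ finrank F K := by
      rw [← mul_pow, ← sq]
    rw [e]
    exact h
  · intro a
    rw [hτ, ← map_pow, hF.star_eq]
    congr 1
    obtain ⟨s, hs⟩ := hodd
    have e : q ^ (2 * s + 1) = q ^ (2 * s) * q := by ring
    rw [hs, e, pow_mul, K1_powF2 hF]

/-- `Algebra.trace_eq_of_equiv_equiv` with `starRingAut` and `τ`. -/
theorem trace_ext (τ : K ≃+* K) (hτ : ∀ a : F, τ (algebraMap F K a) = algebraMap F K (star a))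
    (x : K) : Algebra.trace F K (τ x) = star (Algebra.trace F K x) := by
  have h := Algebra.trace_eq_of_equiv_equiv (A₁ := F) (A₂ := F) (starRingAut : RingAut F) τ
    (by
      ext a
      exact (hτ a).symm) x
  have h2 := congrArg (starRingAut : RingAut F) h
  rw [RingEquiv.apply_symm_apply] at h2
  exact h2.symm

/-- `Algebra.norm_eq_of_equiv_equiv` -/
theorem norm_ext (τ : K ≃+* K) (hτ : ∀ a : F, τ (algebraMap F K a) = algebraMap F K (star a))
    (x : K) : Algebra.norm F (τ x) = star (Algebra.norm F x) := by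
  have h := Algebra.norm_eq_of_equiv_equiv (A₁ := F) (A₂ := F) (starRingAut : RingAut F) τ
    (by
      ext a
      exact (hτ a).symm) x
  have h2 := congrArg (starRingAut : RingAut F) h
  rw [RingEquiv.apply_symm_apply] at h2
  exact h2.symm

/-- `L / F` of any degree: `star` extends to an automorphism `κ` of `L` (for example `x ↦ x ^ q`). -/
theorem exists_kappa (hF : IsUF F q) :
    ∃ κ : K ≃+* K, (∀ x, κ x = x ^ q) ∧ ∀ a : F, κ (algebraMap F K a) = algebraMap F K (star a) := by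
  obtain ⟨κ, hκ⟩ := K1_frob (K := K) hF 1
  simp only [pow_one] at hκ
  refine ⟨κ, hκ, fun a => ?_⟩
  rw [hκ, ← map_pow, hF.star_eq]

/-! ### Row psu-K2 -/

omit [StarRing F] in
private theorem K2_nondeg {x : K} (hx : ∀ z : K, Algebra.trace F K (x * z) = 0) : x = 0 := by
  by_contra h0
  obtain ⟨y, hy⟩ : ∃ y : K, Algebra.trace F K y ≠ 0 := by
    by_contra h1
    push Not at h1
    have h2 : Algebra.trace F K = 0 := LinearMap.ext h1
    exact Algebra.trace_ne_zero F K h2
  refine hy ?_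
  have h1 := hx (x⁻¹ * y)
  rwa [mul_inv_cancel_left₀ h0] at h1

/-- The form `Tr (x * τ y)`: hermitian by `trace_ext`, nondegenerate by `traceForm_nondegenerate`. -/
theorem exists_formK {τ : K ≃+* K} (hτ : IsTau F q τ) :
    ∃ h : Herm F K, ∀ x y, h.f x y = Algebra.trace F K (x * τ y) := by
  refine ⟨⟨fun x y => Algebra.trace F K (x * τ y), fun x y z => ?_, fun c x y => ?_, fun x y => ?_,
    fun x hx => ?_⟩, fun x y => rfl⟩
  · rw [add_mul, map_add]
  · rw [smul_mul_assoc, map_smul, smul_eq_mul]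
  · rw [← trace_ext τ hτ.alg, map_mul τ, hτ.invol, mul_comm]
  · refine K2_nondeg (F := F) fun z => ?_
    have h1 := hx (τ z)
    rwa [hτ.invol] at h1

/-- The form `Tr (x * κ y') + star (Tr (x' * κ y))` on `L × L`. -/
theorem exists_formL (κ : K ≃+* K) (hκ : ∀ a : F, κ (algebraMap F K a) = algebraMap F K (star a)) :
    ∃ h : Herm F (K × K), ∀ x y, h.f x y =
      Algebra.trace F K (x.1 * κ y.2) + star (Algebra.trace F K (y.1 * κ x.2)) := by
  refine ⟨⟨fun x y => Algebra.trace F K (x.1 * κ y.2) + star (Algebra.trace F K (y.1 * κ x.2)),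
    fun x y z => ?_, fun c x y => ?_, fun x y => ?_, fun x hx => ?_⟩, fun x y => rfl⟩
  · simp only [Prod.fst_add, Prod.snd_add, map_add, add_mul, mul_add, star_add]
    ring
  · have h1 : y.1 * κ (c • x).2 = star c • (y.1 * κ x.2) := by
      rw [Prod.smul_snd, Algebra.smul_def, map_mul, hκ, Algebra.smul_def]
      ring
    have h2 : (c • x).1 * κ y.2 = c • (x.1 * κ y.2) := by
      rw [Prod.smul_fst, smul_mul_assoc]
    rw [h1, h2, map_smul, map_smul, smul_eq_mul, smul_eq_mul, star_mul', star_star]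
    ring
  · rw [star_add, star_star, add_comm]
  · have h1 : x.1 = 0 := by
      refine K2_nondeg (F := F) fun z => ?_
      have h2 := hx (0, κ.symm z)
      simpa using h2
    have h3 : κ x.2 = 0 := by
      refine K2_nondeg (F := F) fun z => ?_
      have h2 := hx (z, 0)
      simp only [map_zero, mul_zero, zero_add] at h2
      have h4 := congrArg star h2
      rwa [star_star, star_zero, mul_comm] at h4
    exact Prod.ext h1 (by simpa using h3)

/-! ### Row psu-K3 -/

/-- Write `r = [K : F]`. Every `σ` is `x ↦ x ^ (q ^ (2 s))`, `s < r`. On the elements with `c ^ (q ^ r) = τ c = c⁻¹`: if `2 s < r` take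
`i = 2 s`; if `2 s > r` then `c ^ (q ^ (2 s)) = (c⁻¹) ^ (q ^ i)`, `i = 2 s - r` odd. -/
theorem exists_index (hF : IsUF F q) (hodd : Odd (finrank F K)) {τ : K ≃+* K} (hτ : IsTau F q τ)
    (σ : K ≃ₐ[F] K) :
    ∃ i : ℕ, i < finrank F K ∧ ∀ c : K, c * τ c = 1 → σ c = c ^ ((-(q : ℤ)) ^ i) := by
  classical
  have : Finite K := Module.finite_of_finite F
  let _ : Fintype F := Fintype.ofFinite F
  obtain ⟨⟨s, hs⟩, hσ⟩ := (FiniteField.bijective_frobeniusAlgEquivOfAlgebraic_pow F K).2 σ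
  have hσ2 : ∀ c : K, σ c = c ^ q ^ (2 * s) := by
    intro c
    rw [← hσ]
    show (FiniteField.frobeniusAlgEquivOfAlgebraic F K ^ s) c = _
    rw [AlgEquiv.coe_pow, FiniteField.coe_frobeniusAlgEquivOfAlgebraic_iterate]
    show c ^ (Fintype.card F ^ s) = _
    rw [← Nat.card_eq_fintype_card, hF.card, ← pow_mul]
  by_cases h : 2 * s < finrank F K
  · refine ⟨2 * s, h, fun c _ => ?_⟩
    rw [hσ2, Even.neg_pow (even_two_mul s), ← Nat.cast_pow, zpow_natCast]
  · have hne : 2 * s ≠ finrank F K := by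
      intro h1
      rw [← h1] at hodd
      exact Nat.not_even_iff_odd.2 hodd (even_two_mul s)
    obtain ⟨i, hi⟩ : ∃ i, 2 * s = finrank F K + i := Nat.exists_eq_add_of_le (by omega)
    have hio : Odd i := by
      rcases Nat.even_or_odd i with h1 | h1
      · exfalso
        have h2 := hodd.add_even h1
        rw [← hi] at h2
        exact Nat.not_even_iff_odd.2 h2 (even_two_mul s)
      · exact h1
    refine ⟨i, by omega, fun c hc => ?_⟩
    have h3 : c ^ q ^ finrank F K = c⁻¹ := by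
      rw [← hτ.pow c]
      exact eq_inv_of_mul_eq_one_right hc
    rw [hσ2, hi, pow_add, pow_mul, h3, hio.neg_pow, zpow_neg, ← Nat.cast_pow, zpow_natCast,
      inv_pow]

/-- `θ` a generator of `Kˣ`, of order `q ^ (2 r) - 1 = (q ^ r - 1) (q + 1) * vv q r` (`vv_mul`); `c = θ ^ ((q ^ r - 1) (q + 1))`:
`c * τ c = c ^ (q ^ r + 1) = 1`, `norm c = (norm θ) ^ ((q ^ r - 1) (q + 1)) = 1` because `(norm θ) ^ (q ^ 2 - 1) = 1`
and `q ^ 2 - 1 ∣ (q ^ r - 1) (q + 1)`. -/
theorem exists_genC (hF : IsUF F q) (hodd : Odd (finrank F K)) {τ : K ≃+* K} (hτ : IsTau F q τ) :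
    ∃ c : K, c * τ c = 1 ∧ Algebra.norm F c = 1 ∧ (orderOf c : ℤ) = vv q (finrank F K) := by
  classical
  have : Finite K := Module.finite_of_finite F
  have hq := hF.three_le
  set r := finrank F K with hr
  have hr0 : 0 < r := hodd.pos
  obtain ⟨θ, hθ⟩ := IsCyclic.exists_generator (α := Kˣ)
  have hcardK : Nat.card K = q ^ (2 * r) := by
    rw [Module.natCard_eq_pow_finrank (K := F) (V := K), hF.card, ← pow_mul, hr]
  have hord : orderOf θ = q ^ (2 * r) - 1 := by
    rw [orderOf_eq_card_of_forall_mem_zpowers hθ, Nat.card_units, hcardK]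
  have hqr : 1 < q ^ r := Nat.one_lt_pow hr0.ne' (by omega)
  -- the factorisation of the order
  obtain ⟨v, hv⟩ : ∃ v : ℕ, q ^ r + 1 = (q + 1) * v := by
    have h1 : (q + 1) ∣ q ^ r + 1 ^ r := hodd.nat_add_dvd_pow_add_pow q 1
    rwa [one_pow] at h1
  have hvv : vv q r = v := by
    have h1 := vv_mul (q := q) hodd
    have h2 : (q : ℤ) ^ r + 1 = (q + 1) * v := by exact_mod_cast hv
    rw [h2] at h1
    have h3 : ((q : ℤ) + 1) ≠ 0 := by positivity
    have h4 : ((q : ℤ) + 1) * vv q r = (q + 1) * v := by rw [← h1]; ring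
    exact mul_left_cancel₀ h3 h4
  have hv0 : 0 < v := by
    rcases Nat.eq_zero_or_pos v with h | h
    · rw [h, mul_zero] at hv
      omega
    · exact h
  set n := (q ^ r - 1) * (q + 1) with hn
  have hn0 : n ≠ 0 := Nat.mul_ne_zero (by omega) (by omega)
  have hN : q ^ (2 * r) - 1 = n * v := by
    have h1 : q ^ (2 * r) - 1 = (q ^ r + 1) * (q ^ r - 1) := by
      have h2 := Nat.sq_sub_sq (q ^ r) 1
      rw [one_pow, ← pow_mul, mul_comm r 2] at h2
      exact h2
    rw [h1, hv, hn]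
    ring
  have hordc : orderOf (((θ ^ n : Kˣ)) : K) = v := by
    rw [orderOf_units, orderOf_pow_of_dvd hn0 (by rw [hord, hN]; exact Dvd.intro _ rfl), hord, hN]
    exact Nat.mul_div_cancel_left v (Nat.pos_of_ne_zero hn0)
  refine ⟨((θ ^ n : Kˣ) : K), ?_, ?_, by rw [hordc, hvv]⟩
  · rw [hτ.pow, ← pow_succ', ← hr, hv, mul_comm (q + 1) v, pow_mul, ← hordc, pow_orderOf_eq_one,
      one_pow]
  · rw [Units.val_pow_eq_pow_val, map_pow]
    have h1 : Algebra.norm F (θ : K) ≠ 0 := Algebra.norm_ne_zero_iff.2 θ.ne_zero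
    have h2 : Algebra.norm F (θ : K) ^ (q ^ 2 - 1) = 1 := by
      let _ : Fintype F := Fintype.ofFinite F
      have h3 := FiniteField.pow_card_sub_one_eq_one (Algebra.norm F (θ : K)) h1
      rwa [← Nat.card_eq_fintype_card, hF.card] at h3
    have h4 : q ^ 2 - 1 ∣ n := by
      have h5 : q ^ 2 - 1 = (q - 1) * (q + 1) := by
        have h6 := Nat.sq_sub_sq q 1
        rw [one_pow] at h6
        rw [h6, mul_comm]
      rw [h5, hn]
      refine Nat.mul_dvd_mul ?_ dvd_rfl
      have h7 := Nat.sub_one_dvd_pow_sub_one q r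
      exact h7
    obtain ⟨w, hw⟩ := h4
    rw [hw, pow_mul, h2, one_pow]

/-! ### Row psu-K4 -/

theorem K4_arith {q r s j w : ℕ} (hq : 3 ≤ q) (hr : 3 ≤ r) (hodd : Odd r) (hs : 1 ≤ s)
    (hs3 : 3 * s ≤ r) (hw : w * (q + 1) = q ^ r + 1) (hj : 0 < j) (hj2 : j ≤ r + 1)
    (hd : w ∣ j * (q ^ s + 1)) : False := by
  have hle : w ≤ j * (q ^ s + 1) := Nat.le_of_dvd (by positivity) hd
  by_cases h5 : 5 ≤ r
  · obtain ⟨n, hn⟩ : ∃ n, r = s + 1 + n := ⟨r - s - 1, by omega⟩
    have hn3 : 3 ≤ n := by omega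
    have hpow : 24 * n + 41 ≤ 9 * 3 ^ n := by
      clear hn
      induction n, hn3 using Nat.le_induction with
      | base => norm_num
      | succ n hn ih => rw [pow_succ]; omega
    have h1 : 3 * (q ^ s + 1) ≤ 4 * q ^ s := by
      have : 3 ≤ q ^ s := hq.trans (Nat.le_self_pow (by omega) q)
      omega
    have h2 : 3 * (q + 1) ≤ 4 * q := by omega
    have h3 : 9 * ((q ^ s + 1) * (q + 1)) ≤ 16 * q ^ (s + 1) := by
      calc 9 * ((q ^ s + 1) * (q + 1)) = (3 * (q ^ s + 1)) * (3 * (q + 1)) := by ring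
        _ ≤ (4 * q ^ s) * (4 * q) := Nat.mul_le_mul h1 h2
        _ = 16 * q ^ (s + 1) := by ring
    have h4 : q ^ r = q ^ (s + 1) * q ^ n := by rw [hn, pow_add]
    have h5' : (3 : ℕ) ^ n ≤ q ^ n := Nat.pow_le_pow_left hq n
    have h6 : q ^ r + 1 ≤ (r + 1) * ((q ^ s + 1) * (q + 1)) := by
      rw [← hw]
      calc w * (q + 1) ≤ (j * (q ^ s + 1)) * (q + 1) := Nat.mul_le_mul_right _ hle
        _ ≤ ((r + 1) * (q ^ s + 1)) * (q + 1) := by gcongr
        _ = (r + 1) * ((q ^ s + 1) * (q + 1)) := by ring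
    have h7 : 9 * q ^ r + 9 ≤ 16 * (r + 1) * q ^ (s + 1) := by
      calc 9 * q ^ r + 9 = 9 * (q ^ r + 1) := by ring
        _ ≤ 9 * ((r + 1) * ((q ^ s + 1) * (q + 1))) := Nat.mul_le_mul_left _ h6
        _ = (r + 1) * (9 * ((q ^ s + 1) * (q + 1))) := by ring
        _ ≤ (r + 1) * (16 * q ^ (s + 1)) := Nat.mul_le_mul_left _ h3
        _ = 16 * (r + 1) * q ^ (s + 1) := by ring
    have h8 : 16 * (r + 1) * q ^ (s + 1) ≤ (9 * 3 ^ n) * q ^ (s + 1) := by
      apply Nat.mul_le_mul_right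
      omega
    have h9 : (9 * 3 ^ n) * q ^ (s + 1) ≤ 9 * q ^ r := by
      rw [h4]
      calc (9 * 3 ^ n) * q ^ (s + 1) ≤ (9 * q ^ n) * q ^ (s + 1) := by gcongr
        _ = 9 * (q ^ (s + 1) * q ^ n) := by ring
    omega
  · have hr3 : r = 3 := by
      obtain ⟨k, hk⟩ := hodd
      omega
    subst hr3
    have hs1 : s = 1 := by omega
    subst hs1
    simp only [pow_one] at hle hd
    have hw2 : w + q = q ^ 2 + 1 := by
      have h1 : (w + q) * (q + 1) = (q ^ 2 + 1) * (q + 1) := by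
        have : (w + q) * (q + 1) = w * (q + 1) + q * (q + 1) := by ring
        rw [this, hw]; ring
      exact Nat.eq_of_mul_eq_mul_right (by omega) h1
    have hq5 : q ≤ 5 := by
      by_contra hcon
      have : w ≤ 4 * (q + 1) := hle.trans (Nat.mul_le_mul_right _ hj2)
      nlinarith
    have hj4 : j ≤ 4 := hj2
    have h345 : q = 3 ∨ q = 4 ∨ q = 5 := by omega
    rcases h345 with rfl | rfl | rfl
    · have : w = 7 := by omega
      subst this
      interval_cases j <;> revert hd <;> decide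
    · have : w = 13 := by omega
      subst this
      interval_cases j <;> revert hd <;> decide
    · have : w = 21 := by omega
      subst this
      interval_cases j <;> revert hd <;> decide

/-- Let `c` be the generator of `exists_genC`, `w` its order, `w * (q + 1) = q ^ r + 1`. Suppose `0 < j ≤ r + 1` and
`F(c ^ j) = M ≠ K`, `[M : F] = s`, `s ∣ r`, so `3 s ≤ r` (`r` odd). `b = c ^ j ∈ M`, so `b ^ (q ^ (2 s)) = b`, and `r = s + 2 s u`, so
`b⁻¹ = τ b = b ^ (q ^ r) = b ^ (q ^ s)`, `b ^ (q ^ s + 1) = 1`. Hence `w ∣ j (q ^ s + 1)`,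
`q ^ r + 1 ∣ j (q ^ s + 1) (q + 1)` and `q ^ r + 1 ≤ (r + 1) (q ^ s + 1) (q + 1)`. For `r ≥ 5` this is false (`q ≥ 3`, `3 s ≤ r`).
For `r = 3`, `s = 1`: `q ^ 2 - q + 1 ≤ 4 (q + 1)` gives `q ≤ 5`, and `7 ∣ 4 j`, `13 ∣ 5 j`, `21 ∣ 6 j` are impossible for
`1 ≤ j ≤ 4`. -/
theorem exists_genT (hF : IsUF F q) (hr : 3 ≤ finrank F K) (hodd : Odd (finrank F K))
    {τ : K ≃+* K} (hτ : IsTau F q τ) :
    ∃ c : K, c * τ c = 1 ∧ Algebra.norm F c = 1 ∧
      ∀ j : ℕ, 0 < j → j ≤ finrank F K + 1 → Algebra.adjoin F {c ^ j} = ⊤ := by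
  classical
  obtain ⟨c, hc1, hc2, hc3⟩ := exists_genC hF hodd hτ
  refine ⟨c, hc1, hc2, ?_⟩
  intro j hj hj2
  set r := finrank F K with hrdef
  have hw : orderOf c * (q + 1) = q ^ r + 1 := by
    have h1 := vv_mul (q := q) hodd
    rw [← hc3] at h1
    exact_mod_cast h1
  set b : K := c ^ j with hb
  have hfin : Finite K := Module.finite_of_finite F
  have hfinM : Finite (IntermediateField.adjoin F {b}) :=
    Finite.of_injective (fun x : IntermediateField.adjoin F {b} => (x : K)) Subtype.coe_injective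
  have hbM : b ∈ IntermediateField.adjoin F {b} := IntermediateField.mem_adjoin_simple_self F b
  set s := finrank F (IntermediateField.adjoin F {b}) with hsdef
  have hmul : s * finrank (IntermediateField.adjoin F {b}) K = r :=
    Module.finrank_mul_finrank F (IntermediateField.adjoin F {b}) K
  have hrpos : 0 < r := by omega
  have hspos : 0 < s := by
    rcases Nat.eq_zero_or_pos s with h | h
    · rw [h, zero_mul] at hmul; omega
    · exact h
  set t := finrank (IntermediateField.adjoin F {b}) K with htdef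
  by_cases ht1 : t = 1
  · have htop : IntermediateField.adjoin F {b} = ⊤ := by
      apply IntermediateField.eq_of_le_of_finrank_eq le_top
      rw [IntermediateField.finrank_top']
      show s = r
      rw [ht1, mul_one] at hmul
      exact hmul
    have halg : IsAlgebraic F b := Algebra.IsAlgebraic.isAlgebraic b
    rw [← IntermediateField.adjoin_simple_toSubalgebra_of_isAlgebraic halg, htop,
      IntermediateField.top_toSubalgebra]
  · exfalso
    have htodd : Odd t := by
      have : Odd (s * t) := by rw [hmul]; exact hodd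
      exact (Nat.odd_mul.1 this).2
    have ht3 : 3 ≤ t := by
      obtain ⟨k, hk⟩ := htodd
      omega
    have hs3 : 3 * s ≤ r := by
      rw [← hmul, mul_comm 3 s]
      exact Nat.mul_le_mul_left _ ht3
    -- elements of the intermediate field
    have hcard : Nat.card (IntermediateField.adjoin F {b}) = q ^ (2 * s) := by
      rw [Module.natCard_eq_pow_finrank (K := F), hF.card, ← pow_mul]
    have hfix : b ^ (q ^ (2 * s)) = b := by
      have := Fintype.ofFinite (IntermediateField.adjoin F {b})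
      have h1 := FiniteField.pow_card (⟨b, hbM⟩ : IntermediateField.adjoin F {b})
      rw [← Nat.card_eq_fintype_card, hcard] at h1
      have h2 := congrArg (fun x : IntermediateField.adjoin F {b} => (x : K)) h1
      simpa using h2
    have hfixu : ∀ u : ℕ, b ^ (q ^ (2 * s * u)) = b := by
      intro u
      induction u with
      | zero => simp
      | succ u ih => rw [mul_add, mul_one, pow_add, pow_mul, ih, hfix]
    obtain ⟨u, hu⟩ := htodd
    have hτb : τ b = b ^ (q ^ s) := by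
      rw [hτ.pow, ← hrdef, ← hmul, hu]
      have : q ^ (s * (2 * u + 1)) = q ^ (2 * s * u) * q ^ s := by rw [← pow_add]; ring
      rw [this, pow_mul, hfixu]
    have hb1 : b * τ b = 1 := by
      rw [hb, map_pow, ← mul_pow, hc1, one_pow]
    have hb2 : c ^ (j * (q ^ s + 1)) = 1 := by
      rw [pow_mul, ← hb, pow_succ, mul_comm, ← hτb, hb1]
    exact K4_arith hF.three_le hr hodd hspos hs3 hw hj hj2 (orderOf_dvd_of_pow_eq_one hb2)

/-! ### Row psu-K5 -/

theorem K5_ord {c : K} (hc : c ≠ 0) {v m : ℤ} (hv : (orderOf c : ℤ) = v) (h : c ^ m = 1) : v ∣ m := by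
  have h1 : (Units.mk0 c hc) ^ m = 1 := by
    apply Units.ext
    rw [Units.val_zpow_eq_zpow_val, Units.val_mk0, Units.val_one]
    exact h
  have h2 := orderOf_dvd_iff_zpow_eq_one.2 h1
  rw [← orderOf_units, Units.val_mk0, hv] at h2
  exact h2

theorem K5_ext {c : K} (hc : Algebra.adjoin F {c} = ⊤) {σ ρ : K ≃ₐ[F] K} (h : σ c = ρ c) : σ = ρ := by
  have h1 : (σ : K →ₐ[F] K) = (ρ : K →ₐ[F] K) := by
    refine AlgHom.ext_of_adjoin_eq_top hc ?_
    intro x hx
    rw [Set.mem_singleton_iff] at hx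
    rw [hx]
    exact h
  ext x
  exact DFunLike.congr_fun h1 x

/-- automorphisms with the same index are equal -/
theorem K5_idx (hF : IsUF F q) (hr : 3 ≤ finrank F K) (hodd : Odd (finrank F K))
    {τ : K ≃+* K} (hτ : IsTau F q τ) {σ ρ : K ≃ₐ[F] K} {i j : ℕ} (hij : i = j)
    (hi : ∀ c : K, c * τ c = 1 → σ c = c ^ ((-(q : ℤ)) ^ i))
    (hj : ∀ c : K, c * τ c = 1 → ρ c = c ^ ((-(q : ℤ)) ^ j)) : σ = ρ := by
  obtain ⟨c, h1, _, h3⟩ := exists_genT hF hr hodd hτ
  have h4 := h3 1 one_pos (by omega)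
  rw [pow_one] at h4
  refine K5_ext h4 ?_
  rw [hi c h1, hj c h1, hij]

/-- the powers of `-q` with exponents less than `r` are different modulo `vv q r` -/
theorem K5_inj {r i j : ℕ} (hq : 3 ≤ q) (hr : 3 ≤ r) (hodd : Odd r) (hi : i < r) (hj : j < r)
    (h : vv q r ∣ (-(q : ℤ)) ^ i - (-(q : ℤ)) ^ j) : i = j := by
  by_contra hij
  have h0 : 0 < r := by omega
  have h1 := arith4 (k := 0) (l := 0) hq hr hodd hi h0 h0 hj hij (by
    have e : (-(q : ℤ)) ^ i + (-(q : ℤ)) ^ 0 - (-(q : ℤ)) ^ 0 - (-(q : ℤ)) ^ j =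
      (-(q : ℤ)) ^ i - (-(q : ℤ)) ^ j := by ring
    rw [e]
    exact h)
  exact hij (h1.1.trans h1.2)

/-- `i, j, k, l` the indices of `σ, ρ, σ', ρ'` (`exists_index`); with the `c` of `exists_genC`:
`vv q r ∣ b ^ i + b ^ l - b ^ k - b ^ j`, `b = -q`. If `i = j` then `σ` and `ρ` agree on `c`, and `F(c) = K` (`exists_genT`, or:
`c` of order `vv q r > q ^ s + 1`), so `σ = ρ`. So `i ≠ j` and `arith4` gives `i = k`, `l = j`. -/
theorem char_distinctC (hF : IsUF F q) (hr : 3 ≤ finrank F K) (hodd : Odd (finrank F K))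
    {τ : K ≃+* K} (hτ : IsTau F q τ) {σ ρ σ' ρ' : K ≃ₐ[F] K} (hne : σ ≠ ρ)
    (h : ∀ c : K, c * τ c = 1 → Algebra.norm F c = 1 → σ c * ρ' c = σ' c * ρ c) :
    σ = σ' ∧ ρ = ρ' := by
  obtain ⟨i, hi, ei⟩ := exists_index hF hodd hτ σ
  obtain ⟨j, hj, ej⟩ := exists_index hF hodd hτ ρ
  obtain ⟨k, hk, ek⟩ := exists_index hF hodd hτ σ'
  obtain ⟨l, hl, el⟩ := exists_index hF hodd hτ ρ'
  obtain ⟨c, h1, h2, h3⟩ := exists_genC hF hodd hτ
  have hc : c ≠ 0 := left_ne_zero_of_mul (h1.symm ▸ one_ne_zero)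
  have hij : i ≠ j := fun e => hne (K5_idx hF hr hodd hτ e ei ej)
  have h4 := h c h1 h2
  rw [ei c h1, ej c h1, ek c h1, el c h1, ← zpow_add₀ hc, ← zpow_add₀ hc] at h4
  have h5 : c ^ ((-(q : ℤ)) ^ i + (-(q : ℤ)) ^ l - (-(q : ℤ)) ^ k - (-(q : ℤ)) ^ j) = 1 := by
    rw [sub_sub, zpow_sub₀ hc, h4, div_self (zpow_ne_zero _ hc)]
  obtain ⟨h6, h7⟩ := arith4 hF.three_le hr hodd hi hl hk hj hij (K5_ord hc h3 h5)
  exact ⟨K5_idx hF hr hodd hτ h6 ei ek, K5_idx hF hr hodd hτ h7.symm ej el⟩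

/-- The automorphisms and the constant `1` as characters. -/
noncomputable def chi (F : Type*) {K : Type*} [Field F] [Field K] [Algebra F K] :
    Option (K ≃ₐ[F] K) → K → K
  | some σ, c => σ c
  | none, _ => 1

/-- With the generator `c` of `exists_genC` the hypothesis is `e i + e j' ≡ e i' + e j` modulo `vv q r`, where
`e (some σ) = b ^ i`, `b = -q`, `i` the index of `σ` (`exists_index`) and `e none = 0`. Cases by which of
`i, j, i', j'` is `none` (`i ≠ j`): four automorphisms: `char_distinctC`; exactly one `none`: `arith3` excludes this (three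
powers, signs `+ + -` up to a global sign); `i = i' = none` or `j = j' = none`: the others have equal powers of `b` modulo
`vv q r`, so they agree on `c` and are equal (see `char_distinctC`); `i = j' = none`: `b ^ i' + b ^ j ≡ 0`, excluded
by `arith2`, the same for `i' = j = none`; `i' = j' = none`: `b ^ i ≡ b ^ j`, `i = j`; three `none`: `b ^ m ≡ 0`,
impossible. -/
theorem char_distinctE (hF : IsUF F q) (hr : 3 ≤ finrank F K) (hodd : Odd (finrank F K))
    (hqr : 4 ≤ q ∨ 5 ≤ finrank F K) {τ : K ≃+* K} (hτ : IsTau F q τ)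
    {i j i' j' : Option (K ≃ₐ[F] K)} (hne : i ≠ j)
    (h : ∀ c : K, c * τ c = 1 → Algebra.norm F c = 1 →
      chi F i c * chi F j' c = chi F i' c * chi F j c) :
    i = i' ∧ j = j' := by
  have hq := hF.three_le
  obtain ⟨c, h1, h2, h3⟩ := exists_genC hF hodd hτ
  have hc : c ≠ 0 := left_ne_zero_of_mul (h1.symm ▸ one_ne_zero)
  have h4 := h c h1 h2
  have key : ∀ m m' : ℤ, c ^ m = c ^ m' → vv q (finrank F K) ∣ m - m' := by
    intro m m' hm
    refine K5_ord hc h3 ?_
    rw [zpow_sub₀ hc, hm, div_self (zpow_ne_zero _ hc)]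
  have no0 : ∀ m : ℕ, ¬ vv q (finrank F K) ∣ (-(q : ℤ)) ^ m := by
    intro m hm
    exact arith2 hq hr hodd m m (dvd_add hm hm)
  rcases i with _ | σ <;> rcases j with _ | ρ <;> rcases i' with _ | σ' <;> rcases j' with _ | ρ' <;>
    simp only [chi] at h4
  · exact absurd rfl hne
  · exact absurd rfl hne
  · exact absurd rfl hne
  · exact absurd rfl hne
  · -- none, some, none, none
    exfalso
    obtain ⟨j, hj, ej⟩ := exists_index hF hodd hτ ρ
    rw [ej c h1] at h4
    have h5 := key 0 ((-(q : ℤ)) ^ j) (by rw [zpow_zero]; simpa using h4)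
    rw [zero_sub, dvd_neg] at h5
    exact no0 j h5
  · -- none, some, none, some
    obtain ⟨j, hj, ej⟩ := exists_index hF hodd hτ ρ
    obtain ⟨l, hl, el⟩ := exists_index hF hodd hτ ρ'
    rw [ej c h1, el c h1, one_mul, one_mul] at h4
    have h5 := K5_inj hq hr hodd hl hj (key _ _ h4)
    exact ⟨rfl, congrArg some (K5_idx hF hr hodd hτ h5.symm ej el)⟩
  · -- none, some, some, none
    exfalso
    obtain ⟨j, hj, ej⟩ := exists_index hF hodd hτ ρ
    obtain ⟨k, hk, ek⟩ := exists_index hF hodd hτ σ'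
    rw [ej c h1, ek c h1, ← zpow_add₀ hc, one_mul] at h4
    have h5 := key 0 ((-(q : ℤ)) ^ k + (-(q : ℤ)) ^ j) (by rw [zpow_zero]; exact h4)
    rw [zero_sub, dvd_neg] at h5
    exact arith2 hq hr hodd k j h5
  · -- none, some, some, some
    exfalso
    obtain ⟨j, hj, ej⟩ := exists_index hF hodd hτ ρ
    obtain ⟨k, hk, ek⟩ := exists_index hF hodd hτ σ'
    obtain ⟨l, hl, el⟩ := exists_index hF hodd hτ ρ'
    rw [ej c h1, ek c h1, el c h1, ← zpow_add₀ hc, one_mul] at h4
    exact arith3 hq hr hodd hqr hk hj hl (key _ _ h4.symm)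
  · -- some, none, none, none
    exfalso
    obtain ⟨i, hi, ei⟩ := exists_index hF hodd hτ σ
    rw [ei c h1] at h4
    have h5 := key ((-(q : ℤ)) ^ i) 0 (by rw [zpow_zero]; simpa using h4)
    rw [sub_zero] at h5
    exact no0 i h5
  · -- some, none, none, some
    exfalso
    obtain ⟨i, hi, ei⟩ := exists_index hF hodd hτ σ
    obtain ⟨l, hl, el⟩ := exists_index hF hodd hτ ρ'
    rw [ei c h1, el c h1, ← zpow_add₀ hc, one_mul] at h4
    have h5 := key ((-(q : ℤ)) ^ i + (-(q : ℤ)) ^ l) 0 (by rw [zpow_zero]; exact h4)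
    rw [sub_zero] at h5
    exact arith2 hq hr hodd i l h5
  · -- some, none, some, none
    obtain ⟨i, hi, ei⟩ := exists_index hF hodd hτ σ
    obtain ⟨k, hk, ek⟩ := exists_index hF hodd hτ σ'
    rw [ei c h1, ek c h1, mul_one, mul_one] at h4
    have h5 := K5_inj hq hr hodd hi hk (key _ _ h4)
    exact ⟨congrArg some (K5_idx hF hr hodd hτ h5 ei ek), rfl⟩
  · -- some, none, some, some
    exfalso
    obtain ⟨i, hi, ei⟩ := exists_index hF hodd hτ σ
    obtain ⟨k, hk, ek⟩ := exists_index hF hodd hτ σ'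
    obtain ⟨l, hl, el⟩ := exists_index hF hodd hτ ρ'
    rw [ei c h1, ek c h1, el c h1, ← zpow_add₀ hc, mul_one] at h4
    exact arith3 hq hr hodd hqr hi hl hk (key _ _ h4)
  · -- some, some, none, none
    exfalso
    obtain ⟨i, hi, ei⟩ := exists_index hF hodd hτ σ
    obtain ⟨j, hj, ej⟩ := exists_index hF hodd hτ ρ
    rw [ei c h1, ej c h1, one_mul, mul_one] at h4
    have h5 := K5_inj hq hr hodd hi hj (key _ _ h4)
    exact hne (congrArg some (K5_idx hF hr hodd hτ h5 ei ej))
  · -- some, some, none, some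
    exfalso
    obtain ⟨i, hi, ei⟩ := exists_index hF hodd hτ σ
    obtain ⟨j, hj, ej⟩ := exists_index hF hodd hτ ρ
    obtain ⟨l, hl, el⟩ := exists_index hF hodd hτ ρ'
    rw [ei c h1, ej c h1, el c h1, ← zpow_add₀ hc, one_mul] at h4
    exact arith3 hq hr hodd hqr hi hl hj (key _ _ h4)
  · -- some, some, some, none
    exfalso
    obtain ⟨i, hi, ei⟩ := exists_index hF hodd hτ σ
    obtain ⟨j, hj, ej⟩ := exists_index hF hodd hτ ρ
    obtain ⟨k, hk, ek⟩ := exists_index hF hodd hτ σ'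
    rw [ei c h1, ej c h1, ek c h1, ← zpow_add₀ hc, mul_one] at h4
    exact arith3 hq hr hodd hqr hk hj hi (key _ _ h4.symm)
  · obtain ⟨h5, h6⟩ := char_distinctC hF hr hodd hτ (fun e => hne (congrArg some e))
      (fun c h1 h2 => h c h1 h2)
    exact ⟨congrArg some h5, congrArg some h6⟩

end Pool.Agent.Lib.MP_8f3271_al.PSU
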