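import Mathlib
import Pool.Agent.Lib.MP_8f3271_al.L.H
import Pool.Agent.Lib.MP_8f3271_al.P.K

/-!
# Linear maps which preserve the multiples of the group `c * τ c = 1`, `norm c = 1`
-/

set_option autoImplicit false

open Pool.Agent.GPerm59 Pointwise Module

namespace Pool.Agent.Lib.MP_8f3271_al.PSU

variable {F K : Type*} [Field F] [Finite F] [StarRing F] {q : ℕ} [Field K] [Algebra F K]
  [FiniteDimensional F K]

/-! ### Row psu-C1 -/

/-- The units with `c * τ c = 1` and `norm c = 1`. -/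
def C1_C (F : Type*) {K : Type*} [Field F] [Field K] [Algebra F K] (τ : K ≃+* K) : Subgroup Kˣ where
  carrier := {u | (u : K) * τ u = 1 ∧ Algebra.norm F (u : K) = 1}
  mul_mem' := by
    rintro u v ⟨hu, hu'⟩ ⟨hv, hv'⟩
    refine ⟨?_, by rw [Units.val_mul, map_mul, hu', hv', one_mul]⟩
    rw [Units.val_mul, map_mul]
    linear_combination ((v : K) * τ v) * hu + hv
  one_mem' := ⟨by rw [Units.val_one, map_one, one_mul], by rw [Units.val_one, map_one]⟩
  inv_mem' := by
    rintro u ⟨hu, hu'⟩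
    refine ⟨?_, ?_⟩
    · rw [Units.val_inv_eq_inv_val, map_inv₀, ← mul_inv, hu, inv_one]
    · have h0 : Algebra.norm F ((u : K) * ((u⁻¹ : Kˣ) : K)) = 1 := by
        rw [Units.mul_inv, map_one]
      rwa [map_mul, hu', one_mul] at h0

omit [Finite F] [StarRing F] [FiniteDimensional F K] in
theorem C1_ne {τ : K ≃+* K} {c : K} (hc : c * τ c = 1) : c ≠ 0 := by
  rintro rfl
  rw [zero_mul] at hc
  exact zero_ne_one hc

/-- The character `c ↦ X c / Y c`. -/
def C1_char {τ : K ≃+* K} (X Y : K →* K) : C1_C F τ →* K where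
  toFun c := X ((c : Kˣ) : K) * (Y ((c : Kˣ) : K))⁻¹
  map_one' := by simp
  map_mul' c d := by
    simp only [Subgroup.coe_mul, Units.val_mul, map_mul, mul_inv]
    ring

/-- The characters of `C1_char`, with the trivial one. -/
def C1_chi {ι : Type*} (F : Type*) {K : Type*} [Field F] [Field K] [Algebra F K] (τ : K ≃+* K)
    (X : ι → K →* K) : Option {p : ι × ι // p.1 ≠ p.2} → (C1_C F τ →* K)
  | none => 1
  | some p => C1_char (X p.1.1) (X p.1.2)

omit [Finite F] [StarRing F] [FiniteDimensional F K] in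
theorem C1_inj {ι : Type*} {τ : K ≃+* K} (X : ι → K →* K) (hX0 : ∀ i c, c ≠ 0 → X i c ≠ 0)
    (hX : ∀ i j i' j', i ≠ j → (∀ c : K, c * τ c = 1 → Algebra.norm F c = 1 →
      X i c * X j' c = X i' c * X j c) → i = i' ∧ j = j') :
    Function.Injective (C1_chi F τ X) := by
  have eqc : ∀ i j i' j' : ι, (∀ c : C1_C F τ, X i ((c : Kˣ) : K) * (X j ((c : Kˣ) : K))⁻¹ =
      X i' ((c : Kˣ) : K) * (X j' ((c : Kˣ) : K))⁻¹) →
      ∀ c : K, c * τ c = 1 → Algebra.norm F c = 1 → X i c * X j' c = X i' c * X j c := by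
    intro i j i' j' h c hc hN
    have hc0 := C1_ne hc
    have h1 := h ⟨Units.mk0 c hc0, ⟨hc, hN⟩⟩
    have h2 : X i c * (X j c)⁻¹ = X i' c * (X j' c)⁻¹ := h1
    have h3 := hX0 j c hc0
    have h5 := hX0 j' c hc0
    field_simp at h2
    linear_combination h2
  have key : ∀ p : {p : ι × ι // p.1 ≠ p.2}, C1_chi F τ X (some p) ≠ C1_chi F τ X none := by
    intro p hp
    have h1 : ∀ c : C1_C F τ, X p.1.1 ((c : Kˣ) : K) * (X p.1.2 ((c : Kˣ) : K))⁻¹ =
        X p.1.1 ((c : Kˣ) : K) * (X p.1.1 ((c : Kˣ) : K))⁻¹ := by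
      intro c
      have h2 : X p.1.1 ((c : Kˣ) : K) * (X p.1.2 ((c : Kˣ) : K))⁻¹ = 1 :=
        DFunLike.congr_fun hp c
      rw [h2, mul_inv_cancel₀ (hX0 _ _ (Units.ne_zero _))]
    exact p.2 (hX _ _ _ _ p.2 (eqc _ _ _ _ h1)).2.symm
  intro a b hab
  cases a with
  | none =>
    cases b with
    | none => rfl
    | some q => exact absurd hab.symm (key q)
  | some p =>
    cases b with
    | none => exact absurd hab (key p)
    | some q =>
      have h1 : ∀ c : C1_C F τ, X p.1.1 ((c : Kˣ) : K) * (X p.1.2 ((c : Kˣ) : K))⁻¹ =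
          X q.1.1 ((c : Kˣ) : K) * (X q.1.2 ((c : Kˣ) : K))⁻¹ := by
        intro c
        exact DFunLike.congr_fun hab c
      have h3 := hX _ _ _ _ p.2 (eqc _ _ _ _ h1)
      congr 1
      exact Subtype.ext (Prod.ext h3.1 h3.2)

omit [Finite F] [StarRing F] [FiniteDimensional F K] in
/-- independence of the quotients of characters -/
theorem C1_gen {ι : Type*} [Fintype ι] {τ : K ≃+* K} (X : ι → K →* K)
    (hX0 : ∀ i c, c ≠ 0 → X i c ≠ 0)
    (hX : ∀ i j i' j', i ≠ j → (∀ c : K, c * τ c = 1 → Algebra.norm F c = 1 →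
      X i c * X j' c = X i' c * X j c) → i = i' ∧ j = j') (m : ι → ι → K)
    (h : ∀ c : K, c * τ c = 1 → Algebra.norm F c = 1 → ∑ i, ∑ j, m i j * (X i c * (X j c)⁻¹) = 0) :
    ∀ i j, i ≠ j → m i j = 0 := by
  classical
  have hli := (linearIndependent_monoidHom (C1_C F τ) K).comp (C1_chi F τ X) (C1_inj X hX0 hX)
  rw [Fintype.linearIndependent_iff] at hli
  let g : Option {p : ι × ι // p.1 ≠ p.2} → K := fun o =>
    match o with
    | none => ∑ i, m i i
    | some p => m p.1.1 p.1.2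
  have hg : ∑ o, g o • ((fun f : (C1_C F τ) →* K => (f : (C1_C F τ) → K)) ∘
      (C1_chi F τ X)) o = 0 := by
    funext c
    rw [Finset.sum_apply, Pi.zero_apply]
    have hc := h ((c : Kˣ) : K) c.2.1 c.2.2
    rw [← Finset.sum_product' (f := fun i j =>
      m i j * (X i ((c : Kˣ) : K) * (X j ((c : Kˣ) : K))⁻¹)),
      ← Finset.sum_filter_add_sum_filter_not _
      (fun p : ι × ι => p.1 ≠ p.2)] at hc
    rw [Fintype.sum_option, add_comm, ← hc]
    congr 1
    · rw [Finset.univ_product_univ]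
      symm
      rw [← Finset.sum_subtype_eq_sum_filter]
      refine Finset.sum_congr ?_ fun p _ => ?_
      · ext p
        simp
      · rfl
    · symm
      have e1 : ((Finset.univ ×ˢ Finset.univ : Finset (ι × ι)).filter
          fun p => ¬ p.1 ≠ p.2) = Finset.univ.image (fun i : ι => (i, i)) := by
        ext p
        simp only [Finset.univ_product_univ, Finset.mem_filter, Finset.mem_univ, true_and,
          Finset.mem_image, not_not]
        constructor
        · intro hp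
          exact ⟨p.1, Prod.ext rfl hp⟩
        · rintro ⟨i, rfl⟩
          rfl
      rw [e1, Finset.sum_image (by intro a _ b _ hab; exact (Prod.ext_iff.1 hab).1)]
      have e2 : ∀ i : ι,
          m i i * (X i ((c : Kˣ) : K) * (X i ((c : Kˣ) : K))⁻¹) = m i i := by
        intro i
        rw [mul_inv_cancel₀ (hX0 i _ (Units.ne_zero (c : Kˣ))), mul_one]
      rw [Finset.sum_congr rfl fun i _ => e2 i]
      exact (mul_one _).symm
  intro i j hne
  exact hli g hg (some ⟨(i, j), hne⟩)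

/-- As `coeff_eq_zero` in `L/H.lean` (copy the proof): the characters `c ↦ σ c / ρ c`, `σ ≠ ρ`, of the group
`{c | c * τ c = 1, norm c = 1}` and the trivial character are different by `char_distinctC`
(the trivial one is `σ / σ`), hence independent (`linearIndependent_monoidHom`). -/
theorem coeff_eq_zeroC (hF : IsUF F q) (hr : 3 ≤ finrank F K) (hodd : Odd (finrank F K))
    {τ : K ≃+* K} (hτ : IsTau F q τ) (m : (K ≃ₐ[F] K) → (K ≃ₐ[F] K) → K)
    (h : ∀ c : K, c * τ c = 1 → Algebra.norm F c = 1 → ∑ σ, ∑ ρ, m σ ρ * (σ c * (ρ c)⁻¹) = 0) :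
    ∀ σ ρ, σ ≠ ρ → m σ ρ = 0 := by
  refine C1_gen (F := F) (τ := τ) (fun σ : K ≃ₐ[F] K => ((σ : K ≃* K) : K →* K)) ?_ ?_ m h
  · intro σ c hc h1
    exact hc ((map_eq_zero_iff σ σ.injective).1 h1)
  · intro σ ρ σ' ρ' hne h1
    exact char_distinctC hF hr hodd hτ hne h1

/-! ### Row psu-C2 -/

/-- The relation between the coefficients. -/
theorem C2_rel (hF : IsUF F q) (hr : 3 ≤ finrank F K) (hodd : Odd (finrank F K))
    {τ : K ≃+* K} (hτ : IsTau F q τ) (φ : K ≃ₐ[F] K) (g h : K ≃ₗ[F] K) (a b : (K ≃ₐ[F] K) → K)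
    (ha : ∀ x, g x = ∑ σ, a σ * σ x) (hb : ∀ x, h x = ∑ σ, b σ * σ x)
    (H : ∀ c : K, c * τ c = 1 → Algebra.norm F c = 1 → ∃ s : F, h c⁻¹ * g c = algebraMap F K s)
    (σ ρ : K ≃ₐ[F] K) (hne : σ ≠ ρ) : a (φ * σ) * b (φ * ρ) = φ (a σ * b ρ) := by
  classical
  have key := coeff_eq_zeroC hF hr hodd hτ
    (fun σ ρ => a σ * b ρ - φ (a (φ⁻¹ * σ) * b (φ⁻¹ * ρ))) (by
      intro c hc hnc
      obtain ⟨s, hs⟩ := H c hc hnc
      have e1 : h c⁻¹ * g c = ∑ σ : K ≃ₐ[F] K, ∑ ρ : K ≃ₐ[F] K, a σ * b ρ * (σ c * (ρ c)⁻¹) := by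
        rw [ha, hb, mul_comm, Finset.sum_mul_sum]
        refine Finset.sum_congr rfl fun σ _ => Finset.sum_congr rfl fun ρ _ => ?_
        rw [map_inv₀]
        ring
      have e2 : φ (h c⁻¹ * g c) = h c⁻¹ * g c := by
        rw [hs, AlgEquiv.commutes]
      have e3 : φ (h c⁻¹ * g c) = ∑ σ : K ≃ₐ[F] K, ∑ ρ : K ≃ₐ[F] K,
          φ (a (φ⁻¹ * σ) * b (φ⁻¹ * ρ)) * (σ c * (ρ c)⁻¹) := by
        rw [e1, map_sum]
        refine Fintype.sum_bijective (fun σ => φ * σ) (Group.mulLeft_bijective φ) _ _ fun σ => ?_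
        rw [map_sum]
        refine Fintype.sum_bijective (fun ρ => φ * ρ) (Group.mulLeft_bijective φ) _ _ fun ρ => ?_
        rw [inv_mul_cancel_left, inv_mul_cancel_left, map_mul φ (a σ * b ρ), map_mul φ (σ c),
          map_inv₀, AlgEquiv.mul_apply, AlgEquiv.mul_apply]
      calc ∑ σ : K ≃ₐ[F] K, ∑ ρ : K ≃ₐ[F] K,
            (a σ * b ρ - φ (a (φ⁻¹ * σ) * b (φ⁻¹ * ρ))) * (σ c * (ρ c)⁻¹)
          = (∑ σ : K ≃ₐ[F] K, ∑ ρ : K ≃ₐ[F] K, a σ * b ρ * (σ c * (ρ c)⁻¹)) -
            ∑ σ : K ≃ₐ[F] K, ∑ ρ : K ≃ₐ[F] K,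
              φ (a (φ⁻¹ * σ) * b (φ⁻¹ * ρ)) * (σ c * (ρ c)⁻¹) := by
            rw [← Finset.sum_sub_distrib]
            refine Finset.sum_congr rfl fun σ _ => ?_
            rw [← Finset.sum_sub_distrib]
            exact Finset.sum_congr rfl fun ρ _ => sub_mul _ _ _
        _ = 0 := by rw [← e1, ← e3, e2, sub_self])
    (φ * σ) (φ * ρ) (fun hh => hne (mul_left_cancel hh))
  simp only [inv_mul_cancel_left] at key
  exact sub_eq_zero.1 key
/-- as `eq_aut_of_mul_mem` -/
theorem C2_aut (hF : IsUF F q) (hr : 3 ≤ finrank F K) (hodd : Odd (finrank F K))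
    {τ : K ≃+* K} (hτ : IsTau F q τ) (g h : K ≃ₗ[F] K)
    (H : ∀ c : K, c * τ c = 1 → Algebra.norm F c = 1 → ∃ s : F, h c⁻¹ * g c = algebraMap F K s) :
    ∃ σ : K ≃ₐ[F] K, ∀ x, g x = g 1 * σ x := by
  classical
  have : Finite K := Module.finite_of_finite F
  have : Fintype F := Fintype.ofFinite F
  obtain ⟨a, ha⟩ := exists_coeff (g : K →ₗ[F] K)
  obtain ⟨b, hb⟩ := exists_coeff (h : K →ₗ[F] K)
  have ha' : ∀ x, g x = ∑ σ, a σ * σ x := ha
  have hb' : ∀ x, h x = ∑ σ, b σ * σ x := hb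
  set φ : K ≃ₐ[F] K := FiniteField.frobeniusAlgEquivOfAlgebraic F K with hφ
  have rel := C2_rel hF hr hodd hτ φ g h a b ha' hb' H
  by_cases hc : ∀ σ ρ : K ≃ₐ[F] K, σ ≠ ρ → a σ * b ρ = 0
  · -- Case 1
    obtain ⟨σ, hσ⟩ : ∃ σ, a σ ≠ 0 := by
      by_contra hcon
      push Not at hcon
      have h1 : g 1 = 0 := by
        rw [ha']; exact Finset.sum_eq_zero fun σ _ => by rw [hcon σ, zero_mul]
      exact one_ne_zero (g.injective (h1.trans (map_zero g).symm))
    have hbρ : ∀ ρ, ρ ≠ σ → b ρ = 0 := fun ρ hρ =>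
      (mul_eq_zero.1 (hc σ ρ hρ.symm)).resolve_left hσ
    have hbσ : b σ ≠ 0 := by
      intro h0
      have h1 : h 1 = 0 := by
        rw [hb']
        refine Finset.sum_eq_zero fun ρ _ => ?_
        by_cases hρ : ρ = σ
        · rw [hρ, h0, zero_mul]
        · rw [hbρ ρ hρ, zero_mul]
      exact one_ne_zero (h.injective (h1.trans (map_zero h).symm))
    have haρ : ∀ ρ, ρ ≠ σ → a ρ = 0 := fun ρ hρ =>
      (mul_eq_zero.1 (hc ρ σ hρ)).resolve_right hbσ
    have hg : ∀ x, g x = a σ * σ x := by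
      intro x
      rw [ha']
      refine Finset.sum_eq_single σ (fun ρ _ hρ => by rw [haρ ρ hρ, zero_mul]) (fun h => ?_)
      exact absurd (Finset.mem_univ σ) h
    refine ⟨σ, fun x => ?_⟩
    rw [hg x, hg 1, map_one, mul_one]
  · -- Case 2
    exfalso
    push Not at hc
    obtain ⟨σ₀, ρ₀, hne, h0⟩ := hc
    have hpow : ∀ k : ℕ, a (φ ^ k * σ₀) * b (φ ^ k * ρ₀) ≠ 0 := by
      intro k
      induction k with
      | zero => simpa using h0
      | succ k ih =>
        have h1 := rel (φ ^ k * σ₀) (φ ^ k * ρ₀) (fun hh => hne (mul_left_cancel hh))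
        rw [pow_succ', mul_assoc, mul_assoc, h1]
        exact fun h2 => ih (by simpa using h2)
    have hgen : ∀ f : K ≃ₐ[F] K, ∃ k : ℕ, f = φ ^ k := by
      intro f
      obtain ⟨⟨i, hi⟩, rfl⟩ := (FiniteField.bijective_frobeniusAlgEquivOfAlgebraic_pow F K).2 f
      exact ⟨i, rfl⟩
    have hane : ∀ σ, a σ ≠ 0 := by
      intro σ
      obtain ⟨k, hk⟩ := hgen (σ * σ₀⁻¹)
      have h1 := left_ne_zero_of_mul (hpow k)
      rwa [← hk, inv_mul_cancel_right] at h1
    have hbne : ∀ σ, b σ ≠ 0 := by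
      intro σ
      obtain ⟨k, hk⟩ := hgen (σ * ρ₀⁻¹)
      have h1 := right_ne_zero_of_mul (hpow k)
      rwa [← hk, inv_mul_cancel_right] at h1
    have hAB : ∀ σ ρ : K ≃ₐ[F] K, σ ≠ ρ → a (φ * σ) / φ (a σ) = φ (b ρ) / b (φ * ρ) := by
      intro σ ρ hst
      have h1 := rel σ ρ hst
      rw [map_mul] at h1
      have h2 : φ (a σ) ≠ 0 := (map_ne_zero φ).2 (hane σ)
      rw [div_eq_div_iff h2 (hbne _), h1, mul_comm]
    have hconst : ∀ σ σ' : K ≃ₐ[F] K, a (φ * σ) / φ (a σ) = a (φ * σ') / φ (a σ') := by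
      intro σ σ'
      obtain ⟨ρ, h1, h2⟩ := H4_third hr σ σ'
      rw [hAB σ ρ h1.symm, hAB σ' ρ h2.symm]
    set κ : K := a (φ * 1) / φ (a 1) with hκ
    have hrec : ∀ σ, a (φ * σ) = κ * φ (a σ) := by
      intro σ
      have h2 : φ (a σ) ≠ 0 := (map_ne_zero φ).2 (hane σ)
      rw [hκ, ← hconst σ 1, div_mul_cancel₀ _ h2]
    have hgx : ∀ x, g x = κ * φ (g x) := by
      intro x
      have e1 : φ (g x) = ∑ σ : K ≃ₐ[F] K, φ (a σ) * (φ * σ) x := by
        rw [ha', map_sum]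
        exact Finset.sum_congr rfl fun σ _ => by rw [map_mul, AlgEquiv.mul_apply]
      rw [e1, Finset.mul_sum, ha']
      symm
      refine Fintype.sum_bijective (fun σ => φ * σ) (Group.mulLeft_bijective φ) _ _ fun σ => ?_
      rw [hrec σ, mul_assoc]
    have hy : ∀ y : K, y = κ * φ y := by
      intro y
      obtain ⟨x, rfl⟩ := g.surjective y
      exact hgx x
    have hκ1 : κ = 1 := by
      have := hy 1
      rw [map_one, mul_one] at this
      exact this.symm
    have hφ1 : φ = 1 := by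
      ext y
      have := hy y
      rw [hκ1, one_mul] at this
      rw [← this, AlgEquiv.one_apply]
    have hord : orderOf φ = finrank F K := FiniteField.orderOf_frobeniusAlgEquivOfAlgebraic F K
    rw [hφ1, orderOf_one] at hord
    omega
/-- As `eq_aut_of_mul_mem` in `L/H.lean` (copy the proofs of `H4_rel`, `H4_third` and `eq_aut_of_mul_mem`, with
`coeff_eq_zeroC`): let `h x = τ (g (τ x))`, an `F`-linear bijection, then `h c⁻¹ * g c = τ (g c) * g c`, since
`τ c = c⁻¹`. -/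
theorem eq_aut_odd (hF : IsUF F q) (hr : 3 ≤ finrank F K) (hodd : Odd (finrank F K))
    {τ : K ≃+* K} (hτ : IsTau F q τ) (g : K ≃ₗ[F] K)
    (H : ∀ c : K, c * τ c = 1 → Algebra.norm F c = 1 → ∃ s : F, g c * τ (g c) = algebraMap F K s) :
    ∃ σ : K ≃ₐ[F] K, ∀ x, g x = g 1 * σ x := by
  have hsm : ∀ (a : F) (x : K), τ (a • x) = star a • τ x := by
    intro a x
    rw [Algebra.smul_def, map_mul, hτ.alg, Algebra.smul_def]
  let h : K ≃ₗ[F] K :=
    { toFun := fun x => τ (g (τ x))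
      invFun := fun x => τ (g.symm (τ x))
      map_add' := fun x y => by rw [map_add, map_add, map_add]
      map_smul' := fun a x => by
        rw [hsm, map_smul, hsm, star_star]
        rfl
      left_inv := fun x => by
        change τ (g.symm (τ (τ (g (τ x))))) = x
        rw [hτ.invol, g.symm_apply_apply, hτ.invol]
      right_inv := fun x => by
        change τ (g (τ (τ (g.symm (τ x))))) = x
        rw [hτ.invol, g.apply_symm_apply, hτ.invol] }
  have hh : ∀ x, h x = τ (g (τ x)) := fun x => rfl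
  refine C2_aut hF hr hodd hτ g h fun c hc hn => ?_
  obtain ⟨s, hs⟩ := H c hc hn
  refine ⟨s, ?_⟩
  have h1 : τ c⁻¹ = c := by
    have h2 : τ c = c⁻¹ := eq_inv_of_mul_eq_one_right hc
    rw [map_inv₀, h2, inv_inv]
  rw [hh, h1, mul_comm, hs]

/-! ### Row psu-C3 -/

/-- The same for the characters `chi F i c / chi F j c`, `i ≠ j` in `Option (K ≃ₐ[F] K)` (`char_distinctE`). -/
theorem coeff_eq_zeroE (hF : IsUF F q) (hr : 3 ≤ finrank F K) (hodd : Odd (finrank F K))
    (hqr : 4 ≤ q ∨ 5 ≤ finrank F K) {τ : K ≃+* K} (hτ : IsTau F q τ)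
    (m : Option (K ≃ₐ[F] K) → Option (K ≃ₐ[F] K) → K)
    (h : ∀ c : K, c * τ c = 1 → Algebra.norm F c = 1 →
      ∑ i, ∑ j, m i j * (chi F i c * (chi F j c)⁻¹) = 0) :
    ∀ i j, i ≠ j → m i j = 0 := by
  let X : Option (K ≃ₐ[F] K) → K →* K := fun i =>
    { toFun := chi F i
      map_one' := by
        cases i with
        | none => rfl
        | some σ => exact map_one σ
      map_mul' := fun c d => by
        cases i with
        | none => exact (mul_one (1 : K)).symm
        | some σ => exact map_mul σ c d }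
  refine C1_gen (F := F) (τ := τ) X ?_ ?_ m h
  · intro i c hc h1
    cases i with
    | none => exact one_ne_zero h1
    | some σ => exact hc ((map_eq_zero_iff σ σ.injective).1 h1)
  · intro i j i' j' hne h1
    exact char_distinctE hF hr hodd hqr hτ hne h1

/-! ### Row psu-C4 -/

theorem C4_tau {τ : K ≃+* K} (hτ : IsTau F q τ) {c : K} (hc : c * τ c = 1)
    (i : Option (K ≃ₐ[F] K)) : τ (chi F i c) = (chi F i c)⁻¹ := by
  cases i with
  | none =>
    show τ 1 = (1 : K)⁻¹
    rw [map_one, inv_one]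
  | some σ =>
    show τ (σ c) = (σ c)⁻¹
    have h1 : τ (σ c) = σ (τ c) := by rw [hτ.pow, hτ.pow, map_pow]
    have h2 : τ c = c⁻¹ := (inv_eq_of_mul_eq_one_right hc).symm
    rw [h1, h2, map_inv₀]

/-- the action of an automorphism on the indices -/
def C4_act (φ : K ≃ₐ[F] K) : Option (K ≃ₐ[F] K) ≃ Option (K ≃ₐ[F] K) :=
  Equiv.optionCongr (Equiv.mulLeft φ)

theorem C4_act_some (φ σ : K ≃ₐ[F] K) : C4_act φ (some σ) = some (φ * σ) := rfl

theorem C4_act_none (φ : K ≃ₐ[F] K) : C4_act φ none = none := rfl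

theorem C4_chi (φ : K ≃ₐ[F] K) (c : K) (i : Option (K ≃ₐ[F] K)) :
    φ (chi F i c) = chi F (C4_act φ i) c := by
  cases i with
  | none => exact map_one φ
  | some σ => rfl

theorem C4_rel (hF : IsUF F q) (hr : 3 ≤ finrank F K) (hodd : Odd (finrank F K))
    (hqr : 4 ≤ q ∨ 5 ≤ finrank F K) {τ : K ≃+* K} (hτ : IsTau F q τ) (g : K →ₗ[F] K) (a : K)
    (H : ∀ c : K, c * τ c = 1 → Algebra.norm F c = 1 →
      ∃ s : F, (g c + a) * τ (g c + a) = algebraMap F K s)
    (A : Option (K ≃ₐ[F] K) → K) (hA : ∀ c, g c + a = ∑ i, A i * chi F i c) (φ : K ≃ₐ[F] K)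
    (i j : Option (K ≃ₐ[F] K)) (hne : i ≠ j) :
    A (C4_act φ i) * τ (A (C4_act φ j)) = φ (A i * τ (A j)) := by
  classical
  have key := coeff_eq_zeroE hF hr hodd hqr hτ
    (fun i j => A i * τ (A j) - φ (A ((C4_act φ).symm i) * τ (A ((C4_act φ).symm j)))) (by
      intro c hc hnc
      obtain ⟨s, hs⟩ := H c hc hnc
      have e1 : (g c + a) * τ (g c + a) = ∑ i : Option (K ≃ₐ[F] K), ∑ j : Option (K ≃ₐ[F] K),
          A i * τ (A j) * (chi F i c * (chi F j c)⁻¹) := by
        rw [hA, map_sum, Finset.sum_mul_sum]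
        refine Finset.sum_congr rfl fun i _ => Finset.sum_congr rfl fun j _ => ?_
        rw [map_mul, C4_tau hτ hc]
        ring
      have e2 : φ ((g c + a) * τ (g c + a)) = (g c + a) * τ (g c + a) := by
        rw [hs, AlgEquiv.commutes]
      have e3 : φ ((g c + a) * τ (g c + a)) = ∑ i : Option (K ≃ₐ[F] K), ∑ j : Option (K ≃ₐ[F] K),
          φ (A ((C4_act φ).symm i) * τ (A ((C4_act φ).symm j))) * (chi F i c * (chi F j c)⁻¹) := by
        rw [e1, map_sum]
        refine Fintype.sum_bijective (C4_act φ) (C4_act φ).bijective _ _ fun i => ?_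
        rw [map_sum]
        refine Fintype.sum_bijective (C4_act φ) (C4_act φ).bijective _ _ fun j => ?_
        rw [Equiv.symm_apply_apply, Equiv.symm_apply_apply, map_mul φ (A i * τ (A j)),
          map_mul φ (chi F i c), map_inv₀, C4_chi, C4_chi]
      calc ∑ i : Option (K ≃ₐ[F] K), ∑ j : Option (K ≃ₐ[F] K),
            (A i * τ (A j) - φ (A ((C4_act φ).symm i) * τ (A ((C4_act φ).symm j)))) *
              (chi F i c * (chi F j c)⁻¹)
          = (∑ i : Option (K ≃ₐ[F] K), ∑ j : Option (K ≃ₐ[F] K),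
              A i * τ (A j) * (chi F i c * (chi F j c)⁻¹)) -
            ∑ i : Option (K ≃ₐ[F] K), ∑ j : Option (K ≃ₐ[F] K),
              φ (A ((C4_act φ).symm i) * τ (A ((C4_act φ).symm j))) *
                (chi F i c * (chi F j c)⁻¹) := by
            rw [← Finset.sum_sub_distrib]
            refine Finset.sum_congr rfl fun i _ => ?_
            rw [← Finset.sum_sub_distrib]
            exact Finset.sum_congr rfl fun j _ => sub_mul _ _ _
        _ = 0 := by rw [← e1, ← e3, e2, sub_self])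
    (C4_act φ i) (C4_act φ j) (fun hh => hne ((C4_act φ).injective hh))
  simp only [Equiv.symm_apply_apply] at key
  exact sub_eq_zero.1 key

/-- `g c + a = ∑ i, A i * chi F i c` with `A (some σ)` the coefficients of `g` (`exists_coeff` of `L/H.lean`) and `A none = a`.
For `c * τ c = 1`, `τ (chi F i c) = (chi F i c)⁻¹` (`σ` commutes with `τ`, both are powers `x ↦ x ^ n`), so
`(g c + a) * τ (g c + a) = ∑ i, ∑ j, A i * τ (A j) * (chi F i c * (chi F j c)⁻¹)`. This is fixed by the Frobenius automorphism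
`φ` of `K / F`; `φ (chi F i c) = chi F (φ i) c` where `φ (some σ) = some (φ σ)`, `φ none = none`. By `coeff_eq_zeroE`, with `B j = τ (A j)`:
`A (φ i) * B (φ j) = φ (A i * B j)` for `i ≠ j`. Case 1: `A i * B j = 0` for all `i ≠ j`: at most one `A i ≠ 0`; as `g ≠ 0` it is
`A (some σ)`; so `a = 0`, `g x = A (some σ) * σ x`. Case 2: `A i * B j ≠ 0`, `i ≠ j`; one of them, say `i`, is `some σ`; applying `φ` again
and again `A (some σ) ≠ 0` for all `σ` (`B j ≠ 0` iff `A j ≠ 0`). As `A (φ i) / φ (A i) = φ (B j) / B (φ j)` for `i ≠ j` and there are at least three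
automorphisms, `A (φ i) = κ * φ (A i)` for all `i = some σ`, so `g x = κ * φ (g x)` for all `x`; the `y` with `y = κ * φ y` form
an `F`-space of dimension at most one (`y ^ q' * κ = y`, `q' = |F|`, has at most `q'` solutions), but the range of `g`
has dimension at least two. -/
theorem eq_aut_even (hF : IsUF F q) (hr : 3 ≤ finrank F K) (hodd : Odd (finrank F K))
    (hqr : 4 ≤ q ∨ 5 ≤ finrank F K) {τ : K ≃+* K} (hτ : IsTau F q τ) (g : K →ₗ[F] K) (a : K)
    (hg : 2 ≤ finrank F (LinearMap.range g))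
    (H : ∀ c : K, c * τ c = 1 → Algebra.norm F c = 1 →
      ∃ s : F, (g c + a) * τ (g c + a) = algebraMap F K s) :
    a = 0 ∧ ∃ σ : K ≃ₐ[F] K, ∀ x, g x = g 1 * σ x := by
  classical
  have : Finite K := Module.finite_of_finite F
  have : Fintype F := Fintype.ofFinite F
  obtain ⟨A', hA'⟩ := exists_coeff g
  set A : Option (K ≃ₐ[F] K) → K := fun i => match i with
    | some σ => A' σ
    | none => a with hAdef
  have hA : ∀ c, g c + a = ∑ i, A i * chi F i c := by
    intro c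
    rw [Fintype.sum_option, hA', add_comm]
    congr 1
    exact (mul_one a).symm
  have rel0 := fun φ i j hne => C4_rel hF hr hodd hqr hτ g a H A hA φ i j hne
  have hτ0 : ∀ x, τ x = 0 ↔ x = 0 := fun x => map_eq_zero_iff τ τ.injective
  have hg0 : ∃ σ, A' σ ≠ 0 := by
    by_contra hcon
    push Not at hcon
    have h1 : g = 0 := by
      ext x
      rw [hA', LinearMap.zero_apply]
      exact Finset.sum_eq_zero fun σ _ => by rw [hcon σ, zero_mul]
    rw [h1, LinearMap.range_zero, finrank_bot] at hg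
    omega
  by_cases hc : ∀ i j : Option (K ≃ₐ[F] K), i ≠ j → A i * τ (A j) = 0
  · -- Case 1
    obtain ⟨σ, hσ⟩ := hg0
    have h1 : ∀ j, some σ ≠ j → A j = 0 := fun j hj =>
      (hτ0 _).1 ((mul_eq_zero.1 (hc (some σ) j hj)).resolve_left hσ)
    have ha0 : a = 0 := h1 none (by simp)
    have hAτ : ∀ ρ, ρ ≠ σ → A' ρ = 0 := fun ρ hρ => h1 (some ρ) (by
      intro h
      exact hρ (Option.some.inj h).symm)
    have hg' : ∀ x, g x = A' σ * σ x := by
      intro x
      rw [hA']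
      refine Finset.sum_eq_single σ (fun ρ _ hρ => by rw [hAτ ρ hρ, zero_mul]) (fun h => ?_)
      exact absurd (Finset.mem_univ σ) h
    refine ⟨ha0, σ, fun x => ?_⟩
    rw [hg' x, hg' 1, map_one, mul_one]
  · -- Case 2
    exfalso
    push Not at hc
    obtain ⟨i₀, j₀, hne, h0⟩ := hc
    set φ : K ≃ₐ[F] K := FiniteField.frobeniusAlgEquivOfAlgebraic F K with hφ
    have hgen : ∀ f : K ≃ₐ[F] K, ∃ k : ℕ, f = φ ^ k := by
      intro f
      obtain ⟨⟨i, hi⟩, rfl⟩ := (FiniteField.bijective_frobeniusAlgEquivOfAlgebraic_pow F K).2 f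
      exact ⟨i, rfl⟩
    have hall : ∀ f : K ≃ₐ[F] K, A (C4_act f i₀) ≠ 0 ∧ A (C4_act f j₀) ≠ 0 := by
      intro f
      have h1 := rel0 f i₀ j₀ hne
      have h2 : A (C4_act f i₀) * τ (A (C4_act f j₀)) ≠ 0 := by
        rw [h1]
        exact fun h => h0 ((map_eq_zero_iff f f.injective).1 h)
      refine ⟨left_ne_zero_of_mul h2, fun h => right_ne_zero_of_mul h2 ((hτ0 _).2 h)⟩
    have hane : ∀ σ, A' σ ≠ 0 := by
      intro σ
      have hex : ∃ σ₀ : K ≃ₐ[F] K, ∀ f : K ≃ₐ[F] K, A (some (f * σ₀)) ≠ 0 := by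
        cases hi : i₀ with
        | some σ₀ =>
          refine ⟨σ₀, fun f => ?_⟩
          have := (hall f).1
          rwa [hi, C4_act_some] at this
        | none =>
          cases hj : j₀ with
          | some σ₀ =>
            refine ⟨σ₀, fun f => ?_⟩
            have := (hall f).2
            rwa [hj, C4_act_some] at this
          | none => exact absurd (hi.trans hj.symm) hne
      obtain ⟨σ₀, hσ₀⟩ := hex
      have h1 := hσ₀ (σ * σ₀⁻¹)
      rwa [inv_mul_cancel_right] at h1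
    have rel : ∀ σ ρ : K ≃ₐ[F] K, σ ≠ ρ → A' (φ * σ) * τ (A' (φ * ρ)) = φ (A' σ * τ (A' ρ)) := by
      intro σ ρ hσρ
      exact rel0 φ (some σ) (some ρ) (fun h => hσρ (Option.some.inj h))
    have hbne : ∀ σ, τ (A' σ) ≠ 0 := fun σ h => hane σ ((hτ0 _).1 h)
    have hAB : ∀ σ ρ : K ≃ₐ[F] K, σ ≠ ρ →
        A' (φ * σ) / φ (A' σ) = φ (τ (A' ρ)) / τ (A' (φ * ρ)) := by
      intro σ ρ hst
      have h1 := rel σ ρ hst
      rw [map_mul] at h1
      have h2 : φ (A' σ) ≠ 0 := (map_ne_zero φ).2 (hane σ)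
      rw [div_eq_div_iff h2 (hbne _), h1, mul_comm]
    have hconst : ∀ σ σ' : K ≃ₐ[F] K, A' (φ * σ) / φ (A' σ) = A' (φ * σ') / φ (A' σ') := by
      intro σ σ'
      obtain ⟨ρ, h1, h2⟩ := H4_third hr σ σ'
      rw [hAB σ ρ h1.symm, hAB σ' ρ h2.symm]
    set κ : K := A' (φ * 1) / φ (A' 1) with hκ
    have hrec : ∀ σ, A' (φ * σ) = κ * φ (A' σ) := by
      intro σ
      have h2 : φ (A' σ) ≠ 0 := (map_ne_zero φ).2 (hane σ)
      rw [hκ, ← hconst σ 1, div_mul_cancel₀ _ h2]
    have hgx : ∀ x, g x = κ * φ (g x) := by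
      intro x
      have e1 : φ (g x) = ∑ σ : K ≃ₐ[F] K, φ (A' σ) * (φ * σ) x := by
        rw [hA', map_sum]
        exact Finset.sum_congr rfl fun σ _ => by rw [map_mul, AlgEquiv.mul_apply]
      rw [e1, Finset.mul_sum, hA']
      symm
      refine Fintype.sum_bijective (fun σ => φ * σ) (Group.mulLeft_bijective φ) _ _ fun σ => ?_
      rw [hrec σ, mul_assoc]
    obtain ⟨x₀, hx₀⟩ : ∃ x, g x ≠ 0 := by
      by_contra hcon
      push Not at hcon
      have h1 : g = 0 := by
        ext x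
        rw [hcon x, LinearMap.zero_apply]
      rw [h1, LinearMap.range_zero, finrank_bot] at hg
      omega
    have hsp : ∀ x, ∃ s : F, s • g x₀ = g x := by
      intro x
      have h1 : φ ((g x₀)⁻¹ * g x) = (g x₀)⁻¹ * g x := by
        have h2 := hgx x₀
        have h3 := hgx x
        have hκ0 : κ ≠ 0 := by
          intro h
          rw [h, zero_mul] at h2
          exact hx₀ h2
        have h4 : φ (g x₀) ≠ 0 := (map_ne_zero φ).2 hx₀
        have h5 : (g x₀)⁻¹ * g x = (κ * φ (g x₀))⁻¹ * (κ * φ (g x)) := by rw [← h2, ← h3]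
        rw [map_mul, map_inv₀, h5, mul_inv]
        field_simp
      have h2 : ∀ f : K ≃ₐ[F] K, f ((g x₀)⁻¹ * g x) = (g x₀)⁻¹ * g x := by
        intro f
        obtain ⟨k, rfl⟩ := hgen f
        induction k with
        | zero => rfl
        | succ k ih =>
          rw [pow_succ, AlgEquiv.mul_apply, h1, ih]
      obtain ⟨s, hs⟩ := (IsGalois.mem_range_algebraMap_iff_fixed ((g x₀)⁻¹ * g x)).2 h2
      refine ⟨s, ?_⟩
      rw [Algebra.smul_def, hs, mul_comm, mul_inv_cancel_left₀ hx₀]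
    have h1 : finrank F (LinearMap.range g) ≤ 1 := by
      refine finrank_le_one (⟨g x₀, x₀, rfl⟩ : LinearMap.range g) ?_
      rintro ⟨y, x, rfl⟩
      obtain ⟨s, hs⟩ := hsp x
      exact ⟨s, Subtype.ext hs⟩
    omega

end Pool.Agent.Lib.MP_8f3271_al.PSU
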