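import Mathlib
import Pool.Agent.Lib.MP_8f3271_al.P.Base

/-!
# Hermitian forms over finite fields
-/

set_option autoImplicit false

open Pool.Agent.GPerm59 Pointwise Module

namespace Pool.Agent.Lib.MP_8f3271_al.PSU

/-! ### Row psu-F1 -/

/-- Proof. `|F| = p ^ N`; the ring automorphism `star` (`starRingAut`) of a finite field is `x ↦ x ^ (p ^ k)` with
`k < N` (automorphisms over `ZMod p`: `FiniteField.bijective_frobeniusAlgEquivOfAlgebraic_pow`, or: a generator `θ` of
`Fˣ`, roots of its minimal polynomial). `star (star x) = x` gives `x ^ (p ^ (2 k)) = x` for all `x`, so `N ∣ 2 k`, so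
`2 k = N` or `k = 0`; `k = 0` means `star = id`. -/
theorem exists_uf (F : Type*) [Field F] [Finite F] [StarRing F] (hs : ∃ a : F, star a ≠ a) :
    ∃ q : ℕ, Nat.card F = q ^ 2 ∧ ∀ x : F, star x = x ^ q := by
  classical
  obtain ⟨p, hp⟩ := CharP.exists F
  have hpf : Fact p.Prime := ⟨CharP.char_is_prime F p⟩
  let _ : Algebra (ZMod p) F := ZMod.algebra F p
  have hfin : FiniteDimensional (ZMod p) F := inferInstance
  let σ : F ≃ₐ[ZMod p] F := AlgEquiv.ofRingEquiv (f := (starRingAut : F ≃+* F)) (fun r =>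
    RingHom.congr_fun (Subsingleton.elim (((starRingAut : F ≃+* F) : F →+* F).comp
      (algebraMap (ZMod p) F)) (algebraMap (ZMod p) F)) r)
  have hσ : ∀ x, σ x = star x := fun x => rfl
  obtain ⟨⟨k, hlt⟩, hk⟩ := (FiniteField.bijective_frobeniusAlgEquivOfAlgebraic_pow (ZMod p) F).2 σ
  have hk1 : FiniteField.frobeniusAlgEquivOfAlgebraic (ZMod p) F ^ k = σ := hk
  have hst : ∀ x : F, star x = x ^ (p ^ k) := by
    intro x
    rw [← hσ, ← hk1, AlgEquiv.coe_pow, FiniteField.coe_frobeniusAlgEquivOfAlgebraic_iterate,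
      ZMod.card]
  have hsq : σ ^ 2 = 1 := by
    ext x
    change star (star x) = x
    exact star_star x
  have hdvd : finrank (ZMod p) F ∣ 2 * k := by
    rw [← FiniteField.orderOf_frobeniusAlgEquivOfAlgebraic (ZMod p) F]
    apply orderOf_dvd_of_pow_eq_one
    rw [mul_comm, pow_mul, hk1, hsq]
  have hk0 : k ≠ 0 := by
    intro h0
    obtain ⟨a, ha⟩ := hs
    apply ha
    rw [hst, h0, pow_zero, pow_one]
  obtain ⟨c, hc⟩ := hdvd
  have hn : finrank (ZMod p) F = 2 * k := by
    rcases c with _ | _ | c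
    · omega
    · omega
    · nlinarith
  refine ⟨p ^ k, ?_, hst⟩
  rw [Module.natCard_eq_pow_finrank (K := ZMod p) (V := F), Nat.card_eq_fintype_card, ZMod.card,
    hn, ← pow_mul, mul_comm]

/-! ### Row psu-F2 -/

section F2

variable {F : Type*} [Field F] [Finite F] [StarRing F] {q : ℕ}

open Polynomial in
theorem F2_roots (p : F[X]) (hp : p ≠ 0) (s : Finset F) (hs : ∀ b ∈ s, p.eval b = 0) : s.card ≤ p.natDegree := by
  refine Polynomial.card_le_degree_of_subset_roots fun b hb => ?_
  exact (Polynomial.mem_roots hp).2 (hs b hb)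

theorem F2_image {s : Finset F} {f : F → F} [DecidableEq F] {S : Finset F} {A B : ℕ} (hA : 0 < A)
    (hs : A * B ≤ s.card) (hS : S.card ≤ B) (hm : ∀ b ∈ s, f b ∈ S)
    (hf : ∀ a, (s.filter fun b => f b = a).card ≤ A) : s.image f = S := by
  refine Finset.eq_of_subset_of_card_le ?_ ?_
  · intro a ha
    obtain ⟨b, hb, rfl⟩ := Finset.mem_image.1 ha
    exact hm b hb
  · have h1 := Finset.card_le_mul_card_image (f := f) s A fun a _ => hf a
    have h2 : A * B ≤ A * (s.image f).card := hs.trans h1
    exact hS.trans (Nat.le_of_mul_le_mul_left h2 hA)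

open Polynomial in
theorem F2_nat {r : F[X]} {n : ℕ} (h : r.degree < (n : WithBot ℕ)) : (X ^ n + r : F[X]).natDegree = n := by
  refine natDegree_eq_of_degree_eq_some ?_
  rw [degree_add_eq_left_of_degree_lt (by rwa [degree_X_pow]), degree_X_pow]

open Polynomial in
theorem F2_fix (hF : IsUF F q) [DecidableEq F] (S : Finset F) (hS : ∀ a ∈ S, star a = a) : S.card ≤ q := by
  have h3 := hF.three_le
  have hd : (-X : F[X]).degree < (q : WithBot ℕ) := by
    rw [degree_neg, degree_X]
    exact_mod_cast (by omega : 1 < q)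
  have hp : (X ^ q + (-X) : F[X]) ≠ 0 := (monic_X_pow_add hd).ne_zero
  have h1 := F2_roots _ hp S fun a ha => by
    rw [eval_add, eval_pow, eval_neg, eval_X, ← hF.star_eq, hS a ha, add_neg_cancel]
  have h2 : (X ^ q + (-X) : F[X]).natDegree = q := F2_nat hd
  rwa [h2] at h1

open Polynomial in
theorem F2_fiber (hF : IsUF F q) [DecidableEq F] (a : F) (S : Finset F) (hS : ∀ b ∈ S, b + star b = a) :
    S.card ≤ q := by
  have h3 := hF.three_le
  have hd : (X - C a : F[X]).degree < (q : WithBot ℕ) := by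
    rw [degree_X_sub_C]
    exact_mod_cast (by omega : 1 < q)
  have hp : (X ^ q + (X - C a) : F[X]) ≠ 0 := (monic_X_pow_add hd).ne_zero
  have h1 := F2_roots _ hp S fun b hb => by
    rw [eval_add, eval_pow, eval_sub, eval_X, eval_C, ← hF.star_eq, ← hS b hb]
    ring
  have h2 : (X ^ q + (X - C a) : F[X]).natDegree = q := F2_nat hd
  rwa [h2] at h1

theorem F2_star_fix (b : F) : star (b + star b) = b + star b := by
  rw [star_add, star_star, add_comm]

theorem F2_trace_image (hF : IsUF F q) [Fintype F] [DecidableEq F] :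
    (Finset.univ : Finset F).image (fun b => b + star b) = Finset.univ.filter fun a : F => star a = a := by
  have h3 := hF.three_le
  refine F2_image (A := q) (B := q) (by omega) ?_ (F2_fix hF _ fun a ha => (Finset.mem_filter.1 ha).2) ?_ ?_
  · rw [Finset.card_univ, ← Nat.card_eq_fintype_card, hF.card, sq]
  · intro b _
    exact Finset.mem_filter.2 ⟨Finset.mem_univ _, F2_star_fix b⟩
  · intro a
    exact F2_fiber hF a _ fun b hb => (Finset.mem_filter.1 hb).2

/-- `q` is a power of the characteristic, so `F₀ = {a | star a = a}` is the set of roots of `X ^ q - X`. The additive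
map `b ↦ b + b ^ q` has kernel of at most `q` elements (roots of `X ^ q + X`) and its image is in `F₀`, `|F₀| ≤ q`;
`|F| = q ^ 2`, so it is onto `F₀` (and `|F₀| = q`, and the kernel has exactly `q` elements). -/
theorem exists_trace (hF : IsUF F q) {a : F} (ha : star a = a) : ∃ b : F, b + star b = a := by
  classical
  have := Fintype.ofFinite F
  have h1 : a ∈ Finset.univ.filter fun a : F => star a = a := Finset.mem_filter.2 ⟨Finset.mem_univ _, ha⟩
  rw [← F2_trace_image hF] at h1
  obtain ⟨b, -, hb⟩ := Finset.mem_image.1 h1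
  exact ⟨b, hb⟩

open Polynomial in
theorem F2_norm_fiber [DecidableEq F] (a : F) (S : Finset F) (n : ℕ) (hn : 0 < n) (hS : ∀ b ∈ S, b ^ n = a) :
    S.card ≤ n := by
  have h1 := F2_roots _ (X_pow_sub_C_ne_zero hn a) S fun b hb => by
    rw [eval_sub, eval_pow, eval_X, eval_C, hS b hb, sub_self]
  rwa [natDegree_X_pow_sub_C] at h1

/-- `a ≠ 0`: `θ` a generator of `Fˣ`, of order `q ^ 2 - 1 = (q - 1) (q + 1)`; `a = θ ^ l` with `a ^ (q - 1) = 1`, so
`q + 1 ∣ l`, and `b = θ ^ (l / (q + 1))`, `b * star b = b ^ (q + 1)`. -/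
theorem exists_norm (hF : IsUF F q) {a : F} (ha : star a = a) : ∃ b : F, b * star b = a := by
  classical
  have := Fintype.ofFinite F
  have h3 := hF.three_le
  by_cases h0 : a = 0
  · exact ⟨0, by rw [zero_mul, h0]⟩
  have hq : ∀ x : F, x ^ (q - 1) * x = x ^ q := fun x => by
    rw [← pow_succ]
    congr 1
    omega
  have hiff : ∀ x : F, x ≠ 0 → (star x = x ↔ x ^ (q - 1) = 1) := by
    intro x hx
    rw [hF.star_eq, ← hq]
    constructor
    · intro h
      exact mul_right_cancel₀ hx (h.trans (one_mul x).symm)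
    · intro h
      rw [h, one_mul]
  have hcard : ((Finset.univ : Finset F).erase 0).card = (q + 1) * (q - 1) := by
    rw [Finset.card_erase_of_mem (Finset.mem_univ _), Finset.card_univ, ← Nat.card_eq_fintype_card, hF.card]
    obtain ⟨m, rfl⟩ : ∃ m, q = m + 1 := ⟨q - 1, by omega⟩
    rw [Nat.add_sub_cancel]
    have : (m + 1) ^ 2 = (m + 1 + 1) * m + 1 := by ring
    rw [this, Nat.add_sub_cancel]
  have himg : ((Finset.univ : Finset F).erase 0).image (fun b => b * star b) =
      Finset.univ.filter fun x : F => x ^ (q - 1) = 1 := by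
    refine F2_image (A := q + 1) (B := q - 1) (by omega) hcard.ge
      (F2_norm_fiber 1 _ _ (by omega) fun x hx => (Finset.mem_filter.1 hx).2) ?_ ?_
    · intro b hb
      have hb0 : b ≠ 0 := (Finset.mem_erase.1 hb).1
      have hb1 : b * star b ≠ 0 := mul_ne_zero hb0 (star_ne_zero.2 hb0)
      refine Finset.mem_filter.2 ⟨Finset.mem_univ _, (hiff _ hb1).1 ?_⟩
      rw [star_mul, star_star]
    · intro x
      refine F2_norm_fiber x _ (q + 1) (by omega) fun b hb => ?_
      rw [pow_succ, ← hF.star_eq, mul_comm]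
      exact (Finset.mem_filter.1 hb).2
  have h1 : a ∈ Finset.univ.filter fun x : F => x ^ (q - 1) = 1 :=
    Finset.mem_filter.2 ⟨Finset.mem_univ _, (hiff a h0).1 ha⟩
  rw [← himg] at h1
  obtain ⟨b, -, hb⟩ := Finset.mem_image.1 h1
  exact ⟨b, hb⟩

/-- The kernel of `b ↦ b + star b` has (at least) `q` elements, see `exists_trace`. -/
theorem card_skew (hF : IsUF F q) : q ≤ Nat.card {a : F // a + star a = 0} := by
  classical
  have := Fintype.ofFinite F
  have h3 := hF.three_le
  rw [Nat.card_eq_fintype_card, Fintype.card_subtype]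
  set k := (Finset.univ.filter fun a : F => a + star a = 0).card with hk
  have h1 : (Finset.univ : Finset F).card ≤ k * ((Finset.univ : Finset F).image (fun b => b + star b)).card := by
    refine Finset.card_le_mul_card_image _ k fun a ha => ?_
    obtain ⟨b, -, rfl⟩ := Finset.mem_image.1 ha
    refine Finset.card_le_card_of_injOn (fun x => x - b) (fun x hx => ?_) fun x _ y _ h => sub_left_injective h
    rw [Finset.mem_coe, Finset.mem_filter] at hx ⊢
    refine ⟨Finset.mem_univ _, ?_⟩
    have h2 : x + star x = b + star b := hx.2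
    show x - b + star (x - b) = 0
    rw [star_sub, sub_add_sub_comm, h2, sub_self]
  have h2 : ((Finset.univ : Finset F).image (fun b => b + star b)).card ≤ q := by
    rw [F2_trace_image hF]
    exact F2_fix hF _ fun a ha => (Finset.mem_filter.1 ha).2
  have h4 : q * q ≤ k * q := by
    have h5 := h1.trans (Nat.mul_le_mul_left k h2)
    rwa [Finset.card_univ, ← Nat.card_eq_fintype_card, hF.card, sq] at h5
  exact Nat.le_of_mul_le_mul_right h4 (by omega)

theorem exists_skew (hF : IsUF F q) : ∃ c : F, c ≠ 0 ∧ c + star c = 0 := by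
  by_contra h
  push Not at h
  have h1 := card_skew hF
  have h3 := hF.three_le
  have h4 : Subsingleton {a : F // a + star a = 0} := by
    refine ⟨fun x y => Subtype.ext ?_⟩
    have hx : (x : F) = 0 := by
      by_contra hx
      exact h x hx x.2
    have hy : (y : F) = 0 := by
      by_contra hy
      exact h y hy y.2
    rw [hx, hy]
  have h5 : Nat.card {a : F // a + star a = 0} ≤ 1 := Finite.card_le_one_iff_subsingleton.2 h4
  omega

/-- If `x ≠ 0` then `c * x` is arbitrary, and `b + star b ≠ 0` for some `b`. -/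
theorem eq_zero_of_trace (hF : IsUF F q) {x : F} (hx : ∀ c : F, c * x + star (c * x) = 0) :
    x = 0 := by
  by_contra h
  obtain ⟨b, hb⟩ := exists_trace hF (star_one F)
  have h1 := hx (b * x⁻¹)
  rw [inv_mul_cancel_right₀ h, hb] at h1
  exact one_ne_zero h1

end F2

variable {F V V' : Type*} [Field F] [Finite F] [StarRing F] {q : ℕ} [AddCommGroup V] [Module F V]
  [FiniteDimensional F V] [AddCommGroup V'] [Module F V'] [FiniteDimensional F V']

/-! ### Row psu-F3 -/

omit [Finite F] [FiniteDimensional F V] in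
theorem F3_proj (h : Herm F V) {k : ℕ} (b : Fin k → V)
    (hb : ∀ i j, h.f (b i) (b j) = if i = j then 1 else 0) (x : V) (j : Fin k) :
    h.f (x - ∑ i, h.f x (b i) • b i) (b j) = 0 := by
  rw [h.sub_left, h.sum_left]
  have h1 : ∑ i, h.f (h.f x (b i) • b i) (b j) = ∑ i, if i = j then h.f x (b i) else 0 := by
    refine Finset.sum_congr rfl fun i _ => ?_
    rw [h.smul_left, hb i j]
    by_cases hij : i = j
    · rw [if_pos hij, if_pos hij, mul_one]
    · rw [if_neg hij, if_neg hij, mul_zero]
  rw [h1, Finset.sum_ite_eq' Finset.univ j, if_pos (Finset.mem_univ j), sub_self]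

omit [FiniteDimensional F V] in
theorem F3_step (hF : IsUF F q) (h : Herm F V) {k : ℕ} (hk : k < finrank F V) (b : Fin k → V)
    (hb : ∀ i j, h.f (b i) (b j) = if i = j then 1 else 0) :
    ∃ v : V, (∀ i, h.f v (b i) = 0) ∧ h.f v v = 1 := by
  have hx : ∃ x : V, x ≠ 0 ∧ ∀ i, h.f x (b i) = 0 := by
    by_contra hcon
    push Not at hcon
    have hspan : (⊤ : Submodule F V) ≤ Submodule.span F (Set.range b) := by
      intro x _
      have h1 : x - ∑ i, h.f x (b i) • b i = 0 := by
        by_contra hne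
        obtain ⟨i, hi⟩ := hcon _ hne
        exact hi (F3_proj h b hb x i)
      rw [sub_eq_zero.1 h1]
      exact Submodule.sum_mem _ fun i _ =>
        Submodule.smul_mem _ _ (Submodule.subset_span ⟨i, rfl⟩)
    have h2 : finrank F V ≤ k := by
      have h3 := finrank_range_le_card (R := F) (b := b)
      rw [Fintype.card_fin] at h3
      have h4 : Submodule.span F (Set.range b) = ⊤ := top_le_iff.1 hspan
      have h5 : (Set.range b).finrank F = finrank F V := by
        unfold Set.finrank
        rw [h4, finrank_top]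
      rwa [h5] at h3
    omega
  obtain ⟨x, hx0, hxb⟩ := hx
  obtain ⟨y, hy⟩ : ∃ y, h.f x y ≠ 0 := by
    by_contra hcon
    push Not at hcon
    exact hx0 (h.nondeg x hcon)
  have hw : ∃ w : V, (∀ i, h.f w (b i) = 0) ∧ h.f w w ≠ 0 := by
    by_contra hcon
    push Not at hcon
    set y' := y - ∑ i, h.f y (b i) • b i with hy'
    have hyb : ∀ i, h.f y' (b i) = 0 := F3_proj h b hb y
    have hxy : h.f x y' = h.f x y := by
      rw [hy', h.sub_right, h.sum_right]
      have h1 : ∑ i, h.f x (h.f y (b i) • b i) = 0 :=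
        Finset.sum_eq_zero fun i _ => by rw [h.smul_right, hxb i, mul_zero]
      rw [h1, sub_zero]
    have hxx : h.f x x = 0 := hcon x hxb
    have hyy : h.f y' y' = 0 := hcon y' hyb
    have h2 : ∀ c : F, c * h.f x y' + star (c * h.f x y') = 0 := by
      intro c
      have h3 : h.f (c • x + y') (c • x + y') = 0 := by
        refine hcon _ fun i => ?_
        rw [h.add_left, h.smul_left, hxb i, hyb i, mul_zero, add_zero]
      rw [h.add_left, h.add_right, h.add_right, h.smul_left, h.smul_left, h.smul_right,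
        h.smul_right, hxx, hyy, h.symm x y', mul_zero, mul_zero, zero_add, add_zero,
        ← star_mul'] at h3
      exact h3
    exact hy (by rw [← hxy]; exact eq_zero_of_trace hF h2)
  obtain ⟨w, hwb, hww⟩ := hw
  have ha : star (h.f w w)⁻¹ = (h.f w w)⁻¹ := by
    rw [star_inv₀, h.self_star]
  obtain ⟨c, hc⟩ := exists_norm hF ha
  refine ⟨c • w, fun i => by rw [h.smul_left, hwb i, mul_zero], ?_⟩
  rw [h.smul_left, h.smul_right, ← mul_assoc, hc, inv_mul_cancel₀ hww]

theorem F3_family (hF : IsUF F q) (h : Herm F V) (k : ℕ) (hk : k ≤ finrank F V) :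
    ∃ b : Fin k → V, ∀ i j, h.f (b i) (b j) = if i = j then 1 else 0 := by
  induction k with
  | zero => exact ⟨Fin.elim0, fun i => i.elim0⟩
  | succ k ih =>
    obtain ⟨b, hb⟩ := ih (Nat.le_of_succ_le hk)
    obtain ⟨v, hv, hvv⟩ := F3_step hF h hk b hb
    refine ⟨Fin.cons v b, ?_⟩
    intro i j
    refine Fin.cases ?_ (fun i => ?_) i
    · refine Fin.cases ?_ (fun j => ?_) j
      · rw [Fin.cons_zero, hvv, if_pos rfl]
      · rw [Fin.cons_zero, Fin.cons_succ, hv j, if_neg (Fin.succ_ne_zero j).symm]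
    · refine Fin.cases ?_ (fun j => ?_) j
      · rw [Fin.cons_zero, Fin.cons_succ, h.symm v (b i), hv i, star_zero,
          if_neg (Fin.succ_ne_zero i)]
      · rw [Fin.cons_succ, Fin.cons_succ, hb i j]
        by_cases hij : i = j
        · rw [if_pos hij, if_pos (congrArg Fin.succ hij)]
        · rw [if_neg hij, if_neg (fun h1 => hij (Fin.succ_injective _ h1))]

/-- Induction on the dimension. If `dim V > 0` there is `v` with `h v v ≠ 0`: otherwise, with `x, y`, `h x y ≠ 0`, for all
`c`: `0 = h (c x + y) (c x + y) = c * h x y + star (c * h x y)`, `eq_zero_of_trace`. `h v v` is fixed by `star`, so is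
`(h v v)⁻¹ = b * star b` (`exists_norm`), and `v₁ = b • v` has `h v₁ v₁ = 1`. The restriction of `h` to
`W = {y | h y v₁ = 0}` (kernel of a nonzero functional, dimension `n - 1`) is nondegenerate: if `x ∈ W` is orthogonal to
`W` then to `V` as `y = (y - h y v₁ • v₁) + h y v₁ • v₁`. -/
theorem exists_orthonormal (hF : IsUF F q) (h : Herm F V) :
    ∃ b : Basis (Fin (finrank F V)) F V, ∀ i j, h.f (b i) (b j) = if i = j then 1 else 0 := by
  obtain ⟨b, hb⟩ := F3_family hF h (finrank F V) le_rfl
  have hli : LinearIndependent F b := by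
    rw [Fintype.linearIndependent_iff]
    intro g hg j
    have h1 : h.f (∑ i, g i • b i) (b j) = g j := by
      rw [h.sum_left]
      have h2 : ∑ i, h.f (g i • b i) (b j) = ∑ i, if i = j then g i else 0 := by
        refine Finset.sum_congr rfl fun i _ => ?_
        rw [h.smul_left, hb i j]
        by_cases hij : i = j
        · rw [if_pos hij, if_pos hij, mul_one]
        · rw [if_neg hij, if_neg hij, mul_zero]
      rw [h2, Finset.sum_ite_eq' Finset.univ j, if_pos (Finset.mem_univ j)]
    rw [hg, h.zero_left] at h1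
    exact h1.symm
  have hspan : Submodule.span F (Set.range b) = ⊤ :=
    hli.span_eq_top_of_card_eq_finrank' (by rw [Fintype.card_fin])
  refine ⟨Basis.mk hli hspan.ge, fun i j => ?_⟩
  rw [Basis.mk_apply, Basis.mk_apply]
  exact hb i j

/-! ### Row psu-F4 -/

/-- Orthonormal bases (`exists_orthonormal`), `Basis.equiv`; the form is determined by its values on a basis. -/
theorem exists_isometry (hF : IsUF F q) (h : Herm F V) (h' : Herm F V')
    (e : finrank F V = finrank F V') :
    ∃ φ : V ≃ₗ[F] V', ∀ x y, h'.f (φ x) (φ y) = h.f x y := by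
  obtain ⟨b, hb⟩ := exists_orthonormal hF h
  obtain ⟨b', hb'⟩ := exists_orthonormal hF h'
  let φ : V ≃ₗ[F] V' := b.equiv b' (finCongr e)
  have hφ : ∀ i, φ (b i) = b' (finCongr e i) := fun i => b.equiv_apply i b' (finCongr e)
  have key : ∀ j, (h'.toDual (φ (b j))).comp φ.toLinearMap = h.toDual (b j) := by
    intro j
    refine b.ext fun i => ?_
    change h'.f (φ (b i)) (φ (b j)) = h.f (b i) (b j)
    rw [hφ, hφ, hb, hb']
    by_cases hij : i = j
    · rw [if_pos hij, if_pos (by rw [hij])]
    · rw [if_neg hij, if_neg (fun h1 => hij ((finCongr e).injective h1))]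
  have k1 : ∀ y j, h'.f (φ y) (φ (b j)) = h.f y (b j) := fun y j => LinearMap.congr_fun (key j) y
  have k2 : ∀ y, (h'.toDual (φ y)).comp φ.toLinearMap = h.toDual y := by
    intro y
    refine b.ext fun i => ?_
    change h'.f (φ (b i)) (φ y) = h.f (b i) y
    rw [h'.symm (φ y) (φ (b i)), k1, ← h.symm]
  exact ⟨φ, fun x y => LinearMap.congr_fun (k2 y) x⟩

omit [Finite F] [FiniteDimensional F V] in
theorem exists_one (h : Herm F V) {x : V} (hx : x ≠ 0) : ∃ y, h.f y x = 1 := by
  by_contra hne
  push Not at hne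
  refine hx (h.nondeg x fun y => ?_)
  have h0 : h.f y x = 0 := by
    by_contra h1
    refine hne ((h.f y x)⁻¹ • y) ?_
    rw [h.smul_left, inv_mul_cancel₀ h1]
  rw [h.symm y x, h0, star_zero]

omit [Finite F] [FiniteDimensional F V] in
/-- The functional `y ↦ h y x₂` does not vanish on the kernel of `y ↦ h y x₁` (otherwise it is `c` times the second one and
`x₂ = star c • x₁`): `z` with `h z x₁ = 0`, `h z x₂ = 1`; with `z'`, `h z' x₁ = 1`: `y = c₁ z' + (c₂ - c₁ h z' x₂) z`. -/
theorem exists_solve (h : Herm F V) {x₁ x₂ : V} (h1 : x₁ ≠ 0) (h2 : ∀ c : F, x₂ ≠ c • x₁)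
    (c₁ c₂ : F) : ∃ y, h.f y x₁ = c₁ ∧ h.f y x₂ = c₂ := by
  obtain ⟨z', hz'⟩ := exists_one h h1
  have hz : ∃ z, h.f z x₁ = 0 ∧ h.f z x₂ = 1 := by
    by_contra hne
    push Not at hne
    have h3 : ∀ z, h.f z x₁ = 0 → h.f z x₂ = 0 := by
      intro z hz
      by_contra h4
      refine hne ((h.f z x₂)⁻¹ • z) ?_ ?_
      · rw [h.smul_left, hz, mul_zero]
      · rw [h.smul_left, inv_mul_cancel₀ h4]
    refine h2 (star (h.f z' x₂)) (sub_eq_zero.1 (h.nondeg _ fun y => ?_))
    have h5 := h3 (y - h.f y x₁ • z') (by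
      rw [h.sub_left, h.smul_left, hz', mul_one, sub_self])
    rw [h.sub_left, h.smul_left] at h5
    have h6 : h.f y (x₂ - star (h.f z' x₂) • x₁) = 0 := by
      rw [h.sub_right, h.smul_right, star_star]
      linear_combination h5
    rw [h.symm y, h6, star_zero]
  obtain ⟨z, hz0, hz1⟩ := hz
  refine ⟨c₁ • z' + (c₂ - c₁ * h.f z' x₂) • z, ?_, ?_⟩
  · rw [h.add_left, h.smul_left, h.smul_left, hz', hz0, mul_one, mul_zero, add_zero]
  · rw [h.add_left, h.smul_left, h.smul_left, hz1]
    ring

/-- `b₀ + c b₁`, orthonormal, `c * star c = -1`. -/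
theorem exists_isotropic (hF : IsUF F q) (h : Herm F V) (hn : 2 ≤ finrank F V) :
    ∃ x : V, x ≠ 0 ∧ h.f x x = 0 := by
  obtain ⟨b, hb⟩ := exists_orthonormal hF h
  obtain ⟨c, hc⟩ := exists_norm hF (a := -1) (by rw [star_neg, star_one])
  set i0 : Fin (finrank F V) := ⟨0, by omega⟩ with hi0
  set i1 : Fin (finrank F V) := ⟨1, by omega⟩ with hi1
  have h01 : i0 ≠ i1 := by
    intro h1
    have h2 := congrArg Fin.val h1
    exact absurd h2 (by norm_num [hi0, hi1])
  refine ⟨b i0 + c • b i1, ?_, ?_⟩
  · intro h1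
    have h2 : h.f (b i0 + c • b i1) (b i0) = 1 := by
      rw [h.add_left, h.smul_left, hb, hb, if_pos rfl, if_neg h01.symm, mul_zero, add_zero]
    rw [h1, h.zero_left] at h2
    exact zero_ne_one h2
  · rw [h.add_left, h.smul_left, h.add_right, h.add_right, h.smul_right, h.smul_right, hb, hb, hb,
      hb, if_pos rfl, if_neg h01, if_neg h01.symm, if_pos rfl]
    linear_combination hc

end Pool.Agent.Lib.MP_8f3271_al.PSU
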