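import Mathlib
import Pool.Agent.Lib.MP_8f3271_al.P.F

/-!
# The stabilizer of an isotropic point; a G-permutable subgroup fixes an isotropic point
-/

set_option autoImplicit false

open Pool.Agent.GPerm59 Pointwise Module

namespace Pool.Agent.Lib.MP_8f3271_al.PSU

variable {F V G : Type*} [Field F] [Finite F] [StarRing F] {q : ℕ} [AddCommGroup V] [Module F V]
  [FiniteDimensional F V] [Group G]

/-! ### Row psu-G1 -/

omit [StarRing F] in
/-- `p` the characteristic, `N = g - 1`, `p ^ s ≥ k`: `g ^ (p ^ s) = 1 + N ^ (p ^ s) = 1` (`add_pow_char_pow_of_commute`), so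
`(det g) ^ (p ^ s) = 1`, `det g = 1` (see `U4` in `L/U.lean`). -/
theorem det_eq_one (g : V ≃ₗ[F] V) (k : ℕ) (hg : ((g : V →ₗ[F] V) - 1) ^ k = 0) :
    LinearEquiv.det g = 1 := by
  obtain ⟨p, hch⟩ := CharP.exists F
  have hp : p.Prime := (CharP.char_is_prime_or_zero F p).resolve_right (CharP.char_ne_zero_of_finite F p)
  have hfp : Fact p.Prime := ⟨hp⟩
  rcases subsingleton_or_nontrivial V with hV | hV
  · have h1 : g = 1 := LinearEquiv.ext fun x => Subsingleton.elim _ _
    rw [h1, map_one]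
  have hchE : CharP (Module.End F V) p :=
    charP_of_injective_algebraMap (algebraMap F (Module.End F V)).injective p
  obtain ⟨s, hs⟩ : ∃ s, k ≤ p ^ s := ⟨k, (Nat.lt_pow_self hp.one_lt).le⟩
  have hps : p ^ s ≠ 0 := pow_ne_zero _ hp.ne_zero
  have h1 : ((g : V →ₗ[F] V) : Module.End F V) ^ (p ^ s) = 1 := by
    have h2 : ((g : V →ₗ[F] V) : Module.End F V) = 1 + ((g : V →ₗ[F] V) - 1) := by abel
    rw [h2, add_pow_char_pow_of_commute p s (Commute.one_left _), one_pow,
      pow_eq_zero_of_le hs hg, add_zero]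
  have h3 : ((LinearEquiv.det g : Fˣ) : F) ^ (p ^ s) = 1 := by
    rw [LinearEquiv.coe_det, ← map_pow]
    have h4 : LinearMap.det (((g : V →ₗ[F] V) : Module.End F V) ^ (p ^ s)) = 1 := by
      rw [h1, map_one]
    exact h4
  have h5 : (((LinearEquiv.det g : Fˣ) : F) - 1) ^ (p ^ s) = 0 := by
    rw [sub_pow_char_pow, h3, one_pow, sub_self]
  exact Units.ext (sub_eq_zero.1 ((pow_eq_zero_iff hps).1 h5))

omit [Finite F] [FiniteDimensional F V] in
private theorem G1_isom (h : Herm F V) {x₀ v : V} {a : F} (hx : h.f x₀ x₀ = 0) (hv : h.f v x₀ = 0)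
    (ha : a + star a + h.f v v = 0) (x y : V) :
    h.f (x + h.f x x₀ • v - h.f x v • x₀ + (a * h.f x x₀) • x₀)
      (y + h.f y x₀ • v - h.f y v • x₀ + (a * h.f y x₀) • x₀) = h.f x y := by
  have hv' : h.f x₀ v = 0 := by rw [h.symm v x₀, hv, star_zero]
  simp only [h.add_left, h.add_right, h.sub_left, h.sub_right, h.smul_left, h.smul_right, hx, hv,
    hv', mul_zero, add_zero, sub_zero, star_mul']
  rw [h.symm y x₀, h.symm y v]
  linear_combination (h.f x x₀ * star (h.f y x₀)) * ha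

/-- The Eichler transformation `x ↦ x + h x x₀ • v - h x v • x₀ + (a * h x x₀) • x₀`: linear; an isometry (expand; use
`h x₀ x₀ = 0`, `h v x₀ = 0 = h x₀ v` and `a + star a + h v v = 0`), so injective by nondegeneracy; its difference with `1` has cube
`0` (`V → x₀^⊥ → F x₀ → 0`), `det_eq_one`. -/
theorem exists_eichler (h : Herm F V) {x₀ v : V} {a : F} (hx : h.f x₀ x₀ = 0) (hv : h.f v x₀ = 0)
    (ha : a + star a + h.f v v = 0) :
    ∃ g ∈ SU h, ∀ x, g x = x + h.f x x₀ • v - h.f x v • x₀ + (a * h.f x x₀) • x₀ := by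
  have hv' : h.f x₀ v = 0 := by rw [h.symm v x₀, hv, star_zero]
  let E : V →ₗ[F] V :=
    { toFun := fun x => x + h.f x x₀ • v - h.f x v • x₀ + (a * h.f x x₀) • x₀
      map_add' := by
        intro x y
        rw [h.add_left, h.add_left]
        module
      map_smul' := by
        intro c x
        rw [h.smul_left, h.smul_left, RingHom.id_apply]
        module }
  have hE : ∀ x, E x = x + h.f x x₀ • v - h.f x v • x₀ + (a * h.f x x₀) • x₀ := fun x => rfl
  have hiso : ∀ x y, h.f (E x) (E y) = h.f x y := fun x y => by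
    rw [hE, hE]
    exact G1_isom h hx hv ha x y
  have hinj : Function.Injective E := by
    rw [← LinearMap.ker_eq_bot, LinearMap.ker_eq_bot']
    intro x hx0
    refine h.nondeg x fun y => ?_
    rw [← hiso x y, hx0, h.zero_left]
  let g : V ≃ₗ[F] V := LinearEquiv.ofInjectiveEndo E hinj
  have hg : ∀ x, g x = E x := fun x => rfl
  have hnil : ((g : V →ₗ[F] V) - 1) ^ 3 = 0 := by
    have h1 : ∀ x, ((g : V →ₗ[F] V) - 1) x = h.f x x₀ • v - h.f x v • x₀ + (a * h.f x x₀) • x₀ := by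
      intro x
      rw [LinearMap.sub_apply, Module.End.one_apply]
      change E x - x = _
      rw [hE]
      abel
    refine LinearMap.ext fun x => ?_
    rw [pow_succ, pow_succ, pow_one, Module.End.mul_apply, Module.End.mul_apply, LinearMap.zero_apply]
    have h2 : h.f (((g : V →ₗ[F] V) - 1) x) x₀ = 0 := by
      rw [h1, h.add_left, h.sub_left, h.smul_left, h.smul_left, h.smul_left, hx, hv]
      ring
    have h3 : ((g : V →ₗ[F] V) - 1) (((g : V →ₗ[F] V) - 1) x)
        = (-h.f (((g : V →ₗ[F] V) - 1) x) v) • x₀ := by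
      rw [h1 (((g : V →ₗ[F] V) - 1) x), h2]
      module
    rw [h3, map_smul, h1 x₀, hx, hv']
    simp
  refine ⟨g, ⟨fun x y => hiso x y, det_eq_one g 3 hnil⟩, fun x => ?_⟩
  rw [hg, hE]

/-! ### Row psu-G2 -/

/-- `exists_eichler` with `v = y' - y`, `a = h y v = h y y'`: `h v v = - h y' y - h y y' = -(a + star a)`. -/
theorem exists_move (h : Herm F V) {x₀ y y' : V} (hx : h.f x₀ x₀ = 0) (hy : h.f y y = 0)
    (hy' : h.f y' y' = 0) (h1 : h.f y x₀ = 1) (h2 : h.f y' x₀ = 1) :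
    ∃ g ∈ SU h, g x₀ = x₀ ∧ g y = y' ∧
      ∀ z, h.f z x₀ = 0 → h.f z (y' - y) = 0 → g z = z := by
  have hv : h.f (y' - y) x₀ = 0 := by
    rw [h.sub_left, h1, h2, sub_self]
  have ha : h.f y y' + star (h.f y y') + h.f (y' - y) (y' - y) = 0 := by
    rw [← h.symm, h.sub_left, h.sub_right, h.sub_right, hy, hy']
    ring
  obtain ⟨g, hg, hgx⟩ := exists_eichler h hx hv ha
  have hv' : h.f x₀ (y' - y) = 0 := by
    rw [h.symm (y' - y) x₀, hv, star_zero]
  refine ⟨g, hg, ?_, ?_, ?_⟩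
  · rw [hgx, hx, hv', zero_smul, zero_smul, mul_zero, zero_smul, add_zero, sub_zero, add_zero]
  · have h3 : h.f y (y' - y) = h.f y y' := by
      rw [h.sub_right, hy, sub_zero]
    rw [hgx, h1, h3, one_smul, mul_one, add_sub_cancel, sub_add_cancel]
  · intro z hz1 hz2
    rw [hgx, hz1, hz2, zero_smul, zero_smul, mul_zero, zero_smul, add_zero, sub_zero, add_zero]

/-- Let `w'` with `h w' x₀ = 0`, `h w' y = 1` (`exists_solve`), `y₁ = w' + b • y` with `b + star b = - h w' w'`: isotropic,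
`h y₁ y = 1`, `h y₁ x₀ = 0`. Let `w = y + κ • y₁`, `κ ≠ 0`, `κ + star κ = 0`: isotropic, `h y w = star κ`, `h y₁ w = 1`, `h w x₀ = 0`,
`w ≠ 0`. Apply `exists_move` with centre `w` to `(star κ)⁻¹ • y` and `y₁`; as both are orthogonal to `x₀`, `g x₀ = x₀`. -/
theorem exists_move_orth (hF : IsUF F q) (h : Herm F V) {x₀ y : V} (hx0 : x₀ ≠ 0)
    (hx : h.f x₀ x₀ = 0) (hy : h.f y y = 0) (hxy : h.f y x₀ = 0) (hne : ∀ c : F, y ≠ c • x₀) :
    ∃ (y' : V) (g : V ≃ₗ[F] V) (c : F), g ∈ SU h ∧ g x₀ = x₀ ∧ c ≠ 0 ∧ g y = c • y' ∧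
      h.f y' y ≠ 0 := by
  obtain ⟨w', hw1, hw2⟩ := exists_solve h hx0 hne 0 1
  obtain ⟨b, hb⟩ := exists_trace hF (a := -h.f w' w') (by rw [star_neg, h.self_star])
  obtain ⟨κ, hκ, hκ'⟩ := exists_skew hF
  have hw3 : h.f y w' = 1 := by
    rw [h.symm w' y, hw2, star_one]
  have a1 : h.f (w' + b • y) y = 1 := by
    rw [h.add_left, h.smul_left, hy, hw2, mul_zero, add_zero]
  have a2 : h.f (w' + b • y) (w' + b • y) = 0 := by
    rw [h.add_right, h.smul_right, a1, h.add_left, h.smul_left, hw3, mul_one, mul_one, add_assoc, hb,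
      add_neg_cancel]
  have a3 : h.f (w' + b • y) x₀ = 0 := by
    rw [h.add_left, h.smul_left, hw1, hxy, mul_zero, add_zero]
  obtain ⟨y₁, hy₁⟩ : ∃ y₁, y₁ = w' + b • y := ⟨_, rfl⟩
  rw [← hy₁] at a1 a2 a3
  have a4 : h.f y y₁ = 1 := by
    rw [h.symm y₁ y, a1, star_one]
  have b1 : h.f y (y + κ • y₁) = star κ := by
    rw [h.add_right, h.smul_right, hy, a4, mul_one, zero_add]
  have b2 : h.f y₁ (y + κ • y₁) = 1 := by
    rw [h.add_right, h.smul_right, a1, a2, mul_zero, add_zero]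
  have b3 : h.f (y + κ • y₁) (y + κ • y₁) = 0 := by
    rw [h.add_left, h.smul_left, b1, b2, mul_one, add_comm, hκ']
  have b4 : h.f (y + κ • y₁) x₀ = 0 := by
    rw [h.add_left, h.smul_left, hxy, a3, mul_zero, add_zero]
  have hsκ : star κ ≠ 0 := fun h0 => hκ (by rwa [star_eq_zero] at h0)
  have c1 : h.f ((star κ)⁻¹ • y) ((star κ)⁻¹ • y) = 0 := by
    rw [h.smul_left, h.smul_right, hy, mul_zero, mul_zero]
  have c2 : h.f ((star κ)⁻¹ • y) (y + κ • y₁) = 1 := by
    rw [h.smul_left, b1, inv_mul_cancel₀ hsκ]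
  obtain ⟨g, hg, -, hg2, hg3⟩ := exists_move h b3 c1 a2 c2 b2
  refine ⟨y₁, g, star κ, hg, hg3 x₀ ?_ ?_, hsκ, ?_, ?_⟩
  · rw [h.symm (y + κ • y₁) x₀, b4, star_zero]
  · rw [h.sub_right, h.smul_right, h.symm y₁ x₀, h.symm y x₀, a3, hxy, star_zero, mul_zero, sub_zero]
  · rw [map_smul] at hg2
    rw [← hg2, smul_smul, mul_inv_cancel₀ hsκ, one_smul]
  · rw [a1]
    exact one_ne_zero

/-! ### Row psu-G3 -/

/-- The stabilizer of the point `⟨x₀⟩`. -/
def stab (h : Herm F V) (x₀ : V) : Subgroup (SU h) where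
  carrier := {g | ∃ c : F, c ≠ 0 ∧ g.1 x₀ = c • x₀}
  mul_mem' := by
    rintro a b ⟨c, hc, h1⟩ ⟨d, hd, h2⟩
    exact ⟨d * c, mul_ne_zero hd hc, by rw [SU.mul_apply, h2, map_smul, h1, smul_smul]⟩
  one_mem' := ⟨1, one_ne_zero, by rw [SU.one_apply, one_smul]⟩
  inv_mem' := by
    rintro a ⟨c, hc, h1⟩
    refine ⟨c⁻¹, inv_ne_zero hc, ?_⟩
    have h2 := SU.inv_apply a x₀
    rw [h1, map_smul] at h2
    have h3 := congrArg (fun z => c⁻¹ • z) h2
    simpa only [smul_smul, inv_mul_cancel₀ hc, one_smul] using h3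

omit [Finite F] [FiniteDimensional F V] in
theorem G3_iso (h : Herm F V) {x₀ w : V} (hx : h.f x₀ x₀ = 0) (hw : h.f w x₀ = 1) (b : F) :
    h.f (w + b • x₀) (w + b • x₀) = h.f w w + (b + star b) := by
  have h1 : h.f x₀ w = 1 := by rw [h.symm w x₀, hw, star_one]
  rw [h.add_left, h.add_right, h.add_right, h.smul_left, h.smul_left, h.smul_right, h.smul_right,
    hx, hw, h1]
  ring

omit [FiniteDimensional F V] in
/-- an isotropic vector `w + b x₀` -/
theorem G3_exists_iso (hF : IsUF F q) (h : Herm F V) {x₀ w : V} (hx : h.f x₀ x₀ = 0)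
    (hw : h.f w x₀ = 1) : ∃ b : F, h.f (w + b • x₀) (w + b • x₀) = 0 := by
  obtain ⟨b, hb⟩ := exists_trace hF (a := -h.f w w) (by rw [star_neg, h.self_star])
  refine ⟨b, ?_⟩
  rw [G3_iso h hx hw, hb, add_neg_cancel]

/-- the stabilizer of `x` is transitive on the isotropic points not orthogonal to it -/
theorem G3_trans (h : Herm F V) {x y y' : V} (hx : h.f x x = 0) (hy : h.f y y = 0)
    (hy' : h.f y' y' = 0) (h1 : h.f y x ≠ 0) (h2 : h.f y' x ≠ 0) :
    ∃ g : SU h, g.1 x = x ∧ ∃ c : F, c ≠ 0 ∧ g.1 y = c • y' := by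
  obtain ⟨g, hg, hgx, hgy, -⟩ := exists_move h (x₀ := x) (y := (h.f y x)⁻¹ • y)
    (y' := (h.f y' x)⁻¹ • y') hx
    (by rw [h.smul_left, h.smul_right, hy, mul_zero, mul_zero])
    (by rw [h.smul_left, h.smul_right, hy', mul_zero, mul_zero])
    (by rw [h.smul_left, inv_mul_cancel₀ h1]) (by rw [h.smul_left, inv_mul_cancel₀ h2])
  refine ⟨⟨g, hg⟩, hgx, h.f y x * (h.f y' x)⁻¹, mul_ne_zero h1 (inv_ne_zero h2), ?_⟩
  show g y = _
  rw [map_smul] at hgy
  have h3 := congrArg (fun z => h.f y x • z) hgy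
  simp only [smul_smul] at h3
  rw [mul_inv_cancel₀ h1, one_smul] at h3
  exact h3

omit [Finite F] [FiniteDimensional F V] in
/-- the stabilizer of `⟨m x₀⟩` is in `M` -/
theorem G3_conj (h : Herm F V) {x₀ z : V} (M : Subgroup (SU h)) (hM : stab h x₀ ≤ M) {m : SU h}
    (hm : m ∈ M) {c : F} (hc : c ≠ 0) (hmz : m.1 x₀ = c • z) {s : SU h} {d : F} (hd : d ≠ 0)
    (hs : s.1 z = d • z) : s ∈ M := by
  have h1 : m⁻¹ * s * m ∈ stab h x₀ := by
    refine ⟨d, hd, ?_⟩
    rw [SU.mul_apply, SU.mul_apply, hmz, map_smul, hs, smul_comm, map_smul, ← hmz, SU.inv_apply]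
  have h2 := hM h1
  have h3 : s = m * (m⁻¹ * s * m) * m⁻¹ := by group
  rw [h3]
  exact M.mul_mem (M.mul_mem hm h2) (M.inv_mem hm)

theorem G3_orb (hF : IsUF F q) (h : Herm F V) {x₀ : V} (h0 : x₀ ≠ 0)
    (hx : h.f x₀ x₀ = 0) (M : Subgroup (SU h)) (hM : stab h x₀ ≤ M) {y : V}
    (hy : h.f y y = 0) (hyx : h.f y x₀ ≠ 0) (hO : ∃ m ∈ M, ∃ c : F, c ≠ 0 ∧ m.1 x₀ = c • y) :
    ∀ z : V, z ≠ 0 → h.f z z = 0 → ∃ m ∈ M, ∃ c : F, c ≠ 0 ∧ m.1 x₀ = c • z := by
  have key : ∀ z : V, h.f z z = 0 → h.f z x₀ ≠ 0 →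
      ∃ m ∈ M, ∃ c : F, c ≠ 0 ∧ m.1 x₀ = c • z := by
    intro z hz hzx
    obtain ⟨m, hm, c, hc, hmc⟩ := hO
    obtain ⟨g, hg, d, hd, hgd⟩ := G3_trans h hx hy hz hyx hzx
    have hgM : g ∈ M := hM ⟨1, one_ne_zero, by rw [hg, one_smul]⟩
    refine ⟨g * m, M.mul_mem hgM hm, c * d, mul_ne_zero hc hd, ?_⟩
    rw [SU.mul_apply, hmc, map_smul, hgd, smul_smul]
  intro z hz0 hz
  by_cases hzx : h.f z x₀ = 0
  swap
  · exact key z hz hzx
  by_cases hpar : ∃ c : F, z = c • x₀
  · obtain ⟨c, rfl⟩ := hpar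
    have hc : c ≠ 0 := by
      rintro rfl
      exact hz0 (zero_smul _ _)
    refine ⟨1, M.one_mem, c⁻¹, inv_ne_zero hc, ?_⟩
    rw [SU.one_apply, smul_smul, inv_mul_cancel₀ hc, one_smul]
  · push Not at hpar
    obtain ⟨w, hw1, hw2⟩ := exists_solve h h0 hpar 1 1
    obtain ⟨b, hb⟩ := G3_exists_iso hF h hx hw1
    have hxz : h.f x₀ z = 0 := by rw [h.symm z x₀, hzx, star_zero]
    have h1 : h.f (w + b • x₀) x₀ = 1 := by rw [h.add_left, h.smul_left, hx, hw1]; ring
    have h2 : h.f (w + b • x₀) z = 1 := by rw [h.add_left, h.smul_left, hxz, hw2]; ring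
    have h3 : h.f x₀ (w + b • x₀) = 1 := by rw [h.symm (w + b • x₀) x₀, h1, star_one]
    have h4 : h.f z (w + b • x₀) = 1 := by rw [h.symm (w + b • x₀) z, h2, star_one]
    obtain ⟨m, hm, c, hc, hmc⟩ := key (w + b • x₀) hb (by rw [h1]; exact one_ne_zero)
    obtain ⟨g, hg, d, hd, hgd⟩ := G3_trans h hb hx hz (by rw [h3]; exact one_ne_zero)
      (by rw [h4]; exact one_ne_zero)
    refine ⟨g, G3_conj h M hM hm hc hmc one_ne_zero (by rw [hg, one_smul]), d, hd, hgd⟩

omit [Finite F] [FiniteDimensional F V] in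
theorem G3_top (h : Herm F V) {x₀ : V} (h0 : x₀ ≠ 0)
    (hx : h.f x₀ x₀ = 0) (M : Subgroup (SU h)) (hM : stab h x₀ ≤ M)
    (hO : ∀ z : V, z ≠ 0 → h.f z z = 0 → ∃ m ∈ M, ∃ c : F, c ≠ 0 ∧ m.1 x₀ = c • z) :
    M = ⊤ := by
  rw [eq_top_iff]
  rintro g -
  obtain ⟨m, hm, c, hc, hmc⟩ := hO (g.1 x₀) (fun h1 => h0 (g.1.map_eq_zero_iff.1 h1))
    (by rw [SU.isom, hx])
  have h1 : g⁻¹ * m ∈ stab h x₀ := by
    refine ⟨c, hc, ?_⟩
    rw [SU.mul_apply, hmc, map_smul, SU.inv_apply]
  have h2 : g = m * (g⁻¹ * m)⁻¹ := by group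
  rw [h2]
  exact M.mul_mem hm (M.inv_mem (hM h1))

/-- The stabilizer of an isotropic point is transitive on the isotropic points not orthogonal to it
(`exists_move`, after scaling). The stabilizer is not all of `SU h`: there is an isotropic `y` with `h y x₀ = 1` (from
`exists_one`, add a multiple of `x₀`, `exists_trace`) and an element of `SU h` which moves `⟨x₀⟩` to `⟨y⟩`: take an
isotropic `z` with `h z x₀ = 1` and `h z y ≠ 0` (for example: `y + κ • x₀`, `κ + star κ = 0`, `κ ≠ 0`) and use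
`exists_move` with centre `z` for `x₀` and a multiple of `y`.
Let `M` contain the stabilizer and another element `g`, `y = g x₀`. (i) `h y x₀ ≠ 0`: then every isotropic point not
orthogonal to `x₀` is in the `M`-orbit of `⟨x₀⟩`. An isotropic `z ⊥ x₀`, `z ∉ F x₀`: take `w` with `h w x₀ = 1 = h w z`
(`exists_solve`), `y' = w + b • x₀`, `b + star b = - h w w`; it is isotropic, not orthogonal to `x₀` and to `z`,
`⟨y'⟩ = ⟨m x₀⟩`, `m ∈ M`, and the stabilizer of `⟨y'⟩`, which is contained in `M` (a conjugate by `m`), moves `⟨x₀⟩` to `⟨z⟩`. So `M` is transitive on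
the isotropic points; for `g' ∈ SU h` take `m ∈ M` with `⟨m x₀⟩ = ⟨g' x₀⟩`. (ii) `h y x₀ = 0`: `exists_move_orth`
gives `y'`, `g'` in the stabilizer, `g' y = c y'`; so `⟨y'⟩ = ⟨g' g x₀⟩` and `g⁻¹ y'` is in the orbit up to scalars and
`h (g⁻¹ y') x₀ = h y' y ≠ 0`: now (i). -/
theorem stab_coatom (hF : IsUF F q) (h : Herm F V) {x₀ : V} (h0 : x₀ ≠ 0)
    (hx : h.f x₀ x₀ = 0) : IsCoatom (stab h x₀) := by
  refine ⟨?_, ?_⟩
  · obtain ⟨y₀, hy₀⟩ := exists_one h h0
    obtain ⟨b, hb⟩ := G3_exists_iso hF h hx hy₀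
    obtain ⟨κ, hκ, hκs⟩ := exists_skew hF
    have h1 : h.f (y₀ + b • x₀) x₀ = 1 := by rw [h.add_left, h.smul_left, hx, hy₀]; ring
    have h3 : h.f x₀ (y₀ + b • x₀) = 1 := by rw [h.symm (y₀ + b • x₀) x₀, h1, star_one]
    set y := y₀ + b • x₀ with hy
    have hz : h.f (y + κ • x₀) (y + κ • x₀) = 0 := by
      rw [G3_iso h hx h1, hb, hκs, add_zero]
    have h4 : h.f x₀ (y + κ • x₀) ≠ 0 := by
      rw [h.add_right, h.smul_right, hx, h3, mul_zero, add_zero]
      exact one_ne_zero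
    have h5 : h.f y (y + κ • x₀) ≠ 0 := by
      rw [h.add_right, h.smul_right, hb, h1, mul_one, zero_add]
      exact star_ne_zero.2 hκ
    obtain ⟨g, hg, c, hc, hgc⟩ := G3_trans h hz hx hb h4 h5
    intro htop
    have h6 : g ∈ stab h x₀ := by
      rw [htop]
      exact Subgroup.mem_top g
    obtain ⟨d, hd, hgd⟩ := h6
    rw [hgd] at hgc
    have h7 := congrArg (fun v => h.f v x₀) hgc
    simp only [h.smul_left, hx, h1, mul_zero, mul_one] at h7
    exact hc h7.symm
  · intro M hM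
    obtain ⟨hM1, hM2⟩ := lt_iff_le_not_ge.1 hM
    obtain ⟨g, hgM, hg⟩ := Set.not_subset.1 hM2
    have hy0 : g.1 x₀ ≠ 0 := fun h1 => h0 (g.1.map_eq_zero_iff.1 h1)
    have hyy : h.f (g.1 x₀) (g.1 x₀) = 0 := by rw [SU.isom, hx]
    have hO : ∃ m ∈ M, ∃ c : F, c ≠ 0 ∧ m.1 x₀ = c • (g.1 x₀) :=
      ⟨g, hgM, 1, one_ne_zero, (one_smul _ _).symm⟩
    refine G3_top h h0 hx M hM1 ?_
    by_cases hyx : h.f (g.1 x₀) x₀ = 0
    swap
    · exact G3_orb hF h h0 hx M hM1 hyy hyx hO
    have hne : ∀ c : F, g.1 x₀ ≠ c • x₀ := by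
      intro c hc
      by_cases hc0 : c = 0
      · rw [hc0, zero_smul] at hc
        exact hy0 hc
      · exact hg ⟨c, hc0, hc⟩
    obtain ⟨y', g', c, hg', hgx, hc, hgy, hy'⟩ := exists_move_orth hF h h0 hx hyy hyx hne
    have hg'M : (⟨g', hg'⟩ : SU h) ∈ M := hM1 ⟨1, one_ne_zero, by
      rw [one_smul]
      exact hgx⟩
    have hy'y' : h.f y' y' = 0 := by
      have h1 := (mem_SU.1 hg').1 (g.1 x₀) (g.1 x₀)
      rw [hgy, hyy, h.smul_left, h.smul_right] at h1
      rcases mul_eq_zero.1 h1 with h2 | h2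
      · exact absurd h2 hc
      · exact (mul_eq_zero.1 h2).resolve_left (star_ne_zero.2 hc)
    refine G3_orb hF h h0 hx M hM1 (y := (g⁻¹).1 y') (by rw [SU.isom, hy'y']) ?_
      ⟨g⁻¹ * ⟨g', hg'⟩ * g, M.mul_mem (M.mul_mem (M.inv_mem hgM) hg'M) hgM, c, hc, ?_⟩
    · have h1 := SU.isom (g⁻¹) y' (g.1 x₀)
      rw [SU.inv_apply] at h1
      rw [h1]
      exact hy'
    · rw [SU.mul_apply, SU.mul_apply]
      have h2 : (⟨g', hg'⟩ : SU h).1 (g.1 x₀) = c • y' := hgy
      rw [h2, map_smul]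

/-! ### Row psu-G4 -/

/-- The unipotent radical. -/
def rad (h : Herm F V) (x₀ : V) : Subgroup (SU h) where
  carrier := {g | g.1 x₀ = x₀ ∧ ∀ y, h.f y x₀ = 0 → ∃ c : F, g.1 y = y + c • x₀}
  mul_mem' := by
    rintro a b ⟨h1, h2⟩ ⟨h3, h4⟩
    refine ⟨by rw [SU.mul_apply, h3, h1], fun y hy => ?_⟩
    obtain ⟨c, hc⟩ := h4 y hy
    obtain ⟨d, hd⟩ := h2 y hy
    refine ⟨d + c, ?_⟩
    rw [SU.mul_apply, hc, map_add, map_smul, h1, hd, add_smul, add_assoc]
  one_mem' := ⟨rfl, fun y _ => ⟨0, by rw [SU.one_apply, zero_smul, add_zero]⟩⟩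
  inv_mem' := by
    rintro a ⟨h1, h2⟩
    have h3 : (a⁻¹).1 x₀ = x₀ := by
      have := SU.inv_apply a x₀
      rwa [h1] at this
    refine ⟨h3, fun y hy => ?_⟩
    obtain ⟨c, hc⟩ := h2 y hy
    refine ⟨-c, ?_⟩
    have h4 := SU.inv_apply a y
    rw [hc, map_add, map_smul, h3] at h4
    rw [neg_smul, ← sub_eq_add_neg]
    exact eq_sub_of_add_eq h4

omit [Finite F] [FiniteDimensional F V] in
theorem G4_pow (h : Herm F V) {x₀ : V} {g : SU h} (hg : g ∈ rad h x₀) (v : V) (m : ℕ) :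
    (g ^ m).1 v = v + m • (g.1 v - v) +
      (m.choose 2) • (g.1 (g.1 v - v) - (g.1 v - v)) := by
  obtain ⟨h1, h2⟩ := hg
  set u := g.1 v - v with hu
  have hu0 : h.f u x₀ = 0 := by
    have h3 := SU.isom g v x₀
    rw [h1] at h3
    rw [hu, h.sub_left, h3, sub_self]
  obtain ⟨c, hc⟩ := h2 u hu0
  have hgu : g.1 (g.1 u - u) = g.1 u - u := by
    rw [hc, add_sub_cancel_left, map_smul, h1]
  have hgv : g.1 v = v + u := by rw [hu, add_sub_cancel]
  induction m with
  | zero =>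
    rw [pow_zero, SU.one_apply, zero_smul, Nat.choose_zero_succ, zero_smul, add_zero, add_zero]
  | succ m ih =>
    rw [pow_succ', SU.mul_apply, ih, map_add, map_add, map_nsmul, map_nsmul, hgu, hgv,
      Nat.choose_succ_succ' m 1, Nat.choose_one_right]
    have h3 : g.1 u = u + (g.1 u - u) := by rw [add_sub_cancel]
    generalize g.1 u - u = w at h3 ⊢
    rw [h3, smul_add, add_smul, add_smul, one_smul]
    abel

omit [Finite F] [StarRing F] [FiniteDimensional F V] in
theorem G4_mul (p : ℕ) [CharP F p] {n : ℕ} (hn : p ∣ n) (v : V) : n • v = 0 := by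
  have h1 : ((n : ℕ) : F) = 0 := (CharP.cast_eq_zero_iff F p n).2 hn
  rw [← Nat.cast_smul_eq_nsmul F, h1, zero_smul]

/-- `(g - 1) V ⊆ x₀^⊥` (`g` fixes `x₀`), `(g - 1) x₀^⊥ ⊆ F x₀`, `(g - 1) x₀ = 0`, so `(g - 1) ^ 3 = 0` and
`g ^ (p ^ 2) = 1` (`p ^ 2 ≥ 3`). -/
theorem rad_pgroup (h : Herm F V) {x₀ : V} (p : ℕ) [Fact p.Prime] [CharP F p] :
    IsPGroup p (rad h x₀) := by
  have hp : p.Prime := Fact.out
  rintro ⟨g, hg⟩
  refine ⟨2, Subtype.ext (SU.ext fun v => ?_)⟩
  show (g ^ p ^ 2).1 v = v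
  have h2 : 2 ≠ p ^ 2 := by
    have h3 := hp.two_le
    nlinarith
  rw [G4_pow h hg v (p ^ 2), G4_mul (F := F) p (dvd_pow_self p two_ne_zero),
    G4_mul (F := F) p (hp.dvd_choose_pow two_ne_zero h2), add_zero, add_zero]

theorem rad_conj (h : Herm F V) {x₀ : V} : ∀ b ∈ stab h x₀, ∀ g ∈ rad h x₀, b⁻¹ * g * b ∈ rad h x₀ := by
  rintro b ⟨c, hc, hb⟩ g ⟨h1, h2⟩
  have hb' : (b⁻¹).1 x₀ = c⁻¹ • x₀ := by
    have h3 := SU.inv_apply b x₀
    rw [hb, map_smul] at h3
    have h4 := congrArg (fun z => c⁻¹ • z) h3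
    simpa only [smul_smul, inv_mul_cancel₀ hc, one_smul] using h4
  refine ⟨?_, fun y hy => ?_⟩
  · rw [SU.mul_apply, SU.mul_apply, hb, map_smul, h1, map_smul, hb', smul_smul,
      mul_inv_cancel₀ hc, one_smul]
  · have h3 : h.f (b.1 y) x₀ = 0 := by
      have h4 := SU.isom b y x₀
      rw [hb, h.smul_right, hy] at h4
      rcases mul_eq_zero.1 h4 with h5 | h5
      · exact absurd (star_eq_zero.1 h5) hc
      · exact h5
    obtain ⟨d, hd⟩ := h2 _ h3
    refine ⟨d * c⁻¹, ?_⟩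
    rw [SU.mul_apply, SU.mul_apply, hd, map_add, map_smul, SU.inv_apply, hb', smul_smul]

/-- `x₀^⊥` has dimension `≥ 2`, so it contains `w ∉ F x₀`. For `c : F` choose `a` with `a + star a = - h (c w) (c w)`;
the Eichler transformations with `v = c • w` are in `rad` and are different for different `c` (evaluate at `x` with
`h x x₀ = 1`). So `|rad| ≥ |F| = q ^ 2 ≥ p ^ 2`, as `q` is a power of `p`. (`SU h` is finite.) -/
theorem rad_card (hF : IsUF F q) (h : Herm F V) (hn : 3 ≤ finrank F V) {x₀ : V} (h0 : x₀ ≠ 0)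
    (hx : h.f x₀ x₀ = 0) (p : ℕ) [Fact p.Prime] [CharP F p] : p ^ 2 ≤ Nat.card (rad h x₀) := by
  classical
  have hp : p.Prime := Fact.out
  -- an orthogonal vector which is not a multiple of `x₀`
  obtain ⟨w, hw, hwx⟩ : ∃ w : V, h.f w x₀ = 0 ∧ ∀ c : F, w ≠ c • x₀ := by
    by_contra hno
    push Not at hno
    have h1 : LinearMap.ker (h.toDual x₀) ≤ Submodule.span F {x₀} := by
      intro w hw
      obtain ⟨c, hc⟩ := hno w hw
      rw [hc]
      exact Submodule.smul_mem _ c (Submodule.mem_span_singleton_self x₀)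
    have h2 := Submodule.finrank_mono h1
    have h3 : finrank F (Submodule.span F {x₀}) ≤ 1 := (finrank_span_singleton h0).le
    have h4 := LinearMap.finrank_range_add_finrank_ker (h.toDual x₀)
    have h5 : finrank F (LinearMap.range (h.toDual x₀)) ≤ 1 := by
      have h6 := Submodule.finrank_le (LinearMap.range (h.toDual x₀))
      rwa [Module.finrank_self] at h6
    omega
  obtain ⟨x, hx1⟩ := exists_one h h0
  -- the Eichler transformations
  have key : ∀ c : F, ∃ (g : rad h x₀) (a : F), g.1.1 x = x + c • w - h.f x (c • w) • x₀ + a • x₀ := by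
    intro c
    have hv : h.f (c • w) x₀ = 0 := by rw [h.smul_left, hw, mul_zero]
    obtain ⟨a, ha⟩ := exists_trace hF (a := -h.f (c • w) (c • w)) (by
      rw [star_neg, h.self_star])
    obtain ⟨g, hg, hgx⟩ := exists_eichler h (v := c • w) (a := a) hx hv (by
      rw [ha, neg_add_cancel])
    have hx0v : h.f x₀ (c • w) = 0 := by rw [h.symm, hv, star_zero]
    refine ⟨⟨⟨g, hg⟩, ?_, fun y hy => ⟨-h.f y (c • w), ?_⟩⟩, a, ?_⟩
    · show g x₀ = x₀
      rw [hgx, hx, hx0v, zero_smul, zero_smul, mul_zero, zero_smul, add_zero, sub_zero, add_zero]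
    · show g y = _
      rw [hgx, hy, zero_smul, mul_zero, zero_smul, add_zero, add_zero, neg_smul, sub_eq_add_neg]
    · show g x = _
      rw [hgx, hx1, one_smul, mul_one]
  choose g a hg using key
  have hinj : Function.Injective g := by
    intro c c' hcc
    have h1 := hg c
    rw [hcc, hg c'] at h1
    by_contra hne
    have hd : c - c' ≠ 0 := sub_ne_zero.2 hne
    have h2 : (c - c') • w =
        (h.f x (c • w) - h.f x (c' • w) + a c' - a c) • x₀ := by
      rw [sub_smul, sub_smul, add_smul, sub_smul]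
      have h3 : x + c' • w - h.f x (c' • w) • x₀ + a c' • x₀ -
          (x + c • w - h.f x (c • w) • x₀ + a c • x₀) = 0 := sub_eq_zero.2 h1
      rw [← sub_eq_zero, ← neg_eq_zero, ← h3]
      abel
    refine hwx ((c - c')⁻¹ * (h.f x (c • w) - h.f x (c' • w) + a c' - a c)) ?_
    rw [mul_smul, ← h2, smul_smul, inv_mul_cancel₀ hd, one_smul]
  have hfin : Finite (rad h x₀) := by
    have : Finite V := Module.finite_of_finite F
    refine Finite.of_injective (fun g : rad h x₀ => (g.1.1 : V → V)) ?_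
    intro g g' hgg
    exact Subtype.ext (SU.ext fun v => congrFun hgg v)
  have h1 := Nat.card_le_card_of_injective g hinj
  rw [hF.card] at h1
  refine le_trans ?_ h1
  have hpq : p ∣ q := by
    let _ : Fintype F := Fintype.ofFinite F
    obtain ⟨n, -, hn⟩ := FiniteField.card F p
    rw [← Nat.card_eq_fintype_card, hF.card] at hn
    have h2 : p ∣ q ^ 2 := by
      rw [hn]
      exact dvd_pow_self p n.ne_zero
    exact hp.dvd_of_dvd_pow h2
  exact Nat.pow_le_pow_left (Nat.le_of_dvd (by have := hF.three_le; omega) hpq) 2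

/-! ### Row psu-G5 -/

/-- As `exists_fixed_point` in `L/B.lean` (row B3, copy the proof): `x₀` isotropic (`exists_isotropic`), `B` = image of `stab h x₀`
in `G`, a maximal subgroup since `stab h x₀` contains the kernel of `π`; `N` = image of `rad h x₀` (`π` is injective on it: a
scalar which fixes `x₀` is `1`). `not_cov_of_pgroup`, `le_conj_of_coatom` (`L/A.lean`): `A ≤ conj B x`,
`x = π k`, and `k⁻¹ x₀` is a fixed isotropic point of `A`. -/
theorem exists_fixed [Finite G] [IsSimpleGroup G] (hF : IsUF F q) {h : Herm F V}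
    {π : SU h →* G} (hπ : IsProjU h π) (hn : 3 ≤ finrank F V) {A : Subgroup G}
    (hA : GPermutable A) (hAt : A ≠ ⊤) :
    ∃ x₀ : V, x₀ ≠ 0 ∧ h.f x₀ x₀ = 0 ∧ ∀ g : SU h, π g ∈ A → ∃ c : F, g.1 x₀ = c • x₀ := by
  obtain ⟨x₀, h0, hx⟩ := exists_isotropic hF h (by omega)
  obtain ⟨p, hchar⟩ := CharP.exists F
  have hp : p.Prime := (CharP.char_is_prime_or_zero F p).resolve_right
    (fun h => CharP.char_ne_zero_of_finite F p h)
  have : Fact p.Prime := ⟨hp⟩
  have hScoat : IsCoatom (stab h x₀) := stab_coatom hF h h0 hx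
  have hker : ∀ g, π g = 1 → g ∈ stab h x₀ := by
    intro g hg
    obtain ⟨c, hc⟩ := (hπ.ker g).1 hg
    refine ⟨c, ?_, hc x₀⟩
    rintro rfl
    have h1 := hc x₀
    rw [zero_smul] at h1
    exact h0 (g.1.map_eq_zero_iff.1 h1)
  have hmap : ∀ g, π g ∈ (stab h x₀).map π → g ∈ stab h x₀ := by
    rintro g ⟨s, hs, hsg⟩
    have h1 : π (s⁻¹ * g) = 1 := by
      rw [map_mul, map_inv, hsg, inv_mul_cancel]
    have h2 := (stab h x₀).mul_mem hs (hker _ h1)
    rwa [mul_inv_cancel_left] at h2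
  have hcoat : IsCoatom ((stab h x₀).map π) := by
    refine ⟨fun h => hScoat.1 ?_, fun C hC => ?_⟩
    · rw [eq_top_iff]
      intro g _
      exact hmap g (h ▸ Subgroup.mem_top _)
    · have h1 : stab h x₀ < C.comap π := by
        refine lt_of_le_of_ne (fun g hg => hC.le (Subgroup.mem_map_of_mem π hg)) fun h => ?_
        apply hC.ne
        rw [h]
        exact Subgroup.map_comap_eq_self_of_surjective hπ.surj C
      have h2 := hScoat.2 _ h1
      rw [← Subgroup.map_comap_eq_self_of_surjective hπ.surj C, h2]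
      exact Subgroup.map_top_of_surjective π hπ.surj
  have hrs : rad h x₀ ≤ stab h x₀ := by
    intro g hg
    exact ⟨1, one_ne_zero, by rw [hg.1, one_smul]⟩
  have hinj : Set.InjOn π (rad h x₀ : Set (SU h)) := by
    intro a ha b hb hab
    have h1 : π (a⁻¹ * b) = 1 := by rw [map_mul, map_inv, hab, inv_mul_cancel]
    obtain ⟨c, hc⟩ := (hπ.ker _).1 h1
    have h2 : a⁻¹ * b ∈ rad h x₀ := (rad h x₀).mul_mem ((rad h x₀).inv_mem ha) hb
    have h3 : (a⁻¹ * b).1 x₀ = x₀ := h2.1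
    rw [hc x₀] at h3
    have h4 : c = 1 := by
      have h5 : (c - 1) • x₀ = 0 := by rw [sub_smul, one_smul, h3, sub_self]
      rcases smul_eq_zero.1 h5 with h6 | h6
      · exact sub_eq_zero.1 h6
      · exact absurd h6 h0
    have h5 : a⁻¹ * b = 1 := by
      apply SU.ext
      intro x
      rw [hc x, h4, one_smul]
      rfl
    exact (inv_mul_eq_one.1 h5)
  have hncov : ¬ Cov A ((stab h x₀).map π) := by
    refine not_cov_of_pgroup hA hAt (N := (rad h x₀).map π) (p := p) ?_ ?_ ?_ ?_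
    · exact Subgroup.map_mono hrs
    · rintro _ ⟨s, hs, rfl⟩ _ ⟨f, hf, rfl⟩
      exact ⟨s⁻¹ * f * s, rad_conj h s hs f hf, by rw [map_mul, map_mul, map_inv]⟩
    · exact (rad_pgroup h p).map π
    · have h1 : Nat.card ((rad h x₀).map π) = Nat.card (rad h x₀) :=
        Nat.card_image_of_injOn hinj
      rw [h1]
      exact rad_card hF h hn h0 hx p
  obtain ⟨y, hy⟩ := le_conj_of_coatom hA hcoat hncov
  obtain ⟨k, rfl⟩ := hπ.surj y
  refine ⟨(k⁻¹).1 x₀, ?_, ?_, fun g hg => ?_⟩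
  · intro h1
    exact h0 ((k⁻¹).1.map_eq_zero_iff.1 h1)
  · rw [SU.isom]
    exact hx
  · have h1 := mem_conj.1 (hy hg)
    have h2 : π (k * g * k⁻¹) ∈ (stab h x₀).map π := by
      rw [map_mul, map_mul, map_inv]
      exact h1
    obtain ⟨c, hc, h3⟩ := hmap _ h2
    refine ⟨c, ?_⟩
    rw [SU.mul_apply, SU.mul_apply] at h3
    have h4 := congrArg (fun z => (k⁻¹).1 z) h3
    simp only [map_smul] at h4
    rw [SU.inv_apply] at h4
    exact h4

/-! ### Row psu-G6 -/

omit [Finite F] [FiniteDimensional F V] in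
theorem G6_iso (h : Herm F V) {x w : V} {b : F} (hx : h.f x x = 0) (hwx : h.f w x = 1)
    (hb : b + star b = -h.f w w) : h.f (w + b • x) (w + b • x) = 0 := by
  have hxw : h.f x w = 1 := by rw [h.symm w x, hwx, star_one]
  rw [h.add_left, h.add_right, h.add_right, h.smul_left, h.smul_right, h.smul_left, h.smul_right, hwx,
    hxw, hx, mul_zero, mul_zero, mul_one, mul_one, add_zero]
  have e : h.f w w + star b + b = h.f w w + (b + star b) := by ring
  rw [e, hb, add_neg_cancel]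

theorem G6_eigen (hF : IsUF F q) (h : Herm F V) (z : SU h) (hz : ∀ g : SU h, g * z = z * g) {x : V}
    (hx0 : x ≠ 0) (hx : h.f x x = 0) : ∃ l : F, z.1 x = l • x := by
  obtain ⟨κ, hκ0, hκ⟩ := exists_skew hF
  obtain ⟨g, hg, hgx⟩ := exists_eichler h (x₀ := x) (v := 0) (a := κ) hx (h.zero_left x)
    (by rw [h.zero_left, add_zero]; exact hκ)
  obtain ⟨y, hy⟩ := exists_one h hx0
  have e : g (z.1 y) = z.1 (g y) := congrArg (fun u : SU h => u.1 y) (hz ⟨g, hg⟩)
  rw [hgx, hgx, smul_zero, smul_zero, h.zero_right, h.zero_right, zero_smul, add_zero, add_zero,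
    sub_zero, sub_zero, map_add, map_smul, hy, mul_one] at e
  have e1 : (κ * h.f (z.1 y) x) • x = κ • z.1 x := add_left_cancel e
  refine ⟨h.f (z.1 y) x, ?_⟩
  have e2 := congrArg (fun u => κ⁻¹ • u) e1
  simp only [smul_smul, ← mul_assoc, inv_mul_cancel₀ hκ0, one_mul, one_smul] at e2
  exact e2.symm

/-- two isotropic vectors which are not orthogonal -/
theorem G6_pair (hF : IsUF F q) (h : Herm F V) (z : SU h) (hz : ∀ g : SU h, g * z = z * g) {x y : V}
    (hx : h.f x x = 0) (hy : h.f y y = 0) (hxy : h.f x y ≠ 0) {l : F} (hl : z.1 x = l • x) :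
    z.1 y = l • y := by
  obtain ⟨κ, hκ0, hκ⟩ := exists_skew hF
  have hx0 : x ≠ 0 := by
    rintro rfl
    exact hxy (h.zero_left y)
  have hy0 : y ≠ 0 := by
    rintro rfl
    exact hxy (h.zero_right x)
  obtain ⟨m, hm⟩ := G6_eigen hF h z hz hy0 hy
  -- `a • y` with `h x (a • y) = 1`
  obtain ⟨a, ha⟩ : ∃ a : F, star a * h.f x y = 1 := ⟨star (h.f x y)⁻¹, by
    rw [star_star, inv_mul_cancel₀ hxy]⟩
  have ha0 : a ≠ 0 := by
    rintro rfl
    rw [star_zero, zero_mul] at ha
    exact zero_ne_one ha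
  have hay : h.f (a • y) (a • y) = 0 := by rw [h.smul_left, h.smul_right, hy, mul_zero, mul_zero]
  have hxay : h.f x (a • y) = 1 := by rw [h.smul_right, ha]
  have hiso : h.f (x + κ • (a • y)) (x + κ • (a • y)) = 0 :=
    G6_iso h hay hxay (by rw [hx, neg_zero, hκ])
  have hne : x + κ • (a • y) ≠ 0 := by
    intro h0
    have h1 : h.f (x + κ • (a • y)) (a • y) = 0 := by rw [h0, h.zero_left]
    rw [h.add_left, hxay, h.smul_left, hay, mul_zero, add_zero] at h1
    exact one_ne_zero h1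
  obtain ⟨μ, hμ⟩ := G6_eigen hF h z hz hne hiso
  rw [map_add, map_smul, map_smul, hl, hm, smul_add] at hμ
  -- pair with `x` and with `a • y`
  have h1 := congrArg (fun u => h.f u (a • y)) hμ
  simp only [h.add_left, h.smul_left, hxay, hay, hy, h.smul_right, mul_zero, add_zero, ha, mul_one] at h1
  have h2 := congrArg (fun u => h.f x u) hμ
  have hxy' : h.f x y = (star a)⁻¹ := eq_inv_of_mul_eq_one_right ha
  simp only [h.add_right, h.smul_right, hx, mul_zero, zero_add] at h2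
  have hsa : star a ≠ 0 := star_ne_zero.2 ha0
  have hsk : star κ ≠ 0 := star_ne_zero.2 hκ0
  have h3 : star m = star μ := by
    have h4 : star κ * (star a * (star m * h.f x y)) = star μ * (star κ * (star a * h.f x y)) := h2
    rw [hxy'] at h4
    field_simp at h4
    exact h4
  rw [hm, star_injective h3, ← h1]

/-- an isotropic vector with the value one at `w` -/
theorem G6_solve (hF : IsUF F q) (h : Herm F V) {x w : V} (hx0 : x ≠ 0) (hx : h.f x x = 0)
    (hw : ∀ c : F, w ≠ c • x) (hxw : h.f x w = 0) :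
    ∃ y : V, h.f y y = 0 ∧ h.f y x = 1 ∧ h.f y w = 1 := by
  obtain ⟨y, hy1, hy2⟩ := exists_solve h hx0 hw 1 1
  obtain ⟨b, hb⟩ := exists_trace hF (a := -h.f y y) (by rw [star_neg, h.self_star])
  refine ⟨y + b • x, G6_iso h hx hy1 hb, ?_, ?_⟩
  · rw [h.add_left, h.smul_left, hx, mul_zero, add_zero, hy1]
  · rw [h.add_left, h.smul_left, hxw, mul_zero, add_zero, hy2]

theorem G6_all (hF : IsUF F q) (h : Herm F V) (z : SU h) (hz : ∀ g : SU h, g * z = z * g) {x y : V}
    (hx0 : x ≠ 0) (hx : h.f x x = 0) (hy : h.f y y = 0) {l : F} (hl : z.1 x = l • x) :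
    z.1 y = l • y := by
  by_cases hxy : h.f x y = 0
  · by_cases hc : ∃ c : F, y = c • x
    · obtain ⟨c, rfl⟩ := hc
      rw [map_smul, hl, smul_comm]
    · obtain ⟨y', h1, h2, h3⟩ := G6_solve hF h hx0 hx (fun c hcy => hc ⟨c, hcy⟩) hxy
      have h4 : h.f x y' ≠ 0 := by
        rw [h.symm y' x, h2, star_one]
        exact one_ne_zero
      have h5 := G6_pair hF h z hz hx h1 h4 hl
      exact G6_pair hF h z hz h1 hy (by rw [h3]; exact one_ne_zero) h5
  · exact G6_pair hF h z hz hx hy hxy hl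

/-- The centre of `SU h` consists of scalars. Let `z` be central. For isotropic `x ≠ 0` and `κ ≠ 0`, `κ + star κ = 0`, `z` commutes
with `y ↦ y + (κ * h y x) • x` (`exists_eichler` with `v = 0`), so `z x = λ x` (take `y` with `h y x = 1`, and `z` is an isometry).
If `x, y` are isotropic, `h x y = 1`, then `x + κ • y` is isotropic, so `x` and `y` have the same `λ`; if
`h x y = 0`, `x, y` independent, use an isotropic `y'` not orthogonal to `x` and to `y` (see `stab_coatom`). Every vector is a sum of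
isotropic ones: if `h w w ≠ 0` take an isotropic `x` with `h x w ≠ 0` and `a` with `w + a • x` isotropic. -/
theorem center_scalar (hF : IsUF F q) (h : Herm F V) (hn : 2 ≤ finrank F V) (z : SU h)
    (hz : ∀ g : SU h, g * z = z * g) : ∃ c : F, ∀ x : V, z.1 x = c • x := by
  obtain ⟨x, hx0, hx⟩ := exists_isotropic hF h hn
  obtain ⟨l, hl⟩ := G6_eigen hF h z hz hx0 hx
  have hall : ∀ y, h.f y y = 0 → z.1 y = l • y := fun y hy => G6_all hF h z hz hx0 hx hy hl
  refine ⟨l, fun w => ?_⟩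
  by_cases hw : h.f w w = 0
  · exact hall w hw
  · -- an isotropic `y` with `h w y ≠ 0`
    obtain ⟨y, hy, hwy⟩ : ∃ y, h.f y y = 0 ∧ h.f w y ≠ 0 := by
      by_cases hxw : h.f x w = 0
      · obtain ⟨y, h1, -, h3⟩ := G6_solve hF h hx0 hx (w := w) (by
          rintro c rfl
          exact hw (by rw [h.smul_left, h.smul_right, hx, mul_zero, mul_zero])) hxw
        exact ⟨y, h1, by rw [h.symm y w, h3, star_one]; exact one_ne_zero⟩
      · refine ⟨x, hx, ?_⟩
        rw [h.symm x w]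
        exact star_ne_zero.2 hxw
    obtain ⟨b, hb⟩ := exists_trace hF (a := -h.f w w) (by rw [star_neg, h.self_star])
    obtain ⟨a, ha⟩ : ∃ a : F, star a * h.f w y = 1 := ⟨star (h.f w y)⁻¹, by
      rw [star_star, inv_mul_cancel₀ hwy]⟩
    have hay : h.f (a • y) (a • y) = 0 := by rw [h.smul_left, h.smul_right, hy, mul_zero, mul_zero]
    have hway : h.f w (a • y) = 1 := by rw [h.smul_right, ha]
    have h1 := hall _ (G6_iso h hay hway hb)
    have h2 := hall _ hay
    rw [map_add, map_smul, h2, smul_add, smul_comm l b] at h1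
    exact add_right_cancel h1

/-! ### Row psu-G7 -/

/-- The standard hermitian form on `F ^ n`. -/
def G7_form (F : Type*) [Field F] [StarRing F] (n : ℕ) : Herm F (Fin n → F) where
  f x y := x ⬝ᵥ star y
  add_left x y z := add_dotProduct x y (star z)
  smul_left c x y := by rw [smul_dotProduct, smul_eq_mul]
  symm x y := by rw [← Matrix.star_dotProduct_star, star_star]
  nondeg x hx := by
    funext i
    have h1 := hx (Pi.single i 1)
    have h2 : star (Pi.single i (1 : F) : Fin n → F) = Pi.single i 1 := by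
      rw [← Pi.single_star, star_one]
    rw [h2, dotProduct_single, mul_one] at h1
    exact h1

omit [Finite F] in
theorem G7_form_mulVec {n : ℕ} (M : Matrix (Fin n) (Fin n) F) (x y : Fin n → F) :
    (G7_form F n).f (M.mulVec x) (M.mulVec y) = star y ⬝ᵥ ((star M * M).mulVec x) := by
  show (M.mulVec x) ⬝ᵥ star (M.mulVec y) = _
  rw [Matrix.star_mulVec, dotProduct_comm, ← Matrix.dotProduct_mulVec, Matrix.mulVec_mulVec,
    Matrix.star_eq_conjTranspose]

omit [Finite F] in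
/-- A matrix is unitary if it preserves the form. -/
theorem G7_isom_iff {n : ℕ} (M : Matrix (Fin n) (Fin n) F) :
    (∀ x y, (G7_form F n).f (M.mulVec x) (M.mulVec y) = (G7_form F n).f x y) ↔ star M * M = 1 := by
  constructor
  · intro hM
    ext i j
    have h1 := hM (Pi.single j 1) (Pi.single i 1)
    rw [G7_form_mulVec] at h1
    have h2 : star (Pi.single i (1 : F) : Fin n → F) = Pi.single i 1 := by
      rw [← Pi.single_star, star_one]
    have h3 : (G7_form F n).f (Pi.single j 1) (Pi.single i 1) =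
        (Pi.single j (1 : F) : Fin n → F) ⬝ᵥ star (Pi.single i (1 : F) : Fin n → F) := rfl
    rw [h3, h2, single_dotProduct, one_mul, Matrix.mulVec_single_one, dotProduct_single,
      mul_one] at h1
    rw [Matrix.one_apply]
    simpa [Pi.single_apply] using h1
  · intro hM x y
    rw [G7_form_mulVec, hM, Matrix.one_mulVec, dotProduct_comm]
    rfl

/-- The matrix of an element of `SU`. -/
def G7_hom (F : Type*) [Field F] [StarRing F] (n : ℕ) :
    SU (G7_form F n) →* Matrix.specialUnitaryGroup (Fin n) F where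
  toFun g := ⟨LinearMap.toMatrix' (g.1 : (Fin n → F) →ₗ[F] (Fin n → F)), by
    rw [Matrix.mem_specialUnitaryGroup_iff]
    constructor
    · rw [Matrix.mem_unitaryGroup_iff', ← G7_isom_iff]
      intro x y
      rw [LinearMap.toMatrix'_mulVec, LinearMap.toMatrix'_mulVec]
      exact g.2.1 x y
    · rw [LinearMap.det_toMatrix', ← LinearEquiv.coe_det, g.2.2, Units.val_one]⟩
  map_one' := by
    apply Subtype.ext
    exact LinearMap.toMatrix'_one
  map_mul' a b := by
    apply Subtype.ext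
    exact LinearMap.toMatrix'_mul _ _

omit [Finite F] in
theorem G7_hom_inj (n : ℕ) : Function.Injective (G7_hom F n) := by
  intro a b hab
  have h1 : LinearMap.toMatrix' (a.1 : (Fin n → F) →ₗ[F] (Fin n → F)) =
      LinearMap.toMatrix' (b.1 : (Fin n → F) →ₗ[F] (Fin n → F)) := congrArg Subtype.val hab
  have h2 := LinearMap.toMatrix'.injective h1
  exact SU.ext fun x => LinearMap.congr_fun h2 x

omit [Finite F] in
theorem G7_hom_surj (n : ℕ) : Function.Surjective (G7_hom F n) := by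
  intro M
  obtain ⟨hM, hdet⟩ := Matrix.mem_specialUnitaryGroup_iff.1 M.2
  have h1 := Matrix.mem_unitaryGroup_iff'.1 hM
  have h2 := Matrix.mem_unitaryGroup_iff.1 hM
  set g : (Fin n → F) ≃ₗ[F] (Fin n → F) := Matrix.toLin'OfInv h1 h2 with hg
  have hgx : ∀ x, g x = M.1.mulVec x := by
    intro x
    rw [hg]
    rfl
  have hg' : (g : (Fin n → F) →ₗ[F] (Fin n → F)) = Matrix.toLin' M.1 := by
    apply LinearMap.ext
    intro x
    rw [Matrix.toLin'_apply]
    exact hgx x
  refine ⟨⟨g, ?_, ?_⟩, ?_⟩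
  · intro x y
    rw [hgx, hgx]
    exact (G7_isom_iff M.1).2 h1 x y
  · apply Units.ext
    rw [LinearEquiv.coe_det, hg', LinearMap.det_toLin', hdet, Units.val_one]
  · apply Subtype.ext
    show LinearMap.toMatrix' (g : (Fin n → F) →ₗ[F] (Fin n → F)) = M.1
    rw [hg', LinearMap.toMatrix'_toLin']

/-- `V = (Fin n → F)` with the form `∑ i, x i * star (y i)`; a matrix `M` with `M * star M = 1 = star M * M` and determinant
`1` acts by `Matrix.toLin'` (`Matrix.toLinearEquiv'` or similar) and this is an isomorphism of `Matrix.specialUnitaryGroup (Fin n) F` with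
`SU h`; the centre corresponds to the scalars by `center_scalar`. -/
theorem exists_projU {n : ℕ} (hF : IsUF F q) (hn : 2 ≤ n) :
    ∃ (h : Herm F (Fin n → F)) (π : SU h →* Matrix.specialUnitaryGroup (Fin n) F ⧸
      Subgroup.center (Matrix.specialUnitaryGroup (Fin n) F)), IsProjU h π := by
  refine ⟨G7_form F n, (QuotientGroup.mk' _).comp (G7_hom F n), ?_, ?_⟩
  · exact (QuotientGroup.mk'_surjective _).comp (G7_hom_surj n)
  · intro g
    rw [MonoidHom.comp_apply, QuotientGroup.mk'_apply, QuotientGroup.eq_one_iff,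
      Subgroup.mem_center_iff]
    constructor
    · intro hc
      refine center_scalar hF (G7_form F n) (by rw [Module.finrank_fin_fun]; exact hn) g ?_
      intro g'
      apply G7_hom_inj n
      rw [map_mul, map_mul]
      exact hc _
    · rintro ⟨c, hc⟩ m
      obtain ⟨g', rfl⟩ := G7_hom_surj n m
      rw [← map_mul, ← map_mul]
      congr 1
      apply SU.ext
      intro x
      rw [SU.mul_apply, SU.mul_apply, hc, hc, map_smul]

end Pool.Agent.Lib.MP_8f3271_al.PSU
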