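import Mathlib
import Pool.Agent.Lib.MP_8f3271_al.P.G
import Pool.Agent.Lib.MP_8f3271_al.P.C

/-!
# A G-permutable subgroup of PSU acts by field automorphisms
-/

set_option autoImplicit false

open Pool.Agent.GPerm59 Pointwise Module

namespace Pool.Agent.Lib.MP_8f3271_al.PSU

variable {F V G K : Type*} [Field F] [Finite F] [StarRing F] {q : ℕ} [AddCommGroup V] [Module F V]
  [FiniteDimensional F V] [Group G] [Field K] [Algebra F K] [FiniteDimensional F K]
  {h : Herm F V} {π : SU h →* G} {A : Subgroup G}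

/-! ### Row psu-S1 -/

omit [Finite F] [FiniteDimensional F K] in
/-- Multiplication by `c`, `c * τ c = 1`, `norm c = 1`; `Algebra.norm` is the determinant of multiplication. -/
theorem exists_mulSU {τ : K ≃+* K} {hK : Herm F K} (hf : ∀ x y, hK.f x y = Algebra.trace F K (x * τ y))
    {c : K} (hc : c * τ c = 1) (hn : Algebra.norm F c = 1) : ∃ t ∈ SU hK, ∀ x, t x = c * x := by
  have hc0 : c ≠ 0 := by
    rintro rfl
    rw [zero_mul] at hc
    exact zero_ne_one hc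
  set m : K ≃ₗ[F] K := (LinearEquiv.smulOfNeZero K K c hc0).restrictScalars F with hm
  have hmx : ∀ x, m x = c * x := fun x => rfl
  refine ⟨m, ⟨fun x y => ?_, ?_⟩, hmx⟩
  · rw [hf, hf, hmx, hmx, map_mul τ]
    congr 1
    linear_combination (x * τ y) * hc
  · apply Units.ext
    rw [LinearEquiv.coe_det, Units.val_one]
    rw [Algebra.norm_apply] at hn
    rw [← hn]
    congr 1

omit [Finite F] in
/-- `t × 1` (`LinearEquiv.prodCongr`, `LinearMap.det_prodMap`). -/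
theorem exists_prodSU {V' : Type*} [AddCommGroup V'] [Module F V'] [FiniteDimensional F V']
    {h : Herm F V} {h' : Herm F V'}
    {t : V ≃ₗ[F] V} (ht : t ∈ SU h) : ∃ t' ∈ SU (h.prod h'), ∀ x y, t' (x, y) = (t x, y) := by
  set m : (V × V') ≃ₗ[F] (V × V') := LinearEquiv.prodCongr t (LinearEquiv.refl F V') with hm
  have hmx : ∀ x y, m (x, y) = (t x, y) := fun x y => rfl
  refine ⟨m, ⟨?_, ?_⟩, hmx⟩
  · rintro ⟨x, y⟩ ⟨x', y'⟩
    rw [hmx, hmx, Herm.prod_f, Herm.prod_f, ht.1 x x']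
  · apply Units.ext
    have hdet := congrArg Units.val ht.2
    rw [LinearEquiv.coe_det, Units.val_one] at hdet ⊢
    have h1 : ((m : (V × V') ≃ₗ[F] (V × V')) : (V × V') →ₗ[F] (V × V')) =
        LinearMap.prodMap (t : V →ₗ[F] V) (LinearMap.id : V' →ₗ[F] V') := by
      refine LinearMap.ext fun v => ?_
      rfl
    rw [h1, LinearMap.det_prodMap, hdet, LinearMap.det_id, one_mul]

omit [Finite F] [FiniteDimensional F V] in
/-- transport by an isometry `e` -/
theorem exists_transport {V' : Type*} [AddCommGroup V'] [Module F V'] {h : Herm F V} {h' : Herm F V'}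
    (e : V ≃ₗ[F] V') (he : ∀ x y, h'.f (e x) (e y) = h.f x y) {t : V' ≃ₗ[F] V'} (ht : t ∈ SU h') :
    ∃ s : SU h, ∀ x, s.1 x = e.symm (t (e x)) := by
  refine ⟨⟨(e.trans t).trans e.symm, ⟨fun x y => ?_, ?_⟩⟩, fun x => rfl⟩
  · change h.f (e.symm (t (e x))) (e.symm (t (e y))) = _
    rw [← he, LinearEquiv.apply_symm_apply, LinearEquiv.apply_symm_apply, ht.1, he]
  · apply Units.ext
    have hdet := congrArg Units.val ht.2
    rw [LinearEquiv.coe_det, Units.val_one] at hdet ⊢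
    have h1 : (((e.trans t).trans e.symm : V ≃ₗ[F] V) : V →ₗ[F] V) = (e.symm : V' →ₗ[F] V) ∘ₗ
        (t : V' →ₗ[F] V') ∘ₗ (e.symm.symm : V →ₗ[F] V') := by
      refine LinearMap.ext fun v => ?_
      rfl
    rw [h1, LinearMap.det_conj, hdet]

/-! ### Row psu-S2 -/

omit [Finite F] [FiniteDimensional F V] [FiniteDimensional F K] in
/-- a torus permutes with `A`, after conjugation -/
private theorem S2_key {W : Type*} [AddCommGroup W] [Module F W] (hπ : IsProjU h π) (hA : GPermutable A)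
    (τ : K ≃+* K) (e₀ : V ≃ₗ[F] W) (m : K → W → W) (m1 : ∀ w, m 1 w = w)
    (mm : ∀ c c' w, m (c * c') w = m c (m c' w))
    (hex : ∀ c : K, c * τ c = 1 → Algebra.norm F c = 1 → ∃ s : SU h, ∀ v, e₀ (s.1 v) = m c (e₀ v)) :
    ∃ k : SU h, ∀ g : SU h, π g ∈ A → ∀ c : K, c * τ c = 1 → Algebra.norm F c = 1 →
      ∃ c' : K, c' * τ c' = 1 ∧ Algebra.norm F c' = 1 ∧ ∃ g' : SU h, π g' ∈ A ∧
        ∀ w : W, (k.1.trans e₀) (g.1 ((k.1.trans e₀).symm (m c w))) =
          m c' ((k.1.trans e₀) (g'.1 ((k.1.trans e₀).symm w))) := by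
  let T : Subgroup (SU h) :=
    { carrier := {t | ∃ c : K, c * τ c = 1 ∧ Algebra.norm F c = 1 ∧ ∀ v, e₀ (t.1 v) = m c (e₀ v)}
      mul_mem' := by
        rintro t t' ⟨c, hc, hn, ht⟩ ⟨c', hc', hn', ht'⟩
        refine ⟨c * c', ?_, by rw [map_mul, hn, hn', one_mul], fun v => ?_⟩
        · rw [map_mul]
          linear_combination (c' * τ c') * hc + hc'
        · rw [SU.mul_apply, ht, ht', mm]
      one_mem' := ⟨1, by rw [map_one, one_mul], map_one _, fun v => by rw [m1]; rfl⟩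
      inv_mem' := by
        rintro t ⟨c, hc, hn, ht⟩
        have hc0 : c ≠ 0 := by
          rintro rfl
          rw [zero_mul] at hc
          exact zero_ne_one hc
        have hni : Algebra.norm F c⁻¹ = 1 := by
          have h0 : Algebra.norm F (c * c⁻¹) = 1 := by rw [mul_inv_cancel₀ hc0, map_one]
          rwa [map_mul, hn, one_mul] at h0
        refine ⟨c⁻¹, ?_, hni, fun v => ?_⟩
        · rw [map_inv₀, ← mul_inv, hc, inv_one]
        · have h1 := ht ((t⁻¹).1 v)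
          rw [SU.apply_inv] at h1
          rw [h1, ← mm, inv_mul_cancel₀ hc0, m1] }
  obtain ⟨k, hk⟩ := exists_perm hπ hA T
  refine ⟨k, fun g hg c hc hn => ?_⟩
  obtain ⟨s, hs⟩ := hex c hc hn
  obtain ⟨t', ⟨c', hc', hn', ht'⟩, g', hg', hgg⟩ := hk g hg s ⟨c, hc, hn, hs⟩
  refine ⟨c', hc', hn', g', hg', fun w => ?_⟩
  have h1 : (k.1.trans e₀).symm (m c w) = (k⁻¹ * s * k).1 ((k.1.trans e₀).symm w) := by
    rw [LinearEquiv.symm_apply_eq]
    change m c w = e₀ (k.1 ((k⁻¹).1 (s.1 (k.1 ((k.1.trans e₀).symm w)))))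
    rw [SU.apply_inv, hs]
    congr 1
    exact ((k.1.trans e₀).apply_symm_apply w).symm
  have h2 : ∀ v, (k.1.trans e₀) ((k⁻¹ * t' * k).1 v) = m c' ((k.1.trans e₀) v) := by
    intro v
    change e₀ (k.1 ((k⁻¹).1 (t'.1 (k.1 v)))) = m c' (e₀ (k.1 v))
    rw [SU.apply_inv, ht']
  rw [h1, ← SU.mul_apply, hgg, SU.mul_apply, h2]

/-- As `exists_singer` of `L/D.lean`. `τ` and the form `Tr (x * τ y)` on `K` (`exists_formK`), `e₀ : V ≃ₗ[F] K` isometry
(`exists_isometry`); `T` = subgroup of the `t : SU h` with `t v = e₀⁻¹ (c * e₀ v)`, `c * τ c = 1`, `norm c = 1` (`exists_mulSU`,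
`exists_transport`); `exists_perm` (`Base.lean`) gives `k`; `e = e₀ ∘ k`. -/
theorem exists_singer_odd (hF : IsUF F q) (hπ : IsProjU h π) (hA : GPermutable A)
    {τ : K ≃+* K} (hτ : IsTau F q τ) (hK : finrank F V = finrank F K) :
    ∃ e : V ≃ₗ[F] K, ∀ g : SU h, π g ∈ A → ∀ c : K, c * τ c = 1 → Algebra.norm F c = 1 →
      ∃ c' : K, c' * τ c' = 1 ∧ Algebra.norm F c' = 1 ∧ ∃ g' : SU h, π g' ∈ A ∧
        ∀ x : K, e (g.1 (e.symm (c * x))) = c' * e (g'.1 (e.symm x)) := by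
  obtain ⟨hK', hf⟩ := exists_formK (F := F) hτ
  obtain ⟨e₀, he₀⟩ := exists_isometry hF h hK' hK
  obtain ⟨k, hk⟩ := S2_key hπ hA τ e₀ (fun c x => c * x) one_mul mul_assoc fun c hc hn => by
    obtain ⟨t, ht, htx⟩ := exists_mulSU hf hc hn
    obtain ⟨s, hs⟩ := exists_transport e₀ he₀ ht
    exact ⟨s, fun v => by rw [hs, LinearEquiv.apply_symm_apply, htx]⟩
  exact ⟨k.1.trans e₀, hk⟩

/-! ### Row psu-S3 -/

/-- `τ` from `exists_tau`, `e` from `exists_singer_odd`, `x₀` from `exists_fixed`, `u = e x₀`. For `π g ∈ A` let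
`g₁ z = u⁻¹ * e (g (e.symm (u * z)))`. For `c * τ c = 1`, `norm c = 1`, with `c'`, `g'` as in `exists_singer_odd`,
`g' x₀ = s • x₀`: `g₁ c = s c'`, so `g₁ c * τ (g₁ c) = s * star s`. By `eq_aut_odd` `g₁ x = g₁ 1 * σ x`, and `g₁ 1 = μ` where
`g x₀ = μ • x₀`. Take `φ x = u⁻¹ * e x`. (Compare `exists_form` in `L/D.lean`.) -/
theorem exists_form_odd [Finite G] [IsSimpleGroup G] (hF : IsUF F q) (hπ : IsProjU h π)
    (hA : GPermutable A) (hAt : A ≠ ⊤) (hn : 3 ≤ finrank F V) (hodd : Odd (finrank F V))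
    (hK : finrank F V = finrank F K) :
    ∃ φ : V ≃ₗ[F] K, ∀ g : SU h, π g ∈ A → ∃ (μ : F) (σ : K ≃ₐ[F] K), ∀ x, φ (g.1 x) = μ • σ (φ x) := by
  have hodd' : Odd (finrank F K) := hK ▸ hodd
  obtain ⟨τ, hτ⟩ := exists_tau (K := K) hF hodd'
  obtain ⟨x₀, hx₀, -, hx₀A⟩ := exists_fixed hF hπ hn hA hAt
  obtain ⟨e, he⟩ := exists_singer_odd hF hπ hA hτ hK
  have hu : e x₀ ≠ 0 := fun h => hx₀ (e.map_eq_zero_iff.1 h)
  -- multiplication by `u`
  obtain ⟨m, hm⟩ : ∃ m : K ≃ₗ[F] K, ∀ x, m x = e x₀ * x :=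
    ⟨(LinearEquiv.smulOfNeZero K K (e x₀) hu).restrictScalars F, fun x => rfl⟩
  have hms : ∀ x, m.symm x = (e x₀)⁻¹ * x := by
    intro x
    rw [LinearEquiv.symm_apply_eq, hm, mul_inv_cancel_left₀ hu]
  refine ⟨e.trans m.symm, fun g hg => ?_⟩
  obtain ⟨g₁, hg₁⟩ : ∃ g₁ : K ≃ₗ[F] K, ∀ z, g₁ z = (e x₀)⁻¹ * e (g.1 (e.symm (e x₀ * z))) :=
    ⟨(m.trans e.symm).trans ((g.1.trans e).trans m.symm), fun z => by
      simp only [LinearEquiv.trans_apply, hms, hm]⟩
  have hkey : ∀ c : K, c * τ c = 1 → Algebra.norm F c = 1 →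
      ∃ s : F, g₁ c * τ (g₁ c) = algebraMap F K s := by
    intro c hc hc1
    obtain ⟨c', hc', -, g', hg', hgg⟩ := he g hg c hc hc1
    obtain ⟨s₀, hs₀⟩ := hx₀A g' hg'
    have h1 : g₁ c = c' * algebraMap F K s₀ := by
      rw [hg₁, mul_comm (e x₀) c, hgg, e.symm_apply_apply, hs₀, map_smul, Algebra.smul_def]
      field_simp
    refine ⟨s₀ * star s₀, ?_⟩
    rw [h1, map_mul, hτ.alg, map_mul]
    linear_combination (algebraMap F K s₀ * algebraMap F K (star s₀)) * hc'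
  obtain ⟨σ, hσ⟩ := eq_aut_odd hF (hK ▸ hn) hodd' hτ g₁ hkey
  obtain ⟨μ, hμ⟩ := hx₀A g hg
  refine ⟨μ, σ, fun x => ?_⟩
  have h1 : g₁ 1 = algebraMap F K μ := by
    rw [hg₁, mul_one, e.symm_apply_apply, hμ, map_smul, Algebra.smul_def]
    field_simp
  have h2 := hσ ((e x₀)⁻¹ * e x)
  rw [h1, ← Algebra.smul_def, hg₁, mul_inv_cancel_left₀ hu, e.symm_apply_apply] at h2
  simp only [LinearEquiv.trans_apply, hms]
  exact h2

/-! ### Row psu-S4 -/

omit [Finite F] [FiniteDimensional F V] in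
private theorem S4_mul (g h' : SU h) (x : V) : (g * h').1 x = g.1 (h'.1 x) := rfl

omit [Finite F] [FiniteDimensional F V] [FiniteDimensional F K] in
/-- the automorphism is determined by the class -/
private theorem S4_uniq (hπ : IsProjU h π) (φ : V ≃ₗ[F] K) {g g' : SU h} {μ μ' : F}
    {σ σ' : K ≃ₐ[F] K} (h0 : π g = π g') (h1 : ∀ x, φ (g.1 x) = μ • σ (φ x))
    (h2 : ∀ x, φ (g'.1 x) = μ' • σ' (φ x)) : σ = σ' := by
  obtain ⟨c, hc⟩ := (hπ.ker (g⁻¹ * g')).1 (by rw [map_mul, map_inv, h0, inv_mul_cancel])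
  have h3 : ∀ x : V, g'.1 x = c • g.1 x := by
    intro x
    have h4 : g.1 ((g⁻¹ * g').1 x) = g'.1 x := by
      rw [← S4_mul, mul_inv_cancel_left]
    rw [← h4, hc x]
    exact map_smul _ _ _
  have h5 : ∀ y : K, μ' • σ' y = (c * μ) • σ y := by
    intro y
    have h6 := h2 (φ.symm y)
    rw [h3, map_smul, h1, LinearEquiv.apply_symm_apply, smul_smul] at h6
    exact h6.symm
  have h7 : μ' ≠ 0 := by
    rintro rfl
    have h8 := h2 ((g'⁻¹).1 (φ.symm 1))
    rw [zero_smul, ← S4_mul, mul_inv_cancel] at h8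
    simp at h8
  have h9 : μ' = c * μ := by
    have := h5 1
    rw [map_one, map_one] at this
    exact smul_left_injective F (one_ne_zero : (1 : K) ≠ 0) this
  ext y
  have h10 := h5 y
  rw [← h9] at h10
  exact (smul_right_injective K h7 h10).symm

/-- As `exists_generator` in `L/D.lean` (row D3; copy the proof). -/
theorem exists_gen_odd [Finite G] (hπ : IsProjU h π) (hA : A ≠ ⊥) (φ : V ≃ₗ[F] K)
    (hφ : ∀ g : SU h, π g ∈ A → ∃ (μ : F) (σ : K ≃ₐ[F] K), ∀ x, φ (g.1 x) = μ • σ (φ x)) :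
    ∃ (g : SU h) (μ : F) (σ : K ≃ₐ[F] K), A = Subgroup.zpowers (π g) ∧
      (∀ x, φ (g.1 x) = μ • σ (φ x)) ∧ orderOf (π g) = orderOf σ ∧ 2 ≤ orderOf σ ∧
      orderOf σ ∣ finrank F K := by
  classical
  have : Finite K := Module.finite_of_finite F
  choose g hg using fun a : A => hπ.surj a
  choose μ s hs using fun a : A => hφ (g a) (by rw [hg]; exact a.2)
  have hmul : ∀ a b : A, s (a * b) = s a * s b := by
    intro a b
    refine S4_uniq hπ φ (g := g (a * b)) (g' := g a * g b) (μ' := μ a * μ b) ?_ (hs _) ?_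
    · rw [map_mul, hg, hg, hg, Subgroup.coe_mul]
    · intro x
      rw [S4_mul, hs, hs, map_smul, smul_smul]
      rfl
  have hinj : Function.Injective (MonoidHom.mk' s hmul) := by
    rw [injective_iff_map_eq_one]
    intro a ha
    have ha' : s a = 1 := ha
    have h1 : π (g a) = 1 := by
      rw [hπ.ker]
      refine ⟨μ a, fun x => φ.injective ?_⟩
      rw [hs, ha', map_smul]
      rfl
    rw [hg] at h1
    exact Subtype.ext h1
  have : IsCyclic A := isCyclic_of_injective (MonoidHom.mk' s hmul) hinj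
  obtain ⟨a, ha⟩ := IsCyclic.exists_generator (α := A)
  have hord : orderOf (a : G) = orderOf (s a) := by
    rw [Subgroup.orderOf_coe]
    exact (orderOf_injective (MonoidHom.mk' s hmul) hinj a).symm
  refine ⟨g a, μ a, s a, ?_, hs a, ?_, ?_, ?_⟩
  · rw [hg]
    apply le_antisymm
    · intro x hx
      obtain ⟨n, hn⟩ := Subgroup.mem_zpowers_iff.1 (ha ⟨x, hx⟩)
      exact Subgroup.mem_zpowers_iff.2 ⟨n, by simpa using congrArg Subtype.val hn⟩
    · rw [Subgroup.zpowers_le]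
      exact a.2
  · rw [hg]
    exact hord
  · rw [← hord]
    have h1 : 0 < orderOf (a : G) := orderOf_pos _
    have h2 : orderOf (a : G) ≠ 1 := by
      intro h3
      rw [orderOf_eq_one_iff] at h3
      apply hA
      rw [Subgroup.eq_bot_iff_forall]
      intro x hx
      obtain ⟨n, hn⟩ := Subgroup.mem_zpowers_iff.1 (ha ⟨x, hx⟩)
      have := congrArg Subtype.val hn
      simpa [h3] using this.symm
    omega
  · have h1 : IsGalois F K := inferInstance
    rw [← IsGalois.card_aut_eq_finrank F K]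
    exact orderOf_dvd_natCard _

/-! ### Row psu-S5 -/

omit [Finite F] [FiniteDimensional F V] [FiniteDimensional F K] in
/-- a torus permutes with `A`, after conjugation -/
private theorem S5_key {W : Type*} [AddCommGroup W] [Module F W] (hπ : IsProjU h π) (hA : GPermutable A)
    (τ : K ≃+* K) (e₀ : V ≃ₗ[F] W) (m : K → W → W) (m1 : ∀ w, m 1 w = w)
    (mm : ∀ c c' w, m (c * c') w = m c (m c' w))
    (hex : ∀ c : K, c * τ c = 1 → Algebra.norm F c = 1 → ∃ s : SU h, ∀ v, e₀ (s.1 v) = m c (e₀ v)) :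
    ∃ k : SU h, ∀ g : SU h, π g ∈ A → ∀ c : K, c * τ c = 1 → Algebra.norm F c = 1 →
      ∃ c' : K, c' * τ c' = 1 ∧ Algebra.norm F c' = 1 ∧ ∃ g' : SU h, π g' ∈ A ∧
        ∀ w : W, (k.1.trans e₀) (g.1 ((k.1.trans e₀).symm (m c w))) =
          m c' ((k.1.trans e₀) (g'.1 ((k.1.trans e₀).symm w))) := by
  let T : Subgroup (SU h) :=
    { carrier := {t | ∃ c : K, c * τ c = 1 ∧ Algebra.norm F c = 1 ∧ ∀ v, e₀ (t.1 v) = m c (e₀ v)}
      mul_mem' := by
        rintro t t' ⟨c, hc, hn, ht⟩ ⟨c', hc', hn', ht'⟩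
        refine ⟨c * c', ?_, by rw [map_mul, hn, hn', one_mul], fun v => ?_⟩
        · rw [map_mul]
          linear_combination (c' * τ c') * hc + hc'
        · rw [SU.mul_apply, ht, ht', mm]
      one_mem' := ⟨1, by rw [map_one, one_mul], map_one _, fun v => by rw [m1]; rfl⟩
      inv_mem' := by
        rintro t ⟨c, hc, hn, ht⟩
        have hc0 : c ≠ 0 := by
          rintro rfl
          rw [zero_mul] at hc
          exact zero_ne_one hc
        have hni : Algebra.norm F c⁻¹ = 1 := by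
          have h0 : Algebra.norm F (c * c⁻¹) = 1 := by rw [mul_inv_cancel₀ hc0, map_one]
          rwa [map_mul, hn, one_mul] at h0
        refine ⟨c⁻¹, ?_, hni, fun v => ?_⟩
        · rw [map_inv₀, ← mul_inv, hc, inv_one]
        · have h1 := ht ((t⁻¹).1 v)
          rw [SU.apply_inv] at h1
          rw [h1, ← mm, inv_mul_cancel₀ hc0, m1] }
  obtain ⟨k, hk⟩ := exists_perm hπ hA T
  refine ⟨k, fun g hg c hc hn => ?_⟩
  obtain ⟨s, hs⟩ := hex c hc hn
  obtain ⟨t', ⟨c', hc', hn', ht'⟩, g', hg', hgg⟩ := hk g hg s ⟨c, hc, hn, hs⟩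
  refine ⟨c', hc', hn', g', hg', fun w => ?_⟩
  have h1 : (k.1.trans e₀).symm (m c w) = (k⁻¹ * s * k).1 ((k.1.trans e₀).symm w) := by
    rw [LinearEquiv.symm_apply_eq]
    change m c w = e₀ (k.1 ((k⁻¹).1 (s.1 (k.1 ((k.1.trans e₀).symm w)))))
    rw [SU.apply_inv, hs]
    congr 1
    exact ((k.1.trans e₀).apply_symm_apply w).symm
  have h2 : ∀ v, (k.1.trans e₀) ((k⁻¹ * t' * k).1 v) = m c' ((k.1.trans e₀) v) := by
    intro v
    change e₀ (k.1 ((k⁻¹).1 (t'.1 (k.1 v)))) = m c' (e₀ (k.1 v))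
    rw [SU.apply_inv, ht']
  rw [h1, ← SU.mul_apply, hgg, SU.mul_apply, h2]

/-- As `exists_singer_odd`, with the form `Tr (x * τ x') + y * star y'` on `K × F` (`exists_formK`, `Herm.prod`, `Herm.std`) and
the elements `(x, y) ↦ (c * x, y)` (`exists_mulSU`, `exists_prodSU`). -/
theorem exists_singer_even (hF : IsUF F q) (hπ : IsProjU h π) (hA : GPermutable A)
    {τ : K ≃+* K} (hτ : IsTau F q τ) (hK : finrank F V = finrank F K + 1) :
    ∃ e : V ≃ₗ[F] K × F,
      (∀ x y, h.f x y = Algebra.trace F K ((e x).1 * τ (e y).1) + (e x).2 * star (e y).2) ∧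
      ∀ g : SU h, π g ∈ A → ∀ c : K, c * τ c = 1 → Algebra.norm F c = 1 →
      ∃ c' : K, c' * τ c' = 1 ∧ Algebra.norm F c' = 1 ∧ ∃ g' : SU h, π g' ∈ A ∧
        ∀ (x : K) (y : F), e (g.1 (e.symm (c * x, y))) =
          (c' * (e (g'.1 (e.symm (x, y)))).1, (e (g'.1 (e.symm (x, y)))).2) := by
  obtain ⟨hK', hf⟩ := exists_formK (F := F) hτ
  obtain ⟨e₀, he₀⟩ := exists_isometry hF h (hK'.prod (Herm.std F)) (by
    rw [hK, Module.finrank_prod, Module.finrank_self])
  obtain ⟨k, hk⟩ := S5_key hπ hA τ e₀ (fun c x => (c * x.1, x.2)) (fun w => by rw [one_mul])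
    (fun c c' w => by rw [mul_assoc]) fun c hc hn => by
    obtain ⟨t, ht, htx⟩ := exists_mulSU hf hc hn
    obtain ⟨t', ht', htx'⟩ := exists_prodSU (h' := Herm.std F) ht
    obtain ⟨s, hs⟩ := exists_transport e₀ he₀ ht'
    refine ⟨s, fun v => ?_⟩
    rw [hs, LinearEquiv.apply_symm_apply]
    exact (htx' (e₀ v).1 (e₀ v).2).trans (by rw [htx])
  refine ⟨k.1.trans e₀, fun x y => ?_, fun g hg c hc hn => ?_⟩
  · rw [← SU.isom k x y, ← he₀, Herm.prod_f, Herm.std_f, hf]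
    rfl
  · obtain ⟨c', hc', hn', g', hg', hw⟩ := hk g hg c hc hn
    exact ⟨c', hc', hn', g', hg', fun x y => hw (x, y)⟩

/-! ### Row psu-S6 -/

omit [Finite F] [FiniteDimensional F V] [FiniteDimensional F K] in
/-- the orthogonal space of `(0, 1)` -/
private theorem S6_orth {τ : K ≃+* K} {e : V ≃ₗ[F] K × F}
    (hef : ∀ x y, h.f x y = Algebra.trace F K ((e x).1 * τ (e y).1) + (e x).2 * star (e y).2)
    (x : K) : h.f (e.symm (x, 0)) (e.symm (0, 1)) = 0 := by
  rw [hef, e.apply_symm_apply, e.apply_symm_apply]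
  simp

omit [Finite F] [FiniteDimensional F V] [FiniteDimensional F K] in
/-- nondegeneracy of the form on `K` -/
private theorem S6_nondeg {τ : K ≃+* K} {e : V ≃ₗ[F] K × F}
    (hef : ∀ x y, h.f x y = Algebra.trace F K ((e x).1 * τ (e y).1) + (e x).2 * star (e y).2)
    {t : K} (ht : ∀ x : K, Algebra.trace F K (x * τ t) = 0) : t = 0 := by
  have h1 : e.symm (t, 0) = 0 := by
    refine h.nondeg _ fun y => ?_
    rw [h.symm y, hef, e.apply_symm_apply]
    simp [ht]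
  have h2 := e.symm.map_eq_zero_iff.1 h1
  exact congrArg Prod.fst h2

omit [Finite F] [StarRing F] [FiniteDimensional F K] in
/-- a subspace which contains the powers of a generator -/
private theorem S6_span {c : K} (hc : Algebra.adjoin F {c} = ⊤) (l : K →ₗ[F] F)
    (hl : ∀ j : ℕ, l (c ^ j) = 0) : l = 0 := by
  ext z
  have hz : z ∈ Algebra.adjoin F {c} := by
    rw [hc]
    exact Algebra.mem_top
  rw [Algebra.adjoin_singleton_eq_range_aeval, AlgHom.mem_range] at hz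
  obtain ⟨P, rfl⟩ := hz
  rw [Polynomial.aeval_eq_sum_range, map_sum, LinearMap.zero_apply]
  refine Finset.sum_eq_zero fun j _ => ?_
  rw [map_smul, hl, smul_zero]

/-- `x₀` isotropic from `exists_fixed`, `e x₀ = (u, w)`; `u ≠ 0` (otherwise `h x₀ x₀ = w * star w = 0`). Let `π g ∈ A`,
`γ (x, y) = e (g (e.symm (x, y)))`, `G z = u⁻¹ * (γ (u * z, 0)).1`, `a = u⁻¹ * (γ (0, w)).1`. For `c * τ c = 1`, `norm c = 1`:
`γ (c * u, w) = (c' * s * u, s * w)`, where `g' x₀ = s • x₀`; so `G c + a = s * c'` and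
`(G c + a) * τ (G c + a) = s * star s`. On the kernel of `G` the map `γ (u * _, 0)` is injective with values in `0 × F`, so the
range of `G` has dimension `≥ r - 1 ≥ 2`. `eq_aut_even`: `a = 0`, `G x = G 1 * σ x`, and `G 1 = G 1 + a = μ` where
`g x₀ = μ • x₀`. If `w ≠ 0` then `γ (0, 1) = (0, μ')` as `a = 0`, `μ' ≠ 0`, and `γ (x, 0)` is orthogonal to it, so `(γ (x, 0)).2 = 0`. If
`w = 0` then `(γ (c * u, 0)).2 = 0` for all such `c`, and these span `K` (powers of the `c` of `exists_genT`), so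
`(γ (x, 0)).2 = 0` for all `x`, `γ` maps `K × 0` onto itself, and `γ (0, 1)` is orthogonal to it: `γ (0, 1) = (0, μ')`. Take
`φ v = (u⁻¹ * (e v).1, (e v).2)`. -/
theorem exists_form_even [Finite G] [IsSimpleGroup G] (hF : IsUF F q) (hπ : IsProjU h π)
    (hA : GPermutable A) (hAt : A ≠ ⊤) (hr : 3 ≤ finrank F K) (hodd : Odd (finrank F K))
    (hqr : 4 ≤ q ∨ 5 ≤ finrank F K) (hK : finrank F V = finrank F K + 1) :
    ∃ φ : V ≃ₗ[F] K × F, h.f (φ.symm (0, 1)) (φ.symm (0, 1)) ≠ 0 ∧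
      (∀ x : K, h.f (φ.symm (x, 0)) (φ.symm (0, 1)) = 0) ∧
      ∀ g : SU h, π g ∈ A → ∃ (μ μ' : F) (σ : K ≃ₐ[F] K),
        ∀ v, φ (g.1 v) = (μ • σ (φ v).1, μ' * (φ v).2) := by
  have hn : 3 ≤ finrank F V := by omega
  obtain ⟨τ, hτ⟩ := exists_tau (F := F) (K := K) hF hodd
  obtain ⟨e, hef, he⟩ := exists_singer_even hF hπ hA hτ hK
  obtain ⟨x₀, hx₀, hx₀0, hx₀A⟩ := exists_fixed hF hπ hn hA hAt
  have hu' : (e x₀).1 ≠ 0 := by
    intro h0
    have h1 := hef x₀ x₀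
    rw [h0, hx₀0, zero_mul, map_zero, zero_add] at h1
    have h2 : (e x₀).2 = 0 := by
      rcases mul_eq_zero.1 h1.symm with h3 | h3
      · exact h3
      · rwa [star_eq_zero] at h3
    exact hx₀ (e.map_eq_zero_iff.1 (Prod.ext h0 h2))
  obtain ⟨u, hu1⟩ : ∃ u, u = (e x₀).1 := ⟨_, rfl⟩
  obtain ⟨w, hw1⟩ : ∃ w, w = (e x₀).2 := ⟨_, rfl⟩
  have hex : e x₀ = (u, w) := by rw [hu1, hw1]
  have hu : u ≠ 0 := by rwa [hu1]
  -- multiplication by `u`
  obtain ⟨m, hm⟩ : ∃ m : K ≃ₗ[F] K, ∀ x, m x = u * x :=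
    ⟨(LinearEquiv.smulOfNeZero K K u hu).restrictScalars F, fun x => rfl⟩
  have hms : ∀ x, m.symm x = u⁻¹ * x := by
    intro x
    rw [LinearEquiv.symm_apply_eq, hm, mul_inv_cancel_left₀ hu]
  obtain ⟨φ, hφ⟩ : ∃ φ : V ≃ₗ[F] K × F, ∀ v, φ v = (u⁻¹ * (e v).1, (e v).2) :=
    ⟨e.trans (LinearEquiv.prodCongr m.symm (LinearEquiv.refl F F)), fun v => by
      rw [← hms]
      rfl⟩
  have hφs : ∀ x y, φ.symm (x, y) = e.symm (u * x, y) := by
    intro x y
    rw [LinearEquiv.symm_apply_eq, hφ, e.apply_symm_apply, inv_mul_cancel_left₀ hu]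
  refine ⟨φ, ?_, ?_, fun g hg => ?_⟩
  · rw [hφs, mul_zero, hef, e.apply_symm_apply]
    simp
  · intro x
    rw [hφs, hφs, mul_zero]
    exact S6_orth hef _
  -- the map `γ`
  obtain ⟨γ, hγ⟩ : ∃ γ : (K × F) ≃ₗ[F] (K × F), ∀ z : K × F, γ z = e (g.1 (e.symm z)) :=
    ⟨e.symm.trans (g.1.trans e), fun z => rfl⟩
  have hγx : ∀ (x : K) (y : F), γ (x, y) = γ (x, 0) + y • γ (0, 1) := by
    intro x y
    rw [← map_smul, ← map_add]
    congr 1
    ext <;> simp
  obtain ⟨μ, hμ⟩ := hx₀A g hg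
  have hγ0 : γ (u, w) = μ • (u, w) := by
    rw [hγ, ← hex, e.symm_apply_apply, hμ, map_smul]
  have hkey : ∀ c : K, c * τ c = 1 → Algebra.norm F c = 1 → ∃ (c' : K) (s : F), c' * τ c' = 1 ∧
      γ (c * u, w) = (c' * (algebraMap F K s * u), s * w) := by
    intro c hc hc1
    obtain ⟨c', hc', -, g', hg', hgg⟩ := he g hg c hc hc1
    obtain ⟨s, hs⟩ := hx₀A g' hg'
    refine ⟨c', s, hc', ?_⟩
    have h1 : e (g'.1 (e.symm (u, w))) = (algebraMap F K s * u, s * w) := by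
      rw [← hex, e.symm_apply_apply, hs, map_smul, hex, Prod.smul_mk, Algebra.smul_def,
        smul_eq_mul]
    rw [hγ, hgg, h1]
  -- the map `G`
  obtain ⟨G₁, hG⟩ : ∃ G₁ : K →ₗ[F] K, ∀ z, G₁ z = u⁻¹ * (γ (u * z, 0)).1 :=
    ⟨(m.symm : K →ₗ[F] K) ∘ₗ LinearMap.fst F K F ∘ₗ (γ : K × F →ₗ[F] K × F) ∘ₗ
      LinearMap.inl F K F ∘ₗ (m : K →ₗ[F] K), fun z => by
      rw [← hms, ← hm]
      rfl⟩
  have hGa : ∀ z, G₁ z + u⁻¹ * (γ (0, w)).1 = u⁻¹ * (γ (z * u, w)).1 := by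
    intro z
    rw [hG, ← mul_add, ← Prod.fst_add, ← map_add, Prod.mk_add_mk, add_zero, zero_add,
      mul_comm u z]
  have hrange : 2 ≤ finrank F (LinearMap.range G₁) := by
    have h1 := LinearMap.finrank_range_add_finrank_ker G₁
    have h2 : finrank F (LinearMap.ker G₁) ≤ finrank F F := by
      let l : LinearMap.ker G₁ →ₗ[F] F := LinearMap.snd F K F ∘ₗ (γ : K × F →ₗ[F] K × F) ∘ₗ
        LinearMap.inl F K F ∘ₗ (m : K →ₗ[F] K) ∘ₗ (LinearMap.ker G₁).subtype
      have hl : ∀ z, l z = (γ (u * z.1, 0)).2 := by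
        intro z
        rw [← hm]
        rfl
      refine LinearMap.finrank_le_finrank_of_injective (f := l) ?_
      rw [injective_iff_map_eq_zero]
      intro z hz
      have h3 : G₁ z.1 = 0 := z.2
      rw [hG] at h3
      have h4 : (γ (u * z.1, 0)).1 = 0 := (mul_eq_zero.1 h3).resolve_left (inv_ne_zero hu)
      rw [hl] at hz
      have h5 : γ (u * z.1, 0) = 0 := Prod.ext h4 hz
      have h6 := congrArg Prod.fst (γ.map_eq_zero_iff.1 h5)
      exact Subtype.ext ((mul_eq_zero.1 h6).resolve_left hu)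
    rw [finrank_self] at h2
    omega
  obtain ⟨ha, σ, hσ⟩ := eq_aut_even hF hr hodd hqr hτ G₁ (u⁻¹ * (γ (0, w)).1) hrange (by
    intro c hc hc1
    obtain ⟨c', s, hc', h1⟩ := hkey c hc hc1
    refine ⟨s * star s, ?_⟩
    have h2 : u⁻¹ * (c' * (algebraMap F K s * u)) = c' * algebraMap F K s := by
      field_simp
    rw [hGa, h1]
    show u⁻¹ * (c' * (algebraMap F K s * u)) * τ (u⁻¹ * (c' * (algebraMap F K s * u))) = _
    rw [h2, map_mul τ, hτ.alg, map_mul (algebraMap F K)]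
    linear_combination (algebraMap F K s * algebraMap F K (star s)) * hc')
  have hG1 : G₁ 1 = algebraMap F K μ := by
    have h1 := hGa 1
    rw [ha, add_zero, one_mul, hγ0] at h1
    rw [h1]
    show u⁻¹ * (μ • u) = _
    rw [Algebra.smul_def]
    field_simp
  have hfst : ∀ z, (γ (u * z, 0)).1 = u * (μ • σ z) := by
    intro z
    have h1 := hσ z
    rw [hG1, hG, ← Algebra.smul_def] at h1
    rw [← h1, mul_inv_cancel_left₀ hu]
  -- orthogonality
  have horth : ∀ x : K, Algebra.trace F K ((γ (x, 0)).1 * τ (γ (0, 1)).1) +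
      (γ (x, 0)).2 * star (γ (0, 1)).2 = 0 := by
    intro x
    have h1 := SU.isom g (e.symm (x, 0)) (e.symm (0, 1))
    rw [S6_orth hef, hef, ← hγ, ← hγ] at h1
    exact h1
  have hfin : (∀ x, (γ (x, 0)).2 = 0) ∧ (γ (0, 1)).1 = 0 := by
    by_cases hw : w = 0
    · -- `w = 0`
      have hsnd : ∀ x, (γ (x, 0)).2 = 0 := by
        obtain ⟨c, hc, hc1, hc2⟩ := exists_genT hF hr hodd hτ
        obtain ⟨l, hl⟩ : ∃ l : K →ₗ[F] F, ∀ z, l z = (γ (z * u, 0)).2 :=
          ⟨LinearMap.snd F K F ∘ₗ (γ : K × F →ₗ[F] K × F) ∘ₗ LinearMap.inl F K F ∘ₗ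
            (m : K →ₗ[F] K), fun z => by
            rw [mul_comm z u, ← hm]
            rfl⟩
        have h1 : l = 0 := by
          have h2 := hc2 1 one_pos (by omega)
          rw [pow_one] at h2
          refine S6_span h2 l fun j => ?_
          obtain ⟨c', s, hc', h3⟩ := hkey (c ^ j) (by
            rw [map_pow, ← mul_pow, hc, one_pow]) (by rw [map_pow, hc1, one_pow])
          rw [hw, mul_zero] at h3
          rw [hl, h3]
        intro x
        have h2 := hl (x * u⁻¹)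
        rw [h1, LinearMap.zero_apply, inv_mul_cancel_right₀ hu] at h2
        exact h2.symm
      refine ⟨hsnd, S6_nondeg hef fun x => ?_⟩
      -- `γ` maps `K × 0` onto itself
      obtain ⟨l, hl⟩ : ∃ l : K →ₗ[F] K, ∀ z, l z = (γ (z, 0)).1 :=
        ⟨LinearMap.fst F K F ∘ₗ (γ : K × F →ₗ[F] K × F) ∘ₗ LinearMap.inl F K F, fun z => rfl⟩
      have hinj : Function.Injective l := by
        rw [injective_iff_map_eq_zero]
        intro z hz
        rw [hl] at hz
        have h1 : γ (z, 0) = 0 := Prod.ext hz (hsnd z)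
        exact congrArg Prod.fst (γ.map_eq_zero_iff.1 h1)
      obtain ⟨z, rfl⟩ := LinearMap.surjective_of_injective hinj x
      have h1 := horth z
      rw [hsnd, zero_mul, add_zero] at h1
      rw [hl]
      exact h1
    · -- `w ≠ 0`
      have h1 : (γ (0, 1)).1 = 0 := by
        have h2 : γ (0, w) = w • γ (0, 1) := by
          rw [← map_smul]
          congr 1
          ext <;> simp
        have h3 : (γ (0, w)).1 = 0 := (mul_eq_zero.1 ha).resolve_left (inv_ne_zero hu)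
        rw [h2, Prod.smul_fst, smul_eq_zero] at h3
        exact h3.resolve_left hw
      have h2 : (γ (0, 1)).2 ≠ 0 := by
        intro h3
        have h4 : γ (0, 1) = 0 := Prod.ext h1 h3
        have h5 := congrArg Prod.snd (γ.map_eq_zero_iff.1 h4)
        exact one_ne_zero h5
      refine ⟨fun x => ?_, h1⟩
      have h3 := horth x
      rw [h1, map_zero, mul_zero, map_zero, zero_add, mul_eq_zero] at h3
      exact h3.resolve_right (star_ne_zero.2 h2)
  obtain ⟨h1, h2⟩ := hfin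
  refine ⟨μ, (γ (0, 1)).2, σ, fun v => ?_⟩
  obtain ⟨⟨z, y⟩, rfl⟩ := φ.symm.surjective v
  rw [φ.apply_symm_apply, hφs, hφ, ← hγ, hγx]
  refine Prod.ext ?_ ?_
  · show u⁻¹ * ((γ (u * z, 0)).1 + y • (γ (0, 1)).1) = μ • σ z
    rw [h2, smul_zero, add_zero, hfst, inv_mul_cancel_left₀ hu]
  · show (γ (u * z, 0)).2 + y • (γ (0, 1)).2 = (γ (0, 1)).2 * y
    rw [h1, zero_add, smul_eq_mul, mul_comm]

end Pool.Agent.Lib.MP_8f3271_al.PSU
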