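import Mathlib
import Pool.Agent.Lib.MP_8f3271_al.P.S

/-!
# Even dimension: maximal isotropic subspaces and the torus on `L × L`
-/

set_option autoImplicit false

open Pool.Agent.GPerm59 Pointwise Module

namespace Pool.Agent.Lib.MP_8f3271_al.PSU

variable {F V G K L : Type*} [Field F] [Finite F] [StarRing F] {q : ℕ} [AddCommGroup V] [Module F V]
  [FiniteDimensional F V] [Group G] [Field K] [Algebra F K] [FiniteDimensional F K]
  [Field L] [Algebra F L] [FiniteDimensional F L]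
  {h : Herm F V} {π : SU h →* G} {A : Subgroup G}

/-! ### Row psu-E1 -/

/-- The map `π g ↦ (σ, μ' / μ)` of `A` into `(K ≃ₐ[F] K) × Fˣ` is injective: if `g₁`, `g₂` have the same `σ` and `μ' / μ` then `g₂ = c g₁`
with a scalar `c`. (`μ, μ' ≠ 0` as `g` is bijective; choose `g, μ, μ', σ` for every element of `A`.)
`|K ≃ₐ[F] K| = finrank F K`, `|Fˣ| = q ^ 2 - 1`. -/
theorem card_le_even [Finite G] (hF : IsUF F q) (hπ : IsProjU h π) (φ : V ≃ₗ[F] K × F)
    (hφ : ∀ g : SU h, π g ∈ A → ∃ (μ μ' : F) (σ : K ≃ₐ[F] K),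
      ∀ v, φ (g.1 v) = (μ • σ (φ v).1, μ' * (φ v).2)) :
    Nat.card A ≤ finrank F K * (q ^ 2 - 1) := by
  classical
  have hch : ∀ a : A, ∃ (g : SU h) (μ μ' : F) (σ : K ≃ₐ[F] K), π g = a ∧ μ ≠ 0 ∧ μ' ≠ 0 ∧
      ∀ v, φ (g.1 v) = (μ • σ (φ v).1, μ' * (φ v).2) := by
    intro a
    obtain ⟨g, hg⟩ := hπ.surj a.1
    obtain ⟨μ, μ', σ, hv⟩ := hφ g (by rw [hg]; exact a.2)
    refine ⟨g, μ, μ', σ, hg, ?_, ?_, hv⟩
    · rintro rfl
      have h1 := hv (φ.symm (1, 0))
      rw [φ.apply_symm_apply, zero_smul, mul_zero] at h1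
      have h2 : φ.symm (1, 0) = 0 := g.1.map_eq_zero_iff.1 (φ.map_eq_zero_iff.1 h1)
      have h3 : ((1 : K), (0 : F)) = 0 := φ.symm.map_eq_zero_iff.1 h2
      exact one_ne_zero (congrArg Prod.fst h3)
    · rintro rfl
      have h1 := hv (φ.symm (0, 1))
      rw [φ.apply_symm_apply, zero_mul, map_zero, smul_zero] at h1
      have h2 : φ.symm (0, 1) = 0 := g.1.map_eq_zero_iff.1 (φ.map_eq_zero_iff.1 h1)
      have h3 : ((0 : K), (1 : F)) = 0 := φ.symm.map_eq_zero_iff.1 h2
      exact one_ne_zero (congrArg Prod.snd h3)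
  choose g μ μ' σ hg hμ hμ' hv using hch
  let f : A → (K ≃ₐ[F] K) × Fˣ := fun a => (σ a, Units.mk0 (μ' a / μ a) (div_ne_zero (hμ' a) (hμ a)))
  have hinj : Function.Injective f := by
    intro a b hab
    have h1 : σ a = σ b := congrArg Prod.fst hab
    have h2 : μ' a / μ a = μ' b / μ b := congrArg (fun z : (K ≃ₐ[F] K) × Fˣ => (z.2 : F)) hab
    have h3 : μ' b = μ b / μ a * μ' a := by
      have h4 := hμ a
      have h5 := hμ b
      rw [div_eq_div_iff h4 h5] at h2
      rw [div_mul_eq_mul_div, eq_div_iff h4]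
      linear_combination -h2
    have h4 : μ b = μ b / μ a * μ a := (div_mul_cancel₀ _ (hμ a)).symm
    have h5 : ∀ v, (g b).1 v = (μ b / μ a) • (g a).1 v := by
      intro v
      apply φ.injective
      rw [map_smul, hv a, hv b, ← h1, h3]
      refine Prod.ext ?_ ?_
      · show μ b • σ a (φ v).1 = (μ b / μ a) • μ a • σ a (φ v).1
        rw [smul_smul, ← h4]
      · show μ b / μ a * μ' a * (φ v).2 = (μ b / μ a) • (μ' a * (φ v).2)
        rw [smul_eq_mul, mul_assoc]
    have h6 : π ((g a)⁻¹ * g b) = 1 := by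
      rw [hπ.ker]
      refine ⟨μ b / μ a, fun x => ?_⟩
      rw [SU.mul_apply, h5, map_smul, SU.inv_apply]
    rw [map_mul, map_inv, hg, hg, inv_mul_eq_one] at h6
    exact Subtype.ext h6
  have hfinK : Finite (K ≃ₐ[F] K) := inferInstance
  have h1 := Nat.card_le_card_of_injective f hinj
  have : Finite K := Module.finite_of_finite F
  rw [Nat.card_prod, Nat.card_units, hF.card, IsGalois.card_aut_eq_finrank F K] at h1
  exact h1

/-! ### Row psu-E2 -/

omit [Finite F] [FiniteDimensional F V] in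
private theorem E2_span {ι : Type*} (h : Herm F V) {v : ι → V} (hv : ∀ i j, h.f (v i) (v j) = 0) :
    ∀ x ∈ Submodule.span F (Set.range v), ∀ y ∈ Submodule.span F (Set.range v), h.f x y = 0 := by
  intro x hx y hy
  induction hx using Submodule.span_induction with
  | mem x hx =>
    obtain ⟨i, rfl⟩ := hx
    induction hy using Submodule.span_induction with
    | mem y hy =>
      obtain ⟨j, rfl⟩ := hy
      exact hv i j
    | zero => exact h.zero_right _
    | add y z _ _ h1 h2 => rw [h.add_right, h1, h2, add_zero]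
    | smul c y _ h1 => rw [h.smul_right, h1, mul_zero]
  | zero => exact h.zero_left _
  | add x z _ _ h1 h2 => rw [h.add_left, h1, h2, add_zero]
  | smul c x _ h1 => rw [h.smul_left, h1, mul_zero]

/-- `M` is spanned by `b (2 i) + c • b (2 i + 1)`, `b` orthonormal, `c * star c = -1` (or: `exists_isometry` with the form of
`exists_formL` on `L × L`, `[L : F] = m`). -/
theorem exists_maxiso (hF : IsUF F q) (h : Herm F V) {m : ℕ} (hm : finrank F V = 2 * m) :
    ∃ M : Submodule F V, finrank F M = m ∧ ∀ x ∈ M, ∀ y ∈ M, h.f x y = 0 := by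
  obtain ⟨b, hb⟩ := exists_orthonormal hF h
  obtain ⟨c, hc⟩ := exists_norm hF (a := (-1 : F)) (by rw [star_neg, star_one])
  have h0 : ∀ i : Fin m, 2 * i.val < finrank F V := fun i => by
    have := i.2
    omega
  have h1 : ∀ i : Fin m, 2 * i.val + 1 < finrank F V := fun i => by
    have := i.2
    omega
  have hval : ∀ i j : Fin (finrank F V), h.f (b i) (b j) = if i.val = j.val then 1 else 0 := by
    intro i j
    rw [hb]
    by_cases hij : i = j
    · rw [if_pos hij, if_pos (congrArg Fin.val hij)]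
    · rw [if_neg hij, if_neg (fun h2 => hij (Fin.ext h2))]
  have hv : ∀ i j : Fin m, h.f (b ⟨2 * i.val, h0 i⟩ + c • b ⟨2 * i.val + 1, h1 i⟩)
      (b ⟨2 * j.val, h0 j⟩ + c • b ⟨2 * j.val + 1, h1 j⟩) = 0 := by
    intro i j
    rw [h.add_left, h.add_right, h.add_right, h.smul_left, h.smul_left, h.smul_right, h.smul_right, hval, hval, hval,
      hval]
    have e1 : (2 * i.val = 2 * j.val + 1) = False := eq_false (by omega)
    have e2 : (2 * i.val + 1 = 2 * j.val) = False := eq_false (by omega)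
    have e3 : (2 * i.val + 1 = 2 * j.val + 1) = (2 * i.val = 2 * j.val) := propext (by omega)
    simp only [e1, e2, e3, if_false, mul_zero, zero_add, add_zero]
    split_ifs
    · rw [mul_one, hc]
      exact add_neg_cancel _
    · rw [mul_zero, mul_zero, add_zero]
  have hlin : LinearIndependent F fun i : Fin m => b ⟨2 * i.val, h0 i⟩ + c • b ⟨2 * i.val + 1, h1 i⟩ := by
    rw [Fintype.linearIndependent_iff]
    intro g hg i
    have h2 : h.f (∑ j : Fin m, g j • (b ⟨2 * j.val, h0 j⟩ + c • b ⟨2 * j.val + 1, h1 j⟩)) (b ⟨2 * i.val, h0 i⟩) = 0 := by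
      rw [hg, h.zero_left]
    rw [h.sum_left, Finset.sum_eq_single i] at h2
    · rw [h.smul_left, h.add_left, h.smul_left, hval, hval] at h2
      have e2 : (2 * i.val + 1 = 2 * i.val) = False := eq_false (by omega)
      simp only [e2, if_true, if_false, mul_zero, add_zero, mul_one] at h2
      exact h2
    · intro j _ hj
      have hj' : j.val ≠ i.val := fun h3 => hj (Fin.ext h3)
      rw [h.smul_left, h.add_left, h.smul_left, hval, hval]
      have e1 : (2 * j.val = 2 * i.val) = False := eq_false (by omega)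
      have e2 : (2 * j.val + 1 = 2 * i.val) = False := eq_false (by omega)
      simp only [e1, e2, if_false, mul_zero, add_zero]
    · intro h3
      exact absurd (Finset.mem_univ i) h3
  refine ⟨Submodule.span F (Set.range fun i : Fin m => b ⟨2 * i.val, h0 i⟩ + c • b ⟨2 * i.val + 1, h1 i⟩), ?_,
    E2_span h hv⟩
  rw [finrank_span_eq_card hlin, Fintype.card_fin]

omit [Finite F] in
/-- `M^⊥ = M` if `M` is totally isotropic and `2 dim M = dim V`: `v ↦ (h v x)_{x in a basis of M}` is onto `F ^ m` (nondegenerate), so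
`M^⊥` has dimension `m`. -/
theorem exists_pair (h : Herm F V) {m : ℕ} (hm : finrank F V = 2 * m) {M : Submodule F V}
    (hM : finrank F M = m) (hM0 : ∀ x ∈ M, ∀ y ∈ M, h.f x y = 0) {y : V} (hy : y ∉ M) :
    ∃ x ∈ M, h.f y x = 1 := by
  have hb := Module.finBasis F M
  have hlin : LinearIndependent F fun i : Fin (finrank F M) => h.toDual (hb i : V) := by
    rw [Fintype.linearIndependent_iff]
    intro g hg
    have h1 : (∑ i, star (g i) • (hb i : V)) = 0 := by
      apply h.nondeg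
      intro v
      rw [h.symm v, h.sum_right]
      have h2 := congrArg (fun f : Dual F V => f v) hg
      simp only [LinearMap.sum_apply, LinearMap.smul_apply, Herm.toDual_apply, LinearMap.zero_apply, smul_eq_mul] at h2
      have h3 : ∑ i, h.f v (star (g i) • (hb i : V)) = 0 := by
        rw [← h2]
        refine Finset.sum_congr rfl fun i _ => ?_
        rw [h.smul_right, star_star]
      rw [h3, star_zero]
    have h4 : (∑ i, star (g i) • hb i) = 0 := by
      apply Subtype.ext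
      rw [Submodule.coe_sum]
      exact h1
    intro i
    have h5 := Fintype.linearIndependent_iff.1 hb.linearIndependent (fun i => star (g i)) h4 i
    exact star_eq_zero.1 h5
  have hW : finrank F (Submodule.span F (Set.range fun i : Fin (finrank F M) => h.toDual (hb i : V))) = m := by
    rw [finrank_span_eq_card hlin, Fintype.card_fin, hM]
  have hsum := Subspace.finrank_add_finrank_dualCoannihilator_eq
    (Submodule.span F (Set.range fun i : Fin (finrank F M) => h.toDual (hb i : V)))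
  have hle : M ≤ (Submodule.span F (Set.range fun i : Fin (finrank F M) => h.toDual (hb i : V))).dualCoannihilator := by
    intro x hx
    rw [Submodule.mem_dualCoannihilator]
    intro φ hφ
    induction hφ using Submodule.span_induction with
    | mem φ hφ =>
      obtain ⟨i, rfl⟩ := hφ
      exact hM0 x hx _ (hb i).2
    | zero => exact LinearMap.zero_apply _
    | add f g _ _ h1 h2 => rw [LinearMap.add_apply, h1, h2, add_zero]
    | smul c f _ h1 => rw [LinearMap.smul_apply, h1, smul_zero]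
  have heq := Submodule.eq_of_le_of_finrank_le hle (by omega)
  have hex : ∃ i, h.f y (hb i : V) ≠ 0 := by
    by_contra hcon
    push Not at hcon
    apply hy
    rw [heq, Submodule.mem_dualCoannihilator]
    intro φ hφ
    induction hφ using Submodule.span_induction with
    | mem φ hφ =>
      obtain ⟨i, rfl⟩ := hφ
      exact hcon i
    | zero => exact LinearMap.zero_apply _
    | add f g _ _ h1 h2 => rw [LinearMap.add_apply, h1, h2, add_zero]
    | smul c f _ h1 => rw [LinearMap.smul_apply, h1, smul_zero]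
  obtain ⟨i, hi⟩ := hex
  refine ⟨star ((h.f y (hb i : V))⁻¹) • (hb i : V), M.smul_mem _ (hb i).2, ?_⟩
  rw [h.smul_right, star_star, inv_mul_cancel₀ hi]

/-! ### Row psu-E3 -/

/-- Take `M₀` from `exists_maxiso`, `T` the subgroup of the `t : SU h` with `t x = x` for `x ∈ M₀` and `t v - v ∈ M₀` for all `v`;
`exists_perm` gives `k`; let `M = k⁻¹ M₀`, then for `Q = {t : SU h | t = 1 on M, t v - v ∈ M}`: for `π g ∈ A`, `t ∈ Q` there are
`t' ∈ Q`, `π g' ∈ A` with `g * t = t' * g'`; taking inverses, `t * g = g' * t'` as well. Suppose `π g ∈ A`, `x ∈ M`,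
`y = g x ∉ M`. Let `x₁ ∈ M`, `h y x₁ = 1` (`exists_pair`), `M₁ = {x₂ ∈ M | h y x₂ = 0}` (dimension `m - 1`). For
`x₂ ∈ M₁`, `a + star a = 0` let `t` be the Eichler transformation (`exists_eichler`) with centre `x₁`, `v = -x₂` and `a`:
`t ∈ Q` and `t y = y - x₂ + a • x₁`. `t g = g' t'`, so `t y = g' x`. The lines of the vectors `y - x₂ + a • x₁` are different for
different `(x₂, a)` (`y ∉ M`), so `π g'` is different for different `(x₂, a)` (`g'` is determined by `π g'` up to scalars):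
`|A| ≥ |M₁| * q = q ^ (2 (m - 1) + 1)` (`card_skew`), a contradiction. -/
theorem exists_fixed_max [Finite G] (hF : IsUF F q) (hπ : IsProjU h π) (hA : GPermutable A) {m : ℕ} (hm0 : 1 ≤ m)
    (hm : finrank F V = 2 * m) (hc : Nat.card A < q ^ (2 * m - 1)) :
    ∃ M : Submodule F V, finrank F M = m ∧ (∀ x ∈ M, ∀ y ∈ M, h.f x y = 0) ∧
      ∀ g : SU h, π g ∈ A → ∀ x ∈ M, g.1 x ∈ M := by
  classical
  obtain ⟨M₀, hM₀, hiso⟩ := exists_maxiso hF h hm
  have hVfin : Finite V := Module.finite_of_finite F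
  -- the group of the transvections
  let T : Subgroup (SU h) :=
    { carrier := {t | (∀ x ∈ M₀, t.1 x = x) ∧ ∀ v, t.1 v - v ∈ M₀}
      mul_mem' := by
        rintro a b ⟨ha1, ha2⟩ ⟨hb1, hb2⟩
        refine ⟨fun x hx => ?_, fun v => ?_⟩
        · rw [SU.mul_apply, hb1 x hx, ha1 x hx]
        · rw [SU.mul_apply]
          have h1 := M₀.add_mem (ha2 (b.1 v)) (hb2 v)
          rwa [sub_add_sub_cancel] at h1
      one_mem' := ⟨fun x _ => rfl, fun v => by rw [SU.one_apply, sub_self]; exact M₀.zero_mem⟩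
      inv_mem' := by
        rintro a ⟨ha1, ha2⟩
        refine ⟨fun x hx => ?_, fun v => ?_⟩
        · have h1 := SU.inv_apply a x
          rwa [ha1 x hx] at h1
        · have h1 := ha2 ((a⁻¹).1 v)
          rw [SU.apply_inv] at h1
          have h2 := M₀.neg_mem h1
          rwa [neg_sub] at h2 }
  obtain ⟨k, hk⟩ := exists_perm hπ hA T
  -- the fixed subspace
  let M : Submodule F V := M₀.comap (k.1 : V →ₗ[F] V)
  have hmem : ∀ x, x ∈ M ↔ k.1 x ∈ M₀ := fun x => Iff.rfl
  have hMm : finrank F M = m := by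
    have h1 : M = M₀.map (k.1.symm : V →ₗ[F] V) := by
      ext x
      rw [hmem, Submodule.mem_map]
      constructor
      · intro hx
        exact ⟨k.1 x, hx, k.1.symm_apply_apply x⟩
      · rintro ⟨y, hy, rfl⟩
        change k.1 (k.1.symm y) ∈ M₀
        rwa [k.1.apply_symm_apply]
    rw [h1, LinearEquiv.finrank_map_eq]
    exact hM₀
  have hMiso : ∀ x ∈ M, ∀ y ∈ M, h.f x y = 0 := by
    intro x hx y hy
    rw [← SU.isom k x y]
    exact hiso _ ((hmem x).1 hx) _ ((hmem y).1 hy)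
  refine ⟨M, hMm, hMiso, ?_⟩
  -- permutability
  have hperm : ∀ g : SU h, π g ∈ A → ∀ t : SU h, (∀ x ∈ M, t.1 x = x) → (∀ v, t.1 v - v ∈ M) →
      ∃ t' : SU h, (∀ x ∈ M, t'.1 x = x) ∧ ∃ g' : SU h, π g' ∈ A ∧ t * g = g' * t' := by
    intro g hg t ht1 ht2
    have htT : k * t⁻¹ * k⁻¹ ∈ T := by
      have h0 : k * t * k⁻¹ ∈ T := by
        refine ⟨fun x hx => ?_, fun v => ?_⟩
        · rw [SU.mul_apply, SU.mul_apply, ht1 ((k⁻¹).1 x) (by rw [hmem, SU.apply_inv]; exact hx),
            SU.apply_inv]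
        · have h1 := (hmem _).1 (ht2 ((k⁻¹).1 v))
          rw [map_sub, SU.apply_inv] at h1
          exact h1
      have h1 := T.inv_mem h0
      have h2 : (k * t * k⁻¹)⁻¹ = k * t⁻¹ * k⁻¹ := by group
      rwa [h2] at h1
    obtain ⟨t', ht', g', hg', he⟩ := hk g⁻¹ (by rw [map_inv]; exact A.inv_mem hg) _ htT
    have h3 : k⁻¹ * (k * t⁻¹ * k⁻¹) * k = t⁻¹ := by group
    rw [h3] at he
    refine ⟨(k⁻¹ * t' * k)⁻¹, fun x hx => ?_, g'⁻¹, by rw [map_inv]; exact A.inv_mem hg', ?_⟩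
    · have h4 : (k⁻¹ * t' * k).1 x = x := by
        rw [SU.mul_apply, SU.mul_apply, ht'.1 _ ((hmem x).1 hx), SU.inv_apply]
      have h5 := SU.inv_apply (k⁻¹ * t' * k) x
      rwa [h4] at h5
    · rw [← mul_inv_rev, ← he]
      group
  intro g hg x hx
  by_contra hy
  obtain ⟨x₁, hx₁, hyx⟩ := exists_pair h hm hMm hMiso hy
  set y := g.1 x with hydef
  -- the subspace
  let M₁ : Submodule F V := M ⊓ LinearMap.ker (h.toDual y)
  have hM₁y : ∀ z : M₁, h.f y z = 0 := by
    intro z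
    have h1 : h.f z y = 0 := z.2.2
    rw [h.symm (z : V) y, h1, star_zero]
  have hM₁m : m - 1 ≤ finrank F M₁ := by
    have h1 := Submodule.finrank_sup_add_finrank_inf_eq M (LinearMap.ker (h.toDual y))
    have h2 := Submodule.finrank_le (M ⊔ LinearMap.ker (h.toDual y))
    have h3 := LinearMap.finrank_range_add_finrank_ker (h.toDual y)
    have h4 : finrank F (LinearMap.range (h.toDual y)) ≤ 1 := by
      have := Submodule.finrank_le (LinearMap.range (h.toDual y))
      rwa [Module.finrank_self] at this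
    change m - 1 ≤ finrank F (M ⊓ LinearMap.ker (h.toDual y) : Submodule F V)
    omega
  have hcardM : q ^ (2 * (m - 1)) ≤ Nat.card M₁ := by
    rw [Module.natCard_eq_pow_finrank (K := F) (V := M₁), hF.card, ← pow_mul]
    exact Nat.pow_le_pow_right (by have := hF.three_le; omega) (Nat.mul_le_mul_left 2 hM₁m)
  -- the transformations
  have hex : ∀ z : M₁ × {a : F // a + star a = 0}, ∃ g' : SU h, π g' ∈ A ∧
      g'.1 x = y - (z.1 : V) + (z.2 : F) • x₁ := by
    rintro ⟨x₂, a, ha⟩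
    have hx₂ : (x₂ : V) ∈ M := x₂.2.1
    obtain ⟨t, ht, hte⟩ := exists_eichler h (x₀ := x₁) (v := -(x₂ : V)) (a := a) (hMiso _ hx₁ _ hx₁)
      (by rw [h.neg_left, hMiso _ hx₂ _ hx₁, neg_zero])
      (by rw [h.neg_left, h.neg_right, hMiso _ hx₂ _ hx₂, neg_zero, neg_zero, add_zero, ha])
    obtain ⟨t', ht', g', hg', he⟩ := hperm g hg ⟨t, ht⟩ (fun z hz => by
      change t z = z
      rw [hte, hMiso _ hz _ hx₁, h.neg_right, hMiso _ hz _ hx₂, neg_zero, mul_zero]
      simp) (fun v => by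
      change t v - v ∈ M
      rw [hte]
      have h1 : v + h.f v x₁ • -(x₂ : V) - h.f v (-(x₂ : V)) • x₁ + (a * h.f v x₁) • x₁ - v =
          h.f v x₁ • -(x₂ : V) - h.f v (-(x₂ : V)) • x₁ + (a * h.f v x₁) • x₁ := by abel
      rw [h1]
      exact M.add_mem (M.sub_mem (M.smul_mem _ (M.neg_mem hx₂)) (M.smul_mem _ hx₁)) (M.smul_mem _ hx₁))
    refine ⟨g', hg', ?_⟩
    have h1 : (g' * t').1 x = t y := by
      rw [← he]
      rfl
    rw [SU.mul_apply, ht' x hx] at h1
    rw [h1, hte, hyx, h.neg_right, hM₁y x₂]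
    simp only [one_smul, neg_zero, zero_smul, sub_zero, mul_one]
    abel
  choose ψ hψ1 hψ2 using hex
  have hinj : Function.Injective (fun z => (⟨π (ψ z), hψ1 z⟩ : A)) := by
    intro z z' e
    have e1 : π (ψ z) = π (ψ z') := congrArg Subtype.val e
    have e2 : π ((ψ z')⁻¹ * ψ z) = 1 := by
      rw [map_mul, map_inv, e1, inv_mul_cancel]
    obtain ⟨c, hc1⟩ := (hπ.ker _).1 e2
    have e3 : (ψ z).1 x = c • (ψ z').1 x := by
      have h1 := congrArg (fun w => (ψ z').1 w) (hc1 x)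
      simp only [SU.mul_apply, SU.apply_inv, map_smul] at h1
      exact h1
    rw [hψ2, hψ2] at e3
    have e4 : (1 - c) • y ∈ M := by
      have h1 : (1 - c) • y = (z.1 : V) - (z.2 : F) • x₁ - c • ((z'.1 : V) - (z'.2 : F) • x₁) := by
        linear_combination (norm := module) e3
      rw [h1]
      exact M.sub_mem (M.sub_mem z.1.2.1 (M.smul_mem _ hx₁))
        (M.smul_mem _ (M.sub_mem z'.1.2.1 (M.smul_mem _ hx₁)))
    have e5 : c = 1 := by
      by_contra hne
      apply hy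
      have h1 := M.smul_mem (1 - c)⁻¹ e4
      rwa [smul_smul, inv_mul_cancel₀ (sub_ne_zero.2 (Ne.symm hne)), one_smul] at h1
    rw [e5, one_smul] at e3
    have e6 : (z.2 : F) = z'.2 := by
      have h1 := congrArg (fun w => h.f y w) e3
      simp only [h.add_right, h.sub_right, h.smul_right, hM₁y, hyx, mul_one] at h1
      exact star_injective (add_left_cancel h1)
    have e7 : (z.1 : V) = z'.1 := by
      rw [e6] at e3
      exact sub_right_injective (add_right_cancel e3)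
    exact Prod.ext (Subtype.ext e7) (Subtype.ext e6)
  have hle := Nat.card_le_card_of_injective _ hinj
  rw [Nat.card_prod] at hle
  have h1 := Nat.mul_le_mul hcardM (card_skew hF)
  have h2 : q ^ (2 * (m - 1)) * q = q ^ (2 * m - 1) := by
    rw [← pow_succ]
    congr 1
    omega
  rw [h2] at h1
  omega

/-! ### Row psu-E4 -/

omit [Finite F] [FiniteDimensional F V] [FiniteDimensional F K] in
private theorem E4_uniq (hπ : IsProjU h π) (φ : V ≃ₗ[F] K × F) {g g' : SU h} {μ μ' ν ν' : F}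
    {σ σ' : K ≃ₐ[F] K} (e : π g = π g') (h1 : ∀ v, φ (g.1 v) = (μ • σ (φ v).1, μ' * (φ v).2))
    (h2 : ∀ v, φ (g'.1 v) = (ν • σ' (φ v).1, ν' * (φ v).2)) : σ = σ' := by
  obtain ⟨c, hc⟩ := (hπ.ker (g⁻¹ * g')).1 (by rw [map_mul, map_inv, e, inv_mul_cancel])
  have h3 : ∀ x : V, g'.1 x = c • g.1 x := by
    intro x
    have h4 : g.1 ((g⁻¹ * g').1 x) = g'.1 x := by
      rw [SU.mul_apply, SU.apply_inv]
    rw [← h4, hc x]
    exact map_smul _ _ _
  have h5 : ∀ y : K, ν • σ' y = (c * μ) • σ y := by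
    intro y
    have h6 := h2 (φ.symm (y, 0))
    rw [h3, map_smul, h1, LinearEquiv.apply_symm_apply] at h6
    have h7 := congrArg Prod.fst h6
    change c • (μ • σ y) = ν • σ' y at h7
    rw [smul_smul] at h7
    exact h7.symm
  have h7 : ν ≠ 0 := by
    rintro rfl
    have h8 := h2 ((g'⁻¹).1 (φ.symm (1, 0)))
    rw [SU.apply_inv, LinearEquiv.apply_symm_apply] at h8
    have h9 := congrArg Prod.fst h8
    change (1 : K) = (0 : F) • _ at h9
    rw [zero_smul] at h9
    exact one_ne_zero h9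
  have h9 : ν = c * μ := by
    have := h5 1
    rw [map_one, map_one] at this
    exact smul_left_injective F (one_ne_zero : (1 : K) ≠ 0) this
  ext y
  have h10 := h5 y
  rw [← h9] at h10
  exact (smul_right_injective K h7 h10).symm

private theorem E4_arith {q r a : ℕ} (hq : 3 ≤ q) (hr : 3 ≤ r) (ha : a ≤ r * (q ^ 2 - 1)) : a < q ^ r := by
  obtain ⟨n, rfl⟩ : ∃ n, r = n + 3 := ⟨r - 3, by omega⟩
  have h1 : ∀ n : ℕ, n + 3 ≤ 3 ^ (n + 1) := by
    intro n
    induction n with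
    | zero => norm_num
    | succ n ih =>
      rw [pow_succ]
      omega
  have h2 : n + 3 ≤ q ^ (n + 1) := (h1 n).trans (Nat.pow_le_pow_left hq _)
  have h3 : q ^ 2 - 1 < q ^ 2 := Nat.sub_lt (by positivity) one_pos
  calc a ≤ (n + 3) * (q ^ 2 - 1) := ha
    _ < (n + 3) * q ^ 2 := Nat.mul_lt_mul_of_pos_left h3 (by omega)
    _ ≤ q ^ (n + 1) * q ^ 2 := Nat.mul_le_mul_right _ h2
    _ = q ^ (n + 3) := by rw [← pow_add]

omit [Finite F] [Group G] [FiniteDimensional F K] in
private theorem E4_scalar {m : ℕ} (hm : finrank F V = 2 * m) {M : Submodule F V}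
    (hM : finrank F M = m) (hM0 : ∀ x ∈ M, ∀ y ∈ M, h.f x y = 0)
    (φ : V ≃ₗ[F] K × F) (hφ0 : h.f (φ.symm (0, 1)) (φ.symm (0, 1)) ≠ 0)
    (hφ1 : ∀ x : K, h.f (φ.symm (x, 0)) (φ.symm (0, 1)) = 0) {g : SU h}
    (hg : ∀ x ∈ M, g.1 x ∈ M) {μ μ' : F} (h1 : ∀ v, φ (g.1 v) = (μ • (φ v).1, μ' * (φ v).2)) :
    μ = μ' := by
  by_contra hne
  have hw : φ.symm (0, 1) ∉ M := fun hw => hφ0 (hM0 _ hw _ hw)
  have h2 : ∀ z ∈ M, (φ z).2 = 0 := by
    intro z hz
    by_contra hz0
    have h3 : g.1 z - μ • z = ((μ' - μ) * (φ z).2) • φ.symm (0, 1) := by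
      apply φ.injective
      rw [map_sub, map_smul, h1, map_smul, LinearEquiv.apply_symm_apply]
      ext
      · change μ • (φ z).1 - μ • (φ z).1 = ((μ' - μ) * (φ z).2) • (0 : K)
        rw [sub_self, smul_zero]
      · change μ' * (φ z).2 - μ * (φ z).2 = ((μ' - μ) * (φ z).2) * 1
        ring
    have h4 : g.1 z - μ • z ∈ M := M.sub_mem (hg z hz) (M.smul_mem _ hz)
    rw [h3] at h4
    exact hw ((M.smul_mem_iff (mul_ne_zero (sub_ne_zero.2 (Ne.symm hne)) hz0)).1 h4)
  obtain ⟨x, hx, hx1⟩ := exists_pair h hm hM hM0 hw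
  have h5 : h.f x (φ.symm (0, 1)) = 0 := by
    have h6 : x = φ.symm ((φ x).1, 0) := by
      apply φ.injective
      rw [LinearEquiv.apply_symm_apply]
      exact Prod.ext rfl (h2 x hx)
    rw [h6]
    exact hφ1 _
  rw [h.symm, h5, star_zero] at hx1
  exact zero_ne_one hx1

/-- `r = finrank F K`, `2 m = r + 1`. `|A| ≤ r (q ^ 2 - 1) < q ^ r` (`card_le_even`; `r ≤ q ^ (r - 2)`), so `A` fixes `M` (`exists_fixed_max`). If
`π g ∈ A` and `φ g φ⁻¹ = (μ, μ')` (`σ = 1`) then `μ = μ'`: let `w = φ.symm (0, 1)`, `z ∈ M`, `φ z = (x, y)`; `g z - μ • z = ((μ' - μ) y) • w ∈ M`, and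
`w ∉ M` as `h w w ≠ 0`; if `μ ≠ μ'` then `y = 0` for all `z ∈ M`, so `h z w = 0` for all `z ∈ M` and `w ∈ M` by `exists_pair`, a
contradiction. So `π g ↦ σ` is an injective homomorphism of `A` into `K ≃ₐ[F] K` (compare `exists_generator` in `L/D.lean`). -/
theorem exists_gen_even [Finite G] (hF : IsUF F q) (hπ : IsProjU h π) (hA : GPermutable A) (hAb : A ≠ ⊥)
    (hr : 3 ≤ finrank F K) (hodd : Odd (finrank F K)) (hK : finrank F V = finrank F K + 1)
    (φ : V ≃ₗ[F] K × F) (hφ0 : h.f (φ.symm (0, 1)) (φ.symm (0, 1)) ≠ 0)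
    (hφ1 : ∀ x : K, h.f (φ.symm (x, 0)) (φ.symm (0, 1)) = 0)
    (hφ : ∀ g : SU h, π g ∈ A → ∃ (μ μ' : F) (σ : K ≃ₐ[F] K),
      ∀ v, φ (g.1 v) = (μ • σ (φ v).1, μ' * (φ v).2)) :
    ∃ (g : SU h) (μ μ' : F) (σ : K ≃ₐ[F] K), A = Subgroup.zpowers (π g) ∧
      (∀ v, φ (g.1 v) = (μ • σ (φ v).1, μ' * (φ v).2)) ∧ orderOf (π g) = orderOf σ ∧
      2 ≤ orderOf σ ∧ orderOf σ ∣ finrank F K := by
  classical
  obtain ⟨k, hk⟩ := hodd
  have hm : finrank F V = 2 * (k + 1) := by omega
  have hc : Nat.card A < q ^ (2 * (k + 1) - 1) := by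
    have h1 : 2 * (k + 1) - 1 = finrank F K := by omega
    rw [h1]
    exact E4_arith hF.three_le hr (card_le_even hF hπ φ hφ)
  obtain ⟨M, hM, hM0, hMA⟩ := exists_fixed_max hF hπ hA (by omega) hm hc
  choose g hg using fun a : A => hπ.surj a
  choose μ μ' s hs using fun a : A => hφ (g a) (by rw [hg]; exact a.2)
  have hmul : ∀ a b : A, s (a * b) = s a * s b := by
    intro a b
    refine E4_uniq hπ φ (g := g (a * b)) (g' := g a * g b) (ν := μ a * μ b) (ν' := μ' a * μ' b) ?_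
      (hs _) ?_
    · rw [map_mul, hg, hg, hg, Subgroup.coe_mul]
    · intro x
      rw [SU.mul_apply, hs, hs]
      refine Prod.ext ?_ ?_
      · change μ a • (s a) (μ b • (s b) (φ x).1) = (μ a * μ b) • (s a) ((s b) (φ x).1)
        rw [map_smul, smul_smul]
      · exact (mul_assoc _ _ _).symm
  have hinj : Function.Injective (MonoidHom.mk' s hmul) := by
    rw [injective_iff_map_eq_one]
    intro a ha
    have ha' : s a = 1 := ha
    have h0 : ∀ v, φ ((g a).1 v) = (μ a • (φ v).1, μ' a * (φ v).2) := by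
      intro v
      rw [hs, ha']
      rfl
    have h2 : μ a = μ' a :=
      E4_scalar hm hM hM0 φ hφ0 hφ1 (hMA (g a) (by rw [hg]; exact a.2)) h0
    have h1 : π (g a) = 1 := by
      rw [hπ.ker]
      refine ⟨μ a, fun x => φ.injective ?_⟩
      rw [h0, map_smul, ← h2]
      rfl
    rw [hg] at h1
    exact Subtype.ext h1
  have : Finite K := Module.finite_of_finite F
  have : IsCyclic A := isCyclic_of_injective (MonoidHom.mk' s hmul) hinj
  obtain ⟨a, ha⟩ := IsCyclic.exists_generator (α := A)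
  have hord : orderOf (a : G) = orderOf (s a) := by
    rw [Subgroup.orderOf_coe]
    exact (orderOf_injective (MonoidHom.mk' s hmul) hinj a).symm
  refine ⟨g a, μ a, μ' a, s a, ?_, hs a, ?_, ?_, ?_⟩
  · rw [hg]
    apply le_antisymm
    · intro x hx
      obtain ⟨n, hn⟩ := Subgroup.mem_zpowers_iff.1 (ha ⟨x, hx⟩)
      exact Subgroup.mem_zpowers_iff.2 ⟨n, by simpa using congrArg Subtype.val hn⟩
    · rw [Subgroup.zpowers_le]
      exact a.2
  · rw [hg]
    exact hord
  · rw [← hord]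
    have h1 : 0 < orderOf (a : G) := orderOf_pos _
    have h2 : orderOf (a : G) ≠ 1 := by
      intro h3
      rw [orderOf_eq_one_iff] at h3
      apply hAb
      rw [Subgroup.eq_bot_iff_forall]
      intro x hx
      obtain ⟨n, hn⟩ := Subgroup.mem_zpowers_iff.1 (ha ⟨x, hx⟩)
      have := congrArg Subtype.val hn
      simpa [h3] using this.symm
    omega
  · have h1 : IsGalois F K := inferInstance
    rw [← IsGalois.card_aut_eq_finrank F K]
    exact orderOf_dvd_natCard _

/-! ### Row psu-E5 -/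

/-- `(x, y) ↦ (θ x, (κ⁻¹ θ)⁻¹ y)`: an isometry; determinant `norm θ * (norm (κ⁻¹ θ))⁻¹`, `star (norm (κ⁻¹ θ)) = norm θ` (`norm_ext`). -/
theorem exists_tL {κ : L ≃+* L} (hκ : ∀ a : F, κ (algebraMap F L a) = algebraMap F L (star a))
    {hL : Herm F (L × L)} (hf : ∀ x y, hL.f x y =
      Algebra.trace F L (x.1 * κ y.2) + star (Algebra.trace F L (y.1 * κ x.2)))
    {θ : L} (hθ : θ ≠ 0) (hN : star (Algebra.norm F θ) = Algebra.norm F θ) :
    ∃ t ∈ SU hL, ∀ x y, t (x, y) = (θ * x, (κ.symm θ)⁻¹ * y) := by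
  have hθ' : κ.symm θ ≠ 0 := by
    intro h0
    apply hθ
    rw [← κ.apply_symm_apply θ, h0, map_zero]
  have hlin : ∀ c : L, ∀ (x : L), (Algebra.lmul F L c) x = c * x := fun c x => rfl
  let t : (L × L) ≃ₗ[F] (L × L) := LinearEquiv.ofLinearMap
    (LinearMap.prodMap (Algebra.lmul F L θ) (Algebra.lmul F L (κ.symm θ)⁻¹))
    (LinearMap.prodMap (Algebra.lmul F L θ⁻¹) (Algebra.lmul F L (κ.symm θ)))
    (by
      apply LinearMap.ext
      rintro ⟨x, y⟩
      simp only [LinearMap.comp_apply, LinearMap.prodMap_apply, hlin, LinearMap.id_apply]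
      rw [mul_inv_cancel_left₀ hθ, inv_mul_cancel_left₀ hθ'])
    (by
      apply LinearMap.ext
      rintro ⟨x, y⟩
      simp only [LinearMap.comp_apply, LinearMap.prodMap_apply, hlin, LinearMap.id_apply]
      rw [inv_mul_cancel_left₀ hθ, mul_inv_cancel_left₀ hθ'])
  have ht : ∀ x y, t (x, y) = (θ * x, (κ.symm θ)⁻¹ * y) := fun x y => rfl
  refine ⟨t, ?_, ht⟩
  rw [mem_SU]
  constructor
  · rintro ⟨x1, x2⟩ ⟨y1, y2⟩
    rw [ht, ht, hf, hf]
    simp only [map_mul, map_inv₀, RingEquiv.apply_symm_apply]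
    have e1 : θ * x1 * (θ⁻¹ * κ y2) = x1 * κ y2 := by
      rw [mul_comm θ x1, mul_assoc, mul_inv_cancel_left₀ hθ]
    have e2 : θ * y1 * (θ⁻¹ * κ x2) = y1 * κ x2 := by
      rw [mul_comm θ y1, mul_assoc, mul_inv_cancel_left₀ hθ]
    rw [e1, e2]
  · have h1 : Algebra.norm F θ = star (Algebra.norm F (κ.symm θ)) := by
      rw [← norm_ext κ hκ, RingEquiv.apply_symm_apply]
    have h2 : Algebra.norm F (κ.symm θ) = Algebra.norm F θ := by
      rw [← hN, h1, star_star]
    have h3 : Algebra.norm F (κ.symm θ) * Algebra.norm F (κ.symm θ)⁻¹ = 1 := by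
      rw [← map_mul, mul_inv_cancel₀ hθ', map_one]
    apply Units.ext
    rw [LinearEquiv.coe_det]
    have h4 : ((t : (L × L) ≃ₗ[F] (L × L)) : (L × L) →ₗ[F] (L × L)) =
        LinearMap.prodMap (Algebra.lmul F L θ) (Algebra.lmul F L (κ.symm θ)⁻¹) := rfl
    rw [h4, LinearMap.det_prodMap]
    have h5 : LinearMap.det (Algebra.lmul F L θ) = Algebra.norm F θ := rfl
    have h6 : LinearMap.det (Algebra.lmul F L (κ.symm θ)⁻¹) =
        Algebra.norm F (κ.symm θ)⁻¹ := rfl
    rw [h5, h6, ← h2, h3, Units.val_one]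

/-! ### Row psu-E6 -/

theorem E6_pow {q : ℕ} (hq : 3 ≤ q) (k : ℕ) : (2 * k + 2) * (q + 1) ≤ q ^ (k + 2) := by
  induction k with
  | zero =>
    have h1 : q ^ (0 + 2) = q * q := by ring
    rw [h1]
    have h2 : 3 * q ≤ q * q := Nat.mul_le_mul_right q hq
    omega
  | succ k ih =>
    have h1 : q ^ (k + 1 + 2) = q * q ^ (k + 2) := by ring
    rw [h1]
    have h2 : 3 * ((2 * k + 2) * (q + 1)) ≤ q * q ^ (k + 2) := Nat.mul_le_mul hq ih
    nlinarith

theorem E6_arith1 {q m s j : ℕ} (hq : 3 ≤ q) (hm : 2 ≤ m) (hsm : 2 * s ≤ m) (hs : 1 ≤ s)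
    (hj0 : 0 < j) (hj : j + 2 ≤ 2 * m) (h : q ^ (2 * m) - 1 ∣ (q + 1) * j * (q ^ (2 * s) - 1)) :
    False := by
  have h1 : q ^ (2 * s) ≤ q ^ m := Nat.pow_le_pow_right (by omega) hsm
  have h2 : 3 ≤ q ^ (2 * s) := le_trans hq (by
    calc q = q ^ 1 := (pow_one q).symm
      _ ≤ q ^ (2 * s) := Nat.pow_le_pow_right (by omega) (by omega))
  obtain ⟨k, rfl⟩ : ∃ k, m = k + 2 := ⟨m - 2, by omega⟩
  have h3 := E6_pow hq k
  have h4 : 0 < (q + 1) * j * (q ^ (2 * s) - 1) :=
    Nat.mul_pos (Nat.mul_pos (by omega) hj0) (by omega)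
  have h5 := Nat.le_of_dvd h4 h
  have h6 : q ^ (2 * (k + 2)) = q ^ (k + 2) * q ^ (k + 2) := by ring
  rw [h6] at h5
  obtain ⟨a, ha⟩ : ∃ a, q ^ (k + 2) = a + 1 := ⟨q ^ (k + 2) - 1, by omega⟩
  have h7 : (q + 1) * j ≤ a + 1 := by
    rw [← ha]
    refine le_trans ?_ h3
    rw [mul_comm]
    exact Nat.mul_le_mul_right _ (by omega)
  have h8 : (q + 1) * j * (q ^ (2 * s) - 1) ≤ (a + 1) * a :=
    Nat.mul_le_mul h7 (by omega)
  rw [ha] at h5
  have h9 : (a + 1) * (a + 1) = (a + 1) * a + a + 1 := by ring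
  omega

theorem E6_arith2 {q m j : ℕ} (hq : 3 ≤ q) (hm : 3 ≤ m) (hj0 : 0 < j) (hj : j + 2 ≤ 2 * m)
    (h : q ^ (2 * m) - 1 ∣ (q + 1) * j * (q ^ m + 1)) : False := by
  obtain ⟨k, rfl⟩ : ∃ k, m = k + 3 := ⟨m - 3, by omega⟩
  have h3 := E6_pow hq k
  have h4 : 0 < (q + 1) * j * (q ^ (k + 3) + 1) :=
    Nat.mul_pos (Nat.mul_pos (by omega) hj0) (by omega)
  have h5 := Nat.le_of_dvd h4 h
  have h6 : q ^ (2 * (k + 3)) = q ^ (k + 3) * q ^ (k + 3) := by ring
  rw [h6] at h5
  have h7 : 3 * ((2 * k + 2) * (q + 1)) ≤ q ^ (k + 3) := by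
    have e : q ^ (k + 3) = q * q ^ (k + 2) := by ring
    rw [e]
    exact Nat.mul_le_mul hq h3
  have h8 : (q + 1) * j ≤ (q + 1) * (2 * k + 4) := Nat.mul_le_mul_left _ (by omega)
  have h9 : (q + 1) * (2 * k + 4) + 2 ≤ q ^ (k + 3) := by nlinarith
  obtain ⟨a, ha⟩ : ∃ a, q ^ (k + 3) = a + 1 := ⟨q ^ (k + 3) - 1, by omega⟩
  rw [ha] at h5 h9
  have h10 : (q + 1) * j * (a + 1 + 1) ≤ (a - 1) * (a + 1 + 1) :=
    Nat.mul_le_mul_right _ (by omega)
  obtain ⟨b, rfl⟩ : ∃ b, a = b + 1 := ⟨a - 1, by omega⟩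
  have h11 : (b + 1 + 1) * (b + 1 + 1) = b * (b + 1 + 1 + 1) + b + 4 := by ring
  rw [Nat.add_sub_cancel] at h10
  omega

omit [Finite F] in
theorem E6_card (hF : IsUF F q) : Nat.card L = q ^ (2 * finrank F L) := by
  rw [Module.natCard_eq_pow_finrank (K := F) (V := L), hF.card, ← pow_mul]

theorem E6_fix (hF : IsUF F q) (a : F) (k : ℕ) : a ^ (q ^ (2 * k)) = a := by
  have : Fintype F := Fintype.ofFinite F
  have h1 := FiniteField.pow_card_pow k a
  rw [← Nat.card_eq_fintype_card, hF.card, ← pow_mul] at h1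
  exact h1

theorem E6_ne (hF : IsUF F q) : ∃ a : F, star a ≠ a := by
  by_contra hcon
  push Not at hcon
  obtain ⟨g, hg⟩ := IsCyclic.exists_generator (α := Fˣ)
  have h3 := hF.three_le
  have hord : orderOf g = q ^ 2 - 1 := by
    rw [orderOf_eq_card_of_forall_mem_zpowers hg, Nat.card_units, hF.card]
  have h1 : (g : F) ^ q = g := by
    rw [← hF.star_eq]
    exact hcon _
  have h2 : g ^ (q - 1) = 1 := by
    apply Units.ext
    have h4 : (g : F) ^ (q - 1) * g = 1 * g := by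
      rw [← pow_succ, one_mul, Nat.sub_add_cancel (by omega)]
      exact h1
    rw [Units.val_pow_eq_pow_val, Units.val_one]
    exact mul_right_cancel₀ g.ne_zero h4
  have h4 := Nat.le_of_dvd (by omega) (orderOf_dvd_of_pow_eq_one h2)
  rw [hord] at h4
  have h5 : q * 1 < q * q := Nat.mul_lt_mul_of_pos_left (by omega) (by omega)
  rw [pow_two] at h4
  omega

theorem E6_adjoin (hF : IsUF F q) (hm : 2 ≤ finrank F L) {η : L} (h0 : η ≠ 0)
    (hη : orderOf η = q ^ (2 * finrank F L) - 1) {j : ℕ}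
    (hj : 0 < j) (hj' : j + 2 ≤ 2 * finrank F L) : Algebra.adjoin F {(η ^ (q + 1)) ^ j} = ⊤ := by
  have hfin : Finite L := Module.finite_of_finite F
  set K : IntermediateField F L := IntermediateField.adjoin F {(η ^ (q + 1)) ^ j} with hK
  have hKS : K.toSubalgebra = Algebra.adjoin F {(η ^ (q + 1)) ^ j} :=
    IntermediateField.adjoin_simple_toSubalgebra_of_isAlgebraic (Algebra.IsAlgebraic.isAlgebraic _)
  have hcard : Nat.card K = q ^ (2 * finrank F K) := E6_card hF
  have hs : 1 ≤ finrank F K := finrank_pos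
  have hmul : finrank F K * finrank K L = finrank F L := finrank_mul_finrank F K L
  have hr : 1 ≤ finrank K L := finrank_pos
  have hpow : ((η ^ (q + 1)) ^ j) ^ (Nat.card K - 1) = 1 := by
    have : Fintype K := Fintype.ofFinite K
    have h1 : (⟨(η ^ (q + 1)) ^ j,
        IntermediateField.mem_adjoin_simple_self F ((η ^ (q + 1)) ^ j)⟩ : K) ≠ 0 := by
      intro h
      exact pow_ne_zero j (pow_ne_zero (q + 1) h0) (congrArg Subtype.val h)
    have h2 := FiniteField.pow_card_sub_one_eq_one _ h1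
    rw [← Nat.card_eq_fintype_card] at h2
    exact congrArg Subtype.val h2
  have hdvd : q ^ (2 * finrank F L) - 1 ∣ (q + 1) * j * (q ^ (2 * finrank F K) - 1) := by
    rw [← hη, ← hcard]
    apply orderOf_dvd_of_pow_eq_one
    rw [pow_mul, pow_mul]
    exact hpow
  have hr1 : finrank K L = 1 := by
    by_contra hne
    have h2 : 2 ≤ finrank K L := by omega
    have h3 : 2 * finrank F K ≤ finrank F L := by
      rw [← hmul, mul_comm]
      exact Nat.mul_le_mul_left _ h2
    exact E6_arith1 hF.three_le hm h3 hs hj hj' hdvd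
  have hfr : finrank F K = finrank F L := by rw [← hmul, hr1, mul_one]
  have htop : K = ⊤ := by
    apply IntermediateField.eq_of_le_of_finrank_eq le_top
    rw [hfr]
    exact IntermediateField.finrank_top'.symm
  rw [← hKS, htop, IntermediateField.top_toSubalgebra]

/-- an involution of `L` which is not the identity is `x ↦ x ^ (q ^ m)` -/
theorem E6_invol (hF : IsUF F q) (β : L ≃+* L) (h1 : ∀ x, β (β x) = x) (h2 : ∃ x, β x ≠ x) :
    ∀ x, β x = x ^ (q ^ finrank F L) := by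
  have hfin : Finite L := Module.finite_of_finite F
  let inst : StarRing L :=
    { star := fun x => β x
      star_involutive := h1
      star_mul := fun x y => by rw [map_mul, mul_comm]
      star_add := fun x y => map_add β x y }
  obtain ⟨Q, hQ, hx⟩ := exists_uf L h2
  have hcard : Nat.card L = q ^ (2 * finrank F L) := E6_card hF
  have h3 : (q ^ finrank F L) ^ 2 = Q ^ 2 := by
    rw [← hQ, hcard, ← pow_mul, mul_comm]
  have h4 : q ^ finrank F L = Q := Nat.pow_left_injective (by norm_num : 2 ≠ 0) h3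
  intro x
  rw [h4]
  exact hx x

/-- `m = finrank F L`, `η` a generator of `Lˣ`, `θ = η ^ (q + 1)`: `norm θ = (norm η) ^ (q + 1)` is fixed by `star`. Let `0 < j ≤ 2 m - 2`,
`α = θ ^ j`. (i) `F(α) = M`, `s = [M : F]`, `s ∣ m`; if `s < m` then `2 s ≤ m`, `α ^ (q ^ (2 s) - 1) = 1`,
`q ^ (2 m) - 1 ∣ j (q + 1) (q ^ (2 s) - 1)`, so `q ^ (2 (m - s)) < (2 m - 2) (q + 1)`, but `2 (m - s) ≥ m` and `q ^ m ≥ (2 m - 2) (q + 1)` for
`m ≥ 2`, `q ≥ 3`. (ii) If `ρ α = (κ⁻¹ α)⁻¹` let `β = κ ∘ ρ`; `β α = α⁻¹`, `β (β α) = α`; `β ∘ β` is an automorphism over `F` and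
`F(α) = L`, so `β ∘ β = 1`; `β` is not `1` on `F`. `β x = x ^ (q ^ i)` with `i` odd, `i < 2 m` (automorphisms of `L` over the prime field
with restriction `star` to `F`; write `κ` as a power of the Frobenius, `q = p ^ f`), and `β ∘ β = 1` gives `2 m ∣ 2 i`, `i = m`. So
`α ^ (q ^ m + 1) = 1`, `q ^ (2 m) - 1 ∣ j (q + 1) (q ^ m + 1)`, `q ^ m - 1 ≤ (2 m - 2) (q + 1)` with `m = i` odd, `m ≥ 3`: impossible.
(It may be easier to use only: an involution `β ≠ 1` of the finite field `L`, `|L| = q ^ (2 m)`, is `x ↦ x ^ (q ^ m)`; on `F` this is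
`star` only if `m` is odd.) -/
theorem exists_genL (hF : IsUF F q) {κ : L ≃+* L}
    (hκ : ∀ a : F, κ (algebraMap F L a) = algebraMap F L (star a)) (hm : 2 ≤ finrank F L) :
    ∃ θ : L, θ ≠ 0 ∧ star (Algebra.norm F θ) = Algebra.norm F θ ∧
      ∀ j : ℕ, 0 < j → j + 2 ≤ 2 * finrank F L → Algebra.adjoin F {θ ^ j} = ⊤ ∧
        ∀ ρ : L ≃ₐ[F] L, ρ (θ ^ j) ≠ (κ.symm (θ ^ j))⁻¹ := by
  have hfin : Finite L := Module.finite_of_finite F
  have hcardL : Nat.card L = q ^ (2 * finrank F L) := E6_card hF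
  obtain ⟨η, hη⟩ := IsCyclic.exists_generator (α := Lˣ)
  have hord : orderOf (η : L) = q ^ (2 * finrank F L) - 1 := by
    rw [orderOf_units, orderOf_eq_card_of_forall_mem_zpowers hη, Nat.card_units, hcardL]
  refine ⟨(η : L) ^ (q + 1), pow_ne_zero _ η.ne_zero, ?_, ?_⟩
  · rw [map_pow, hF.star_eq, ← pow_mul]
    have e : (q + 1) * q = q ^ (2 * 1) + q := by ring
    rw [e, pow_add, E6_fix hF _ 1, pow_succ, mul_comm]
  · intro j hj hj'
    have hadj := E6_adjoin hF hm η.ne_zero hord hj hj'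
    refine ⟨hadj, fun ρ hρ => ?_⟩
    set α : L := ((η : L) ^ (q + 1)) ^ j with hα
    have hα0 : α ≠ 0 := pow_ne_zero _ (pow_ne_zero _ η.ne_zero)
    let β : L ≃+* L := ρ.toRingEquiv.trans κ
    have hβ : ∀ x, β x = κ (ρ x) := fun x => rfl
    have hβα : β α = α⁻¹ := by
      rw [hβ, hρ, map_inv₀, RingEquiv.apply_symm_apply]
    have hβF : ∀ a : F, β (algebraMap F L a) = algebraMap F L (star a) := by
      intro a
      rw [hβ, AlgEquiv.commutes, hκ]
    let γ : L →ₐ[F] L :=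
      { (β.trans β : L ≃+* L).toRingHom with
        commutes' := fun a => by
          show β (β (algebraMap F L a)) = algebraMap F L a
          rw [hβF, hβF, star_star] }
    have hγ : ∀ x, γ x = β (β x) := fun x => rfl
    have hγ1 : γ = AlgHom.id F L := by
      refine AlgHom.ext_of_adjoin_eq_top hadj ?_
      intro x hx
      rw [Set.mem_singleton_iff] at hx
      rw [hx, hγ, hβα, map_inv₀, hβα, inv_inv]
      rfl
    have hββ : ∀ x, β (β x) = x := by
      intro x
      rw [← hγ, hγ1]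
      rfl
    obtain ⟨a, ha⟩ := E6_ne hF
    have hinv := E6_invol hF β hββ ⟨algebraMap F L a, fun h0 => ha (by
      rw [hβF] at h0
      exact (algebraMap F L).injective h0)⟩
    have hm3 : 3 ≤ finrank F L := by
      rcases Nat.even_or_odd (finrank F L) with he | ho
      · exfalso
        obtain ⟨k, hk⟩ := he
        apply ha
        apply (algebraMap F L).injective
        rw [← hβF, hinv, ← map_pow, hk, ← two_mul, E6_fix hF]
      · obtain ⟨k, hk⟩ := ho
        omega
    have h1 : α ^ (q ^ finrank F L + 1) = 1 := by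
      rw [pow_succ, ← hinv, hβα, inv_mul_cancel₀ hα0]
    refine E6_arith2 hF.three_le hm3 hj hj' ?_
    rw [← hord]
    apply orderOf_dvd_of_pow_eq_one
    rw [pow_mul, pow_mul]
    exact h1

/-! ### Row psu-E7 -/

omit [Finite F] [FiniteDimensional F V] [FiniteDimensional F L] in
theorem E7_zpow (t : SU h) (φ : V ≃ₗ[F] L × L) {a b : L} (ha : a ≠ 0) (hb : b ≠ 0)
    (ht : ∀ v, φ (t.1 v) = (a * (φ v).1, b * (φ v).2)) (n : ℤ) (v : V) :
    φ ((t ^ n).1 v) = (a ^ n * (φ v).1, b ^ n * (φ v).2) := by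
  have hinv : ∀ v, φ ((t⁻¹).1 v) = (a⁻¹ * (φ v).1, b⁻¹ * (φ v).2) := by
    intro v
    have h1 := ht ((t⁻¹).1 v)
    rw [SU.apply_inv] at h1
    rw [h1, inv_mul_cancel_left₀ ha, inv_mul_cancel_left₀ hb]
  induction n using Int.induction_on generalizing v with
  | zero =>
    rw [zpow_zero, zpow_zero, zpow_zero, SU.one_apply, one_mul, one_mul]
  | succ n ih =>
    rw [zpow_add_one, SU.mul_apply, ih, ht, zpow_add_one₀ ha, zpow_add_one₀ hb, mul_assoc, mul_assoc]
  | pred n ih =>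
    rw [zpow_sub_one, SU.mul_apply, ih, hinv, zpow_sub_one₀ ha, zpow_sub_one₀ hb, mul_assoc,
      mul_assoc]

omit [Finite F] [FiniteDimensional F L] in
theorem E7_adjoin_symm {κ : L ≃+* L} (hκ : ∀ a : F, κ (algebraMap F L a) = algebraMap F L (star a))
    {α : L} (hα : Algebra.adjoin F {α} = ⊤) : Algebra.adjoin F {κ.symm α} = ⊤ := by
  rw [eq_top_iff]
  intro x _
  have h1 : κ x ∈ Algebra.adjoin F {α} := by
    rw [hα]
    exact Algebra.mem_top
  have h2 : ∀ y ∈ Algebra.adjoin F {α}, κ.symm y ∈ Algebra.adjoin F {κ.symm α} := by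
    intro y hy
    induction hy using Algebra.adjoin_induction with
    | mem y hy =>
      rw [Set.mem_singleton_iff.1 hy]
      exact Algebra.self_mem_adjoin_singleton F _
    | algebraMap r =>
      have h3 : κ.symm (algebraMap F L r) = algebraMap F L (star r) := by
        rw [RingEquiv.symm_apply_eq, hκ, star_star]
      rw [h3]
      exact Subalgebra.algebraMap_mem _ _
    | add y z _ _ hy hz =>
      rw [map_add]
      exact Subalgebra.add_mem _ hy hz
    | mul y z _ _ hy hz =>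
      rw [map_mul]
      exact Subalgebra.mul_mem _ hy hz
  have h3 := h2 _ h1
  rwa [RingEquiv.symm_apply_apply] at h3

omit [Finite F] [StarRing F] in
theorem E7_adjoin_inv {β : L} (hβ : Algebra.adjoin F {β} = ⊤) : Algebra.adjoin F {β⁻¹} = ⊤ := by
  rw [eq_top_iff, ← hβ]
  refine Algebra.adjoin_le ?_
  intro y hy
  rw [Set.mem_singleton_iff.1 hy]
  have h1 : β⁻¹ ∈ Algebra.adjoin F {β⁻¹} := Algebra.self_mem_adjoin_singleton F _
  have h2 := (Algebra.adjoin F {β⁻¹}).inv_mem_of_algebraic (x := ⟨β⁻¹, h1⟩)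
    (Algebra.IsAlgebraic.isAlgebraic (R := F) (β⁻¹))
  rwa [inv_inv] at h2

/-- `κ` (`exists_kappa`), the form of `exists_formL`, `e₀ : V ≃ₗ[F] L × L` isometry (`exists_isometry`), `θ` from `exists_genL`, `t` from
`exists_tL` and `exists_transport`; `exists_cyc` gives `k, j, i, ζ`, `φ = e₀ ∘ k`, `α = θ ^ j`, `α' = (κ⁻¹ α)⁻¹`. (`F[α'] = L` as
`κ⁻¹` maps `F[α]` onto `F[κ⁻¹ α]`, and `F[β⁻¹] = F[β]`.) If `h x x ≠ 0` then both components of `φ x` are
nonzero. -/
theorem exists_torus_even [Finite G] (hF : IsUF F q) (hπ : IsProjU h π) (hA : GPermutable A) (g : SU h)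
    (hg : A = Subgroup.zpowers (π g)) (he : 2 ≤ orderOf (π g))
    (he' : orderOf (π g) + 1 ≤ 2 * finrank F L) (hm : 2 ≤ finrank F L)
    (hL : finrank F V = 2 * finrank F L) :
    ∃ (φ : V ≃ₗ[F] L × L) (α α' : L) (ζ : F) (k : ℤ),
      (∀ x, h.f x x ≠ 0 → (φ x).1 ≠ 0 ∧ (φ x).2 ≠ 0) ∧ Algebra.adjoin F {α} = ⊤ ∧
      Algebra.adjoin F {α'} = ⊤ ∧ α ≠ 0 ∧ α' ≠ 0 ∧ (∀ ρ : L ≃ₐ[F] L, ρ α ≠ α') ∧ ζ ≠ 0 ∧
      ∀ x y : L, φ (g.1 (φ.symm (α * x, α' * y))) =
        (algebraMap F L ζ * α ^ k * (φ (g.1 (φ.symm (x, y)))).1,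
          algebraMap F L ζ * α' ^ k * (φ (g.1 (φ.symm (x, y)))).2) := by
  obtain ⟨κ, -, hκ⟩ := exists_kappa (K := L) hF
  obtain ⟨h', hf⟩ := exists_formL κ hκ
  obtain ⟨e₀, he₀⟩ := exists_isometry hF h h' (by rw [hL, finrank_prod]; omega)
  obtain ⟨θ, hθ, hN, hgen⟩ := exists_genL hF hκ hm
  obtain ⟨t₀, ht₀, ht⟩ := exists_tL hκ hf hθ hN
  obtain ⟨s, hs⟩ := exists_transport e₀ he₀ ht₀
  have hnt : Nontrivial V := Module.nontrivial_of_finrank_pos (R := F) (by rw [hL]; omega)
  obtain ⟨k, j, i, ζ, hj0, hj1, hζ, hkey⟩ := exists_cyc hπ hA g hg he s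
  have hθ' : (κ.symm θ)⁻¹ ≠ 0 := inv_ne_zero ((map_ne_zero_iff _ κ.symm.injective).2 hθ)
  obtain ⟨hgj, hρ⟩ := hgen j hj0 (by omega)
  have hφt : ∀ v, (k.1.trans e₀) ((k⁻¹ * s * k).1 v) =
      (θ * ((k.1.trans e₀) v).1, (κ.symm θ)⁻¹ * ((k.1.trans e₀) v).2) := by
    intro v
    rw [SU.mul_apply, SU.mul_apply, LinearEquiv.trans_apply, LinearEquiv.trans_apply, SU.apply_inv,
      hs, LinearEquiv.apply_symm_apply, ← ht]
  have hz := E7_zpow (k⁻¹ * s * k) (k.1.trans e₀) hθ hθ' hφt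
  have ej : (κ.symm (θ ^ j))⁻¹ = (κ.symm θ)⁻¹ ^ j := by rw [map_pow, inv_pow]
  refine ⟨k.1.trans e₀, θ ^ j, (κ.symm (θ ^ j))⁻¹, ζ, i, fun x hx => ?_, hgj,
    E7_adjoin_inv (E7_adjoin_symm hκ hgj), pow_ne_zero _ hθ, ?_, hρ, hζ, fun x y => ?_⟩
  · have h1 : h.f x x = h'.f ((k.1.trans e₀) x) ((k.1.trans e₀) x) := by
      rw [LinearEquiv.trans_apply, he₀, SU.isom]
    rw [h1, hf] at hx
    constructor
    · intro h0
      refine hx ?_
      rw [h0, zero_mul, map_zero, star_zero, add_zero]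
    · intro h0
      refine hx ?_
      rw [h0, map_zero, mul_zero, map_zero, star_zero, add_zero]
  · rw [ej]
    exact pow_ne_zero _ hθ'
  · obtain ⟨v, hv⟩ : ∃ v, v = (k.1.trans e₀).symm (x, y) := ⟨_, rfl⟩
    have hφv : (k.1.trans e₀) v = (x, y) := by rw [hv, LinearEquiv.apply_symm_apply]
    have h1 : (k.1.trans e₀).symm (θ ^ j * x, (κ.symm (θ ^ j))⁻¹ * y) =
        ((k⁻¹ * s * k) ^ (j : ℤ)).1 v := by
      rw [LinearEquiv.symm_apply_eq, hz, hφv, zpow_natCast, zpow_natCast, ej]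
    rw [h1, hkey, map_smul, hz, ← hv, zpow_mul, zpow_mul, zpow_natCast, zpow_natCast, ← ej,
      Prod.smul_mk, Algebra.smul_def, Algebra.smul_def, mul_assoc, mul_assoc]

/-! ### Row psu-E8 -/

omit [Finite F] [StarRing F] in
/-- a block which is not `0` -/
theorem E8_block (P : L →ₗ[F] L) (hP : P ≠ 0) {a a' : L} (ha : Algebra.adjoin F {a} = ⊤)
    (h : ∀ x, P (a * x) = a' * P x) :
    ∃ (δ : L) (τ : L ≃ₐ[F] L), (∀ x, P x = δ * τ x) ∧ τ a = a' := by
  have key : ∀ b : L, ∃ b' : L, ∀ x, P (b * x) = b' * P x := by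
    intro b
    have hb : b ∈ Algebra.adjoin F {a} := by
      rw [ha]
      exact Algebra.mem_top
    induction hb using Algebra.adjoin_induction with
    | mem x hx =>
      rw [Set.mem_singleton_iff] at hx
      subst hx
      exact ⟨a', h⟩
    | algebraMap r =>
      refine ⟨algebraMap F L r, fun x => ?_⟩
      rw [← Algebra.smul_def, ← Algebra.smul_def, map_smul]
    | add x y _ _ hx hy =>
      obtain ⟨x', hx⟩ := hx
      obtain ⟨y', hy⟩ := hy
      refine ⟨x' + y', fun z => ?_⟩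
      rw [add_mul, map_add, hx, hy, add_mul]
    | mul x y _ _ hx hy =>
      obtain ⟨x', hx⟩ := hx
      obtain ⟨y', hy⟩ := hy
      refine ⟨x' * y', fun z => ?_⟩
      rw [mul_assoc, hx, hy, mul_assoc]
  have h1 : P 1 ≠ 0 := by
    intro h1
    apply hP
    ext b
    obtain ⟨b', hb⟩ := key b
    have := hb 1
    rw [mul_one, h1, mul_zero] at this
    exact this
  have hmul : ∀ x y, P (x * y) * P 1 = P x * P y := by
    intro x y
    obtain ⟨x', hx⟩ := key x
    have e1 := hx 1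
    rw [mul_one] at e1
    rw [hx y, e1]
    ring
  let τ : L →ₐ[F] L :=
    { toFun := fun x => P x / P 1
      map_one' := div_self h1
      map_mul' := fun x y => by
        rw [div_mul_div_comm, ← hmul, mul_div_mul_right _ _ h1]
      map_zero' := by rw [map_zero, zero_div]
      map_add' := fun x y => by rw [map_add, add_div]
      commutes' := fun r => by
        have e : P (algebraMap F L r) = algebraMap F L r * P 1 := by
          rw [← Algebra.smul_def, ← map_smul, Algebra.smul_def, mul_one]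
        rw [e, mul_div_assoc, div_self h1, mul_one] }
  have hτ : ∀ x, τ x = P x / P 1 := fun x => rfl
  refine ⟨P 1, AlgEquiv.ofBijective τ τ.bijective, fun x => ?_, ?_⟩
  · rw [AlgEquiv.coe_ofBijective, hτ, mul_div_cancel₀ _ h1]
  · rw [AlgEquiv.coe_ofBijective, hτ]
    have e := h 1
    rw [mul_one] at e
    rw [e, mul_div_assoc, div_self h1, mul_one]

omit [Finite F] [StarRing F] in
/-- Four blocks `g₁₁, g₁₂, g₂₁, g₂₂ : L → L`, `g₁₁ (α x) = ζ α ^ k g₁₁ x`, `g₁₂ (α' y) = ζ α ^ k g₁₂ y`, and so on. A block which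
is not `0` is of the form `δ * τ x`, `δ ≠ 0`, `τ` an automorphism (see `split_form` in `L/T.lean`, `split_odd`), with
`τ α = ζ α ^ k` for `g₁₁`, `τ α' = ζ α ^ k` for `g₁₂`; if both are nonzero then `α' = ρ α`, excluded. The same for
`g₂₁, g₂₂`, and for the columns: `g₁₁, g₂₁` cannot both be nonzero (`τ α = ζ α ^ k`, `τ' α = ζ α' ^ k`, so `ζ α' ^ k = ρ (ζ α ^ k)`): because then
`g₁₂ = g₂₂ = 0` and `g` is not injective. -/
theorem split_even (g : (L × L) ≃ₗ[F] (L × L)) {α α' : L} {ζ : F} {k : ℤ}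
    (hα : Algebra.adjoin F {α} = ⊤) (hα' : Algebra.adjoin F {α'} = ⊤) (hα0 : α ≠ 0)
    (hα0' : α' ≠ 0) (hρ : ∀ ρ : L ≃ₐ[F] L, ρ α ≠ α') (hζ : ζ ≠ 0)
    (hg : ∀ x y, g (α * x, α' * y) =
      (algebraMap F L ζ * α ^ k * (g (x, y)).1, algebraMap F L ζ * α' ^ k * (g (x, y)).2)) :
    (∃ (δ δ' : L) (τ τ' : L ≃ₐ[F] L), ∀ x y, g (x, y) = (δ * τ x, δ' * τ' y)) ∨
      (∀ x, (g (x, 0)).1 = 0) ∧ ∀ y, (g (0, y)).2 = 0 := by
  have hs : ∀ x y, g (x, y) = g (x, 0) + g (0, y) := by
    intro x y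
    rw [← map_add, Prod.mk_add_mk, add_zero, zero_add]
  let p11 : L →ₗ[F] L := (LinearMap.fst F L L).comp (g.toLinearMap.comp (LinearMap.inl F L L))
  let p12 : L →ₗ[F] L := (LinearMap.fst F L L).comp (g.toLinearMap.comp (LinearMap.inr F L L))
  let p21 : L →ₗ[F] L := (LinearMap.snd F L L).comp (g.toLinearMap.comp (LinearMap.inl F L L))
  let p22 : L →ₗ[F] L := (LinearMap.snd F L L).comp (g.toLinearMap.comp (LinearMap.inr F L L))
  have e11 : ∀ x, p11 x = (g (x, 0)).1 := fun x => rfl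
  have e12 : ∀ x, p12 x = (g (0, x)).1 := fun x => rfl
  have e21 : ∀ x, p21 x = (g (x, 0)).2 := fun x => rfl
  have e22 : ∀ x, p22 x = (g (0, x)).2 := fun x => rfl
  have c11 : ∀ x, p11 (α * x) = algebraMap F L ζ * α ^ k * p11 x := by
    intro x
    have := congrArg Prod.fst (hg x 0)
    rw [mul_zero] at this
    exact this
  have c12 : ∀ x, p12 (α' * x) = algebraMap F L ζ * α ^ k * p12 x := by
    intro x
    have := congrArg Prod.fst (hg 0 x)
    rw [mul_zero] at this
    exact this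
  have c21 : ∀ x, p21 (α * x) = algebraMap F L ζ * α' ^ k * p21 x := by
    intro x
    have := congrArg Prod.snd (hg x 0)
    rw [mul_zero] at this
    exact this
  have c22 : ∀ x, p22 (α' * x) = algebraMap F L ζ * α' ^ k * p22 x := by
    intro x
    have := congrArg Prod.snd (hg 0 x)
    rw [mul_zero] at this
    exact this
  have hcon : ∀ τ τ' : L ≃ₐ[F] L, τ α = τ' α' → False := by
    intro τ τ' h
    apply hρ (τ.trans τ'.symm)
    rw [AlgEquiv.trans_apply, h, AlgEquiv.symm_apply_apply]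
  by_cases h11 : p11 = 0
  · right
    have h1 : ∀ x, (g (x, 0)).1 = 0 := by
      intro x
      rw [← e11, h11]
      rfl
    refine ⟨h1, ?_⟩
    by_contra hn
    have h22 : p22 ≠ 0 := by
      intro h0
      apply hn
      intro y
      rw [← e22, h0]
      rfl
    have h21 : p21 ≠ 0 := by
      intro h0
      have h2 : g ((1 : L), (0 : L)) = 0 := by
        apply Prod.ext
        · exact h1 1
        · rw [← e21, h0]
          rfl
      have h3 : ((1 : L), (0 : L)) = 0 := g.map_eq_zero_iff.1 h2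
      exact one_ne_zero (congrArg Prod.fst h3)
    obtain ⟨_, τ, _, hτ⟩ := E8_block p21 h21 hα c21
    obtain ⟨_, τ', _, hτ'⟩ := E8_block p22 h22 hα' c22
    exact hcon τ τ' (hτ.trans hτ'.symm)
  · left
    obtain ⟨δ, τ, h1, hτ⟩ := E8_block p11 h11 hα c11
    have h12 : p12 = 0 := by
      by_contra h12
      obtain ⟨_, τ', _, hτ'⟩ := E8_block p12 h12 hα' c12
      exact hcon τ τ' (hτ.trans hτ'.symm)
    have h22 : p22 ≠ 0 := by
      intro h0
      have h2 : g ((0 : L), (1 : L)) = 0 := by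
        apply Prod.ext
        · rw [← e12, h12]
          rfl
        · rw [← e22, h0]
          rfl
      have h3 : ((0 : L), (1 : L)) = 0 := g.map_eq_zero_iff.1 h2
      exact one_ne_zero (congrArg Prod.snd h3)
    obtain ⟨δ', τ', h2, hτ'⟩ := E8_block p22 h22 hα' c22
    have h21 : p21 = 0 := by
      by_contra h21
      obtain ⟨_, τ'', _, hτ''⟩ := E8_block p21 h21 hα c21
      exact hcon τ'' τ' (hτ''.trans hτ'.symm)
    refine ⟨δ, δ', τ, τ', fun x y => ?_⟩
    rw [hs]
    apply Prod.ext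
    · rw [Prod.fst_add, ← e11, ← e12, h12, h1]
      exact add_zero _
    · rw [Prod.snd_add, ← e21, ← e22, h21, h2]
      exact zero_add _

/-! ### Row psu-E9 -/

omit [StarRing F] in
private theorem E9_one {δ : L} {τ : L ≃ₐ[F] L} {c : F} (hc : c ≠ 0) {e : ℕ}
    (he : e ∣ 2 * finrank F L - 1) (hm : 2 ≤ finrank F L)
    (hf : ∀ x : L, (fun x => δ * τ x)^[e] x = c • x) : τ = 1 := by
  have : Finite L := Module.finite_of_finite F
  have aux : ∀ n : ℕ, ∃ d : L, ∀ x, (fun x => δ * τ x)^[n] x = d * (τ ^ n) x := by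
    intro n
    induction n with
    | zero => exact ⟨1, fun x => by rw [Function.iterate_zero, pow_zero, one_mul]; rfl⟩
    | succ n ih =>
      obtain ⟨d, hd⟩ := ih
      refine ⟨δ * τ d, fun x => ?_⟩
      rw [Function.iterate_succ_apply', hd, map_mul, pow_succ', AlgEquiv.mul_apply, mul_assoc]
  obtain ⟨d, hd⟩ := aux e
  have hc' : algebraMap F L c ≠ 0 := (map_ne_zero _).2 hc
  have h1 : d = algebraMap F L c := by
    have h2 := hd 1
    rw [hf, map_one, mul_one, Algebra.smul_def, mul_one] at h2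
    exact h2.symm
  have h3 : τ ^ e = 1 := by
    ext x
    have h2 := hd x
    rw [hf, h1, Algebra.smul_def] at h2
    exact (mul_left_cancel₀ hc' h2).symm
  have h4 : orderOf τ ∣ e := orderOf_dvd_of_pow_eq_one h3
  have h5 : orderOf τ ∣ finrank F L := by
    have hG : IsGalois F L := inferInstance
    rw [← IsGalois.card_aut_eq_finrank F L]
    exact orderOf_dvd_natCard _
  have h6 : orderOf τ ∣ 1 := by
    have h7 := h4.trans he
    have h8 : orderOf τ ∣ 2 * finrank F L := h5.mul_left 2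
    have h9 := Nat.dvd_sub h8 h7
    have h10 : 2 * finrank F L - (2 * finrank F L - 1) = 1 := by omega
    rwa [h10] at h9
  rw [← orderOf_eq_one_iff]
  exact Nat.dvd_one.1 h6

/-- From `exists_torus_even` and `split_even` (`γ = φ ∘ g ∘ φ⁻¹`). `e = orderOf (π g)` is odd and prime to `m`; `γ ^ e` is a scalar (kernel of
`π`). The second case of `split_even` is impossible: `γ ^ e` interchanges `L × 0` and `0 × L`. In the first case
`γ ^ e (x, 0) = (δ₁ * (τ ^ e) x, 0)`, so `τ ^ e = 1`, and `τ ^ m = 1`, so `τ = 1`, in the same way `τ' = 1`. -/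
theorem exists_torus_form_even [Finite G] (hF : IsUF F q) (hπ : IsProjU h π) (hA : GPermutable A) (g : SU h)
    (hg : A = Subgroup.zpowers (π g)) (he : 2 ≤ orderOf (π g))
    (he' : orderOf (π g) ∣ 2 * finrank F L - 1) (hm : 2 ≤ finrank F L)
    (hL : finrank F V = 2 * finrank F L) :
    ∃ (φ : V ≃ₗ[F] L × L) (δ δ' : L),
      (∀ x, h.f x x ≠ 0 → (φ x).1 ≠ 0 ∧ (φ x).2 ≠ 0) ∧
      ∀ v, φ (g.1 v) = (δ * (φ v).1, δ' * (φ v).2) := by
  set e := orderOf (π g) with hedef
  have hele : e ≤ 2 * finrank F L - 1 := Nat.le_of_dvd (by omega) he'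
  obtain ⟨φ, α, α', ζ, k, hiso, hα, hα', hα0, hα0', hρ, hζ, hkey⟩ :=
    exists_torus_even (L := L) hF hπ hA g hg he (by omega) hm hL
  let γ : (L × L) ≃ₗ[F] (L × L) := (φ.symm.trans g.1).trans φ
  have hγdef : ∀ w, γ w = φ (g.1 (φ.symm w)) := fun w => rfl
  have hpow : ∀ (n : ℕ) (w : L × L), φ ((g ^ n).1 (φ.symm w)) = γ^[n] w := by
    intro n
    induction n with
    | zero =>
      intro w
      rw [pow_zero, SU.one_apply, LinearEquiv.apply_symm_apply, Function.iterate_zero]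
      rfl
    | succ n ih =>
      intro w
      rw [pow_succ', SU.mul_apply, Function.iterate_succ_apply', ← ih, hγdef,
        LinearEquiv.symm_apply_apply]
  obtain ⟨c, hc⟩ := (hπ.ker (g ^ e)).1 (by rw [map_pow, hedef, pow_orderOf_eq_one])
  have hce : ∀ w, γ^[e] w = c • w := by
    intro w
    rw [← hpow, hc, map_smul, LinearEquiv.apply_symm_apply]
  have hc0 : c ≠ 0 := by
    rintro rfl
    have h1 : ((1, 0) : L × L) = (0, 0) := by
      apply γ.injective.iterate e
      rw [hce, hce, zero_smul, zero_smul]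
    exact one_ne_zero (Prod.ext_iff.1 h1).1
  rcases split_even γ hα hα' hα0 hα0' hρ hζ hkey with ⟨δ, δ', τ, τ', hγ⟩ | ⟨h1, h2⟩
  · have hit : ∀ (n : ℕ) (w : L × L), γ^[n] w = ((fun x => δ * τ x)^[n] w.1, (fun x => δ' * τ' x)^[n] w.2) := by
      intro n
      induction n with
      | zero => intro w; rfl
      | succ n ih =>
        intro w
        rw [Function.iterate_succ_apply', ih, Function.iterate_succ_apply',
          Function.iterate_succ_apply', hγ]
    have hτ : τ = 1 := E9_one (δ := δ) hc0 he' hm fun x => by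
      have h3 := hit e (x, 0)
      rw [hce] at h3
      exact (Prod.ext_iff.1 h3).1.symm
    have hτ' : τ' = 1 := E9_one (δ := δ') hc0 he' hm fun x => by
      have h3 := hit e (0, x)
      rw [hce] at h3
      exact (Prod.ext_iff.1 h3).2.symm
    refine ⟨φ, δ, δ', hiso, fun v => ?_⟩
    have h3 := hγ (φ v).1 (φ v).2
    rw [hτ, hτ'] at h3
    have h4 : γ (φ v) = φ (g.1 v) := by
      rw [hγdef, LinearEquiv.symm_apply_apply]
    rw [← h4]
    exact h3
  · exfalso
    have hodd : Odd e := by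
      obtain ⟨d, hd⟩ := he'
      have h3 : Odd (e * d) := by
        rw [← hd]
        exact ⟨finrank F L - 1, by omega⟩
      exact (Nat.odd_mul.1 h3).1
    have h3 : ∀ n : ℕ, (∀ x : L, (γ^[2 * n] (x, 0)).2 = 0) ∧ (∀ x : L, (γ^[2 * n + 1] (x, 0)).1 = 0) := by
      have hs : ∀ n : ℕ, (∀ x : L, (γ^[2 * n] (x, 0)).2 = 0) → ∀ x : L, (γ^[2 * n + 1] (x, 0)).1 = 0 := by
        intro n hn x
        rw [Function.iterate_succ_apply']
        have h4 : γ^[2 * n] (x, 0) = ((γ^[2 * n] (x, 0)).1, 0) := Prod.ext rfl (hn x)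
        rw [h4]
        exact h1 _
      intro n
      induction n with
      | zero => exact ⟨fun x => rfl, hs 0 fun x => rfl⟩
      | succ n ih =>
        have h5 : ∀ x : L, (γ^[2 * (n + 1)] (x, 0)).2 = 0 := by
          intro x
          rw [show 2 * (n + 1) = (2 * n + 1) + 1 by ring, Function.iterate_succ_apply']
          have h4 : γ^[2 * n + 1] (x, 0) = (0, (γ^[2 * n + 1] (x, 0)).2) := Prod.ext (ih.2 x) rfl
          rw [h4]
          exact h2 _
        exact ⟨h5, hs (n + 1) h5⟩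
    obtain ⟨n, hn⟩ := hodd
    have h4 := (h3 n).2 1
    rw [← hn, hce] at h4
    have h5 : c • (1 : L) = 0 := h4
    rw [smul_eq_zero] at h5
    exact h5.elim hc0 one_ne_zero

end Pool.Agent.Lib.MP_8f3271_al.PSU
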