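import Mathlib
import Pool.Agent.Lib.MP_8f3271_al.P.S

/-!
# Odd dimension: the torus of dimension `n - 2` and the contradiction
-/

set_option autoImplicit false

open Pool.Agent.GPerm59 Pointwise Module

namespace Pool.Agent.Lib.MP_8f3271_al.PSU

variable {F V G K : Type*} [Field F] [Finite F] [StarRing F] {q : ℕ} [AddCommGroup V] [Module F V]
  [FiniteDimensional F V] [Group G] [Field K] [Algebra F K] [FiniteDimensional F K]
  {h : Herm F V} {π : SU h →* G} {A : Subgroup G}

/-! ### Row psu-O1 -/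

omit [Finite F] in
omit [FiniteDimensional F V] in
/-- `exists_cyc` for a one-parameter group `m` -/
theorem O1_key [Finite G] [Nontrivial V] {W : Type*} [AddCommGroup W] [Module F W] (hπ : IsProjU h π)
    (hA : GPermutable A) (g : SU h) (hg : A = Subgroup.zpowers (π g)) (he : 2 ≤ orderOf (π g))
    (e₀ : V ≃ₗ[F] W) (m : ℤ → W → W) (m0 : ∀ w, m 0 w = w)
    (ma : ∀ a b w, m (a + b) w = m a (m b w)) (s : SU h) (hs : ∀ v, e₀ (s.1 v) = m 1 (e₀ v)) :
    ∃ (k : SU h) (j : ℕ) (i : ℤ) (ζ : F), 0 < j ∧ j < orderOf (π g) ∧ ζ ≠ 0 ∧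
      ∀ w : W, (k.1.trans e₀) (g.1 ((k.1.trans e₀).symm (m j w))) =
        ζ • m (j * i) ((k.1.trans e₀) (g.1 ((k.1.trans e₀).symm w))) := by
  obtain ⟨k, j, i, ζ, hj0, hj1, hζ, hkey⟩ := exists_cyc hπ hA g hg he s
  refine ⟨k, j, i, ζ, hj0, hj1, hζ, fun w => ?_⟩
  set u : SU h := k⁻¹ * s * k with hu
  set φ : V ≃ₗ[F] W := k.1.trans e₀ with hφ
  have h1 : ∀ v, φ (u.1 v) = m 1 (φ v) := by
    intro v
    change e₀ (k.1 ((k⁻¹).1 (s.1 (k.1 v)))) = m 1 (e₀ (k.1 v))
    rw [SU.apply_inv, hs]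
  have h2 : ∀ v, φ ((u⁻¹).1 v) = m (-1) (φ v) := by
    intro v
    have h3 := h1 ((u⁻¹).1 v)
    rw [SU.apply_inv] at h3
    rw [h3, ← ma, neg_add_cancel, m0]
  have h3 : ∀ (n : ℤ) (v : V), φ ((u ^ n).1 v) = m n (φ v) := by
    intro n
    induction n using Int.induction_on with
    | zero =>
      intro v
      rw [zpow_zero, m0]
      rfl
    | succ n ih =>
      intro v
      rw [zpow_add_one, SU.mul_apply, ih, h1, ← ma]
    | pred n ih =>
      intro v
      rw [zpow_sub_one, SU.mul_apply, ih, h2, ← ma]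
      rfl
  have h4 : φ.symm (m j w) = (u ^ (j : ℤ)).1 (φ.symm w) := by
    rw [LinearEquiv.symm_apply_eq, h3, LinearEquiv.apply_symm_apply]
  rw [h4, hkey, map_smul, h3]

/-- `τ` (`exists_tau`), `c` from `exists_genT`; the form `Tr (x * τ x')` plus an orthogonal sum of two copies of `Herm.std` on
`K × (F × F)`; `e₀ : V ≃ₗ[F] K × (F × F)` isometry; `t : SU h`, `e₀ (t v) = (c * (e₀ v).1, (e₀ v).2)` (`exists_mulSU`, `exists_prodSU`,
`exists_transport`); `exists_cyc` (`Base.lean`) gives `k`, `j`, `i`, `ζ`; `φ = e₀ ∘ k`, `α = c ^ j`, `0 < j < orderOf (π g) ≤ r + 2`. -/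
theorem exists_torus_odd [Finite G] (hF : IsUF F q) (hπ : IsProjU h π) (hA : GPermutable A) (g : SU h)
    (hg : A = Subgroup.zpowers (π g)) (he : 2 ≤ orderOf (π g)) (he' : orderOf (π g) ≤ finrank F V)
    (hodd : Odd (finrank F K)) (hr : 3 ≤ finrank F K) (hK : finrank F V = finrank F K + 2) :
    ∃ (φ : V ≃ₗ[F] K × (F × F)) (α : K) (ζ : F) (k : ℤ), Algebra.adjoin F {α} = ⊤ ∧ α ≠ 0 ∧
      ζ ≠ 0 ∧ ∀ (x : K) (y : F × F), φ (g.1 (φ.symm (α * x, y))) =
        (algebraMap F K ζ * α ^ k * (φ (g.1 (φ.symm (x, y)))).1,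
          ζ • (φ (g.1 (φ.symm (x, y)))).2) := by
  obtain ⟨τ, hτ⟩ := exists_tau (K := K) hF hodd
  obtain ⟨hK', hf⟩ := exists_formK (F := F) hτ
  obtain ⟨e₀, he₀⟩ := exists_isometry hF h (hK'.prod ((Herm.std F).prod (Herm.std F))) (by
    rw [hK, Module.finrank_prod, Module.finrank_prod, Module.finrank_self])
  obtain ⟨c, hc, hn, hcj⟩ := exists_genT hF hr hodd hτ
  have hc0 : c ≠ 0 := by
    rintro rfl
    rw [zero_mul] at hc
    exact zero_ne_one hc
  obtain ⟨t, ht, htx⟩ := exists_mulSU hf hc hn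
  obtain ⟨t', ht', htx'⟩ := exists_prodSU (h' := (Herm.std F).prod (Herm.std F)) ht
  obtain ⟨s, hs⟩ := exists_transport e₀ he₀ ht'
  have hnt : Nontrivial V := Module.nontrivial_of_finrank_pos (R := F) (by omega)
  obtain ⟨k, j, i, ζ, hj0, hj1, hζ, hkey⟩ := O1_key hπ hA g hg he e₀
    (fun n w => (c ^ n * w.1, w.2)) (fun w => by rw [zpow_zero, one_mul])
    (fun a b w => by rw [zpow_add₀ hc0, mul_assoc]) s (fun v => by
      rw [hs, LinearEquiv.apply_symm_apply]
      refine (htx' (e₀ v).1 (e₀ v).2).trans ?_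
      rw [htx, zpow_one])
  refine ⟨k.1.trans e₀, c ^ j, ζ, i, hcj j hj0 (by omega), pow_ne_zero _ hc0, hζ, fun x y => ?_⟩
  have h1 := hkey (x, y)
  simp only [zpow_natCast, zpow_mul] at h1
  rw [h1, Prod.smul_mk, Algebra.smul_def, mul_assoc]

/-! ### Row psu-O2 -/

omit [Finite F] [StarRing F] in
/-- `g₂₁ x = (g (x, 0)).2` satisfies `g₂₁ (α x) = ζ • g₂₁ x`, so its kernel is invariant under `α`, hence under `K` (`F[α] = K`): it is
`0` or `K`, and it is not `0` because `dim K ≥ 3 > 2`; so `g₂₁ = 0` and `g₁₁ x = (g (x, 0)).1` is injective, so bijective.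
`g₁₂ y = (g (0, y)).1` satisfies `g₁₂ y = ζ α ^ k g₁₂ y` (`x = 0`); if `g₁₂ ≠ 0` then `ζ α ^ k = 1`, so
`g₁₁ (α x) = g₁₁ x`, `α = 1`, a contradiction to `F[α] = K`. So `g (x, y) = (g₁₁ x, g₂₂ y)`. `g₁₁ (α x) = ζ α ^ k g₁₁ x`: the set of
`b : K` for which there is `b'` with `g₁₁ (b x) = b' g₁₁ x` for all `x` is a subalgebra, so all of `K`; `b' = g₁₁ b / g₁₁ 1`
and `b ↦ b'` is an automorphism (see `split_form` in `L/T.lean`). -/
theorem split_odd {W : Type*} [AddCommGroup W] [Module F W] [FiniteDimensional F W]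
    (hW : finrank F W = 2) (hr : 3 ≤ finrank F K) (g : (K × W) ≃ₗ[F] (K × W)) {α : K} {ζ : F} {k : ℤ}
    (hα : Algebra.adjoin F {α} = ⊤) (hα0 : α ≠ 0) (hζ : ζ ≠ 0)
    (hg : ∀ (x : K) (y : W), g (α * x, y) =
      (algebraMap F K ζ * α ^ k * (g (x, y)).1, ζ • (g (x, y)).2)) :
    ∃ (δ : K) (σ : K ≃ₐ[F] K) (w : W ≃ₗ[F] W), ∀ x y, g (x, y) = (δ * σ x, w y) := by
  have hne1 : α ≠ 1 := by
    intro h1
    have h2 : (⊤ : Subalgebra F K) = ⊥ := by
      rw [← hα, h1]
      refine le_antisymm ?_ bot_le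
      rw [Algebra.adjoin_le_iff]
      intro z hz
      rw [Set.mem_singleton_iff] at hz
      rw [hz]
      exact (⊥ : Subalgebra F K).one_mem
    have h3 : finrank F (⊤ : Subalgebra F K) = finrank F K :=
      (Subalgebra.topEquiv (R := F) (A := K)).toLinearEquiv.finrank_eq
    rw [h2, Subalgebra.finrank_bot] at h3
    omega
  let P : K →ₗ[F] K := (LinearMap.fst F K W).comp (g.toLinearMap.comp (LinearMap.inl F K W))
  let r : K →ₗ[F] W := (LinearMap.snd F K W).comp (g.toLinearMap.comp (LinearMap.inl F K W))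
  let P' : W →ₗ[F] K := (LinearMap.fst F K W).comp (g.toLinearMap.comp (LinearMap.inr F K W))
  let r' : W →ₗ[F] W := (LinearMap.snd F K W).comp (g.toLinearMap.comp (LinearMap.inr F K W))
  have hP : ∀ x, P x = (g (x, 0)).1 := fun x => rfl
  have hrr : ∀ x, r x = (g (x, 0)).2 := fun x => rfl
  have hP' : ∀ y, P' y = (g (0, y)).1 := fun y => rfl
  have hr' : ∀ y, r' y = (g (0, y)).2 := fun y => rfl
  have hPα : ∀ x, P (α * x) = algebraMap F K ζ * α ^ k * P x := fun x =>
    congrArg Prod.fst (hg x 0)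
  have hrα : ∀ x, r (α * x) = ζ • r x := fun x => congrArg Prod.snd (hg x 0)
  have hP'α : ∀ y, P' y = algebraMap F K ζ * α ^ k * P' y := by
    intro y
    have h1 := congrArg Prod.fst (hg 0 y)
    rw [mul_zero] at h1
    exact h1
  -- the kernel of `r` is invariant under `K`
  have hker : ∀ a x : K, r x = 0 → r (a * x) = 0 := by
    intro a
    let S : Subalgebra F K :=
      { carrier := {a | ∀ x, r x = 0 → r (a * x) = 0}
        mul_mem' := by
          intro a b ha hb x hx
          rw [mul_assoc]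
          exact ha _ (hb x hx)
        add_mem' := by
          intro a b ha hb x hx
          rw [add_mul, map_add, ha x hx, hb x hx, add_zero]
        algebraMap_mem' := by
          intro c x hx
          rw [← Algebra.smul_def, map_smul, hx, smul_zero] }
    have h1 : Algebra.adjoin F {α} ≤ S := by
      rw [Algebra.adjoin_le_iff]
      intro z hz x hx
      rw [Set.mem_singleton_iff] at hz
      rw [hz, hrα, hx, smul_zero]
    rw [hα] at h1
    exact h1 (Algebra.mem_top (x := a))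
  have hr0 : ∀ x, r x = 0 := by
    have h1 : ∃ x₀, x₀ ≠ 0 ∧ r x₀ = 0 := by
      by_contra hcon
      push Not at hcon
      have h2 : Function.Injective r := by
        rw [injective_iff_map_eq_zero]
        intro x hx
        by_contra h0
        exact hcon x h0 hx
      have h3 := LinearMap.finrank_le_finrank_of_injective h2
      omega
    obtain ⟨x₀, h0, h2⟩ := h1
    intro x
    have h3 := hker (x * x₀⁻¹) x₀ h2
    rwa [mul_assoc, inv_mul_cancel₀ h0, mul_one] at h3
  have hPinj : Function.Injective P := by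
    rw [injective_iff_map_eq_zero]
    intro x hx
    have h1 : g (x, 0) = 0 := Prod.ext (by rw [← hP]; exact hx) (by rw [← hrr]; exact hr0 x)
    have h2 : ((x : K), (0 : W)) = 0 := g.map_eq_zero_iff.1 h1
    exact congrArg Prod.fst h2
  have hP'0 : ∀ y, P' y = 0 := by
    intro y
    by_contra hcon
    have h1 : algebraMap F K ζ * α ^ k = 1 := by
      have h2 := hP'α y
      have h3 : 1 * P' y = algebraMap F K ζ * α ^ k * P' y := by
        rw [one_mul]
        exact h2
      exact (mul_right_cancel₀ hcon h3).symm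
    have h4 := hPα 1
    rw [h1, one_mul] at h4
    have h5 := hPinj h4
    rw [mul_one] at h5
    exact hne1 h5
  have hgf : ∀ (x : K) (y : W), g (x, y) = (P x, r' y) := by
    intro x y
    have h1 : ((x, y) : K × W) = (x, 0) + (0, y) := by
      ext
      · simp
      · simp
    rw [h1, map_add]
    apply Prod.ext
    · rw [Prod.fst_add, ← hP, ← hP', hP'0, add_zero]
    · rw [Prod.snd_add, ← hrr, ← hr', hr0, zero_add]
  have hr'inj : Function.Injective r' := by
    rw [injective_iff_map_eq_zero]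
    intro y hy
    have h1 : g (0, y) = 0 := by
      rw [hgf, map_zero, hy]
      rfl
    have h2 : ((0 : K), (y : W)) = 0 := g.map_eq_zero_iff.1 h1
    exact congrArg Prod.snd h2
  -- the algebra of the multipliers
  have hS : ∀ a : K, ∃ a', ∀ x, P (a * x) = a' * P x := by
    intro a
    let S : Subalgebra F K :=
      { carrier := {a | ∃ a', ∀ x, P (a * x) = a' * P x}
        mul_mem' := by
          rintro a b ⟨a', ha'⟩ ⟨b', hb'⟩
          refine ⟨a' * b', fun x => ?_⟩
          rw [mul_assoc, ha', hb', mul_assoc]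
        add_mem' := by
          rintro a b ⟨a', ha'⟩ ⟨b', hb'⟩
          refine ⟨a' + b', fun x => ?_⟩
          rw [add_mul, map_add, ha', hb', add_mul]
        algebraMap_mem' := by
          intro c
          refine ⟨algebraMap F K c, fun x => ?_⟩
          rw [← Algebra.smul_def, map_smul, Algebra.smul_def] }
    have h1 : Algebra.adjoin F {α} ≤ S := by
      rw [Algebra.adjoin_le_iff]
      intro z hz
      rw [Set.mem_singleton_iff] at hz
      rw [hz]
      exact ⟨_, hPα⟩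
    rw [hα] at h1
    exact h1 Algebra.mem_top
  have hP1 : P 1 ≠ 0 := by
    intro h0
    exact one_ne_zero (hPinj (h0.trans (map_zero P).symm))
  have hmul : ∀ a x, P (a * x) * P 1 = P a * P x := by
    intro a x
    obtain ⟨a', ha'⟩ := hS a
    have h1 := ha' 1
    rw [mul_one] at h1
    rw [ha', h1]
    ring
  let T : K →ₗ[F] K := (LinearMap.mulLeft F (P 1)⁻¹).comp P
  have hT : ∀ x, T x = (P 1)⁻¹ * P x := fun x => rfl
  let τ : K →ₐ[F] K := AlgHom.ofLinearMap T
    (by rw [hT, inv_mul_cancel₀ hP1])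
    (by
      intro x y
      rw [hT, hT, hT]
      have h1 := hmul x y
      field_simp
      linear_combination h1)
  have hτb : Function.Bijective τ := Algebra.IsAlgebraic.algHom_bijective τ
  refine ⟨P 1, AlgEquiv.ofBijective τ hτb, LinearEquiv.ofInjectiveEndo r' hr'inj, fun x y => ?_⟩
  rw [hgf]
  apply Prod.ext
  · change P x = P 1 * ((P 1)⁻¹ * P x)
    rw [← mul_assoc, mul_inv_cancel₀ hP1, one_mul]
  · rfl

/-! ### Row psu-O3 -/

omit [StarRing F] in
/-- `σ ^ e = 1` because `g ^ e` is scalar, and the order of `σ` divides `finrank F K`, which is prime to `e`. -/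
theorem O3_aut_trivial {e : ℕ} (he : e.Coprime (finrank F K)) (g : (K × (F × F)) ≃ₗ[F] (K × (F × F)))
    {δ : K} {w : (F × F) ≃ₗ[F] (F × F)} {τ : K ≃ₐ[F] K}
    (hg : ∀ (x : K) (y : F × F), g (x, y) = (δ * τ x, w y)) {s : F}
    (hs : ∀ z, (g ^ e) z = s • z) : τ = 1 := by
  have h1 : ∀ k : ℕ, ∃ d : K, ∀ x : K, ∃ y : F × F, (g ^ k) (x, 0) = (d * (τ ^ k) x, y) := by
    intro k
    induction k with
    | zero => exact ⟨1, fun x => ⟨0, by simp⟩⟩
    | succ k ih =>
      obtain ⟨d, hd⟩ := ih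
      refine ⟨δ * τ d, fun x => ?_⟩
      obtain ⟨y, hy⟩ := hd x
      refine ⟨w y, ?_⟩
      rw [pow_succ', LinearEquiv.mul_apply, hy, hg, map_mul, pow_succ', AlgEquiv.mul_apply, mul_assoc]
  obtain ⟨d, hd⟩ := h1 e
  have h2 : ∀ x : K, d * (τ ^ e) x = s • x := by
    intro x
    obtain ⟨y, hy⟩ := hd x
    have h3 := hs (x, 0)
    rw [hy] at h3
    exact congrArg Prod.fst h3
  have hs0 : s ≠ 0 := by
    rintro rfl
    have h3 := hs (1, 0)
    rw [zero_smul] at h3
    have h4 := (g ^ e).map_eq_zero_iff.1 h3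
    exact one_ne_zero (congrArg Prod.fst h4)
  have h4 : d = algebraMap F K s := by
    have := h2 1
    rwa [map_one, mul_one, Algebra.smul_def, mul_one] at this
  have h5 : τ ^ e = 1 := by
    ext x
    have h6 := h2 x
    rw [h4, Algebra.smul_def] at h6
    have h7 : algebraMap F K s ≠ 0 := by
      rwa [Ne, FaithfulSMul.algebraMap_eq_zero_iff]
    exact mul_left_cancel₀ h7 h6
  have h6 : orderOf τ ∣ e := orderOf_dvd_of_pow_eq_one h5
  have h7 : orderOf τ ∣ finrank F K := by
    have : Finite K := Module.finite_of_finite F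
    rw [← IsGalois.card_aut_eq_finrank F K]
    exact orderOf_dvd_natCard τ
  have h8 := Nat.eq_one_of_dvd_coprimes he h6 h7
  exact orderOf_eq_one_iff.1 h8

/-- From `exists_torus_odd` and `split_odd` (`γ = φ ∘ g ∘ φ⁻¹`): `γ (x, y) = (δ * σ x, w y)`. `e = orderOf (π g)`: `g ^ e` is in the
kernel of `π`, a scalar, so `γ ^ e (x, 0) = (δ' * (σ ^ e) x, 0) = (c x, 0)`, `σ ^ e = 1` (put `x = 1`, then all `x`). As `σ ^ r = 1`
(`IsGalois.card_aut_eq_finrank`) and `e ∣ r + 2`, `e` odd, is prime to `r`, `σ = 1`. -/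
theorem exists_torus_form_odd [Finite G] (hF : IsUF F q) (hπ : IsProjU h π) (hA : GPermutable A) (g : SU h)
    (hg : A = Subgroup.zpowers (π g)) (he : 2 ≤ orderOf (π g)) (he' : orderOf (π g) ∣ finrank F V)
    (hodd : Odd (finrank F K)) (hr : 3 ≤ finrank F K) (hK : finrank F V = finrank F K + 2) :
    ∃ (φ : V ≃ₗ[F] K × (F × F)) (δ : K) (w : (F × F) ≃ₗ[F] (F × F)),
      ∀ v, φ (g.1 v) = (δ * (φ v).1, w (φ v).2) := by
  have hV0 : 0 < finrank F V := by omega
  obtain ⟨φ, α, ζ, k, hα, hα0, hζ, h1⟩ := exists_torus_odd hF hπ hA g hg he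
    (Nat.le_of_dvd hV0 he') hodd hr hK
  let g' : (K × (F × F)) ≃ₗ[F] (K × (F × F)) := (φ.symm.trans g.1).trans φ
  have hg' : ∀ z, g' z = φ (g.1 (φ.symm z)) := fun _ => rfl
  obtain ⟨δ, τ, w, hform⟩ := split_odd (W := F × F) (by rw [finrank_prod, finrank_self]) hr g' hα
    hα0 hζ (fun x y => by
      rw [hg', hg']
      exact h1 x y)
  have hpow : ∀ (j : ℕ) (z : K × (F × F)), (g' ^ j) z = φ ((g ^ j).1 (φ.symm z)) := by
    intro j
    induction j with
    | zero =>
      intro z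
      rw [pow_zero, pow_zero]
      change z = φ (φ.symm z)
      rw [LinearEquiv.apply_symm_apply]
    | succ j ih =>
      intro z
      rw [pow_succ, pow_succ, SU.mul_apply]
      change (g' ^ j) (g' z) = φ ((g ^ j).1 (g.1 (φ.symm z)))
      rw [ih, hg', LinearEquiv.symm_apply_apply]
  have hker : π (g ^ orderOf (π g)) = 1 := by
    rw [map_pow, pow_orderOf_eq_one]
  obtain ⟨s, hs⟩ := (hπ.ker _).1 hker
  have hs' : ∀ z, (g' ^ orderOf (π g)) z = s • z := by
    intro z
    rw [hpow, hs, map_smul, LinearEquiv.apply_symm_apply]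
  have hcop : (orderOf (π g)).Coprime (finrank F K) := by
    refine Nat.Coprime.coprime_dvd_left he' ?_
    rw [hK]
    obtain ⟨m, hm⟩ := hodd
    rw [Nat.coprime_self_add_left, hm]
    rw [Nat.coprime_two_left]
    exact ⟨m, rfl⟩
  have hτ := O3_aut_trivial hcop g' hform hs'
  refine ⟨φ, δ, w, fun x => ?_⟩
  have h2 := hform (φ x).1 (φ x).2
  rw [Prod.mk.eta, hg', LinearEquiv.symm_apply_apply, hτ] at h2
  exact h2

end Pool.Agent.Lib.MP_8f3271_al.PSU
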