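import Mathlib

/-!
# Linear algebra for the odd case
-/

set_option autoImplicit false

open Module Polynomial

namespace Pool.Agent.Lib.MP_8f3271_al.PSU

variable {F V E K : Type*} [Field F] [Finite F] [AddCommGroup V] [Module F V]
  [Field E] [Algebra F E] [FiniteDimensional F E] [Field K] [Algebra F K] [FiniteDimensional F K]

/-! ### Row psu-Z1 -/

theorem Z1_mem (σ : E ≃ₐ[F] E) (x : E) :
    x ∈ IntermediateField.fixedField (Subgroup.zpowers σ) ↔ σ x = x := by
  rw [IntermediateField.mem_fixedField_iff]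
  constructor
  · intro h
    exact h σ (Subgroup.mem_zpowers σ)
  · intro h f hf
    have h1 : σ ∈ MulAction.stabilizer (E ≃ₐ[F] E) x := h
    have h2 : Subgroup.zpowers σ ≤ MulAction.stabilizer (E ≃ₐ[F] E) x := by
      rw [Subgroup.zpowers_le]
      exact h1
    exact h2 hf

theorem Z1_card (σ : E ≃ₐ[F] E) :
    finrank F (IntermediateField.fixedField (Subgroup.zpowers σ)) * orderOf σ = finrank F E := by
  have h1 := IntermediateField.finrank_fixedField_eq_card (Subgroup.zpowers σ)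
  rw [Nat.card_zpowers] at h1
  rw [← h1]
  exact Module.finrank_mul_finrank F (IntermediateField.fixedField (Subgroup.zpowers σ)) E

/-- Eigenspaces of `μ σ` on `E`: if `σ b = ν b`, `b ≠ 0`, then `{x | σ x = ν x} = b * Fix σ`, and
`finrank F (Fix σ) * orderOf σ = finrank F E` (`IntermediateField.fixedField (Subgroup.zpowers σ)`,
`IntermediateField.finrank_fixedField_eq_card`). -/
theorem finrank_eigen {μ : F} (hμ : μ ≠ 0) (σ : E ≃ₐ[F] E) (W : Submodule F E)
    {ν : F} (hW : ∀ x ∈ W, μ • σ x = ν • x) : finrank F W * orderOf σ ≤ finrank F E := by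
  by_cases hW0 : W = ⊥
  · subst hW0
    rw [finrank_bot, zero_mul]
    exact Nat.zero_le _
  obtain ⟨b, hbW, hb⟩ := W.ne_bot_iff.1 hW0
  have hσb : σ b ≠ 0 := (map_ne_zero σ).2 hb
  have hb2 := hW b hbW
  have hν : ν ≠ 0 := by
    rintro rfl
    rw [zero_smul] at hb2
    exact (smul_ne_zero hμ hσb) hb2
  have key : ∀ x ∈ W, b⁻¹ * x ∈ IntermediateField.fixedField (Subgroup.zpowers σ) := by
    intro x hx
    rw [Z1_mem, map_mul, map_inv₀]
    have hx2 := hW x hx
    have e1 : σ x = (μ⁻¹ * ν) • x := by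
      rw [mul_smul, ← hx2, inv_smul_smul₀ hμ]
    have e2 : σ b = (μ⁻¹ * ν) • b := by
      rw [mul_smul, ← hb2, inv_smul_smul₀ hμ]
    have hc : μ⁻¹ * ν ≠ 0 := mul_ne_zero (inv_ne_zero hμ) hν
    rw [e1, e2, Algebra.smul_def, Algebra.smul_def]
    have hc' : algebraMap F E (μ⁻¹ * ν) ≠ 0 := (map_ne_zero (algebraMap F E)).2 hc
    generalize algebraMap F E (μ⁻¹ * ν) = c at hc' ⊢
    field_simp
  rw [← Z1_card σ]
  refine Nat.mul_le_mul_right _ ?_
  let f : W →ₗ[F] (IntermediateField.fixedField (Subgroup.zpowers σ) : IntermediateField F E) :=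
    { toFun := fun x => ⟨b⁻¹ * x.1, key x.1 x.2⟩
      map_add' := fun x y => Subtype.ext (mul_add b⁻¹ x.1 y.1)
      map_smul' := fun c x => Subtype.ext (mul_smul_comm c b⁻¹ x.1) }
  have hf : Function.Injective f := by
    intro x y hxy
    have h1 : b⁻¹ * x.1 = b⁻¹ * y.1 := congrArg Subtype.val hxy
    exact Subtype.ext (mul_left_cancel₀ (inv_ne_zero hb) h1)
  exact LinearMap.finrank_le_finrank_of_injective hf

theorem finrank_fix (σ : E ≃ₐ[F] E) : ∃ W : Submodule F E, (∀ x, x ∈ W ↔ σ x = x) ∧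
    finrank F W * orderOf σ = finrank F E := by
  refine ⟨(IntermediateField.fixedField (Subgroup.zpowers σ)).toSubalgebra.toSubmodule, fun x => Z1_mem σ x, ?_⟩
  exact Z1_card σ

/-! ### Row psu-Z2 -/

omit [Finite F] [FiniteDimensional F E] in
private theorem Z2_pow (g : V ≃ₗ[F] V) (φE : V ≃ₗ[F] E) {μ : F} {σ : E ≃ₐ[F] E}
    (hE : ∀ v, φE (g v) = μ • σ (φE v)) (k : ℕ) (v : V) :
    φE (((g : V →ₗ[F] V) ^ k) v) = μ ^ k • (σ ^ k) (φE v) := by
  induction k generalizing v with
  | zero => simp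
  | succ k ih =>
    rw [pow_succ' (g : V →ₗ[F] V)]
    change φE (g (((g : V →ₗ[F] V) ^ k) v)) = _
    rw [hE, ih, map_smul, smul_smul, ← pow_succ' μ, pow_succ' σ, AlgEquiv.mul_apply]

omit [Finite F] [FiniteDimensional F E] in
private theorem Z2_key (g : V ≃ₗ[F] V) (φE : V ≃ₗ[F] E) {μ : F} {σ : E ≃ₐ[F] E} (hμ : μ ≠ 0)
    (hE : ∀ v, φE (g v) = μ • σ (φE v)) (Q : F[X]) (hQ : Q.natDegree < orderOf σ)
    (h : ∀ v, aeval (g : V →ₗ[F] V) Q v = 0) : Q = 0 := by
  classical
  set n := orderOf σ with hn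
  have hinj : Function.Injective
      (fun k : Fin n => (((σ ^ (k : ℕ) : E ≃ₐ[F] E) : E →ₐ[F] E) : E →* E)) := by
    intro k l hkl
    have h1 : σ ^ (k : ℕ) = σ ^ (l : ℕ) := by
      ext x
      exact DFunLike.congr_fun hkl x
    exact Fin.ext (pow_injOn_Iio_orderOf k.2 l.2 h1)
  have hli := (linearIndependent_monoidHom E E).comp _ hinj
  have hsum : ∑ k : Fin n, algebraMap F E (Q.coeff k * μ ^ (k : ℕ)) •
      ((fun f : E →* E => (f : E → E)) ∘
        (fun k : Fin n => (((σ ^ (k : ℕ) : E ≃ₐ[F] E) : E →ₐ[F] E) : E →* E))) k = 0 := by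
    funext x
    rw [Finset.sum_apply, Pi.zero_apply]
    have h1 := congrArg φE (h (φE.symm x))
    rw [map_zero, aeval_eq_sum_range' hQ, LinearMap.sum_apply, map_sum] at h1
    rw [← Fin.sum_univ_eq_sum_range (fun i => φE ((Q.coeff i • (g : V →ₗ[F] V) ^ i)
      (φE.symm x))) n] at h1
    rw [← h1]
    refine Finset.sum_congr rfl fun k _ => ?_
    rw [LinearMap.smul_apply, map_smul, Z2_pow g φE hE, φE.apply_symm_apply, smul_smul]
    exact (Algebra.smul_def _ _).symm
  have hc := Fintype.linearIndependent_iff.1 hli _ hsum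
  ext k
  rw [coeff_zero]
  by_cases hk : k < n
  · have h1 := hc ⟨k, hk⟩
    rw [map_eq_zero, mul_eq_zero] at h1
    exact h1.resolve_right (pow_ne_zero _ hμ)
  · exact coeff_eq_zero_of_natDegree_lt (lt_of_lt_of_le hQ (not_lt.1 hk))

omit [Finite F] [FiniteDimensional F K] in
private theorem Z2_aeval (g : V ≃ₗ[F] V) (φ : V ≃ₗ[F] K × (F × F)) {δ : K}
    {w : (F × F) ≃ₗ[F] (F × F)} (hg : ∀ v, φ (g v) = (δ * (φ v).1, w (φ v).2)) (Q : F[X]) (v : V) :
    φ (aeval (g : V →ₗ[F] V) Q v) =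
      (aeval δ Q * (φ v).1, aeval (w : (F × F) →ₗ[F] (F × F)) Q (φ v).2) := by
  have hpow : ∀ (k : ℕ) (v : V), φ (((g : V →ₗ[F] V) ^ k) v) =
      (δ ^ k * (φ v).1, ((w : (F × F) →ₗ[F] (F × F)) ^ k) (φ v).2) := by
    intro k
    induction k with
    | zero => intro v; simp
    | succ k ih =>
      intro v
      rw [pow_succ' (g : V →ₗ[F] V)]
      change φ (g (((g : V →ₗ[F] V) ^ k) v)) = _
      rw [hg, ih, pow_succ' δ, pow_succ' (w : (F × F) →ₗ[F] (F × F)), mul_assoc]
      rfl
  induction Q using Polynomial.induction_on' with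
  | add p q hp hq =>
    rw [map_add, LinearMap.add_apply, map_add, hp, hq, map_add, map_add, LinearMap.add_apply,
      add_mul]
    rfl
  | monomial k a =>
    rw [aeval_monomial, aeval_monomial, aeval_monomial]
    have h2 : ((algebraMap F (V →ₗ[F] V) a) * (g : V →ₗ[F] V) ^ k) v
        = a • ((g : V →ₗ[F] V) ^ k) v := rfl
    have h3 : ((algebraMap F ((F × F) →ₗ[F] (F × F)) a) * (w : (F × F) →ₗ[F] (F × F)) ^ k)
        (φ v).2 = a • ((w : (F × F) →ₗ[F] (F × F)) ^ k) (φ v).2 := rfl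
    rw [h2, h3, map_smul, hpow, mul_assoc, ← Algebra.smul_def]
    rfl

/-- Let `n = finrank F V = r + 2` be odd, `r = finrank F K ≥ 3`, `g v = μ σ (v)` in the coordinates `φE` and `g = (δ, w)` in the
coordinates `φ`, `σ ≠ 1`. Then `σ` has order `n` and `F[δ] = K`. Proof. `e = orderOf σ` divides `n`, so `e ≥ 3`. If `δ = μ` (in `K`) then
the vectors `(x, 0)` are eigenvectors of `g` with eigenvalue `μ`: by `finrank_eigen` `r * e ≤ n = r + 2`, impossible. So `δ ≠ μ` and
the vectors with `g v = μ v` (in `E`: `Fix σ`, dimension `n / e` by `finrank_fix`) have `x = 0`, so `n / e ≤ 2`; `n / e` is odd, so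
`e = n`. The powers `σ ^ k`, `k < n`, are linearly independent over `F` (`linearIndependent_toLinearMap`, or
Dedekind), so a polynomial `P ≠ 0` with `P (g) = 0` has degree `≥ n`. `minpoly F δ * (charpoly of w)` kills `g` and has degree
`[F(δ) : F] + 2`; so `[F(δ) : F] ≥ r`. -/
theorem order_odd (g : V ≃ₗ[F] V) (φE : V ≃ₗ[F] E) {μ : F} {σ : E ≃ₐ[F] E}
    (hE : ∀ v, φE (g v) = μ • σ (φE v)) (φ : V ≃ₗ[F] K × (F × F)) {δ : K} {w : (F × F) ≃ₗ[F] (F × F)}
    (hg : ∀ v, φ (g v) = (δ * (φ v).1, w (φ v).2)) (hr : 3 ≤ finrank F K) (hodd : Odd (finrank F K))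
    (hσ : σ ≠ 1) : orderOf σ = finrank F E ∧ finrank F E = finrank F K + 2 ∧
      (minpoly F δ).natDegree = finrank F K := by
  classical
  have hμ : μ ≠ 0 := by
    rintro rfl
    have h4 := hE (φE.symm 1)
    rw [zero_smul] at h4
    have h5 : φE.symm 1 = 0 := g.map_eq_zero_iff.1 (φE.map_eq_zero_iff.1 h4)
    exact one_ne_zero (φE.symm.map_eq_zero_iff.1 h5)
  have hdim : finrank F E = finrank F K + 2 := by
    rw [← φE.finrank_eq, φ.finrank_eq, finrank_prod, finrank_prod, finrank_self]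
  obtain ⟨W, hW, hWe⟩ := finrank_fix σ
  have hoddE : Odd (finrank F E) := by
    rw [hdim]
    exact hodd.add_even even_two
  have hoddW : Odd (finrank F W * orderOf σ) := by rwa [hWe]
  obtain ⟨hW1, hσ1⟩ := Nat.odd_mul.1 hoddW
  have hσ3 : 3 ≤ orderOf σ := by
    have h1 : orderOf σ ≠ 1 := fun h => hσ (orderOf_eq_one_iff.1 h)
    obtain ⟨m, hm⟩ := hσ1
    omega
  have heig : ∀ v, g v = μ • v ↔ σ (φE v) = φE v := by
    intro v
    rw [← φE.injective.eq_iff, hE, map_smul]
    exact ⟨fun h => smul_right_injective E hμ h, fun h => by rw [h]⟩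
  have hδ : δ ≠ algebraMap F K μ := by
    intro hδ
    let f : K →ₗ[F] E := (φ.symm.trans φE).toLinearMap ∘ₗ LinearMap.inl F K (F × F)
    have hf : Function.Injective f := (φ.symm.trans φE).injective.comp LinearMap.inl_injective
    have h1 : ∀ x ∈ LinearMap.range f, μ • σ x = μ • x := by
      rintro _ ⟨a, rfl⟩
      have h2 : g (φ.symm (a, 0)) = μ • φ.symm (a, 0) := by
        apply φ.injective
        rw [hg, φ.apply_symm_apply, map_smul, φ.apply_symm_apply, map_zero, hδ,
          ← Algebra.smul_def, Prod.smul_mk, smul_zero]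
      have h3 := (heig _).1 h2
      change μ • σ (φE (φ.symm (a, 0))) = μ • φE (φ.symm (a, 0))
      rw [h3]
    have h4 := finrank_eigen hμ σ (LinearMap.range f) h1
    rw [LinearMap.finrank_range_of_inj hf, hdim] at h4
    have h5 : finrank F K * 3 ≤ finrank F K * orderOf σ := Nat.mul_le_mul_left _ hσ3
    omega
  have hW2 : finrank F W ≤ 2 := by
    let f : W →ₗ[F] (F × F) := LinearMap.snd F K (F × F) ∘ₗ
      (φE.symm.trans φ).toLinearMap ∘ₗ W.subtype
    have hf : Function.Injective f := by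
      rw [injective_iff_map_eq_zero]
      intro x hx
      have h1 : g (φE.symm (x : E)) = μ • φE.symm (x : E) := by
        rw [heig, φE.apply_symm_apply]
        exact (hW _).1 x.2
      have h2 := hg (φE.symm (x : E))
      rw [h1, map_smul] at h2
      have h3 := congrArg Prod.fst h2
      rw [Prod.smul_fst, Algebra.smul_def] at h3
      have h4 : (φ (φE.symm (x : E))).1 = 0 := by
        by_contra h5
        exact hδ (mul_right_cancel₀ h5 h3).symm
      have h5 : (φ (φE.symm (x : E))).2 = 0 := hx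
      have h6 : φ (φE.symm (x : E)) = 0 := Prod.ext h4 h5
      exact Subtype.ext (φE.symm.map_eq_zero_iff.1 (φ.map_eq_zero_iff.1 h6))
    have h1 := LinearMap.finrank_le_finrank_of_injective hf
    rwa [finrank_prod, finrank_self] at h1
  have hW3 : finrank F W = 1 := by
    obtain ⟨m, hm⟩ := hW1
    omega
  rw [hW3, one_mul] at hWe
  refine ⟨hWe, hdim, le_antisymm (minpoly.natDegree_le δ) ?_⟩
  by_contra hlt
  have hint : IsIntegral F δ := IsIntegral.of_finite F δ
  have hm := (minpoly.monic hint).mul (LinearMap.charpoly_monic (w : (F × F) →ₗ[F] (F × F)))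
  have hdeg : (minpoly F δ * (w : (F × F) →ₗ[F] (F × F)).charpoly).natDegree
      = (minpoly F δ).natDegree + 2 := by
    rw [(minpoly.monic hint).natDegree_mul (LinearMap.charpoly_monic _),
      LinearMap.charpoly_natDegree, finrank_prod, finrank_self]
  refine hm.ne_zero (Z2_key g φE hμ hE _ ?_ fun v => ?_)
  · rw [hdeg, hWe, hdim]
    omega
  · apply φ.injective
    rw [Z2_aeval g φ hg, map_mul, minpoly.aeval, zero_mul, zero_mul, map_mul,
      LinearMap.aeval_self_charpoly, mul_zero, map_zero]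
    rfl

/-! ### Row psu-Z3 -/

omit [Finite F] [FiniteDimensional F E] in
theorem Z3_pow (g : V ≃ₗ[F] V) (φE : V ≃ₗ[F] E) {μ : F} {σ : E ≃ₐ[F] E}
    (hE : ∀ v, φE (g v) = μ • σ (φE v)) (k : ℕ) (v : V) :
    φE (((g : Module.End F V) ^ k) v) = μ ^ k • (σ ^ k) (φE v) := by
  induction k generalizing v with
  | zero => simp
  | succ k ih =>
    rw [pow_succ, Module.End.mul_apply, ih, pow_succ μ, pow_succ σ, AlgEquiv.mul_apply]
    have h1 : φE ((g : Module.End F V) v) = μ • σ (φE v) := hE v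
    rw [h1, map_smul, smul_smul]

omit [Finite F] [FiniteDimensional F K] in
theorem Z3_phi (g : V ≃ₗ[F] V) (φ : V ≃ₗ[F] K × (F × F)) {δ : K} {w : (F × F) ≃ₗ[F] (F × F)}
    (hg : ∀ v, φ (g v) = (δ * (φ v).1, w (φ v).2)) (Q : F[X]) (v : V) :
    φ (aeval (g : Module.End F V) Q v) =
      (aeval δ Q * (φ v).1, aeval (w : Module.End F (F × F)) Q (φ v).2) := by
  have hk : ∀ (k : ℕ) (v : V), φ (((g : Module.End F V) ^ k) v) =
      (δ ^ k * (φ v).1, ((w : Module.End F (F × F)) ^ k) (φ v).2) := by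
    intro k
    induction k with
    | zero =>
      intro v
      simp
    | succ k ih =>
      intro v
      rw [pow_succ, Module.End.mul_apply, ih]
      have h1 : φ ((g : Module.End F V) v) = (δ * (φ v).1, w (φ v).2) := hg v
      rw [h1, pow_succ δ, pow_succ (w : Module.End F (F × F)), Module.End.mul_apply, mul_assoc]
      rfl
  induction Q using Polynomial.induction_on' with
  | add p q hp hq =>
    rw [map_add, map_add, map_add, LinearMap.add_apply, LinearMap.add_apply, map_add, hp, hq,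
      add_mul, Prod.mk_add_mk]
  | monomial k a =>
    rw [aeval_monomial, aeval_monomial, aeval_monomial, ← Algebra.smul_def, ← Algebra.smul_def,
      ← Algebra.smul_def, LinearMap.smul_apply, LinearMap.smul_apply, map_smul, hk,
      smul_mul_assoc, Prod.smul_mk]

omit [Finite F] [FiniteDimensional F E] in
theorem Z3_zero (g : V ≃ₗ[F] V) (φE : V ≃ₗ[F] E) {μ : F} {σ : E ≃ₐ[F] E}
    (hE : ∀ v, φE (g v) = μ • σ (φE v)) (hμ : μ ≠ 0) {D : F[X]}
    (hD : D.degree < ((orderOf σ : ℕ) : WithBot ℕ)) (h0 : ∀ v, aeval (g : Module.End F V) D v = 0) :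
    D = 0 := by
  by_contra hne
  have hnat : D.natDegree < orderOf σ := by
    rw [Polynomial.natDegree_lt_iff_degree_lt hne]
    exact hD
  have hli : LinearIndependent E (fun k : Fin (orderOf σ) =>
      (fun x : E => (σ ^ (k : ℕ)) x : E → E)) := by
    have h1 := linearIndependent_monoidHom E E
    have h2 := h1.comp (fun k : Fin (orderOf σ) => ((σ ^ (k : ℕ) : E ≃ₐ[F] E) : E →* E)) (by
      intro i j hij
      apply Fin.ext
      apply pow_injOn_Iio_orderOf (x := σ) i.2 j.2
      apply AlgEquiv.ext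
      intro x
      exact congrArg (fun ψ : E →* E => ψ x) hij)
    exact h2
  have h1 : ∀ x : E, ∑ k ∈ Finset.range (orderOf σ),
      (algebraMap F E (D.coeff k * μ ^ k)) * (σ ^ k) x = 0 := by
    intro x
    have h2 := congrArg φE (h0 (φE.symm x))
    rw [map_zero, Polynomial.aeval_eq_sum_range' hnat, LinearMap.sum_apply, map_sum] at h2
    rw [← h2]
    refine Finset.sum_congr rfl fun k _ => ?_
    rw [LinearMap.smul_apply, map_smul, Z3_pow g φE hE, LinearEquiv.apply_symm_apply, smul_smul,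
      Algebra.smul_def]
  have h2 := Fintype.linearIndependent_iff.1 hli
    (fun k => algebraMap F E (D.coeff k * μ ^ (k : ℕ))) (by
      funext x
      rw [Finset.sum_apply, Pi.zero_apply, ← h1 x, Finset.sum_range]
      refine Finset.sum_congr rfl fun k _ => ?_
      rfl)
  apply hne
  ext k
  rw [Polynomial.coeff_zero]
  rcases lt_or_ge k (orderOf σ) with hk | hk
  · have h3 := h2 ⟨k, hk⟩
    rw [map_eq_zero] at h3
    exact (mul_eq_zero.1 h3).resolve_right (pow_ne_zero _ hμ)
  · exact Polynomial.coeff_eq_zero_of_natDegree_lt (lt_of_lt_of_le hnat hk)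

/-- Continue: `f = minpoly F δ` is irreducible of degree `r ≥ 3`, `P` = characteristic polynomial of `w` (degree `2`, monic); `f * P` and
`X ^ n - C (μ ^ n)` are monic of degree `n = r + 2` and kill `g` (`g ^ n = μ ^ n σ ^ n = μ ^ n`), so their difference has
degree `< n` and kills `g`, so it is `0` (the powers `σ ^ k`, `k < n`, are independent). -/
theorem poly_odd (g : V ≃ₗ[F] V) (φE : V ≃ₗ[F] E) {μ : F} {σ : E ≃ₐ[F] E}
    (hE : ∀ v, φE (g v) = μ • σ (φE v)) (φ : V ≃ₗ[F] K × (F × F)) {δ : K} {w : (F × F) ≃ₗ[F] (F × F)}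
    (hg : ∀ v, φ (g v) = (δ * (φ v).1, w (φ v).2))
    (h1 : orderOf σ = finrank F E) (h2 : finrank F E = finrank F K + 2)
    (h3 : (minpoly F δ).natDegree = finrank F K) :
    ∃ f P : F[X], Irreducible f ∧ f.natDegree = finrank F K ∧ P.Monic ∧ P.natDegree = 2 ∧
      f * P = X ^ (finrank F K + 2) - C (μ ^ (finrank F K + 2)) := by
  have hμ : μ ≠ 0 := by
    rintro rfl
    have h4 := hE (φE.symm 1)
    rw [zero_smul] at h4
    have h5 : φE.symm 1 = 0 := g.map_eq_zero_iff.1 (φE.map_eq_zero_iff.1 h4)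
    exact one_ne_zero (φE.symm.map_eq_zero_iff.1 h5)
  have hint : IsIntegral F δ := Algebra.IsIntegral.isIntegral δ
  have hn0 : finrank F K + 2 ≠ 0 := by omega
  have hPm : (LinearMap.charpoly (w : (F × F) →ₗ[F] (F × F))).Monic := LinearMap.charpoly_monic _
  have hPd : (LinearMap.charpoly (w : (F × F) →ₗ[F] (F × F))).natDegree = 2 := by
    rw [LinearMap.charpoly_natDegree, Module.finrank_prod, Module.finrank_self]
  refine ⟨minpoly F δ, LinearMap.charpoly (w : (F × F) →ₗ[F] (F × F)),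
    minpoly.irreducible hint, h3, hPm, hPd, ?_⟩
  set P := LinearMap.charpoly (w : (F × F) →ₗ[F] (F × F)) with hP
  have hfm : (minpoly F δ).Monic := minpoly.monic hint
  have hm1 : (minpoly F δ * P).Monic := hfm.mul hPm
  have hd1 : (minpoly F δ * P).natDegree = finrank F K + 2 := by
    rw [hfm.natDegree_mul hPm, h3, hPd]
  have hm2 : (X ^ (finrank F K + 2) - C (μ ^ (finrank F K + 2)) : F[X]).Monic :=
    monic_X_pow_sub_C _ hn0
  have hd2 : (X ^ (finrank F K + 2) - C (μ ^ (finrank F K + 2)) : F[X]).natDegree =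
      finrank F K + 2 := natDegree_X_pow_sub_C
  have hdeg : (minpoly F δ * P - (X ^ (finrank F K + 2) - C (μ ^ (finrank F K + 2)))).degree <
      ((orderOf σ : ℕ) : WithBot ℕ) := by
    have h5 := Polynomial.degree_sub_lt_left (p := minpoly F δ * P)
      (q := X ^ (finrank F K + 2) - C (μ ^ (finrank F K + 2)))
      (by rw [Polynomial.degree_eq_natDegree hm1.ne_zero, Polynomial.degree_eq_natDegree hm2.ne_zero,
        hd1, hd2]) hm1.ne_zero (by rw [hm1.leadingCoeff, hm2.leadingCoeff])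
    rw [Polynomial.degree_eq_natDegree hm1.ne_zero, hd1] at h5
    rw [h1, h2]
    exact h5
  refine sub_eq_zero.1 (Z3_zero g φE hE hμ hdeg ?_)
  intro v
  rw [map_sub, LinearMap.sub_apply]
  have e1 : aeval (g : Module.End F V) (minpoly F δ * P) v = 0 := by
    apply φ.injective
    rw [Z3_phi g φ hg, map_zero, map_mul, minpoly.aeval, zero_mul, zero_mul, map_mul,
      Module.End.mul_apply]
    have h5 : aeval (w : Module.End F (F × F)) P = 0 := LinearMap.aeval_self_charpoly _
    rw [h5, LinearMap.zero_apply, map_zero]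
    rfl
  have e2 : aeval (g : Module.End F V) (X ^ (finrank F K + 2) - C (μ ^ (finrank F K + 2))) v =
      0 := by
    apply φE.injective
    rw [map_sub, LinearMap.sub_apply, map_sub, map_zero, aeval_X_pow, Z3_pow g φE hE, aeval_C]
    have h5 : σ ^ (finrank F K + 2) = 1 := by
      rw [← h2, ← h1]
      exact pow_orderOf_eq_one σ
    rw [h5, Module.algebraMap_end_apply, map_smul, AlgEquiv.one_apply, sub_self]
  rw [e1, e2, sub_self]

/-! ### Row psu-Z4 -/

/-- Let `n = r + 2`, odd. `f` has no root in `F` (irreducible of degree `≥ 2`). `μ` is a root of `X ^ n - μ ^ n`, so of `P`: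
`P = (X - μ) (X - η)`, `η ^ n = μ ^ n`, `ω = η / μ`, `ω ^ n = 1`. If `ω ≠ 1` then `μ ω ^ 2` is a root of `X ^ n - μ ^ n`, so of `P`:
`ω ^ 2 = 1` or `ω ^ 2 = ω`, both impossible (`n` odd). If `ω = 1` then `(X - μ) ^ 2` divides `X ^ n - μ ^ n`, so the derivative
`n X ^ (n - 1)` vanishes at `μ` and the characteristic `p` divides `n`, `p` odd, `X ^ n - μ ^ n = (X ^ (n / p) - μ ^ (n / p)) ^ p` is
divisible by `(X - μ) ^ 3`, so `X - μ` divides `f`, a contradiction. -/
theorem no_poly {r : ℕ} (hr : 3 ≤ r) (hodd : Odd r) {μ : F} (hμ : μ ≠ 0) {f P : F[X]}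
    (hf : Irreducible f) (hfr : f.natDegree = r) (hP : P.Monic) (hP2 : P.natDegree = 2)
    (h : f * P = X ^ (r + 2) - C (μ ^ (r + 2))) : False := by
  have hroot : ∀ z : F, f.eval z ≠ 0 := by
    intro z hz
    have h1 := Polynomial.degree_eq_one_of_irreducible_of_root hf hz
    have h2 : f.natDegree = 1 := Polynomial.natDegree_eq_of_degree_eq_some h1
    omega
  have hPz : ∀ z : F, z ^ (r + 2) = μ ^ (r + 2) → P.eval z = 0 := by
    intro z hz
    have h1 := congrArg (Polynomial.eval z) h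
    rw [eval_mul, eval_sub, eval_pow, eval_X, eval_C, hz, sub_self] at h1
    exact (mul_eq_zero.1 h1).resolve_left (hroot z)
  have hPμ : P.eval μ = 0 := hPz μ rfl
  obtain ⟨Q, hQ⟩ := Polynomial.dvd_iff_isRoot.2 hPμ
  have hQm : Q.Monic := by
    have h1 := hP
    rw [hQ] at h1
    exact (monic_X_sub_C μ).of_mul_monic_left h1
  have hQd : Q.natDegree = 1 := by
    have h1 := hP2
    rw [hQ, (monic_X_sub_C μ).natDegree_mul hQm, natDegree_X_sub_C] at h1
    omega
  obtain ⟨η, hη⟩ : ∃ η : F, Q = X - C η := by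
    refine ⟨-Q.coeff 0, ?_⟩
    rw [C_neg, sub_neg_eq_add]
    exact hQm.eq_X_add_C hQd
  rw [hη] at hQ
  have hn : Odd (r + 2) := by
    obtain ⟨k, hk⟩ := hodd
    exact ⟨k + 1, by omega⟩
  have hev : ∀ z : F, P.eval z = (z - μ) * (z - η) := by
    intro z
    rw [hQ, eval_mul, eval_sub, eval_sub, eval_X, eval_C, eval_C]
  by_cases hημ : η = μ
  · rw [hημ] at hQ
    obtain ⟨p, hp⟩ := CharP.exists F
    have hpp : p.Prime := CharP.char_is_prime F p
    have : Fact p.Prime := ⟨hpp⟩
    have hder : ((r + 2 : ℕ) : F) = 0 := by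
      have h1 := congrArg (fun A => (Polynomial.derivative A).eval μ) h
      simp only [hQ, derivative_mul, derivative_sub, derivative_X, derivative_C, derivative_X_pow,
        eval_add, eval_mul, eval_sub, eval_X, eval_C, eval_pow, sub_self, mul_zero, zero_mul,
        add_zero, sub_zero] at h1
      have h2 : ((r + 2 : ℕ) : F) * μ ^ (r + 2 - 1) = 0 := by
        rw [← h1]
      exact (mul_eq_zero.1 h2).resolve_right (pow_ne_zero _ hμ)
    have hdvd : p ∣ r + 2 := (CharP.cast_eq_zero_iff F p (r + 2)).1 hder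
    obtain ⟨m, hm⟩ := hdvd
    have hp3 : 3 ≤ p := by
      rcases hpp.eq_two_or_odd with h2 | h2
      · exfalso
        rw [h2] at hm
        obtain ⟨k, hk⟩ := hn
        omega
      · have := hpp.two_le
        omega
    have hpow : (X ^ (r + 2) - C (μ ^ (r + 2)) : F[X]) = (X ^ m - C (μ ^ m)) ^ p := by
      rw [sub_pow_char, hm, mul_comm p m, pow_mul, pow_mul, C_pow]
    have hd1 : (X - C μ : F[X]) ∣ X ^ m - C (μ ^ m) := by
      rw [C_pow]
      exact sub_dvd_pow_sub_pow X (C μ) m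
    have hd2 : (X - C μ : F[X]) ^ 3 ∣ f * P := by
      rw [h, hpow]
      exact (pow_dvd_pow (X - C μ) hp3).trans (pow_dvd_pow_of_dvd hd1 p)
    obtain ⟨A, hA⟩ := hd2
    have hne : (X - C μ : F[X]) ≠ 0 := X_sub_C_ne_zero μ
    have h1 : f = (X - C μ) * A := by
      have h2 : (X - C μ : F[X]) * (X - C μ) * f = (X - C μ) * (X - C μ) * ((X - C μ) * A) := by
        rw [hQ] at hA
        linear_combination hA
      exact mul_left_cancel₀ (mul_ne_zero hne hne) h2
    apply hroot μ
    rw [h1, eval_mul, eval_sub, eval_X, eval_C, sub_self, zero_mul]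
  · have hη0 : η ^ (r + 2) = μ ^ (r + 2) := by
      have h1 := congrArg (Polynomial.eval η) h
      rw [eval_mul, hev, sub_self, mul_zero, mul_zero, eval_sub, eval_pow, eval_X, eval_C] at h1
      exact (sub_eq_zero.1 h1.symm)
    set ω := η / μ with hω
    have hηω : η = μ * ω := by
      rw [hω]
      field_simp
    have hω1 : ω ≠ 1 := by
      intro h1
      rw [h1, mul_one] at hηω
      exact hημ hηω
    have hωn : ω ^ (r + 2) = 1 := by
      rw [hω, div_pow, hη0, div_self (pow_ne_zero _ hμ)]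
    have hω0 : ω ≠ 0 := by
      intro h1
      rw [h1, zero_pow (by omega)] at hωn
      exact zero_ne_one hωn
    have h1 := hPz (μ * ω ^ 2) (by
      rw [mul_pow, ← pow_mul, mul_comm 2 (r + 2), pow_mul, hωn, one_pow, mul_one])
    rw [hev, hηω] at h1
    rcases mul_eq_zero.1 h1 with h2 | h2
    · have h3 : ω ^ 2 = 1 := by
        have h4 : μ * (ω ^ 2 - 1) = 0 := by linear_combination h2
        exact sub_eq_zero.1 ((mul_eq_zero.1 h4).resolve_left hμ)
      obtain ⟨k, hk⟩ := hn
      rw [hk, pow_succ, pow_mul, h3, one_pow, one_mul] at hωn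
      exact hω1 hωn
    · have h4 : μ * ω * (ω - 1) = 0 := by linear_combination h2
      exact hω1 (sub_eq_zero.1 ((mul_eq_zero.1 h4).resolve_left (mul_ne_zero hμ hω0)))

/-- The contradiction. -/
theorem final_odd (g : V ≃ₗ[F] V) (φE : V ≃ₗ[F] E) {μ : F} {σ : E ≃ₐ[F] E}
    (hE : ∀ v, φE (g v) = μ • σ (φE v)) (φ : V ≃ₗ[F] K × (F × F)) {δ : K} {w : (F × F) ≃ₗ[F] (F × F)}
    (hg : ∀ v, φ (g v) = (δ * (φ v).1, w (φ v).2)) (hr : 3 ≤ finrank F K) (hodd : Odd (finrank F K))
    (hσ : σ ≠ 1) : False := by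
  obtain ⟨h1, h2, h3⟩ := order_odd g φE hE φ hg hr hodd hσ
  obtain ⟨f, P, hf, hf2, hP, hP2, he⟩ := poly_odd g φE hE φ hg h1 h2 h3
  have hμ : μ ≠ 0 := by
    rintro rfl
    have h4 := hE (φE.symm 1)
    rw [zero_smul] at h4
    have h5 : φE.symm 1 = 0 := g.map_eq_zero_iff.1 (φE.map_eq_zero_iff.1 h4)
    exact one_ne_zero (φE.symm.map_eq_zero_iff.1 h5)
  exact no_poly hr hodd hμ hf hf2 hP hP2 he

end Pool.Agent.Lib.MP_8f3271_al.PSU
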