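import Mathlib
import Pool.Agent.Lib.MP_8f3271_al.P.O
import Pool.Agent.Lib.MP_8f3271_al.P.Z
import Pool.Agent.Lib.MP_8f3271_al.P.E

/-!
# PSU(n, q) has no nontrivial G-permutable subgroup
-/

set_option autoImplicit false

open Pool.Agent.GPerm59 Pointwise Module

namespace Pool.Agent.Lib.MP_8f3271_al.PSU

theorem main_odd {F V G : Type*} [Field F] [Finite F] [StarRing F] {q : ℕ} (hF : IsUF F q)
    [AddCommGroup V] [Module F V] [FiniteDimensional F V] [Group G] [Finite G] [IsSimpleGroup G]
    {h : Herm F V} {π : SU h →* G} (hπ : IsProjU h π) (hn : 5 ≤ finrank F V)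
    (hodd : Odd (finrank F V)) {A : Subgroup G} (hA : GPermutable A) : A = ⊥ ∨ A = ⊤ := by
  by_contra hcon
  push Not at hcon
  obtain ⟨hb, ht⟩ := hcon
  obtain ⟨p, hp⟩ := CharP.exists F
  have hpp : Fact p.Prime := ⟨CharP.char_is_prime F p⟩
  have hn0 : NeZero (finrank F V) := ⟨by omega⟩
  have hn1 : NeZero (finrank F V - 2) := ⟨by omega⟩
  let E := FiniteField.Extension F p (finrank F V)
  let K := FiniteField.Extension F p (finrank F V - 2)
  have hE : finrank F E = finrank F V := FiniteField.finrank_extension F p _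
  have hK : finrank F K = finrank F V - 2 := FiniteField.finrank_extension F p _
  have hoddK : Odd (finrank F K) := by
    rw [hK]
    obtain ⟨a, ha⟩ := hodd
    exact ⟨a - 1, by omega⟩
  obtain ⟨φE, hφ⟩ := exists_form_odd (K := E) hF hπ hA ht (by omega) hodd hE.symm
  obtain ⟨g, μ, σ, hAg, hg, hord, h2, hdvd⟩ := exists_gen_odd hπ hb φE hφ
  rw [hE] at hdvd
  obtain ⟨φ, δ, w, hgK⟩ := exists_torus_form_odd (K := K) hF hπ hA g hAg (hord ▸ h2)
    (hord ▸ hdvd) hoddK (by omega) (by omega)
  have hσ : σ ≠ 1 := by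
    rintro rfl
    rw [orderOf_one] at h2
    omega
  exact final_odd g.1 φE hg φ hgK (by omega) hoddK hσ

theorem main_even {F V G : Type*} [Field F] [Finite F] [StarRing F] {q : ℕ} (hF : IsUF F q)
    [AddCommGroup V] [Module F V] [FiniteDimensional F V] [Group G] [Finite G] [IsSimpleGroup G]
    {h : Herm F V} {π : SU h →* G} (hπ : IsProjU h π) (hn : 4 ≤ finrank F V)
    (hnq : 4 ≤ q ∨ 6 ≤ finrank F V)
    (heven : Even (finrank F V)) {A : Subgroup G} (hA : GPermutable A) : A = ⊥ ∨ A = ⊤ := by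
  by_contra hcon
  push Not at hcon
  obtain ⟨hb, ht⟩ := hcon
  obtain ⟨p, hp⟩ := CharP.exists F
  have hpp : Fact p.Prime := ⟨CharP.char_is_prime F p⟩
  obtain ⟨m, hm⟩ := heven
  have hn0 : NeZero m := ⟨by omega⟩
  have hn1 : NeZero (finrank F V - 1) := ⟨by omega⟩
  let L := FiniteField.Extension F p m
  let K := FiniteField.Extension F p (finrank F V - 1)
  have hL : finrank F L = m := FiniteField.finrank_extension F p _
  have hK : finrank F K = finrank F V - 1 := FiniteField.finrank_extension F p _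
  have hoddK : Odd (finrank F K) := ⟨m - 1, by omega⟩
  obtain ⟨φ, hφ0, hφ1, hφ⟩ := exists_form_even (K := K) hF hπ hA ht (by omega) hoddK (by omega)
    (by omega)
  obtain ⟨g, μ, μ', σ, hAg, hg, hord, h2, hdvd⟩ := exists_gen_even hF hπ hA hb (by omega) hoddK
    (by omega) φ hφ0 hφ1 hφ
  have hdvd' : orderOf (π g) ∣ 2 * finrank F L - 1 := by
    rw [hord]
    refine hdvd.trans (dvd_of_eq ?_)
    omega
  obtain ⟨φL, δ, δ', hni, hgL⟩ := exists_torus_form_even (L := L) hF hπ hA g hAg (hord ▸ h2)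
    hdvd' (by omega) (by omega)
  obtain ⟨h3, h4⟩ := hni _ hφ0
  have h5 : g.1 (φ.symm (0, 1)) = μ' • φ.symm (0, 1) := by
    apply φ.injective
    rw [hg, map_smul, LinearEquiv.apply_symm_apply]
    ext
    · simp
    · simp
  have h6 := hgL (φ.symm (0, 1))
  rw [h5, map_smul] at h6
  have h7 : δ = algebraMap F L μ' := by
    have h8 := congrArg Prod.fst h6
    simp only [Prod.smul_fst, Algebra.smul_def] at h8
    exact (mul_right_cancel₀ h3 h8).symm
  have h8 : δ' = algebraMap F L μ' := by
    have h9 := congrArg Prod.snd h6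
    simp only [Prod.smul_snd, Algebra.smul_def] at h9
    exact (mul_right_cancel₀ h4 h9).symm
  have h9 : π g = 1 := by
    rw [hπ.ker]
    refine ⟨μ', fun x => φL.injective ?_⟩
    rw [hgL, map_smul, h7, h8]
    ext
    · simp [Algebra.smul_def]
    · simp [Algebra.smul_def]
  rw [← hord, h9, orderOf_one] at h2
  omega

/-- `F` a finite field with a nontrivial involution `star`, with more than four elements, `n ≥ 4` and
`(n, |F|) ≠ (4, 9)`. If `PSU(n, F)` is simple then its only `G`-permutable subgroups are `1` and the whole group. -/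
theorem main {n : ℕ} (hn : 4 ≤ n) (F : Type*) [Field F] [Finite F] [StarRing F]
    (hs : ∃ a : F, star a ≠ a) (hc : 4 < Nat.card F) (hnc : n = 4 → Nat.card F ≠ 9)
    [IsSimpleGroup (Matrix.specialUnitaryGroup (Fin n) F ⧸
      Subgroup.center (Matrix.specialUnitaryGroup (Fin n) F))]
    (A : Subgroup (Matrix.specialUnitaryGroup (Fin n) F ⧸
      Subgroup.center (Matrix.specialUnitaryGroup (Fin n) F))) (hA : GPermutable A) :
    A = ⊥ ∨ A = ⊤ := by
  obtain ⟨q, hq, hst⟩ := exists_uf F hs
  have hq3 : 3 ≤ q := by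
    rw [hq] at hc
    by_contra hlt
    have : q ≤ 2 := by omega
    nlinarith
  have hF : IsUF F q := ⟨hq, hst, hq3⟩
  obtain ⟨h, π, hπ⟩ := exists_projU (n := n) hF (by omega)
  have hfin : finrank F (Fin n → F) = n := by simp
  rcases Nat.even_or_odd n with he | ho
  · refine main_even hF hπ (by omega) ?_ (by rwa [hfin]) hA
    rw [hfin]
    by_cases h4 : n = 4
    · left
      by_contra hlt
      have : q = 3 := by omega
      exact hnc h4 (by rw [hq, this]; norm_num)
    · right
      obtain ⟨a, ha⟩ := he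
      omega
  · refine main_odd hF hπ ?_ (by rwa [hfin]) hA
    rw [hfin]
    obtain ⟨a, ha⟩ := ho
    omega

end Pool.Agent.Lib.MP_8f3271_al.PSU
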