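import Mathlib
import Pool.Agent.Lib.MP_8f3271_al.P.S
import Pool.Agent.Lib.MP_8f3271_al.P.Z

/-!
# PSU(3, q) has no nontrivial G-permutable subgroup
-/

set_option autoImplicit false

open Pool.Agent.GPerm59 Pointwise Module

namespace Pool.Agent.Lib.MP_8f3271_al.PSU

variable {F V G K : Type*} [Field F] [Finite F] [StarRing F] {q : ℕ} [AddCommGroup V] [Module F V]
  [FiniteDimensional F V] [Group G] [Field K] [Algebra F K] [FiniteDimensional F K]
  {h : Herm F V} {π : SU h →* G} {A : Subgroup G}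

/-! ### Row psu-W1 -/

/-- The diagonal map (for example `LinearEquiv.ofBijective` of `Basis.constr`, or `b.equiv (b.unitsSMul _) (Equiv.refl _)`) is an isometry (expand
both arguments in the basis) and its determinant is the product (`LinearMap.det_toLin`, `Matrix.det_diagonal`). -/
theorem exists_diag (b : Basis (Fin 3) F V) (d : Fin 3 → F) (hd : ∏ k, d k = 1)
    (hb : ∀ k l, d k * star (d l) * h.f (b k) (b l) = h.f (b k) (b l)) :
    ∃ t : SU h, ∀ k, t.1 (b k) = d k • b k := by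
  classical
  have h0 : ∀ k, d k ≠ 0 := by
    intro k hk
    have h1 : ∏ k, d k = 0 := Finset.prod_eq_zero (Finset.mem_univ k) hk
    rw [hd] at h1
    exact one_ne_zero h1
  let e : V ≃ₗ[F] V := b.equiv (b.unitsSMul fun k => Units.mk0 (d k) (h0 k)) (Equiv.refl _)
  have he : ∀ k, e (b k) = d k • b k := by
    intro k
    simp only [e, Basis.equiv_apply, Basis.unitsSMul_apply, Equiv.refl_apply]
    rfl
  have hex : ∀ x, e x = ∑ k, (b.repr x k * d k) • b k := by
    intro x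
    conv_lhs => rw [← b.sum_repr x]
    rw [map_sum]
    refine Finset.sum_congr rfl fun k _ => ?_
    rw [map_smul, he, smul_smul]
  have hxx : ∀ x y, h.f x y = ∑ k, ∑ l, b.repr x k * (star (b.repr y l) * h.f (b k) (b l)) := by
    intro x y
    conv_lhs => rw [← b.sum_repr x, ← b.sum_repr y]
    rw [h.sum_left]
    refine Finset.sum_congr rfl fun k _ => ?_
    rw [h.sum_right]
    refine Finset.sum_congr rfl fun l _ => ?_
    rw [h.smul_left, h.smul_right]
  refine ⟨⟨e, ?_, ?_⟩, he⟩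
  · intro x y
    rw [hex x, hex y, hxx x y, h.sum_left]
    refine Finset.sum_congr rfl fun k _ => ?_
    rw [h.sum_right]
    refine Finset.sum_congr rfl fun l _ => ?_
    rw [h.smul_left, h.smul_right, star_mul']
    have h1 := hb k l
    linear_combination (b.repr x k * star (b.repr y l)) * h1
  · have hm : LinearMap.toMatrix b b (e : V →ₗ[F] V) = Matrix.diagonal d := by
      ext i j
      rw [LinearMap.toMatrix_apply, LinearEquiv.coe_coe, he, map_smul, Basis.repr_self,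
        Finsupp.smul_apply, Matrix.diagonal_apply, smul_eq_mul]
      by_cases hij : i = j
      · subst hij
        simp
      · rw [if_neg hij, Finsupp.single_eq_of_ne hij, mul_zero]
    apply Units.ext
    rw [LinearEquiv.coe_det, ← LinearMap.det_toMatrix b, hm, Matrix.det_diagonal, hd]
    rfl

/-! ### Row psu-W2 -/

omit [Finite F] [FiniteDimensional F V] in
private theorem W2_zpow (t : SU h) (b : Basis (Fin 3) F V) (d : Fin 3 → F) (hd0 : ∀ l, d l ≠ 0)
    (ht : ∀ l, t.1 (b l) = d l • b l) (n : ℤ) (l : Fin 3) : (t ^ n).1 (b l) = (d l) ^ n • b l := by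
  have hinv : (t⁻¹).1 (b l) = (d l)⁻¹ • b l := by
    have h1 := congrArg (fun y => (t⁻¹).1 y) (ht l)
    simp only [SU.inv_apply, map_smul] at h1
    calc (t⁻¹).1 (b l) = (d l)⁻¹ • (d l • (t⁻¹).1 (b l)) := by
          rw [smul_smul, inv_mul_cancel₀ (hd0 l), one_smul]
      _ = (d l)⁻¹ • b l := by rw [← h1]
  induction n using Int.induction_on with
  | zero => rw [zpow_zero, zpow_zero, one_smul]; rfl
  | succ n ih =>
    rw [zpow_add_one, zpow_add_one₀ (hd0 l), SU.mul_apply, ht, map_smul, ih, smul_smul, mul_comm]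
  | pred n ih =>
    rw [zpow_sub_one, zpow_sub_one₀ (hd0 l), SU.mul_apply, hinv, map_smul, ih, smul_smul, mul_comm]

omit [Finite F] [FiniteDimensional F V] in
private theorem W2_repr (t : SU h) (b : Basis (Fin 3) F V) (d : Fin 3 → F) (hd0 : ∀ l, d l ≠ 0)
    (ht : ∀ l, t.1 (b l) = d l • b l) (n : ℤ) (y : V) (l : Fin 3) :
    b.repr ((t ^ n).1 y) l = (d l) ^ n * b.repr y l := by
  have h1 : (t ^ n).1 y = ∑ m, (b.repr y m * (d m) ^ n) • b m := by
    conv_lhs => rw [← b.sum_repr y]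
    rw [map_sum]
    refine Finset.sum_congr rfl fun m _ => ?_
    rw [map_smul, W2_zpow t b d hd0 ht n m, smul_smul]
  rw [h1, b.repr_sum_self, mul_comm]

/-- `exists_diag` gives `t`; `exists_cyc` gives `k, j, i, ζ`; `b' l = k⁻¹ (b l)`, so `(k⁻¹ * t * k) (b' l) = d l • b' l`. Compare the
coordinates of `g ((k⁻¹ * t * k) ^ j (b' k)) = ζ • (k⁻¹ * t * k) ^ (j * i) (g (b' k))` in the basis `b'`. -/
theorem cyc_diag [Finite G] (hπ : IsProjU h π) (hA : GPermutable A) (g : SU h)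
    (hg : A = Subgroup.zpowers (π g)) (he : orderOf (π g) = 3) (b : Basis (Fin 3) F V) (d : Fin 3 → F)
    (hd : ∏ k, d k = 1) (hb : ∀ k l, d k * star (d l) * h.f (b k) (b l) = h.f (b k) (b l)) :
    ∃ (b' : Basis (Fin 3) F V) (j : ℕ) (i : ℤ) (ζ : F),
      (∀ k l, h.f (b' k) (b' l) = h.f (b k) (b l)) ∧ (j = 1 ∨ j = 2) ∧ ζ ≠ 0 ∧
      ∀ k l, b'.repr (g.1 (b' k)) l ≠ 0 → d k ^ j = ζ * (d l ^ j) ^ i := by
  have : Nontrivial V := ⟨b 0, 0, b.ne_zero 0⟩
  have hd0 : ∀ l, d l ≠ 0 := by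
    intro l hl
    rw [Finset.prod_eq_zero (Finset.mem_univ l) hl] at hd
    exact zero_ne_one hd
  obtain ⟨t, ht⟩ := exists_diag b d hd hb
  obtain ⟨k, j, i, ζ, hj0, hj1, hζ, hkey⟩ := exists_cyc hπ hA g hg (by rw [he]; norm_num) t
  rw [he] at hj1
  have hb' : ∀ l, (b.map (k⁻¹).1) l = (k⁻¹).1 (b l) := fun l => b.map_apply _ l
  have ht' : ∀ l, (k⁻¹ * t * k).1 ((b.map (k⁻¹).1) l) = d l • (b.map (k⁻¹).1) l := by
    intro l
    rw [hb', SU.mul_apply, SU.mul_apply, SU.apply_inv, ht, map_smul]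
  refine ⟨b.map (k⁻¹).1, j, i, ζ, ?_, by omega, hζ, ?_⟩
  · intro m l
    rw [hb', hb', SU.isom]
  · intro m l hne
    have h1 := hkey ((b.map (k⁻¹).1) m)
    rw [W2_zpow _ _ d hd0 ht' _ m, map_smul] at h1
    have h2 := congrArg (fun y => (b.map (k⁻¹).1).repr y l) h1
    simp only [map_smul, Finsupp.smul_apply, smul_eq_mul] at h2
    rw [W2_repr _ _ d hd0 ht' _ _ l, ← mul_assoc] at h2
    have h3 := mul_right_cancel₀ hne h2
    rw [zpow_mul, zpow_natCast, zpow_natCast] at h3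
    exact h3

/-! ### Row psu-W3 -/

/-- `θ` a generator of the unit group of `F`, of order `q ^ 2 - 1`, `star θ = θ ^ q`. The first: otherwise `θ ^ (j * (q - 2)) = 1`, but
`0 < j * (q - 2) < q ^ 2 - 1`. The second: otherwise `θ ^ (j * (2 * q - 1)) = 1`, `q ^ 2 - 1 ∣ j * (2 * q - 1)`, impossible: `j = 1`:
`2 * q - 1 < q ^ 2 - 1`; `j = 2`: `4 * q - 2 < q ^ 2 - 1` for `q ≥ 4` and `8 ∣ 10` for `q = 3`. The third: otherwise
`θ ^ (j * (q + 1)) = 1`, `q - 1 ∣ j`. -/
theorem exists_theta (hF : IsUF F q) : ∃ θ : F, θ ≠ 0 ∧ ∀ j : ℕ, (j = 1 ∨ j = 2) →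
    (star θ * θ⁻¹) ^ j ≠ θ ^ j ∧ (star θ * θ⁻¹) ^ j ≠ ((star θ)⁻¹) ^ j ∧
      (4 ≤ q → θ ^ j ≠ ((star θ)⁻¹) ^ j) := by
  classical
  have h3 := hF.three_le
  obtain ⟨m, rfl⟩ : ∃ m, q = m + 3 := ⟨q - 3, by omega⟩
  obtain ⟨u, hu⟩ := IsCyclic.exists_generator (α := Fˣ)
  have hord : orderOf u = (m + 3) ^ 2 - 1 := by
    rw [orderOf_eq_card_of_forall_mem_zpowers hu, Nat.card_units, hF.card]
  have hu0 : (u : F) ≠ 0 := u.ne_zero
  have key : ∀ n : ℕ, (u : F) ^ n = 1 → (m + 3) ^ 2 - 1 ∣ n := fun n hn => by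
    rw [← hord]
    apply orderOf_dvd_of_pow_eq_one
    ext
    simpa using hn
  have hsq : (m + 3) ^ 2 - 1 = m * m + 6 * m + 8 := by
    have : (m + 3) ^ 2 = m * m + 6 * m + 8 + 1 := by ring
    rw [this, Nat.add_sub_cancel]
  rw [hsq] at key
  have cancel : ∀ a b : ℕ, (u : F) ^ (a + b) = (u : F) ^ b → m * m + 6 * m + 8 ∣ a := by
    intro a b hab
    apply key
    rw [pow_add] at hab
    exact mul_right_cancel₀ (pow_ne_zero b hu0) (hab.trans (one_mul _).symm)
  refine ⟨u, hu0, fun j hj => ⟨?_, ?_, ?_⟩⟩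
  · intro h
    rw [hF.star_eq, mul_pow, inv_pow, mul_inv_eq_iff_eq_mul₀ (pow_ne_zero _ hu0), ← pow_mul, ← pow_add] at h
    have h1 : m * m + 6 * m + 8 ∣ j * (m + 1) := by
      apply cancel (j * (m + 1)) (j + j)
      rw [← h]
      congr 1
      ring
    rcases hj with rfl | rfl
    · have := Nat.le_of_dvd (by omega) h1
      nlinarith
    · have := Nat.le_of_dvd (by omega) h1
      nlinarith
  · intro h
    rw [hF.star_eq, mul_pow, inv_pow, inv_pow, mul_inv_eq_iff_eq_mul₀ (pow_ne_zero _ hu0),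
      eq_comm, inv_mul_eq_iff_eq_mul₀ (pow_ne_zero _ (pow_ne_zero _ hu0)), ← pow_mul, ← pow_add] at h
    have h1 : m * m + 6 * m + 8 ∣ j * (2 * m + 5) := by
      apply cancel (j * (2 * m + 5)) j
      rw [h]
      congr 1
      ring
    rcases hj with rfl | rfl
    · have := Nat.le_of_dvd (by omega) h1
      nlinarith
    · rcases m with _ | m
      · omega
      · have := Nat.le_of_dvd (by omega) h1
        nlinarith
  · intro h4 h
    rw [hF.star_eq, inv_pow, eq_comm, inv_eq_iff_eq_inv, eq_comm, inv_eq_iff_eq_inv, eq_comm, inv_eq_iff_eq_inv] at h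
    have h0 : (u : F) ^ ((m + 3) * j + j) = 1 := by
      rw [pow_add, pow_mul, h, inv_mul_cancel₀ (pow_ne_zero _ hu0)]
    have h1 := key _ h0
    rcases hj with rfl | rfl
    · have := Nat.le_of_dvd (by omega) h1
      nlinarith
    · have := Nat.le_of_dvd (by omega) h1
      nlinarith

/-! ### Row psu-W4 -/

/-- the hyperbolic plane `F × F` -/
def W4_hyp (F : Type*) [Field F] [StarRing F] : Herm F (F × F) where
  f x y := x.1 * star y.2 + x.2 * star y.1
  add_left x y z := by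
    rw [Prod.fst_add, Prod.snd_add]
    ring
  smul_left c x y := by
    rw [Prod.smul_fst, Prod.smul_snd, smul_eq_mul, smul_eq_mul]
    ring
  symm x y := by
    rw [star_add, star_mul', star_mul', star_star, star_star]
    ring
  nondeg x hx := by
    have h1 := hx (0, 1)
    have h2 := hx (1, 0)
    simp only [star_one, star_zero, mul_one, mul_zero, add_zero, zero_add] at h1 h2
    exact Prod.ext h1 h2

theorem W4_hyp_f (F : Type*) [Field F] [StarRing F] (x y : F × F) :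
    (W4_hyp F).f x y = x.1 * star y.2 + x.2 * star y.1 := rfl

/-- coordinates on `(F × F) × F` -/
def W4_equiv (F : Type*) [Field F] : ((F × F) × F) ≃ₗ[F] (Fin 3 → F) where
  toFun x := ![x.1.1, x.1.2, x.2]
  invFun v := ((v 0, v 1), v 2)
  map_add' x y := by
    funext k
    fin_cases k <;> rfl
  map_smul' c x := by
    funext k
    fin_cases k <;> rfl
  left_inv x := rfl
  right_inv v := by
    funext k
    fin_cases k <;> rfl

/-- A hyperbolic basis: by `exists_isometry` with the orthogonal sum of a hyperbolic plane (`x.1 * star y.2 + x.2 * star y.1` on `F × F`) and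
`Herm.std F`; or directly from `exists_isotropic`, `exists_one`, `G3_exists_iso` and a vector `u` orthogonal to both, scaled
with `exists_norm`. -/
theorem exists_hyp_basis (hF : IsUF F q) (h : Herm F V) (hV : finrank F V = 3) :
    ∃ b : Basis (Fin 3) F V, h.f (b 0) (b 0) = 0 ∧ h.f (b 1) (b 1) = 0 ∧ h.f (b 0) (b 1) = 1 ∧
      h.f (b 2) (b 0) = 0 ∧ h.f (b 2) (b 1) = 0 ∧ h.f (b 2) (b 2) = 1 := by
  obtain ⟨φ, hφ⟩ := exists_isometry hF h ((W4_hyp F).prod (Herm.std F)) (by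
    rw [hV, finrank_prod, finrank_prod, finrank_self])
  let b : Basis (Fin 3) F V := Basis.ofEquivFun (φ.trans (W4_equiv F))
  have hb : ∀ k, b k = φ.symm ((W4_equiv F).symm (Pi.single k 1)) := fun k => by
    simp [b, Basis.coe_ofEquivFun]
  have hb0 : φ (b 0) = ((1, 0), 0) := by
    rw [hb, LinearEquiv.apply_symm_apply]
    rfl
  have hb1 : φ (b 1) = ((0, 1), 0) := by
    rw [hb, LinearEquiv.apply_symm_apply]
    rfl
  have hb2 : φ (b 2) = ((0, 0), 1) := by
    rw [hb, LinearEquiv.apply_symm_apply]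
    rfl
  refine ⟨b, ?_, ?_, ?_, ?_, ?_, ?_⟩
  all_goals
    rw [← hφ]
    simp only [hb0, hb1, hb2, Herm.prod_f, W4_hyp_f, Herm.std_f, star_one, star_zero, mul_one, mul_zero,
      add_zero, zero_add]

/-- `exists_hyp_basis`, `exists_theta`, `d = ![θ, (star θ)⁻¹, star θ * θ⁻¹]`. -/
theorem exists_hyp_torus (hF : IsUF F q) (h : Herm F V) (hV : finrank F V = 3) :
    ∃ (b : Basis (Fin 3) F V) (d : Fin 3 → F), ∏ k, d k = 1 ∧
      (∀ k l, d k * star (d l) * h.f (b k) (b l) = h.f (b k) (b l)) ∧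
      h.f (b 0) (b 0) = 0 ∧ h.f (b 1) (b 1) = 0 ∧ h.f (b 0) (b 1) = 1 ∧
      h.f (b 2) (b 0) = 0 ∧ h.f (b 2) (b 1) = 0 ∧ h.f (b 2) (b 2) = 1 ∧
      ∀ j : ℕ, (j = 1 ∨ j = 2) → d 2 ^ j ≠ d 0 ^ j ∧ d 2 ^ j ≠ d 1 ^ j ∧ (4 ≤ q → d 0 ^ j ≠ d 1 ^ j) := by
  obtain ⟨b, h00, h11, h01, h20, h21, h22⟩ := exists_hyp_basis hF h hV
  obtain ⟨θ, hθ0, hθ⟩ := exists_theta hF
  have hs0 : star θ ≠ 0 := star_ne_zero.2 hθ0
  have h10 : h.f (b 1) (b 0) = 1 := by rw [h.symm, h01, star_one]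
  have h02 : h.f (b 0) (b 2) = 0 := by rw [h.symm, h20, star_zero]
  have h12 : h.f (b 1) (b 2) = 0 := by rw [h.symm, h21, star_zero]
  have e01 : θ * star ((star θ)⁻¹) = 1 := by
    rw [star_inv₀, star_star, mul_inv_cancel₀ hθ0]
  have e10 : (star θ)⁻¹ * star θ = 1 := inv_mul_cancel₀ hs0
  have e22 : star θ * θ⁻¹ * star (star θ * θ⁻¹) = 1 := by
    rw [star_mul', star_star, star_inv₀]
    field_simp
  refine ⟨b, ![θ, (star θ)⁻¹, star θ * θ⁻¹], ?_, ?_, h00, h11, h01, h20, h21, h22, ?_⟩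
  · rw [Fin.prod_univ_three]
    simp only [Matrix.cons_val_zero, Matrix.cons_val_one, Matrix.cons_val]
    field_simp
  · intro k l
    fin_cases k <;> fin_cases l <;>
      simp only [Fin.zero_eta, Fin.mk_one, Fin.reduceFinMk, Fin.isValue, Matrix.cons_val_zero,
        Matrix.cons_val_one, Matrix.cons_val, h00, h11, h01, h10, h02, h12, h20, h21, h22, e01, e10,
        e22, mul_zero, mul_one]
  · intro j hj
    exact hθ j hj

/-! ### Row psu-W5 -/

omit [Finite F] [FiniteDimensional F V] in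
/-- Write `m l k` for the coordinates of `g (b k)`. If `m l 2 ≠ 0` then `d 2 = ζ * d l ^ i`, so `m l 0 = m l 1 = 0` (`d 2 ≠ d 0`, `d 2 ≠ d 1`).
If `m l 2 ≠ 0` and `m l' 2 ≠ 0` with `l ≠ l'` then a combination of the two coordinate functionals `l, l'` vanishes on
`g (b 0)`, `g (b 1)`, `g (b 2)`, so everywhere, a contradiction. So `g (b 2) = c • b l`, and `h (g (b 2)) (g (b 2)) ≠ 0` gives `l = 2`. -/
theorem fix_two (g : SU h) (b : Basis (Fin 3) F V) (d : Fin 3 → F) (ζ : F) (i : ℤ)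
    (hd0 : d 2 ≠ d 0) (hd1 : d 2 ≠ d 1) (h0 : h.f (b 0) (b 0) = 0) (h1 : h.f (b 1) (b 1) = 0)
    (h2 : h.f (b 2) (b 2) ≠ 0) (hrel : ∀ k l, b.repr (g.1 (b k)) l ≠ 0 → d k = ζ * d l ^ i) :
    ∃ c : F, g.1 (b 2) = c • b 2 := by
  have hz : ∀ l, b.repr (g.1 (b 2)) l ≠ 0 → ∀ k, k ≠ 2 → b.repr (g.1 (b k)) l = 0 := by
    intro l hl k hk
    by_contra hne
    have e1 := hrel 2 l hl
    have e2 := hrel k l hne
    have aux : ∀ k : Fin 3, k ≠ 2 → k = 0 ∨ k = 1 := by decide
    rcases aux k hk with rfl | rfl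
    · exact hd0 (e1.trans e2.symm)
    · exact hd1 (e1.trans e2.symm)
  have huniq : ∀ l l', l ≠ l' → b.repr (g.1 (b 2)) l ≠ 0 → b.repr (g.1 (b 2)) l' = 0 := by
    intro l l' hll hl
    by_contra hl'
    have hφ : ((b.repr (g.1 (b 2)) l' • b.coord l - b.repr (g.1 (b 2)) l • b.coord l').comp
        (g.1 : V →ₗ[F] V)) = 0 := by
      apply b.ext
      intro k
      by_cases hk : k = 2
      · subst hk
        simp only [LinearMap.comp_apply, LinearMap.sub_apply, LinearMap.smul_apply,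
          Basis.coord_apply, smul_eq_mul, LinearMap.zero_apply, LinearEquiv.coe_coe]
        ring
      · simp only [LinearMap.comp_apply, LinearMap.sub_apply, LinearMap.smul_apply,
          Basis.coord_apply, smul_eq_mul, LinearMap.zero_apply, LinearEquiv.coe_coe,
          hz l hl k hk, hz l' hl' k hk, mul_zero, sub_zero]
    have h3 := LinearMap.congr_fun hφ (g.1.symm (b l))
    simp only [LinearMap.comp_apply, LinearMap.sub_apply, LinearMap.smul_apply,
      Basis.coord_apply, smul_eq_mul, LinearMap.zero_apply, LinearEquiv.coe_coe,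
      LinearEquiv.apply_symm_apply, Basis.repr_self, Finsupp.single_eq_same, mul_one,
      Finsupp.single_eq_of_ne hll.symm, mul_zero, sub_zero] at h3
    exact hl' h3
  have hsum := (b.sum_repr (g.1 (b 2))).symm
  rw [Fin.sum_univ_three] at hsum
  have key : ∀ (c : F) (l : Fin 3), h.f (b l) (b l) = 0 → g.1 (b 2) ≠ c • b l := by
    intro c l hl hgl
    apply h2
    rw [← SU.isom g, hgl, h.smul_left, h.smul_right, hl, mul_zero, mul_zero]
  by_cases e0 : b.repr (g.1 (b 2)) 0 = 0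
  · by_cases e1 : b.repr (g.1 (b 2)) 1 = 0
    · refine ⟨b.repr (g.1 (b 2)) 2, ?_⟩
      rw [e0, e1, zero_smul, zero_smul, zero_add, zero_add] at hsum
      exact hsum
    · exfalso
      have e2 := huniq 1 2 (by decide) e1
      rw [e0, e2, zero_smul, zero_smul, zero_add, add_zero] at hsum
      exact key _ 1 h1 hsum
  · exfalso
    have e1 := huniq 0 1 (by decide) e0
    have e2 := huniq 0 2 (by decide) e0
    rw [e1, e2, zero_smul, zero_smul, add_zero, add_zero] at hsum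
    exact key _ 0 h0 hsum

/-! ### Row psu-W6 -/

omit [Finite F] [StarRing F] [FiniteDimensional F V] in
/-- For every `k` choose `ρ k` with `b.repr (g (b k)) (ρ k) ≠ 0` (`g (b k) ≠ 0`); `d k = ζ * d (ρ k) ^ i` and `d` is injective, so `ρ` is
injective, a permutation. If `b.repr (g (b k)) l ≠ 0`, `l = ρ k'`, then `d k = ζ * d l ^ i = d k'`, `k = k'`. -/
theorem monomial3 (g : V ≃ₗ[F] V) (b : Basis (Fin 3) F V) (d : Fin 3 → F) (ζ : F) (i : ℤ)
    (hd : Function.Injective d) (hrel : ∀ k l, b.repr (g (b k)) l ≠ 0 → d k = ζ * d l ^ i) :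
    ∃ (ρ : Equiv.Perm (Fin 3)) (m : Fin 3 → F), (∀ k, m k ≠ 0) ∧ (∀ k, g (b k) = m k • b (ρ k)) ∧
      ∀ k, d k = ζ * d (ρ k) ^ i := by
  have hex : ∀ k, ∃ l, b.repr (g (b k)) l ≠ 0 := by
    intro k
    by_contra hcon
    push Not at hcon
    have h0 : b.repr (g (b k)) = 0 := Finsupp.ext hcon
    have h1 : g (b k) = 0 := by simpa using h0
    have h2 : b k = 0 := by simpa using h1
    exact b.ne_zero k h2
  choose r hr using hex
  have hinj : Function.Injective r := by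
    intro k k' hkk
    apply hd
    rw [hrel k (r k) (hr k), hrel k' (r k') (hr k'), hkk]
  have hbij : Function.Bijective r := Finite.injective_iff_bijective.1 hinj
  have huniq : ∀ k l, b.repr (g (b k)) l ≠ 0 → l = r k := by
    intro k l hl
    obtain ⟨k', rfl⟩ := hbij.2 l
    have h1 : d k = d k' := by
      rw [hrel k (r k') hl, hrel k' (r k') (hr k')]
    rw [hd h1]
  refine ⟨Equiv.ofBijective r hbij, fun k => b.repr (g (b k)) (r k), fun k => hr k, ?_, ?_⟩
  · intro k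
    apply b.repr.injective
    ext l
    by_cases hl : l = r k
    · subst hl
      simp
    · have h0 : b.repr (g (b k)) l = 0 := by
        by_contra hne
        exact hl (huniq k l hne)
      rw [h0]
      simp [Ne.symm hl]
  · intro k
    exact hrel k (r k) (hr k)

/-! ### Row psu-W7 -/

omit [StarRing F] in
theorem W7_aux {μ : F} (hμ : μ ≠ 0) (σ : K ≃ₐ[F] K) (hσ : orderOf σ = 3) (hK : finrank F K = 3) {ν : F}
    {a b : K} (ha : a ≠ 0) (h1 : μ • σ a = ν • a) (h2 : μ • σ b = ν • b) : ∃ c : F, b = c • a := by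
  let W : Submodule F K :=
    { carrier := {z | μ • σ z = ν • z}
      add_mem' := by
        intro x y hx hy
        simp only [Set.mem_ofPred_eq] at hx hy ⊢
        rw [map_add, smul_add, smul_add, hx, hy]
      zero_mem' := by
        simp only [Set.mem_ofPred_eq]
        rw [map_zero, smul_zero, smul_zero]
      smul_mem' := by
        intro c x hx
        simp only [Set.mem_ofPred_eq] at hx ⊢
        rw [map_smul, smul_comm μ c, hx, smul_comm ν c] }
  have h3 : finrank F W * orderOf σ ≤ finrank F K := finrank_eigen hμ σ W (fun x hx => hx)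
  rw [hσ, hK] at h3
  have h4 : finrank F W ≤ 1 := by omega
  obtain ⟨v, hv⟩ := finrank_le_one_iff.1 h4
  obtain ⟨c1, hc1⟩ := hv ⟨a, h1⟩
  obtain ⟨c2, hc2⟩ := hv ⟨b, h2⟩
  have e1 : c1 • (v : K) = a := congrArg Subtype.val hc1
  have e2 : c2 • (v : K) = b := congrArg Subtype.val hc2
  have hc : c1 ≠ 0 := by
    rintro rfl
    rw [zero_smul] at e1
    exact ha e1.symm
  refine ⟨c2 * c1⁻¹, ?_⟩
  rw [← e1, mul_smul, inv_smul_smul₀ hc, e2]

omit [Finite F] [StarRing F] [FiniteDimensional F V] [FiniteDimensional F K] in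
theorem W7_ne (g : V ≃ₗ[F] V) (φ : V ≃ₗ[F] K) {μ : F} {σ : K ≃ₐ[F] K}
    (hφ : ∀ x, φ (g x) = μ • σ (φ x)) {x : V} (hx : x ≠ 0) : μ ≠ 0 := by
  rintro rfl
  have h1 := hφ x
  rw [zero_smul] at h1
  exact hx (g.map_eq_zero_iff.1 (φ.map_eq_zero_iff.1 h1))

omit [StarRing F] [FiniteDimensional F V] in
/-- `φ x` and `φ y` are in the submodule `{z | μ • σ z = ν • z}` of `K`, whose dimension is at most `1` by `finrank_eigen`. -/
theorem eigen_unique (g : V ≃ₗ[F] V) (φ : V ≃ₗ[F] K) {μ : F} {σ : K ≃ₐ[F] K}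
    (hφ : ∀ x, φ (g x) = μ • σ (φ x)) (hσ : orderOf σ = 3) (hK : finrank F K = 3) {ν : F} {x y : V}
    (hx : x ≠ 0) (h1 : g x = ν • x) (h2 : g y = ν • y) : ∃ c : F, y = c • x := by
  have hμ : μ ≠ 0 := W7_ne g φ hφ hx
  have ha : φ x ≠ 0 := fun h => hx (φ.map_eq_zero_iff.1 h)
  have e1 : μ • σ (φ x) = ν • φ x := by rw [← hφ, h1, map_smul]
  have e2 : μ • σ (φ y) = ν • φ y := by rw [← hφ, h2, map_smul]
  obtain ⟨c, hc⟩ := W7_aux hμ σ hσ hK ha e1 e2
  refine ⟨c, φ.injective ?_⟩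
  rw [hc, map_smul]

omit [StarRing F] [FiniteDimensional F V] in
/-- The same for `g ^ 2`: `φ (g (g x)) = (μ ^ 2) • (σ ^ 2) (φ x)`, and `σ ^ 2` has order `3`. -/
theorem eigen_unique_sq (g : V ≃ₗ[F] V) (φ : V ≃ₗ[F] K) {μ : F} {σ : K ≃ₐ[F] K}
    (hφ : ∀ x, φ (g x) = μ • σ (φ x)) (hσ : orderOf σ = 3) (hK : finrank F K = 3) {ν : F} {x y : V}
    (hx : x ≠ 0) (h1 : g (g x) = ν • x) (h2 : g (g y) = ν • y) : ∃ c : F, y = c • x := by
  have hμ : μ ≠ 0 := W7_ne g φ hφ hx
  have ha : φ x ≠ 0 := fun h => hx (φ.map_eq_zero_iff.1 h)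
  have h3 : ∀ z : V, φ (g (g z)) = (μ ^ 2) • (σ ^ 2) (φ z) := by
    intro z
    rw [hφ, hφ, map_smul, smul_smul, pow_two, pow_two, AlgEquiv.mul_apply]
  have h4 : orderOf (σ ^ 2) = 3 := by
    rw [orderOf_pow, hσ]
    norm_num
  have e1 : (μ ^ 2) • (σ ^ 2) (φ x) = ν • φ x := by rw [← h3, h1, map_smul]
  have e2 : (μ ^ 2) • (σ ^ 2) (φ y) = ν • φ y := by rw [← h3, h2, map_smul]
  obtain ⟨c, hc⟩ := W7_aux (pow_ne_zero 2 hμ) (σ ^ 2) h4 hK ha e1 e2
  refine ⟨c, φ.injective ?_⟩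
  rw [hc, map_smul]

omit [Finite F] [StarRing F] [FiniteDimensional F V] [FiniteDimensional F K] in
theorem cube_eq (g : V ≃ₗ[F] V) (φ : V ≃ₗ[F] K) {μ : F} {σ : K ≃ₐ[F] K}
    (hφ : ∀ x, φ (g x) = μ • σ (φ x)) (hσ : orderOf σ = 3) (x : V) : g (g (g x)) = (μ ^ 3) • x := by
  have h1 : (σ ^ 3) (φ x) = φ x := by
    rw [← hσ, pow_orderOf_eq_one, AlgEquiv.one_apply]
  have h2 : (σ ^ 3) (φ x) = σ (σ (σ (φ x))) := by
    rw [pow_succ, pow_two, AlgEquiv.mul_apply, AlgEquiv.mul_apply]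
  apply φ.injective
  rw [hφ, hφ, hφ, map_smul, map_smul, map_smul, ← h2, h1, smul_smul, smul_smul, map_smul]
  congr 1
  ring

/-! ### Row psu-W8 -/

omit [Finite F] [StarRing F] in
theorem W8_three [CharP F 3] : (3 : F) = 0 := by
  have := CharP.cast_eq_zero F 3
  exact_mod_cast this

/-- `c ^ 3 = μ ^ 3` (`cube_eq`), so `c = μ` in characteristic `3`. `c * star c = 1` (isometry), `h (g y) x = h (g y) (c⁻¹ • g x) = c * h y x`.
`N y = g y - μ • y` has `N (N (N y)) = 0` (characteristic `3`, `cube_eq`) and `h (N y) x = 0` for all `y`. By independence of `1, σ, σ ^ 2`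
(`linearIndependent_monoidHom`, or `Z3_zero` with the polynomial `(X - C μ) ^ 2`) there is `y` with `N (N y) ≠ 0`;
`g (N (N y)) = μ • N (N y)`, so `N (N y) = a • x` by `eigen_unique`, `a ≠ 0`, and `0 = h (N (N y)) x = a * h x x`. -/
theorem no_char3 [CharP F 3] (g : SU h) (φ : V ≃ₗ[F] K) {μ : F} {σ : K ≃ₐ[F] K}
    (hφ : ∀ x, φ (g.1 x) = μ • σ (φ x)) (hσ : orderOf σ = 3) (hK : finrank F K = 3) {x : V}
    (hx : h.f x x ≠ 0) {c : F} (hc : g.1 x = c • x) : False := by
  have h3 : (3 : F) = 0 := W8_three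
  have hx0 : x ≠ 0 := by
    rintro rfl
    exact hx (h.zero_left 0)
  have hμ : μ ≠ 0 := by
    rintro rfl
    have h1 := hφ x
    rw [zero_smul] at h1
    exact hx0 (g.1.map_eq_zero_iff.1 (φ.map_eq_zero_iff.1 h1))
  have hcμ : c = μ := by
    have h1 := cube_eq g.1 φ hφ hσ x
    rw [hc, map_smul, map_smul, hc, map_smul, hc, smul_smul, smul_smul] at h1
    have h2 : (c * c * c - μ ^ 3) • x = 0 := by
      rw [sub_smul, h1, sub_self]
    have h4 := (smul_eq_zero.1 h2).resolve_right hx0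
    have h5 : (c - μ) ^ 3 = 0 := by
      linear_combination h4 + (-c ^ 2 * μ + c * μ ^ 2) * h3
    exact sub_eq_zero.1 (pow_eq_zero_iff (by norm_num) |>.1 h5)
  subst hcμ
  have hcc : c * star c = 1 := by
    have h1 := SU.isom g x x
    rw [hc, h.smul_left, h.smul_right, ← mul_assoc] at h1
    exact mul_right_cancel₀ hx (by rw [h1, one_mul])
  have hgy : ∀ y, h.f (g.1 y) x = c * h.f y x := by
    intro y
    have h1 := SU.isom g y x
    rw [hc, h.smul_right] at h1
    rw [← h1, ← mul_assoc, hcc, one_mul]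
  have hN : ∀ y, h.f (g.1 y - c • y) x = 0 := by
    intro y
    rw [h.sub_left, hgy, h.smul_left, sub_self]
  have key : ∀ y, g.1 (g.1 y - c • y) - c • (g.1 y - c • y) = 0 := by
    intro y
    set z := g.1 (g.1 y - c • y) - c • (g.1 y - c • y) with hz
    have h1 : g.1 z = c • z := by
      have h2 := cube_eq g.1 φ hφ hσ y
      rw [hz]
      simp only [map_sub, map_smul, smul_sub]
      rw [h2]
      have h4 : ∀ v : V, (3 : F) • v = 0 := fun v => by rw [h3, zero_smul]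
      have h5 : c ^ 3 • y - c • g.1 (g.1 y) - (c • g.1 (g.1 y) - c • c • g.1 y) -
          (c • g.1 (g.1 y) - c • c • g.1 y - (c • c • g.1 y - c • c • c • y)) =
          (3 : F) • (c • c • g.1 y - c • g.1 (g.1 y)) := by
        module
      rw [← sub_eq_zero, ← h4 (c • c • g.1 y - c • g.1 (g.1 y)), ← h5]
    obtain ⟨a, ha⟩ := eigen_unique g.1 φ hφ hσ hK hx0 hc h1
    have h2 : h.f z x = 0 := hN _
    rw [ha, h.smul_left] at h2
    rw [ha, (mul_eq_zero.1 h2).resolve_right hx, zero_smul]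
  have hD : (Polynomial.X - Polynomial.C c : Polynomial F) ^ 2 = 0 := by
    refine Z3_zero g.1 φ hφ hμ ?_ ?_
    · rw [Polynomial.degree_pow, Polynomial.degree_X_sub_C, hσ]
      decide
    · intro v
      rw [sq, map_mul, Module.End.mul_apply, map_sub, Polynomial.aeval_X, Polynomial.aeval_C,
        LinearMap.sub_apply, LinearMap.sub_apply, Module.algebraMap_end_apply,
        Module.algebraMap_end_apply]
      exact key v
  exact pow_ne_zero 2 (Polynomial.X_sub_C_ne_zero c) hD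

/-! ### Row psu-W9 -/

/-- `monomial3` gives `ρ`, `m`. `b 2` is the only non-isotropic vector of the basis, so `ρ 2 = 2`. If `ρ 0 = 1`, then `ρ 1 = 0` and
`g (g (b 0)) = (m 0 * m 1) • b 0`, `g (g (b 1)) = (m 0 * m 1) • b 1`, against `eigen_unique_sq`. So `ρ = 1`. -/
theorem eigen_basis (g : SU h) (φ : V ≃ₗ[F] K) {μ : F} {σ : K ≃ₐ[F] K}
    (hφ : ∀ x, φ (g.1 x) = μ • σ (φ x)) (hσ : orderOf σ = 3) (hK : finrank F K = 3)
    (b : Basis (Fin 3) F V) (d : Fin 3 → F) (ζ : F) (i : ℤ) (hd : Function.Injective d)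
    (h0 : h.f (b 0) (b 0) = 0) (h1 : h.f (b 1) (b 1) = 0) (h2 : h.f (b 2) (b 2) ≠ 0)
    (hrel : ∀ k l, b.repr (g.1 (b k)) l ≠ 0 → d k = ζ * d l ^ i) :
    ∃ δ : Fin 3 → F, ∀ k, g.1 (b k) = δ k • b k := by
  obtain ⟨ρ, m, hm, hgm, -⟩ := monomial3 g.1 b d ζ i hd hrel
  have hρ2 : ρ 2 = 2 := by
    have e : m 2 * (star (m 2) * h.f (b (ρ 2)) (b (ρ 2))) = h.f (b 2) (b 2) := by
      have e1 := SU.isom g (b 2) (b 2)
      rw [hgm 2, h.smul_left, h.smul_right] at e1
      exact e1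
    have hne : h.f (b (ρ 2)) (b (ρ 2)) ≠ 0 := by
      intro e2
      rw [e2, mul_zero, mul_zero] at e
      exact h2 e.symm
    have h3 : ρ 2 ≠ 0 := by
      intro e3
      rw [e3] at hne
      exact hne h0
    have h4 : ρ 2 ≠ 1 := by
      intro e3
      rw [e3] at hne
      exact hne h1
    revert h3 h4
    generalize ρ 2 = x
    revert x
    decide
  have h02 : ρ 0 ≠ 2 := fun e => absurd (ρ.injective (e.trans hρ2.symm)) (by decide)
  have h12 : ρ 1 ≠ 2 := fun e => absurd (ρ.injective (e.trans hρ2.symm)) (by decide)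
  have h01 : ρ 0 ≠ ρ 1 := fun e => absurd (ρ.injective e) (by decide)
  by_cases hc : ρ 0 = 1
  · exfalso
    have hρ1 : ρ 1 = 0 := by
      rw [hc] at h01
      revert h12 h01
      generalize ρ 1 = x
      revert x
      decide
    have e0 : g.1 (g.1 (b 0)) = (m 0 * m 1) • b 0 := by
      rw [hgm 0, hc, map_smul, hgm 1, hρ1, smul_smul]
    have e1 : g.1 (g.1 (b 1)) = (m 0 * m 1) • b 1 := by
      rw [hgm 1, hρ1, map_smul, hgm 0, hc, smul_smul, mul_comm (m 1) (m 0)]
    obtain ⟨c, hc'⟩ := eigen_unique_sq g.1 φ hφ hσ hK (b.ne_zero 0) e0 e1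
    have e2 := congrArg (fun v => b.repr v 1) hc'
    simp [Finsupp.single_apply] at e2
  · have hρ0 : ρ 0 = 0 := by
      revert hc h02
      generalize ρ 0 = x
      revert x
      decide
    have hρ1 : ρ 1 = 1 := by
      rw [hρ0] at h01
      revert h12 h01
      generalize ρ 1 = x
      revert x
      decide
    refine ⟨m, fun k => ?_⟩
    rw [hgm k]
    congr 2
    fin_cases k
    · exact hρ0
    · exact hρ1
    · exact hρ2

/-! ### Row psu-W10 -/

/-- `δ k ^ 3 = μ ^ 3` (`cube_eq`), the `δ k` are different (`eigen_unique`), `δ 2 * star (δ 2) = 1`, `δ 0 * star (δ 1) = 1`. Let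
`ω = δ 0 / δ 2`, `ω' = δ 1 / δ 2`: `ω ^ 3 = ω' ^ 3 = 1`, `ω, ω' ≠ 1`, `ω ≠ ω'`, so `ω' = ω ^ 2` (both are roots of `X ^ 2 + X + 1`).
`1 = ω * star ω' = ω * star ω ^ 2`, so `star ω ^ 2 = ω ^ 2`, `star ω = star ω ^ 4 = ω ^ 4 = ω`. So `ω ^ (q - 1) = 1`, and `ω` has
order `3`. -/
theorem three_dvd (hF : IsUF F q) (g : SU h) (φ : V ≃ₗ[F] K) {μ : F} {σ : K ≃ₐ[F] K}
    (hφ : ∀ x, φ (g.1 x) = μ • σ (φ x)) (hσ : orderOf σ = 3) (hK : finrank F K = 3)
    (b : Basis (Fin 3) F V) (h01 : h.f (b 0) (b 1) = 1) (h2 : h.f (b 2) (b 2) ≠ 0)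
    {δ : Fin 3 → F} (hδ : ∀ k, g.1 (b k) = δ k • b k) : 3 ∣ q - 1 := by
  have hcube : ∀ k, δ k ^ 3 = μ ^ 3 := by
    intro k
    have e1 := cube_eq g.1 φ hφ hσ (b k)
    rw [hδ k, map_smul, hδ k, map_smul, map_smul, hδ k, smul_smul, smul_smul] at e1
    have e2 : (δ k * δ k * δ k - μ ^ 3) • b k = 0 := by rw [sub_smul, e1, sub_self]
    have e3 := (smul_eq_zero.1 e2).resolve_right (b.ne_zero k)
    rw [← sub_eq_zero, ← e3]
    ring
  have hne : ∀ k l, k ≠ l → δ k ≠ δ l := by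
    intro k l hkl hd
    obtain ⟨c, hc⟩ := eigen_unique g.1 φ hφ hσ hK (b.ne_zero k) (hδ k) (hd ▸ hδ l)
    have e := congrArg (fun v => b.repr v l) hc
    simp only [map_smul, Basis.repr_self, Finsupp.smul_apply, Finsupp.single_eq_same, smul_eq_mul] at e
    rw [Finsupp.single_eq_of_ne hkl.symm, mul_zero] at e
    exact one_ne_zero e
  have hiso : ∀ k l, δ k * star (δ l) * h.f (b k) (b l) = h.f (b k) (b l) := by
    intro k l
    have e := g.2.1 (b k) (b l)
    rw [show (g : V ≃ₗ[F] V) (b k) = δ k • b k from hδ k,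
      show (g : V ≃ₗ[F] V) (b l) = δ l • b l from hδ l, h.smul_left, h.smul_right] at e
    rw [mul_assoc]
    exact e
  have h22 : δ 2 * star (δ 2) = 1 := mul_right_cancel₀ h2 (by rw [hiso 2 2, one_mul])
  have h01' : δ 0 * star (δ 1) = 1 := by
    have e := hiso 0 1
    rwa [h01, mul_one] at e
  have hd2 : δ 2 ≠ 0 := fun h0 => by rw [h0, zero_mul] at h22; exact zero_ne_one h22
  have hs2 : star (δ 2) ≠ 0 := fun h0 => by rw [h0, mul_zero] at h22; exact zero_ne_one h22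
  obtain ⟨w, hw⟩ : ∃ w : F, δ 0 = w * δ 2 := ⟨δ 0 / δ 2, (div_mul_cancel₀ _ hd2).symm⟩
  obtain ⟨w', hw'⟩ : ∃ w' : F, δ 1 = w' * δ 2 := ⟨δ 1 / δ 2, (div_mul_cancel₀ _ hd2).symm⟩
  have hd3 : δ 2 ^ 3 ≠ 0 := pow_ne_zero 3 hd2
  have w3 : w ^ 3 = 1 := by
    have e := (hcube 0).trans (hcube 2).symm
    rw [hw, mul_pow] at e
    exact mul_right_cancel₀ hd3 (by rw [e, one_mul])
  have w3' : w' ^ 3 = 1 := by
    have e := (hcube 1).trans (hcube 2).symm
    rw [hw', mul_pow] at e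
    exact mul_right_cancel₀ hd3 (by rw [e, one_mul])
  have w1 : w ≠ 1 := fun e => hne 0 2 (by decide) (by rw [hw, e, one_mul])
  have w1' : w' ≠ 1 := fun e => hne 1 2 (by decide) (by rw [hw', e, one_mul])
  have ww : w' ≠ w := fun e => hne 0 1 (by decide) (by rw [hw, hw', e])
  have hq1 : w ^ 2 + w + 1 = 0 := by
    have e : (w - 1) * (w ^ 2 + w + 1) = 0 := by
      have : (w - 1) * (w ^ 2 + w + 1) = w ^ 3 - 1 := by ring
      rw [this, w3, sub_self]
    exact (mul_eq_zero.1 e).resolve_left (sub_ne_zero.2 w1)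
  have hq2 : w' ^ 2 + w' + 1 = 0 := by
    have e : (w' - 1) * (w' ^ 2 + w' + 1) = 0 := by
      have : (w' - 1) * (w' ^ 2 + w' + 1) = w' ^ 3 - 1 := by ring
      rw [this, w3', sub_self]
    exact (mul_eq_zero.1 e).resolve_left (sub_ne_zero.2 w1')
  have hw2 : w' = w ^ 2 := by
    have e : (w' - w) * (w' + w + 1) = 0 := by
      have : (w' - w) * (w' + w + 1) = (w' ^ 2 + w' + 1) - (w ^ 2 + w + 1) := by ring
      rw [this, hq1, hq2, sub_zero]
    have e' := (mul_eq_zero.1 e).resolve_left (sub_ne_zero.2 ww)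
    have e'' : w' - w ^ 2 = (w' + w + 1) - (w ^ 2 + w + 1) := by ring
    rw [e', hq1, sub_zero] at e''
    exact sub_eq_zero.1 e''
  have hst : w * star w ^ 2 = 1 := by
    have e := h01'
    rw [hw, hw', star_mul', hw2, star_pow] at e
    have e2 : w * star w ^ 2 * (δ 2 * star (δ 2)) = 1 := by
      rw [← e]
      ring
    rwa [h22, mul_one] at e2
  have hs3 : star w ^ 3 = 1 := by rw [← star_pow, w3, star_one]
  have hfix : star w = w := by
    have e1 : star w ^ 2 = w ^ 2 := by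
      have : star w ^ 2 = w ^ 3 * star w ^ 2 := by rw [w3, one_mul]
      rw [this]
      have : w ^ 3 * star w ^ 2 = w ^ 2 * (w * star w ^ 2) := by ring
      rw [this, hst, mul_one]
    have e2 : star w = star w ^ 3 * star w := by rw [hs3, one_mul]
    have e3 : star w ^ 3 * star w = (star w ^ 2) ^ 2 := by ring
    rw [e2, e3, e1]
    have : (w ^ 2) ^ 2 = w ^ 3 * w := by ring
    rw [this, w3, one_mul]
  have hw0 : w ≠ 0 := fun e => by
    rw [e] at w3
    norm_num at w3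
  have hpow : w ^ (q - 1) = 1 := by
    have e := hF.star_eq w
    rw [hfix] at e
    have hq : q = (q - 1) + 1 := by have := hF.three_le; omega
    rw [hq, pow_succ] at e
    exact mul_right_cancel₀ hw0 (by rw [← e, one_mul])
  have hord : orderOf w = 3 := orderOf_eq_prime w3 w1
  rw [← hord]
  exact orderOf_dvd_of_pow_eq_one hpow

/-! ### Row psu-W11 -/

/-- `a = θ ^ (q - 1)`, `θ` a generator of the unit group of `F`: `a` has order `q + 1 ≥ 5`, `star a = a ^ q = a⁻¹`.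
`a ^ (3 * j) = 1` gives `q + 1 ∣ 3 * j`, so `q + 1 = 6`. -/
theorem exists_unit_elt (hF : IsUF F q) (hq : 4 ≤ q) : ∃ a : F, a ≠ 0 ∧ a * star a = 1 ∧
    ∀ j : ℕ, (j = 1 ∨ j = 2) → a ^ j ≠ 1 ∧ (a ^ j) ^ 2 ≠ 1 ∧ ((a ^ j) ^ 3 = 1 → 3 ∣ q + 1) := by
  obtain ⟨θ, hθ⟩ := IsCyclic.exists_generator (α := Fˣ)
  have h1 : orderOf θ = (q - 1) * (q + 1) := by
    rw [orderOf_eq_card_of_forall_mem_zpowers hθ, Nat.card_units, hF.card]
    obtain ⟨m, rfl⟩ : ∃ m, q = m + 1 := ⟨q - 1, by omega⟩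
    have h2 : (m + 1) ^ 2 = m * (m + 1 + 1) + 1 := by ring
    rw [h2, Nat.add_sub_cancel, Nat.add_sub_cancel]
  have ho : orderOf (θ ^ (q - 1)) = q + 1 := by
    rw [orderOf_pow_of_dvd (by omega) (by rw [h1]; exact dvd_mul_right _ _), h1]
    exact Nat.mul_div_cancel_left _ (by omega)
  have hpow : ∀ m : ℕ, ((θ ^ (q - 1) : Fˣ) : F) ^ m = 1 → q + 1 ∣ m := by
    intro m hm
    rw [← ho]
    apply orderOf_dvd_of_pow_eq_one
    apply Units.ext
    rw [Units.val_pow_eq_pow_val, hm, Units.val_one]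
  refine ⟨((θ ^ (q - 1) : Fˣ) : F), Units.ne_zero _, ?_, ?_⟩
  · rw [hF.star_eq, ← pow_succ', ← ho, ← Units.val_pow_eq_pow_val, pow_orderOf_eq_one, Units.val_one]
  · intro j hj
    refine ⟨fun h => ?_, fun h => ?_, fun h => ?_⟩
    · have h2 := Nat.le_of_dvd (by omega) (hpow j h)
      omega
    · rw [← pow_mul] at h
      have h2 := Nat.le_of_dvd (by omega) (hpow (j * 2) h)
      omega
    · rw [← pow_mul] at h
      have h2 := hpow (j * 3) h
      rcases hj with rfl | rfl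
      · have h3 := Nat.le_of_dvd (by norm_num) h2
        omega
      · obtain ⟨c, hc⟩ := h2
        have hc1 : c ≠ 0 := by
          rintro rfl
          omega
        have hc2 : c < 2 := by
          by_contra hcon
          have h4 : (q + 1) * 2 ≤ (q + 1) * c := Nat.mul_le_mul_left _ (by omega)
          omega
        have hc3 : c = 1 := by omega
        rw [hc3] at hc
        exact ⟨2, by omega⟩

/-! ### Row psu-W12 -/

/-- Non-isotropic eigenvectors of `g` or of `g ^ 2` are multiples of `b 2`: the `δ k ^ 2` are different (`eigen_unique_sq`), so if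
`g (g x) = ν • x`, `x ≠ 0`, the coordinates of `x` give that `x` is a multiple of some `b k`; `k = 2` as `b 0`, `b 1` are
isotropic. -/
theorem eigen_vec (g : SU h) (φ : V ≃ₗ[F] K) {μ : F} {σ : K ≃ₐ[F] K}
    (hφ : ∀ x, φ (g.1 x) = μ • σ (φ x)) (hσ : orderOf σ = 3) (hK : finrank F K = 3)
    (b : Basis (Fin 3) F V) (h0 : h.f (b 0) (b 0) = 0) (h1 : h.f (b 1) (b 1) = 0)
    {δ : Fin 3 → F} (hδ : ∀ k, g.1 (b k) = δ k • b k) {x : V} (hx : h.f x x ≠ 0) {ν : F}
    (hgx : g.1 (g.1 x) = ν • x) : ∃ c : F, x = c • b 2 := by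
  have hgb : ∀ k, g.1 (g.1 (b k)) = (δ k * δ k) • b k := by
    intro k
    rw [hδ k, map_smul, hδ k, smul_smul]
  have hx0 : x ≠ 0 := by
    rintro rfl
    exact hx (h.zero_left 0)
  have hlin : ∀ k, ∀ y, b.coord k (g.1 (g.1 y)) = δ k * δ k * b.coord k y := by
    intro k y
    have e : (b.coord k) ∘ₗ ((g.1 : V →ₗ[F] V) ∘ₗ (g.1 : V →ₗ[F] V)) =
        (δ k * δ k) • b.coord k := by
      refine b.ext fun j => ?_
      have e1 : ((b.coord k) ∘ₗ ((g.1 : V →ₗ[F] V) ∘ₗ (g.1 : V →ₗ[F] V))) (b j) =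
          b.coord k (g.1 (g.1 (b j))) := rfl
      rw [e1, hgb j, map_smul, LinearMap.smul_apply, smul_eq_mul, smul_eq_mul, b.coord_apply,
        b.repr_self]
      by_cases hjk : j = k
      · rw [hjk]
      · rw [Finsupp.single_eq_of_ne (Ne.symm hjk), mul_zero, mul_zero]
    exact LinearMap.congr_fun e y
  have hcoord : ∀ k, b.coord k x ≠ 0 → δ k * δ k = ν := by
    intro k hk
    have e := hlin k x
    rw [hgx, map_smul, smul_eq_mul] at e
    exact (mul_right_cancel₀ hk e).symm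
  obtain ⟨k, hk⟩ : ∃ k, b.coord k x ≠ 0 := by
    by_contra hcon
    refine hx0 (b.ext_elem fun k => ?_)
    by_contra hne
    refine hcon ⟨k, ?_⟩
    rw [b.coord_apply]
    rwa [map_zero, Finsupp.zero_apply] at hne
  have huniq : ∀ l, l ≠ k → b.coord l x = 0 := by
    intro l hl
    by_contra hl0
    have h3 := hgb k
    have h4 := hgb l
    rw [hcoord k hk] at h3
    rw [hcoord l hl0] at h4
    obtain ⟨c, hc⟩ := eigen_unique_sq (g.1) φ hφ hσ hK (b.ne_zero k) h3 h4
    have e := congrArg (b.coord l) hc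
    rw [map_smul, b.coord_apply, b.coord_apply, b.repr_self, b.repr_self, Finsupp.single_eq_same,
      Finsupp.single_eq_of_ne hl, smul_zero] at e
    exact one_ne_zero e
  have hxk : x = b.coord k x • b k := by
    refine b.ext_elem fun l => ?_
    rw [map_smul, b.repr_self, Finsupp.smul_apply, smul_eq_mul]
    by_cases hl : l = k
    · rw [hl, Finsupp.single_eq_same, mul_one, b.coord_apply]
    · rw [Finsupp.single_eq_of_ne hl, mul_zero, ← b.coord_apply]
      exact huniq l hl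
  have hbk : h.f (b k) (b k) ≠ 0 := by
    intro h5
    apply hx
    rw [hxk, h.smul_left, h.smul_right, h5, mul_zero, mul_zero]
  have hk2 : k = 2 := by
    fin_cases k
    · exact absurd h0 hbk
    · exact absurd h1 hbk
    · rfl
  exact ⟨b.coord k x, by rw [← hk2]; exact hxk⟩

/-! ### Row psu-W13 -/

private theorem W13_perm : ∀ ρ : Equiv.Perm (Fin 3), (∀ l, ρ (ρ l) = l) ∨
    (ρ 0 = 1 ∧ ρ 1 = 2 ∧ ρ 2 = 0) ∨ (ρ 0 = 2 ∧ ρ 1 = 0 ∧ ρ 2 = 1) := by
  decide

private theorem W13_cubeA {E : Type*} [Field E] {α ζ : E} (hα : α ≠ 0) {i : ℤ}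
    (h0 : α = ζ * 1 ^ i) (h1 : 1 = ζ * (α⁻¹) ^ i) (h2 : α⁻¹ = ζ * α ^ i) : α ^ 3 = 1 := by
  rw [one_zpow, mul_one] at h0
  rw [← h0] at h1 h2
  have h3 : α ^ i = α := by
    rw [inv_zpow] at h1
    have h4 : α ^ i ≠ 0 := zpow_ne_zero i hα
    field_simp at h1
    exact h1
  rw [h3] at h2
  field_simp at h2
  linear_combination -h2

private theorem W13_cubeB {E : Type*} [Field E] {α ζ : E} (hα : α ≠ 0) {i : ℤ}
    (h0 : α = ζ * (α⁻¹) ^ i) (h1 : 1 = ζ * α ^ i) (h2 : α⁻¹ = ζ * 1 ^ i) : α ^ 3 = 1 := by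
  rw [one_zpow, mul_one] at h2
  rw [← h2] at h0 h1
  have h3 : α ^ i = α := by
    field_simp at h1
    exact h1.symm
  rw [inv_zpow, h3] at h0
  field_simp at h0
  linear_combination h0

/-- `cyc_diag` with an orthonormal basis (`exists_orthonormal`, reindexed) and `d = ![a, 1, a⁻¹]`, `a` from `exists_unit_elt`; write
`α = a ^ j`; `fun k => d k ^ j` is injective. `monomial3`: `g (b' k) = m k • b' (ρ k)`. If `ρ` has a fixed point then `ρ (ρ l) = l` for all
`l` (`decide`), so `g (g (b' l))` is a multiple of `b' l` and by `eigen_vec` `b' 0` and `b' 1` are multiples of `b 2`, a contradiction.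
So `ρ` is `0 → 1 → 2 → 0` or `0 → 2 → 1 → 0`. In the first case (`e k = d k ^ j = ζ * (e (ρ k)) ^ i`): `α = ζ * 1`, `1 = ζ * α ^ (-i)`,
`α⁻¹ = ζ * α ^ i`, so `α ^ i = α`, `α ^ 3 = 1`. In the second: `α = ζ * α ^ (-i)`, `α⁻¹ = ζ`, `1 = ζ * α ^ i`, so `α ^ i = α`,
`α ^ 3 = 1`. So `3 ∣ q + 1`, against `3 ∣ q - 1`. -/
theorem no_big [Finite G] (hF : IsUF F q) (hq : 4 ≤ q) (hπ : IsProjU h π) (hA : GPermutable A) (g : SU h)
    (hg : A = Subgroup.zpowers (π g)) (he : orderOf (π g) = 3) (hV : finrank F V = 3)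
    (φ : V ≃ₗ[F] K) {μ : F} {σ : K ≃ₐ[F] K}
    (hφ : ∀ x, φ (g.1 x) = μ • σ (φ x)) (hσ : orderOf σ = 3) (hK : finrank F K = 3)
    (b : Basis (Fin 3) F V) (h0 : h.f (b 0) (b 0) = 0) (h1 : h.f (b 1) (b 1) = 0)
    {δ : Fin 3 → F} (hδ : ∀ k, g.1 (b k) = δ k • b k) (h3 : 3 ∣ q - 1) : False := by
  obtain ⟨a, ha0, haa, haj⟩ := exists_unit_elt hF hq
  obtain ⟨c0, hc0⟩ := exists_orthonormal hF h
  let c : Basis (Fin 3) F V := c0.reindex (finCongr hV)
  have hc : ∀ k l, h.f (c k) (c l) = if k = l then 1 else 0 := by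
    intro k l
    show h.f (c0.reindex (finCongr hV) k) (c0.reindex (finCongr hV) l) = _
    rw [Basis.reindex_apply, Basis.reindex_apply, hc0]
    by_cases hkl : k = l
    · rw [if_pos hkl, if_pos (by rw [hkl])]
    · rw [if_neg hkl, if_neg (fun hh => hkl ((finCongr hV).symm.injective hh))]
  have hsa : star a ≠ 0 := by
    intro hh
    rw [hh, mul_zero] at haa
    exact zero_ne_one haa
  let d : Fin 3 → F := ![a, 1, a⁻¹]
  have hdd : ∀ k, d k * star (d k) = 1 := by
    intro k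
    fin_cases k
    · exact haa
    · show (1 : F) * star 1 = 1
      rw [star_one, one_mul]
    · show a⁻¹ * star a⁻¹ = 1
      rw [star_inv₀, ← mul_inv, haa, inv_one]
  have hd : ∏ k, d k = 1 := by
    rw [Fin.prod_univ_three]
    show a * 1 * a⁻¹ = 1
    rw [mul_one, mul_inv_cancel₀ ha0]
  have hb : ∀ k l, d k * star (d l) * h.f (c k) (c l) = h.f (c k) (c l) := by
    intro k l
    rw [hc]
    by_cases hkl : k = l
    · rw [if_pos hkl, hkl, hdd, one_mul]
    · rw [if_neg hkl, mul_zero]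
  obtain ⟨b', j, i, ζ, hb', hj, -, hrel⟩ := cyc_diag hπ hA g hg he c d hd hb
  obtain ⟨h11, h12, h13⟩ := haj j hj
  have hα0 : a ^ j ≠ 0 := pow_ne_zero j ha0
  have he0 : d 0 ^ j = a ^ j := rfl
  have he1 : d 1 ^ j = 1 := by
    show (1 : F) ^ j = 1
    exact one_pow j
  have he2 : d 2 ^ j = (a ^ j)⁻¹ := by
    show (a⁻¹) ^ j = (a ^ j)⁻¹
    exact inv_pow a j
  have hinv : (a ^ j)⁻¹ ≠ 1 := by
    rw [Ne, inv_eq_one]
    exact h11
  have hne : a ^ j ≠ (a ^ j)⁻¹ := by
    intro hh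
    apply h12
    rw [pow_two]
    nth_rewrite 2 [hh]
    exact mul_inv_cancel₀ hα0
  have hinj : Function.Injective (fun k => d k ^ j) := by
    intro k l hkl
    have hkl' : d k ^ j = d l ^ j := hkl
    fin_cases k <;> fin_cases l
    · rfl
    · exact absurd (hkl'.trans he1) h11
    · exact absurd (hkl'.trans he2) hne
    · exact absurd (he1.symm.trans hkl').symm h11
    · rfl
    · exact absurd ((he1.symm.trans hkl').trans he2).symm hinv
    · exact absurd (hkl'.symm.trans he2) hne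
    · exact absurd ((he2.symm.trans hkl').trans he1) hinv
    · rfl
  obtain ⟨ρ, m, -, hgm, hρ⟩ := monomial3 (g.1 : V ≃ₗ[F] V) b' (fun k => d k ^ j) ζ i hinj hrel
  have hdvd : (a ^ j) ^ 3 = 1 → False := by
    intro hh
    have h4 := h13 hh
    omega
  rcases W13_perm ρ with hfix | ⟨hr0, hr1, hr2⟩ | ⟨hr0, hr1, hr2⟩
  · have hgg : ∀ l, g.1 (g.1 (b' l)) = (m l * m (ρ l)) • b' l := by
      intro l
      rw [hgm l, map_smul, hgm (ρ l), hfix l, smul_smul]
    have hnn : ∀ l, h.f (b' l) (b' l) = 1 := by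
      intro l
      rw [hb', hc, if_pos rfl]
    obtain ⟨c1, hc1⟩ := eigen_vec g φ hφ hσ hK b h0 h1 hδ (x := b' 0)
      (by rw [hnn]; exact one_ne_zero) (hgg 0)
    obtain ⟨c2, hc2⟩ := eigen_vec g φ hφ hσ hK b h0 h1 hδ (x := b' 1)
      (by rw [hnn]; exact one_ne_zero) (hgg 1)
    have hn0 := hnn 0
    have hn1 := hnn 1
    have h01 : h.f (b' 0) (b' 1) = 0 := by
      rw [hb', hc, if_neg (by decide)]
    rw [hc1, h.smul_left, h.smul_right] at hn0
    rw [hc2, h.smul_left, h.smul_right] at hn1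
    rw [hc1, hc2, h.smul_left, h.smul_right] at h01
    rcases mul_eq_zero.1 h01 with h5 | h5
    · rw [h5, zero_mul] at hn0
      exact zero_ne_one hn0
    · rcases mul_eq_zero.1 h5 with h6 | h6
      · rw [h6, zero_mul, mul_zero] at hn1
        exact zero_ne_one hn1
      · rw [h6, mul_zero, mul_zero] at hn1
        exact zero_ne_one hn1
  · have e0 := hρ 0
    have e1 := hρ 1
    have e2 := hρ 2
    rw [hr0, he0, he1] at e0
    rw [hr1, he1, he2] at e1
    rw [hr2, he2, he0] at e2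
    exact hdvd (W13_cubeA hα0 e0 e1 e2)
  · have e0 := hρ 0
    have e1 := hρ 1
    have e2 := hρ 2
    rw [hr0, he0, he2] at e0
    rw [hr1, he1, he0] at e1
    rw [hr2, he2, he1] at e2
    exact hdvd (W13_cubeB hα0 e0 e1 e2)

/-! ### Row psu-W14 -/

/-- `K = FiniteField.Extension F p 3` as in `main_odd` (file Main). `exists_form_odd`, `exists_gen_odd`: `A = zpowers (π g)`,
`orderOf (π g) = orderOf σ = 3` (at least `2` and divides `3`). `exists_hyp_torus` and `cyc_diag` give `b'`, `j`, `i`, `ζ`; put `e k = d k ^ j`.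
If the characteristic `p` is `3`: `fix_two` and `no_char3`. Otherwise `q ≠ 3` (`F` has `q ^ 2` elements), so `q ≥ 4`, `e` is injective, and
`eigen_basis`, `three_dvd`, `no_big`. -/
theorem main_three [Finite G] [IsSimpleGroup G] (hF : IsUF F q) (hπ : IsProjU h π)
    (hV : finrank F V = 3) (hA : GPermutable A) : A = ⊥ ∨ A = ⊤ := by
  by_contra hcon
  push Not at hcon
  obtain ⟨hb, ht⟩ := hcon
  obtain ⟨p, hp⟩ := CharP.exists F
  have hpp : Fact p.Prime := ⟨CharP.char_is_prime F p⟩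
  let E := FiniteField.Extension F p 3
  have hE : finrank F E = 3 := FiniteField.finrank_extension F p _
  obtain ⟨φ, hφ⟩ := exists_form_odd (K := E) hF hπ hA ht (by omega) (by rw [hV]; exact ⟨1, rfl⟩)
    (by rw [hV, hE])
  obtain ⟨g, μ, σ, hAg, hg, hord, h2, hdvd⟩ := exists_gen_odd hπ hb φ hφ
  rw [hE] at hdvd
  have hσ : orderOf σ = 3 := by
    rcases (Nat.dvd_prime Nat.prime_three).1 hdvd with h3 | h3
    · omega
    · exact h3
  have he : orderOf (π g) = 3 := hord.trans hσ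
  obtain ⟨b, d, hd, hbd, h00, h11, h01, h20, h21, h22, hθ⟩ := exists_hyp_torus hF h hV
  obtain ⟨b', j, i, ζ, hb', hj, hζ, hrel⟩ := cyc_diag hπ hA g hAg he b d hd hbd
  obtain ⟨hj0, hj1, hj2⟩ := hθ j hj
  have k00 : h.f (b' 0) (b' 0) = 0 := by rw [hb', h00]
  have k11 : h.f (b' 1) (b' 1) = 0 := by rw [hb', h11]
  have k01 : h.f (b' 0) (b' 1) = 1 := by rw [hb', h01]
  have k22 : h.f (b' 2) (b' 2) ≠ 0 := by
    rw [hb', h22]
    exact one_ne_zero
  by_cases hp3 : p = 3
  · subst hp3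
    obtain ⟨c, hc⟩ := fix_two g b' (fun k => d k ^ j) ζ i hj0 hj1 k00 k11 k22 hrel
    exact no_char3 g φ hg hσ hE k22 hc
  · have hq : 4 ≤ q := by
      have h3 := hF.three_le
      by_contra hlt
      have hq3 : q = 3 := by omega
      have h9 : Nat.card F = 9 := by rw [hF.card, hq3]; norm_num
      have h10 : ((Nat.card F : ℕ) : F) = 0 := by
        have : Fintype F := Fintype.ofFinite F
        rw [Nat.card_eq_fintype_card]
        exact FiniteField.cast_card_eq_zero F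
      rw [h9] at h10
      have h11 : p ∣ 9 := (CharP.cast_eq_zero_iff F p 9).1 h10
      have h12 : p ∣ 3 ^ 2 := by norm_num; exact h11
      exact hp3 ((Nat.prime_dvd_prime_iff_eq hpp.out Nat.prime_three).1 (hpp.out.dvd_of_dvd_pow h12))
    have hinj : Function.Injective (fun k => d k ^ j) := by
      intro k l hkl
      have hkl' : d k ^ j = d l ^ j := hkl
      fin_cases k <;> fin_cases l <;> simp only [Fin.zero_eta, Fin.mk_one, Fin.reduceFinMk] at hkl' ⊢
      · exact absurd hkl' (hj2 hq)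
      · exact absurd hkl'.symm hj0
      · exact absurd hkl'.symm (hj2 hq)
      · exact absurd hkl'.symm hj1
      · exact absurd hkl' hj0
      · exact absurd hkl' hj1
    obtain ⟨δ, hδ⟩ := eigen_basis g φ hg hσ hE b' (fun k => d k ^ j) ζ i hinj k00 k11 k22 hrel
    have h3 := three_dvd hF g φ hg hσ hE b' k01 k22 hδ
    exact no_big hF hq hπ hA g hAg he hV φ hg hσ hE b' k00 k11 hδ h3

end Pool.Agent.Lib.MP_8f3271_al.PSU
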