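import Mathlib
import Pool.Agent.Lib.MP_8f3271_al.P.G

/-!
# The special unitary groups are generated by the groups `rad h x`, they are perfect, and `PSU` is simple
-/

set_option autoImplicit false

open Pool.Agent.GPerm59 Pointwise Module

namespace Pool.Agent.Lib.MP_8f3271_al.PSU

/-- the group generated by the unipotent radicals of the stabilizers of isotropic points -/
def EE {F V : Type*} [Field F] [StarRing F] [AddCommGroup V] [Module F V] (h : Herm F V) :
    Subgroup (SU h) :=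
  Subgroup.closure {g | ∃ x : V, x ≠ 0 ∧ h.f x x = 0 ∧ g ∈ rad h x}

/-- the hyperbolic plane -/
def hyp (F : Type*) [Field F] [StarRing F] : Herm F (F × F) where
  f x y := x.1 * star y.2 + x.2 * star y.1
  add_left x y z := by
    rw [Prod.fst_add, Prod.snd_add]
    ring
  smul_left c x y := by
    rw [Prod.smul_fst, Prod.smul_snd, smul_eq_mul, smul_eq_mul]
    ring
  symm x y := by
    rw [star_add, star_mul', star_mul', star_star, star_star]
    ring
  nondeg x hx := by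
    have h1 := hx (0, 1)
    have h2 := hx (1, 0)
    simp only [star_one, star_zero, mul_one, mul_zero, add_zero, zero_add] at h1 h2
    exact Prod.ext h1 h2

theorem hyp_f {F : Type*} [Field F] [StarRing F] (x y : F × F) :
    (hyp F).f x y = x.1 * star y.2 + x.2 * star y.1 := rfl

variable {F V G : Type*} [Field F] [Finite F] [StarRing F] {q : ℕ} [AddCommGroup V] [Module F V]
  [FiniteDimensional F V] [Group G]

omit [Finite F] [FiniteDimensional F V] in
theorem rad_le_EE (h : Herm F V) {x : V} (hx0 : x ≠ 0) (hx : h.f x x = 0) : rad h x ≤ EE h :=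
  fun _ hg => Subgroup.subset_closure ⟨x, hx0, hx, hg⟩

/-! ### Row psu-Y1 -/

/-- `exists_eichler`; membership in `rad h x₀`: `g x₀ = x₀` as `h x₀ x₀ = 0` and `h x₀ v = star (h v x₀) = 0`; if `h y x₀ = 0` then
`g y = y - h y v • x₀`. -/
theorem exists_eichler_rad (h : Herm F V) {x₀ v : V} {a : F} (hx : h.f x₀ x₀ = 0) (hv : h.f v x₀ = 0)
    (ha : a + star a + h.f v v = 0) :
    ∃ g ∈ rad h x₀, ∀ x, g.1 x = x + h.f x x₀ • v - h.f x v • x₀ + (a * h.f x x₀) • x₀ := by
  obtain ⟨g, hg, hgx⟩ := exists_eichler h hx hv ha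
  have hv' : h.f x₀ v = 0 := by
    rw [h.symm v x₀, hv, star_zero]
  refine ⟨⟨g, hg⟩, ⟨?_, ?_⟩, fun x => hgx x⟩
  · change g x₀ = x₀
    rw [hgx, hx, hv', zero_smul, zero_smul, mul_zero, zero_smul, add_zero, sub_zero, add_zero]
  · intro y hy
    refine ⟨-h.f y v, ?_⟩
    change g y = _
    rw [hgx, hy, zero_smul, mul_zero, zero_smul, add_zero, add_zero, neg_smul, sub_eq_add_neg]

/-- `exists_eichler_rad` with `v = y' - y`, `a = h y v` (see `exists_move`). -/
theorem exists_rad_move (h : Herm F V) {x₀ y y' : V} (hx : h.f x₀ x₀ = 0) (hy : h.f y y = 0)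
    (hy' : h.f y' y' = 0) (h1 : h.f y x₀ = 1) (h2 : h.f y' x₀ = 1) :
    ∃ g ∈ rad h x₀, g.1 y = y' := by
  have hv : h.f (y' - y) x₀ = 0 := by
    rw [h.sub_left, h1, h2, sub_self]
  have ha : h.f y y' + star (h.f y y') + h.f (y' - y) (y' - y) = 0 := by
    rw [← h.symm, h.sub_left, h.sub_right, h.sub_right, hy, hy']
    ring
  obtain ⟨g, hg, hgx⟩ := exists_eichler_rad h hx hv ha
  refine ⟨g, hg, ?_⟩
  have h3 : h.f y (y' - y) = h.f y y' := by
    rw [h.sub_right, hy, sub_zero]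
  rw [hgx, h1, h3, one_smul, mul_one, add_sub_cancel, sub_add_cancel]

/-! ### Row psu-Y2 -/

/-- one step -/
theorem Y2_step (h : Herm F V) {x y z : V} (hx : h.f x x = 0) (hy : h.f y y = 0) (hz0 : z ≠ 0)
    (hz : h.f z z = 0) (h1 : h.f x z ≠ 0) (h2 : h.f y z ≠ 0) :
    ∃ e ∈ EE h, ∃ c : F, c ≠ 0 ∧ e.1 x = c • y := by
  obtain ⟨g, hg, hgx⟩ := exists_rad_move h (x₀ := z) (y := (h.f x z)⁻¹ • x)
    (y' := (h.f y z)⁻¹ • y) hz (by rw [h.smul_left, h.smul_right, hx, mul_zero, mul_zero])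
    (by rw [h.smul_left, h.smul_right, hy, mul_zero, mul_zero])
    (by rw [h.smul_left, inv_mul_cancel₀ h1]) (by rw [h.smul_left, inv_mul_cancel₀ h2])
  refine ⟨g, rad_le_EE h hz0 hz hg, h.f x z * (h.f y z)⁻¹, mul_ne_zero h1 (inv_ne_zero h2), ?_⟩
  rw [map_smul] at hgx
  rw [mul_smul, ← hgx, smul_inv_smul₀ h1]

/-- `EE h` is transitive on isotropic points. If `y = c • x` take `e = 1`. One step: if `z` is isotropic (then `z ≠ 0`) and
`h x z ≠ 0`, `h y z ≠ 0`, then `exists_rad_move` with centre `z` maps `(h x z)⁻¹ • x` to `(h y z)⁻¹ • y`. Such a `z`: if `h x y ≠ 0`, take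
`z = y + s • x`, `s = κ * (h x y)⁻¹`, `κ ≠ 0`, `κ + star κ = 0` (`exists_skew`); if `h x y = 0` and `y` is not a multiple of `x`,
`G6_solve`. -/
theorem EE_trans (hF : IsUF F q) (h : Herm F V) {x y : V} (hx0 : x ≠ 0) (hx : h.f x x = 0)
    (hy0 : y ≠ 0) (hy : h.f y y = 0) : ∃ e ∈ EE h, ∃ c : F, c ≠ 0 ∧ e.1 x = c • y := by
  by_cases hxy : h.f x y = 0
  · by_cases hc : ∃ c : F, y = c • x
    · obtain ⟨c, rfl⟩ := hc
      have hc0 : c ≠ 0 := by
        rintro rfl
        exact hy0 (zero_smul _ _)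
      exact ⟨1, one_mem _, c⁻¹, inv_ne_zero hc0, by rw [SU.one_apply, inv_smul_smul₀ hc0]⟩
    · obtain ⟨z, hz, hzx, hzy⟩ := G6_solve hF h hx0 hx (fun c hcy => hc ⟨c, hcy⟩) hxy
      have hz0 : z ≠ 0 := by
        rintro rfl
        rw [h.zero_left] at hzx
        exact zero_ne_one hzx
      refine Y2_step h hx hy hz0 hz ?_ ?_
      · rw [h.symm z x, hzx, star_one]
        exact one_ne_zero
      · rw [h.symm z y, hzy, star_one]
        exact one_ne_zero
  · obtain ⟨κ, hκ0, hκ⟩ := exists_skew hF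
    have hs : star (κ * (h.f x y)⁻¹) * h.f y x = star κ := by
      rw [h.symm x y, star_mul', star_inv₀, mul_assoc, inv_mul_cancel₀ (star_ne_zero.2 hxy), mul_one]
    have hs' : κ * (h.f x y)⁻¹ * h.f x y = κ := by
      rw [mul_assoc, inv_mul_cancel₀ hxy, mul_one]
    have hxz : h.f x (y + (κ * (h.f x y)⁻¹) • x) ≠ 0 := by
      rw [h.add_right, h.smul_right, hx, mul_zero, add_zero]
      exact hxy
    refine Y2_step h (z := y + (κ * (h.f x y)⁻¹) • x) hx hy ?_ ?_ hxz ?_
    · intro h0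
      rw [h0, h.zero_right] at hxz
      exact hxz rfl
    · rw [h.add_left, h.add_right, h.add_right, h.smul_left, h.smul_right, h.smul_left, h.smul_right,
        hx, hy, mul_zero, mul_zero, hs, hs', zero_add, add_zero, add_comm, hκ]
    · rw [h.add_right, hy, zero_add, h.smul_right, hs]
      exact star_ne_zero.2 hκ0

/-! ### Row psu-Y3 -/

/-- `X` from `exists_eichler_rad` with centre `x`: `X y = y + v + a • x`, `X x = x`. `Y ∈ rad h y` with
`Y (a⁻¹ • (y + v + a • x)) = x` (`exists_rad_move`; the vector `a⁻¹ • (y + v + a • x)` is isotropic because `X` is an isometry, and its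
product with `y` is `a⁻¹ * (a * h x y) = 1`); `Y y = y`. Then `star a • Y x` is isotropic and
`h (star a • Y x) x = star a * h (Y x) (Y (a⁻¹ • (y + v + a • x))) = star a * (h x (a⁻¹ • y)) = 1`; so there is `X' ∈ rad h x` with
`X' (star a • Y x) = y`. Put `e = X' * Y * X`: `e x = X' (Y x) = (star a)⁻¹ • y`, `e y = X' (Y (y + v + a • x)) = X' (a • x) = a • x`. -/
theorem EE_swap (h : Herm F V) {x y v : V} {a : F} (hx : h.f x x = 0) (hy : h.f y y = 0)
    (hyx : h.f y x = 1) (hvx : h.f v x = 0) (hvy : h.f v y = 0) (ha0 : a ≠ 0)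
    (ha : a + star a + h.f v v = 0) :
    ∃ e ∈ EE h, e.1 x = (star a)⁻¹ • y ∧ e.1 y = a • x := by
  have hxy : h.f x y = 1 := by rw [h.symm y x, hyx, star_one]
  have hxv : h.f x v = 0 := by rw [h.symm v x, hvx, star_zero]
  have hyv : h.f y v = 0 := by rw [h.symm v y, hvy, star_zero]
  have hsa : star a ≠ 0 := star_ne_zero.2 ha0
  have hx0 : x ≠ 0 := by
    rintro rfl
    rw [h.zero_right] at hyx
    exact zero_ne_one hyx
  have hy0 : y ≠ 0 := by
    rintro rfl
    rw [h.zero_left] at hyx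
    exact zero_ne_one hyx
  obtain ⟨X, hX, hXf⟩ := exists_eichler_rad h hx hvx ha
  have hXy : X.1 y = y + v + a • x := by
    rw [hXf, hyx, hyv, one_smul, zero_smul, sub_zero, mul_one]
  have hXx : X.1 x = x := hX.1
  have hiso : h.f (y + v + a • x) (y + v + a • x) = 0 := by
    rw [← hXy, SU.isom, hy]
  have h1 : h.f (a⁻¹ • (y + v + a • x)) (a⁻¹ • (y + v + a • x)) = 0 := by
    rw [h.smul_left, h.smul_right, hiso, mul_zero, mul_zero]
  have h2 : h.f (a⁻¹ • (y + v + a • x)) y = 1 := by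
    rw [h.smul_left, h.add_left, h.add_left, h.smul_left, hy, hvy, hxy, add_zero, zero_add, mul_one,
      inv_mul_cancel₀ ha0]
  obtain ⟨Y, hY, hYf⟩ := exists_rad_move h hy h1 hx h2 hxy
  have h3 : h.f (star a • Y.1 x) (star a • Y.1 x) = 0 := by
    rw [h.smul_left, h.smul_right, SU.isom, hx, mul_zero, mul_zero]
  have h4 : h.f (star a • Y.1 x) x = 1 := by
    have h5 : h.f (Y.1 x) x = h.f x (a⁻¹ • (y + v + a • x)) := by
      rw [← SU.isom Y x (a⁻¹ • (y + v + a • x)), hYf]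
    rw [h.smul_left, h5, h.smul_right, h.add_right, h.add_right, h.smul_right, hx, hxv, hxy,
      mul_zero, add_zero, add_zero, mul_one, star_inv₀, mul_inv_cancel₀ hsa]
  obtain ⟨X', hX', hXf'⟩ := exists_rad_move h hx h3 hy h4 hyx
  have hXx' : X'.1 x = x := hX'.1
  refine ⟨X' * Y * X, (EE h).mul_mem ((EE h).mul_mem (rad_le_EE h hx0 hx hX')
    (rad_le_EE h hy0 hy hY)) (rad_le_EE h hx0 hx hX), ?_, ?_⟩
  · rw [SU.mul_apply, SU.mul_apply, hXx, ← hXf', map_smul, smul_smul, inv_mul_cancel₀ hsa, one_smul]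
  · have h6 : y + v + a • x = a • (a⁻¹ • (y + v + a • x)) := by
      rw [smul_smul, mul_inv_cancel₀ ha0, one_smul]
    rw [SU.mul_apply, SU.mul_apply, hXy, h6, map_smul, hYf, map_smul, hXx']

/-- The product of `EE_swap` for `a, v` and for `b, w` (first `b`, then `a`). -/
theorem EE_torus (h : Herm F V) {x y v w : V} {a b : F} (hx : h.f x x = 0) (hy : h.f y y = 0)
    (hyx : h.f y x = 1) (hvx : h.f v x = 0) (hvy : h.f v y = 0) (ha0 : a ≠ 0)
    (ha : a + star a + h.f v v = 0) (hwx : h.f w x = 0) (hwy : h.f w y = 0) (hb0 : b ≠ 0)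
    (hb : b + star b + h.f w w = 0) :
    ∃ e ∈ EE h, e.1 x = ((star b)⁻¹ * a) • x ∧ e.1 y = (b * (star a)⁻¹) • y := by
  obtain ⟨e, he, h1, h2⟩ := EE_swap h hx hy hyx hvx hvy ha0 ha
  obtain ⟨e', he', h3, h4⟩ := EE_swap h hx hy hyx hwx hwy hb0 hb
  refine ⟨e * e', (EE h).mul_mem he he', ?_, ?_⟩
  · rw [SU.mul_apply, h3, map_smul, h2, smul_smul]
  · rw [SU.mul_apply, h4, map_smul, h1, smul_smul]

/-! ### Row psu-Y4 -/

omit [FiniteDimensional F V] in
theorem Y4_scale (hF : IsUF F q) (h : Herm F V) {u : V} (hu : h.f u u ≠ 0) {a : F} :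
    ∃ l : F, a + star a + h.f (l • u) (l • u) = 0 := by
  have hs : star (-(h.f u u)⁻¹ * (a + star a)) = -(h.f u u)⁻¹ * (a + star a) := by
    rw [star_mul', star_neg, star_inv₀, h.self_star, star_add, star_star, add_comm (star a) a]
  obtain ⟨l, hl⟩ := exists_norm hF hs
  refine ⟨l, ?_⟩
  rw [h.smul_left, h.smul_right, ← mul_assoc, hl]
  field_simp
  ring

/-- `EE_torus` with `b = 1`, `a = c`: with `exists_norm` choose `l` with `l * star l = -(h u u)⁻¹ * (1 + 1)`, `w = l • u`, and `l'` with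
`l' * star l' = -(h u u)⁻¹ * (c + star c)`, `v = l' • u`. -/
theorem EE_torus_big (hF : IsUF F q) (h : Herm F V) {x y u : V} (hx : h.f x x = 0)
    (hy : h.f y y = 0) (hyx : h.f y x = 1) (hux : h.f u x = 0) (huy : h.f u y = 0)
    (hu : h.f u u ≠ 0) {c : F} (hc : c ≠ 0) :
    ∃ e ∈ EE h, e.1 x = c • x ∧ e.1 y = (star c)⁻¹ • y := by
  obtain ⟨l, hl⟩ := Y4_scale hF h hu (a := 1)
  obtain ⟨l', hl'⟩ := Y4_scale hF h hu (a := c)
  have hz : ∀ (m : F) (z : V), h.f u z = 0 → h.f (m • u) z = 0 := fun m z hz => by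
    rw [h.smul_left, hz, mul_zero]
  obtain ⟨e, he, h1, h2⟩ := EE_torus h hx hy hyx (hz l' x hux) (hz l' y huy) hc hl' (hz l x hux)
    (hz l y huy) one_ne_zero hl
  refine ⟨e, he, ?_, ?_⟩
  · rw [h1, star_one, inv_one, one_mul]
  · rw [h2, one_mul]

theorem Y4_trans (h : Herm F V) {x : V} {a : F} (hx0 : x ≠ 0) (hx : h.f x x = 0)
    (ha : a + star a = 0) : ∃ e ∈ EE h, ∀ z, e.1 z = z + (a * h.f z x) • x := by
  obtain ⟨g, hg, h1⟩ := exists_eichler_rad h (x₀ := x) (v := 0) (a := a) hx (h.zero_left x)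
    (by rw [h.zero_left, add_zero, ha])
  refine ⟨g, rad_le_EE h hx0 hx hg, fun z => ?_⟩
  rw [h1, smul_zero, add_zero, h.zero_right, zero_smul, sub_zero]

theorem Y4_weyl (h : Herm F V) {x y : V} {a : F} (hx : h.f x x = 0) (hy : h.f y y = 0)
    (hyx : h.f y x = 1) (ha0 : a ≠ 0) (ha : a + star a = 0) :
    ∃ e ∈ EE h, e.1 x = (-a⁻¹) • y ∧ e.1 y = a • x ∧
      ∀ z, h.f z x = 0 → h.f z y = 0 → e.1 z = z := by
  have hxy : h.f x y = 1 := by
    rw [h.symm y x, hyx, star_one]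
  have hx0 : x ≠ 0 := by
    rintro rfl
    rw [h.zero_right] at hyx
    exact zero_ne_one hyx
  have hy0 : y ≠ 0 := by
    rintro rfl
    rw [h.zero_left] at hyx
    exact zero_ne_one hyx
  have hsa : star a = -a := eq_neg_of_add_eq_zero_right ha
  have hb : -a⁻¹ + star (-a⁻¹) = 0 := by
    rw [star_neg, star_inv₀, hsa, inv_neg, neg_neg, neg_add_cancel]
  obtain ⟨X, hX, h1⟩ := Y4_trans h hx0 hx ha
  obtain ⟨Y, hY, h2⟩ := Y4_trans h hy0 hy hb
  have hXx : X.1 x = x := by
    rw [h1, hx, mul_zero, zero_smul, add_zero]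
  have hXy : X.1 y = y + a • x := by
    rw [h1, hyx, mul_one]
  have hYy : Y.1 y = y := by
    rw [h2, hy, mul_zero, zero_smul, add_zero]
  have hYx : Y.1 x = x + (-a⁻¹) • y := by
    rw [h2, hxy, mul_one]
  refine ⟨X * Y * X, Subgroup.mul_mem _ (Subgroup.mul_mem _ hX hY) hX, ?_, ?_, fun z hz1 hz2 => ?_⟩
  · have e1 : (-a⁻¹) • a • x = -x := by
      rw [smul_smul, neg_mul, inv_mul_cancel₀ ha0, neg_smul, one_smul]
    rw [SU.mul_apply, SU.mul_apply, hXx, hYx, map_add, map_smul, hXx, hXy, smul_add, e1]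
    abel
  · have e1 : a • x + a • (-a⁻¹) • y = a • x - y := by
      rw [smul_smul, mul_neg, mul_inv_cancel₀ ha0, neg_smul, one_smul, sub_eq_add_neg]
    rw [SU.mul_apply, SU.mul_apply, hXy, map_add, map_smul, hYy, hYx, smul_add, e1,
      add_sub_cancel, map_smul, hXx]
  · have hXz : X.1 z = z := by
      rw [h1, hz1, mul_zero, zero_smul, add_zero]
    have hYz : Y.1 z = z := by
      rw [h2, hz2, mul_zero, zero_smul, add_zero]
    rw [SU.mul_apply, SU.mul_apply, hXz, hYz, hXz]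

/-- For `a + star a = 0` let `X_a : z ↦ z + (a * h z x) • x` (in `rad h x`) and `Y_a : z ↦ z + (a * h z y) • y` (in `rad h y`), from
`exists_eichler_rad` with `v = 0`; they are in `EE h` and act trivially on `z` orthogonal to `x` and `y`. For `a ≠ 0` let
`W_a = X_a * Y_(-a⁻¹) * X_a`: `W_a x = (-a⁻¹) • y`, `W_a y = a • x` (`h x y = 1` too). With `κ ≠ 0`, `κ + star κ = 0` (`exists_skew`),
`a = -(c * κ)`, take `e = W_a * W_κ`: `x ↦ (-κ⁻¹ * a) • x = c • x`, `y ↦ (κ * (-a⁻¹)) • y = c⁻¹ • y`. -/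
theorem EE_torus_small (hF : IsUF F q) (h : Herm F V) {x y : V} (hx : h.f x x = 0)
    (hy : h.f y y = 0) (hyx : h.f y x = 1) {c : F} (hc : c ≠ 0) (hcs : star c = c) :
    ∃ e ∈ EE h, e.1 x = c • x ∧ e.1 y = c⁻¹ • y ∧ ∀ z, h.f z x = 0 → h.f z y = 0 → e.1 z = z := by
  obtain ⟨k, hk0, hk⟩ := exists_skew hF
  have hsk : star k = -k := eq_neg_of_add_eq_zero_right hk
  have ha : -(c * k) + star (-(c * k)) = 0 := by
    rw [star_neg, star_mul', hcs, hsk]
    ring
  have ha0 : -(c * k) ≠ 0 := neg_ne_zero.2 (mul_ne_zero hc hk0)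
  obtain ⟨e₁, he₁, h1, h2, h3⟩ := Y4_weyl h hx hy hyx hk0 hk
  obtain ⟨e₂, he₂, h4, h5, h6⟩ := Y4_weyl h hx hy hyx ha0 ha
  refine ⟨e₂ * e₁, Subgroup.mul_mem _ he₂ he₁, ?_, ?_, fun z hz1 hz2 => ?_⟩
  · rw [SU.mul_apply, h1, map_smul, h5, smul_smul]
    congr 1
    field_simp
  · rw [SU.mul_apply, h2, map_smul, h4, smul_smul]
    congr 1
    field_simp
  · rw [SU.mul_apply, h3 z hz1 hz2, h6 z hz1 hz2]

/-! ### Row psu-Y5 -/

omit [Finite F] in
/-- `t × 1` -/
theorem Y5_exists {V' : Type*} [AddCommGroup V'] [Module F V'] [FiniteDimensional F V']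
    {h : Herm F V} {h' : Herm F V'} (t : SU h) :
    ∃ t' : SU (h.prod h'), ∀ x y, t'.1 (x, y) = (t.1 x, y) := by
  set m : (V × V') ≃ₗ[F] (V × V') := LinearEquiv.prodCongr t.1 (LinearEquiv.refl F V') with hm
  have hmx : ∀ x y, m (x, y) = (t.1 x, y) := fun x y => rfl
  refine ⟨⟨m, ⟨?_, ?_⟩⟩, hmx⟩
  · rintro ⟨x, y⟩ ⟨x', y'⟩
    rw [hmx, hmx, Herm.prod_f, Herm.prod_f, SU.isom t x x']
  · apply Units.ext
    have hdet := congrArg Units.val t.2.2
    rw [LinearEquiv.coe_det, Units.val_one] at hdet ⊢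
    have h1 : ((m : (V × V') ≃ₗ[F] (V × V')) : (V × V') →ₗ[F] (V × V')) =
        LinearMap.prodMap (t.1 : V →ₗ[F] V) (LinearMap.id : V' →ₗ[F] V') := by
      refine LinearMap.ext fun v => ?_
      rfl
    rw [h1, LinearMap.det_prodMap, hdet, LinearMap.det_id, one_mul]

/-- Elements of `EE h` extend by the identity to elements of `EE (h.prod h')`: induction with `Subgroup.closure_induction` (for all `g'`);
the extension is unique and exists (`exists_prodSU` in file S is not imported here: build it, or use `LinearEquiv.prodCongr` and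
`LinearEquiv.det`, `LinearMap.det_prodMap` or the like, see the proof of `exists_prodSU` in S.lean, which you may copy). A generator
`g ∈ rad h x` extends to an element of `rad (h.prod h') (x, 0)`. -/
theorem EE_ext {V' : Type*} [AddCommGroup V'] [Module F V'] [FiniteDimensional F V'] {h : Herm F V}
    {h' : Herm F V'} {g : SU h} (hg : g ∈ EE h) (g' : SU (h.prod h'))
    (hgg : ∀ x y, g'.1 (x, y) = (g.1 x, y)) : g' ∈ EE (h.prod h') := by
  induction hg using Subgroup.closure_induction generalizing g' with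
  | mem g hg =>
    obtain ⟨x, hx0, hx, hgx⟩ := hg
    have hx0' : ((x, 0) : V × V') ≠ 0 := fun e => hx0 (congrArg Prod.fst e)
    have hx' : (h.prod h').f (x, 0) (x, 0) = 0 := by
      rw [Herm.prod_f, hx, h'.zero_left, add_zero]
    refine rad_le_EE (h.prod h') hx0' hx' ⟨?_, fun y hy => ?_⟩
    · rw [hgg, hgx.1]
    · obtain ⟨y1, y2⟩ := y
      have hy1 : h.f y1 x = 0 := by
        rw [Herm.prod_f, h'.zero_right, add_zero] at hy
        exact hy
      obtain ⟨c, hc⟩ := hgx.2 y1 hy1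
      refine ⟨c, ?_⟩
      rw [hgg, hc, Prod.smul_mk, Prod.mk_add_mk, smul_zero, add_zero]
  | one =>
    have : g' = 1 := SU.ext fun v => by
      obtain ⟨x, y⟩ := v
      rw [hgg]
      rfl
    rw [this]
    exact one_mem _
  | mul a b _ _ iha ihb =>
    obtain ⟨a', ha'⟩ := Y5_exists (h' := h') a
    obtain ⟨b', hb'⟩ := Y5_exists (h' := h') b
    have : g' = a' * b' := SU.ext fun v => by
      obtain ⟨x, y⟩ := v
      rw [hgg, SU.mul_apply, SU.mul_apply, hb', ha']
    rw [this]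
    exact mul_mem (iha a' ha') (ihb b' hb')
  | inv a _ iha =>
    obtain ⟨a', ha'⟩ := Y5_exists (h' := h') a
    have : g' = a'⁻¹ := by
      refine eq_inv_of_mul_eq_one_left (SU.ext fun v => ?_)
      obtain ⟨x, y⟩ := v
      rw [SU.mul_apply, ha', hgg, SU.inv_apply]
      rfl
    rw [this]
    exact inv_mem (iha a' ha')

/-! ### Row psu-Y6 -/

omit [Finite F] [FiniteDimensional F V] in
/-- the homomorphism `g' ↦ φ⁻¹ g' φ` -/
private theorem Y6_hom {V' : Type*} [AddCommGroup V'] [Module F V'] {h : Herm F V} {h' : Herm F V'}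
    (φ : V ≃ₗ[F] V') (hφ : ∀ x y, h'.f (φ x) (φ y) = h.f x y) :
    ∃ ψ : SU h' →* SU h, ∀ (g' : SU h') (x : V), (ψ g').1 x = φ.symm (g'.1 (φ x)) := by
  have hmem : ∀ g' : SU h', (φ.trans g'.1).trans φ.symm ∈ SU h := by
    intro g'
    refine ⟨fun x y => ?_, ?_⟩
    · change h.f (φ.symm (g'.1 (φ x))) (φ.symm (g'.1 (φ y))) = _
      rw [← hφ, LinearEquiv.apply_symm_apply, LinearEquiv.apply_symm_apply, SU.isom, hφ]
    · apply Units.ext
      have hdet := congrArg Units.val (SU.det g')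
      rw [LinearEquiv.coe_det, Units.val_one] at hdet ⊢
      have h1 : (((φ.trans g'.1).trans φ.symm : V ≃ₗ[F] V) : V →ₗ[F] V) = (φ.symm : V' →ₗ[F] V) ∘ₗ
          (g'.1 : V' →ₗ[F] V') ∘ₗ (φ.symm.symm : V →ₗ[F] V') := by
        refine LinearMap.ext fun v => ?_
        rfl
      rw [h1, LinearMap.det_conj, hdet]
  refine ⟨{ toFun := fun g' => ⟨(φ.trans g'.1).trans φ.symm, hmem g'⟩
            map_one' := SU.ext fun x => φ.symm_apply_apply x
            map_mul' := fun a b => SU.ext fun x => ?_ }, fun g' x => rfl⟩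
  change φ.symm ((a * b).1 (φ x)) = φ.symm (a.1 (φ (φ.symm (b.1 (φ x)))))
  rw [LinearEquiv.apply_symm_apply]
  rfl

/-- An isometry `φ` transports: `Subgroup.closure_induction` on the element `φ g φ⁻¹` of `EE h'`, for all `g`. -/
theorem EE_transport {V' : Type*} [AddCommGroup V'] [Module F V'] [FiniteDimensional F V']
    {h : Herm F V} {h' : Herm F V'} (φ : V ≃ₗ[F] V') (hφ : ∀ x y, h'.f (φ x) (φ y) = h.f x y)
    {g' : SU h'} (hg : g' ∈ EE h') (g : SU h) (hgg : ∀ x, φ (g.1 x) = g'.1 (φ x)) : g ∈ EE h := by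
  obtain ⟨ψ, hψ⟩ := Y6_hom φ hφ
  have h1 : EE h' ≤ (EE h).comap ψ := by
    unfold EE
    rw [Subgroup.closure_le]
    rintro r ⟨x, hx0, hx, hr⟩
    refine Subgroup.subset_closure ⟨φ.symm x, ?_, ?_, ?_⟩
    · intro h0
      exact hx0 (φ.symm.map_eq_zero_iff.1 h0)
    · rw [← hφ, LinearEquiv.apply_symm_apply, hx]
    · refine ⟨?_, fun y hy => ?_⟩
      · rw [hψ, LinearEquiv.apply_symm_apply, hr.1]
      · have h3 : h'.f (φ y) x = 0 := by
          rw [← hy, ← hφ, LinearEquiv.apply_symm_apply]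
        obtain ⟨c, hc⟩ := hr.2 (φ y) h3
        exact ⟨c, by rw [hψ, hc, map_add, map_smul, LinearEquiv.symm_apply_apply]⟩
  have h2 : ψ g' = g := SU.ext fun x => by
    rw [hψ, ← hgg, LinearEquiv.symm_apply_apply]
  rw [← h2]
  exact h1 hg

/-! ### Row psu-Y7 -/

omit [Finite F] [FiniteDimensional F V] in
private theorem Y7_snd {h : Herm F V} (g : SU (h.prod (hyp F))) (h1 : g.1 (0, (1, 0)) = (0, (1, 0)))
    (h2 : g.1 (0, (0, 1)) = (0, (0, 1))) (x : V) : (g.1 (x, 0)).2 = 0 := by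
  have e1 := SU.isom g (x, 0) (0, (1, 0))
  have e2 := SU.isom g (x, 0) (0, (0, 1))
  rw [h1, Herm.prod_f, Herm.prod_f, hyp_f, hyp_f] at e1
  rw [h2, Herm.prod_f, Herm.prod_f, hyp_f, hyp_f] at e2
  simp only [Herm.zero_right, star_one, star_zero, mul_one, mul_zero, add_zero, zero_add,
    Prod.snd_zero, Prod.fst_zero] at e1 e2
  exact Prod.ext e2 e1

omit [Finite F] [FiniteDimensional F V] in
private theorem Y7_plane {h : Herm F V} (g : SU (h.prod (hyp F))) (h1 : g.1 (0, (1, 0)) = (0, (1, 0)))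
    (h2 : g.1 (0, (0, 1)) = (0, (0, 1))) (y : F × F) : g.1 (0, y) = (0, y) := by
  have e : ((0, y) : V × (F × F)) = y.1 • (0, (1, 0)) + y.2 • (0, (0, 1)) := by
    ext <;> simp
  rw [e, map_add, map_smul, map_smul, h1, h2]

omit [Finite F] [FiniteDimensional F V] in
private theorem Y7_all {h : Herm F V} (g : SU (h.prod (hyp F))) (h1 : g.1 (0, (1, 0)) = (0, (1, 0)))
    (h2 : g.1 (0, (0, 1)) = (0, (0, 1))) (x : V) (y : F × F) :
    g.1 (x, y) = ((g.1 (x, 0)).1, y) := by
  have e : ((x, y) : V × (F × F)) = (x, 0) + (0, y) := by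
    rw [Prod.mk_add_mk, add_zero, zero_add]
  rw [e, map_add, Y7_plane g h1 h2]
  ext1
  · rw [Prod.fst_add, add_zero]
  · rw [Prod.snd_add, Y7_snd g h1 h2, zero_add]

/-- An element `g` of `SU (h.prod (hyp F))` fixing `(0, (1, 0))` and `(0, (0, 1))` is the extension of an element of `SU h`: it preserves
the orthogonal space `V × 0` of these two vectors; determinant of a product (`LinearMap.det_prodMap` or as in `exists_prodSU` of file S). -/
theorem exists_restr {h : Herm F V} (g : SU (h.prod (hyp F))) (h1 : g.1 (0, (1, 0)) = (0, (1, 0)))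
    (h2 : g.1 (0, (0, 1)) = (0, (0, 1))) : ∃ u : SU h, ∀ x y, g.1 (x, y) = (u.1 x, y) := by
  have h1' : (g⁻¹).1 (0, (1, 0)) = (0, (1, 0)) := by
    have := SU.inv_apply g (0, (1, 0))
    rwa [h1] at this
  have h2' : (g⁻¹).1 (0, (0, 1)) = (0, (0, 1)) := by
    have := SU.inv_apply g (0, (0, 1))
    rwa [h2] at this
  let u : V ≃ₗ[F] V :=
    { toFun := fun x => (g.1 (x, 0)).1
      map_add' := fun x y => by
        have e : ((x + y, 0) : V × (F × F)) = (x, 0) + (y, 0) := by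
          rw [Prod.mk_add_mk, add_zero]
        rw [e, map_add, Prod.fst_add]
      map_smul' := fun c x => by
        have e : ((c • x, 0) : V × (F × F)) = c • (x, 0) := by
          rw [Prod.smul_mk, smul_zero]
        rw [e, map_smul, Prod.smul_fst, RingHom.id_apply]
      invFun := fun x => ((g⁻¹).1 (x, 0)).1
      left_inv := fun x => by
        have e : (((g.1 (x, 0)).1, 0) : V × (F × F)) = g.1 (x, 0) := (Y7_all g h1 h2 x 0).symm
        change ((g⁻¹).1 ((g.1 (x, 0)).1, 0)).1 = x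
        rw [e, SU.inv_apply]
      right_inv := fun x => by
        have e : ((((g⁻¹).1 (x, 0)).1, 0) : V × (F × F)) = (g⁻¹).1 (x, 0) :=
          (Y7_all (g⁻¹) h1' h2' x 0).symm
        change (g.1 (((g⁻¹).1 (x, 0)).1, 0)).1 = x
        rw [e, SU.apply_inv] }
  have hu : ∀ x, u x = (g.1 (x, 0)).1 := fun x => rfl
  have hux : ∀ x y, g.1 (x, y) = (u x, y) := fun x y => Y7_all g h1 h2 x y
  refine ⟨⟨u, ⟨fun x y => ?_, ?_⟩⟩, hux⟩
  · have e := SU.isom g (x, 0) (y, 0)
    rw [hux, hux, Herm.prod_f, Herm.prod_f] at e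
    exact add_right_cancel e
  · apply Units.ext
    have hdet := congrArg Units.val (SU.det g)
    rw [LinearEquiv.coe_det, Units.val_one] at hdet ⊢
    have e : ((g.1 : (V × (F × F)) ≃ₗ[F] (V × (F × F))) : (V × (F × F)) →ₗ[F] (V × (F × F))) =
        LinearMap.prodMap (u : V →ₗ[F] V) (LinearMap.id : (F × F) →ₗ[F] (F × F)) := by
      refine LinearMap.ext fun v => ?_
      exact hux v.1 v.2
    rw [e, LinearMap.det_prodMap, LinearMap.det_id, mul_one] at hdet
    exact hdet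

/-! ### Row psu-Y8 -/

/-- If `g` maps `(0, (1, 0))` to `c • (0, (1, 0))` and `(0, (0, 1))` to `(star c)⁻¹ • (0, (0, 1))` and `V = 0` (that is `finrank F V = 0`)
then `star c = c`: the determinant of `g` on the plane is `c * (star c)⁻¹ = 1` (for example `LinearMap.det` in the basis, or
compose with the isomorphism `V × (F × F) ≃ F × F` and use `LinearMap.det_prodMap`-like lemmas). -/
theorem star_eq_of_zero {h : Herm F V} (hV : finrank F V = 0) (g : SU (h.prod (hyp F))) {c : F} (hc : c ≠ 0)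
    (h1 : g.1 (0, (1, 0)) = c • (0, (1, 0))) (h2 : g.1 (0, (0, 1)) = (star c)⁻¹ • (0, (0, 1))) :
    star c = c := by
  have hsub : Subsingleton V := finrank_zero_iff.1 hV
  have hbij : Function.Bijective (LinearMap.inr F V (F × F)) := by
    refine ⟨LinearMap.inr_injective, fun x => ⟨x.2, ?_⟩⟩
    exact Prod.ext (Subsingleton.elim _ _) rfl
  set b : Basis (Fin 2) F (V × (F × F)) :=
    (Basis.finTwoProd F).map (LinearEquiv.ofBijective (LinearMap.inr F V (F × F)) hbij) with hb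
  have hb0 : b 0 = (0, (1, 0)) := by
    rw [hb, Basis.map_apply, Basis.finTwoProd_zero]
    rfl
  have hb1 : b 1 = (0, (0, 1)) := by
    rw [hb, Basis.map_apply, Basis.finTwoProd_one]
    rfl
  have h3 : LinearMap.det (g.1 : (V × (F × F)) →ₗ[F] (V × (F × F))) = 1 := by
    rw [← LinearEquiv.coe_det, SU.det, Units.val_one]
  have h4 : g.1 (b 0) = c • b 0 := by rw [hb0]; exact h1
  have h5 : g.1 (b 1) = (star c)⁻¹ • b 1 := by rw [hb1]; exact h2
  rw [← LinearMap.det_toMatrix b, Matrix.det_fin_two] at h3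
  simp only [LinearMap.toMatrix_apply, LinearEquiv.coe_coe, h4, h5, map_smul, Finsupp.smul_apply, Basis.repr_self,
    Finsupp.single_apply, smul_eq_mul] at h3
  simp only [if_true, zero_ne_one, one_ne_zero, if_false, mul_one, mul_zero, sub_zero] at h3
  have hs : star c ≠ 0 := star_ne_zero.2 hc
  field_simp at h3
  exact h3.symm

/-! ### Row psu-Y9 -/

/-- Put `x = (0, (1, 0))`, `y = (0, (0, 1))`, isotropic, `h y x = 1`. For `g` choose `e₁ ∈ EE` with `e₁ (g x) = c • x` (`EE_trans`), then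
`e₂ ∈ rad _ x` with `e₂ (star c • e₁ (g y)) = y` (`exists_rad_move`; `h (e₁ (g y)) (c • x) = h y x = 1`), so
`e₂ e₁ g` maps `x ↦ c • x`, `y ↦ (star c)⁻¹ • y`. Next `e₃ ∈ EE` with `e₃ x = c⁻¹ • x`, `e₃ y = star c • y`: if `finrank F V ≠ 0` take an
`u : V` with `h u u ≠ 0` (for example from `exists_orthonormal`) and `EE_torus_big`; if `finrank F V = 0` then `star c = c` by
`star_eq_of_zero`, and `EE_torus_small`. Then `exists_restr`, `hU` and `EE_ext`. -/
theorem EE_step (hF : IsUF F q) {h : Herm F V} (hU : ∀ g : SU h, g ∈ EE h)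
    (g : SU (h.prod (hyp F))) : g ∈ EE (h.prod (hyp F)) := by
  revert g
  set H : Herm F (V × (F × F)) := h.prod (hyp F) with hH
  intro g
  set x : V × (F × F) := (0, (1, 0)) with hxd
  set y : V × (F × F) := (0, (0, 1)) with hyd
  have hx : H.f x x = 0 := by
    rw [hH, Herm.prod_f, hyp_f, hxd]
    simp [h.zero_left]
  have hy : H.f y y = 0 := by
    rw [hH, Herm.prod_f, hyp_f, hyd]
    simp [h.zero_left]
  have hyx : H.f y x = 1 := by
    rw [hH, Herm.prod_f, hyp_f, hyd, hxd]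
    simp [h.zero_left]
  have hx0 : x ≠ 0 := by
    intro h1
    have h2 := congrArg (fun z : V × (F × F) => z.2.1) h1
    simp [hxd] at h2
  obtain ⟨e₁, he₁, c, hc, hc1⟩ := EE_trans hF H (x := g.1 x) (y := x)
    (fun h1 => hx0 (g.1.map_eq_zero_iff.1 h1)) (by rw [SU.isom, hx]) hx0 hx
  have hsc : star c ≠ 0 := fun h1 => hc (star_eq_zero.1 h1)
  have hy1 : H.f (star c • e₁.1 (g.1 y)) x = 1 := by
    rw [H.smul_left, ← H.smul_right, ← hc1, SU.isom, SU.isom, hyx]
  have hy2 : H.f (star c • e₁.1 (g.1 y)) (star c • e₁.1 (g.1 y)) = 0 := by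
    rw [H.smul_left, H.smul_right, SU.isom, SU.isom, hy, mul_zero, mul_zero]
  obtain ⟨e₂, he₂, he₂y⟩ := exists_rad_move H hx hy2 hy hy1 hyx
  have he₂x : e₂.1 x = x := he₂.1
  have hg1x : (e₂ * e₁ * g).1 x = c • x := by
    rw [SU.mul_apply, SU.mul_apply, hc1, map_smul, he₂x]
  have hg1y : (e₂ * e₁ * g).1 y = (star c)⁻¹ • y := by
    rw [SU.mul_apply, SU.mul_apply, eq_inv_smul_iff₀ hsc, ← map_smul, he₂y]
  have h3 : ∃ e₃ ∈ EE H, e₃.1 x = c⁻¹ • x ∧ e₃.1 y = star c • y := by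
    by_cases hV : finrank F V = 0
    · have hcs : star c = c := star_eq_of_zero hV (e₂ * e₁ * g) hc hg1x hg1y
      obtain ⟨e₃, he₃, h4, h5, -⟩ := EE_torus_small hF H hx hy hyx (inv_ne_zero hc)
        (by rw [star_inv₀, hcs])
      exact ⟨e₃, he₃, h4, by rw [h5, inv_inv, hcs]⟩
    · obtain ⟨b, hb⟩ := exists_orthonormal hF h
      have hu := hb ⟨0, Nat.pos_of_ne_zero hV⟩ ⟨0, Nat.pos_of_ne_zero hV⟩
      rw [if_pos rfl] at hu
      set u := b ⟨0, Nat.pos_of_ne_zero hV⟩
      obtain ⟨e₃, he₃, h4, h5⟩ := EE_torus_big hF H (u := (u, (0, 0))) hx hy hyx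
        (by rw [hH, Herm.prod_f, hyp_f, hxd]; simp [h.zero_right])
        (by rw [hH, Herm.prod_f, hyp_f, hyd]; simp [h.zero_right])
        (by rw [hH, Herm.prod_f, hyp_f]; simp [hu]) (inv_ne_zero hc)
      exact ⟨e₃, he₃, h4, by rw [h5, star_inv₀, inv_inv]⟩
  obtain ⟨e₃, he₃, he₃x, he₃y⟩ := h3
  obtain ⟨u, hu⟩ := exists_restr (e₃ * (e₂ * e₁ * g))
    (by
      change (e₃ * (e₂ * e₁ * g)).1 x = x
      rw [SU.mul_apply, hg1x, map_smul, he₃x, smul_smul, mul_inv_cancel₀ hc, one_smul])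
    (by
      change (e₃ * (e₂ * e₁ * g)).1 y = y
      rw [SU.mul_apply, hg1y, map_smul, he₃y, smul_smul, inv_mul_cancel₀ hsc, one_smul])
  have h6 : e₃ * (e₂ * e₁ * g) ∈ EE H := EE_ext (hU u) _ hu
  have h7 : g = (e₃ * e₂ * e₁)⁻¹ * (e₃ * (e₂ * e₁ * g)) := by group
  rw [h7]
  exact (EE H).mul_mem ((EE H).inv_mem ((EE H).mul_mem ((EE H).mul_mem he₃
    (rad_le_EE H hx0 hx he₂)) he₁)) h6

/-! ### Row psu-Y10 -/

omit [FiniteDimensional F V] [Finite F] in
theorem Y10_tr {V' : Type*} [AddCommGroup V'] [Module F V'] {h : Herm F V} {h' : Herm F V'}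
    (φ : V ≃ₗ[F] V') (hφ : ∀ x y, h'.f (φ x) (φ y) = h.f x y) (g : SU h) :
    ∃ g' : SU h', ∀ x, φ (g.1 x) = g'.1 (φ x) := by
  refine ⟨⟨(φ.symm.trans g.1).trans φ, fun x y => ?_, ?_⟩, fun x => ?_⟩
  · show h'.f (φ (g.1 (φ.symm x))) (φ (g.1 (φ.symm y))) = h'.f x y
    rw [hφ, SU.isom, ← hφ, φ.apply_symm_apply, φ.apply_symm_apply]
  · rw [LinearEquiv.det_conj]
    exact SU.det g
  · show φ (g.1 x) = φ (g.1 (φ.symm (φ x)))
    rw [φ.symm_apply_apply]

omit [Finite F] in
theorem Y10_small {h : Herm F V} (hn : finrank F V ≤ 1) (g : SU h) : g = 1 := by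
  apply SU.ext
  intro x
  rw [SU.one_apply]
  by_cases hx : x = 0
  · rw [hx, map_zero]
  · have h1 : finrank F V = 1 := by
      refine le_antisymm hn (Nat.one_le_iff_ne_zero.2 fun h0 => hx ?_)
      have := finrank_zero_iff.1 h0
      exact Subsingleton.elim _ _
    obtain ⟨c, hc⟩ := (finrank_eq_one_iff_of_nonzero' x hx).1 h1 (g.1 x)
    have h2 : (g.1 : V →ₗ[F] V) = c • LinearMap.id := by
      apply LinearMap.ext
      intro z
      obtain ⟨d, rfl⟩ := (finrank_eq_one_iff_of_nonzero' x hx).1 h1 z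
      show g.1 (d • x) = c • (d • x)
      rw [map_smul, ← hc, smul_comm]
    have h4 : LinearMap.det (g.1 : V →ₗ[F] V) = 1 := by
      rw [← LinearEquiv.coe_det, SU.det g, Units.val_one]
    rw [h2, LinearMap.det_smul, h1, pow_one, LinearMap.det_id, mul_one] at h4
    rw [← hc, h4, one_smul]

theorem Y10_iso {V' : Type*} [AddCommGroup V'] [Module F V'] [FiniteDimensional F V']
    (hF : IsUF F q) (h : Herm F V) (h' : Herm F V') (e : finrank F V = finrank F V')
    (hh : ∀ g : SU h', g ∈ EE h') (g : SU h) : g ∈ EE h := by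
  obtain ⟨φ, hφ⟩ := exists_isometry hF h h' e
  obtain ⟨g', hg'⟩ := Y10_tr φ hφ g
  exact EE_transport φ hφ (hh g') g hg'

theorem Y10_std (hF : IsUF F q) (n : ℕ) : ∀ g : SU (G7_form F n), g ∈ EE (G7_form F n) := by
  induction n using Nat.twoStepInduction with
  | zero =>
    intro g
    rw [Y10_small (by rw [finrank_fin_fun]; exact zero_le_one) g]
    exact Subgroup.one_mem _
  | one =>
    intro g
    rw [Y10_small (by rw [finrank_fin_fun]) g]
    exact Subgroup.one_mem _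
  | more n ih _ =>
    refine Y10_iso hF (G7_form F (n + 2)) ((G7_form F n).prod (hyp F)) ?_ (EE_step hF ih)
    rw [finrank_fin_fun, finrank_prod, finrank_prod, finrank_fin_fun, finrank_self]

/-- Induction `n → n + 2`: `∀ n, ∀ h : Herm F (Fin n → F), ∀ g : SU h, g ∈ EE h`. For `n = 0` the group is trivial; for `n = 1` as well (an
endomorphism of a one-dimensional space with determinant `1` is the identity). Step: `exists_isometry` of `h` with
`(G7_form F n).prod (hyp F)`, `EE_step`, `EE_transport`. Finally `exists_isometry` between `V` and `Fin (finrank F V) → F` (with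
`G7_form`). -/
theorem EE_eq_top (hF : IsUF F q) (h : Herm F V) : EE h = ⊤ := by
  rw [eq_top_iff]
  intro g _
  exact Y10_iso hF h (G7_form F (finrank F V)) (by rw [finrank_fin_fun])
    (Y10_std hF (finrank F V)) g

/-! ### Row psu-Y11 -/

/-- Every element of `rad h x₀` is an Eichler transformation. Let `w` be isotropic with `h w x₀ = 1`, `v = g w - w`, `a = h w v`. Then
`h v x₀ = 0`, `a + star a + h v v = 0` (see `exists_move`). Let `T ∈ rad h x₀` be the transformation from `exists_eichler_rad`; `T w = g w`.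
`T⁻¹ * g` is in `rad h x₀`, fixes `x₀` and `w`; for `y` with `h y x₀ = 0` it maps `y` to `y + c • x₀`, and taking the product with `w`
gives `c = 0`. Every vector is `(h z x₀) • w + y` with `h y x₀ = 0`. So `T = g`. -/
theorem rad_form (h : Herm F V) {x₀ w : V} (hx : h.f x₀ x₀ = 0) (hw : h.f w w = 0)
    (hwx : h.f w x₀ = 1) {g : SU h} (hg : g ∈ rad h x₀) :
    ∃ (v : V) (a : F), h.f v x₀ = 0 ∧ h.f v w = star a ∧ a + star a + h.f v v = 0 ∧ g.1 w = w + v ∧
      ∀ x, g.1 x = x + h.f x x₀ • v - h.f x v • x₀ + (a * h.f x x₀) • x₀ := by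
  obtain ⟨g1, g2⟩ := hg
  have hv0 : h.f (g.1 w - w) x₀ = 0 := by
    have h1 := SU.isom g w x₀
    rw [g1, hwx] at h1
    rw [h.sub_left, h1, hwx, sub_self]
  have hv0' : h.f x₀ (g.1 w - w) = 0 := by
    rw [h.symm (g.1 w - w) x₀, hv0, star_zero]
  have hxw : h.f x₀ w = 1 := by
    rw [h.symm w x₀, hwx, star_one]
  have hgw : g.1 w = w + (g.1 w - w) := by rw [add_sub_cancel]
  refine ⟨g.1 w - w, h.f w (g.1 w - w), hv0, h.symm _ _, ?_, hgw, ?_⟩
  · rw [← h.symm w (g.1 w - w)]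
    simp only [h.sub_left, h.sub_right, SU.isom, hw]
    ring
  · intro x
    have hy : h.f (x - h.f x x₀ • w) x₀ = 0 := by
      rw [h.sub_left, h.smul_left, hwx, mul_one, sub_self]
    obtain ⟨c, hc⟩ := g2 _ hy
    have h3 := SU.isom g (x - h.f x x₀ • w) w
    rw [hc, hgw, h.add_right, h.add_left, h.add_left, h.smul_left, h.smul_left, hxw, hv0', mul_one,
      mul_zero, add_zero] at h3
    have h4 : c = h.f w (g.1 w - w) * h.f x x₀ - h.f x (g.1 w - w) := by
      have h5 : c + h.f (x - h.f x x₀ • w) (g.1 w - w) = 0 := by linear_combination h3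
      rw [h.sub_left, h.smul_left] at h5
      linear_combination h5
    have h6 : g.1 x = h.f x x₀ • g.1 w + g.1 (x - h.f x x₀ • w) := by
      rw [← map_smul, ← map_add, add_sub_cancel]
    rw [h6, hc, h4]
    module

/-- two elements of `rad h x₀` with the same value at `w` are equal (the argument in `rad_form`). -/
theorem rad_ext (h : Herm F V) {x₀ w : V} (hx : h.f x₀ x₀ = 0) (hw : h.f w w = 0)
    (hwx : h.f w x₀ = 1) {g g' : SU h} (hg : g ∈ rad h x₀) (hg' : g' ∈ rad h x₀)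
    (hgg : g.1 w = g'.1 w) : g = g' := by
  obtain ⟨v, a, _, h2, _, h4, h5⟩ := rad_form h hx hw hwx hg
  obtain ⟨v', a', _, h2', _, h4', h5'⟩ := rad_form h hx hw hwx hg'
  rw [h4, h4'] at hgg
  have hv : v = v' := add_left_cancel hgg
  subst hv
  have ha : a = a' := by
    rw [h2] at h2'
    exact star_injective h2'
  subst ha
  exact SU.ext fun x => by rw [h5, h5']

/-! ### Row psu-Y12 -/

theorem Y12_exists (hF : IsUF F q) (h : Herm F V) (hn : 3 ≤ finrank F V) {x₀ w : V}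
    (hx : h.f x₀ x₀ = 0) (hw : h.f w w = 0) (hwx : h.f w x₀ = 1) :
    ∃ u : V, h.f u x₀ = 0 ∧ h.f u w = 0 ∧ h.f u u ≠ 0 := by
  by_contra hcon
  push Not at hcon
  have hxw : h.f x₀ w = 1 := by
    rw [h.symm w x₀, hwx, star_one]
  -- the projection
  have hp1 : ∀ z, h.f (z - h.f z x₀ • w - h.f z w • x₀) x₀ = 0 := by
    intro z
    rw [h.sub_left, h.sub_left, h.smul_left, h.smul_left, hx, hwx]
    ring
  have hp2 : ∀ z, h.f (z - h.f z x₀ • w - h.f z w • x₀) w = 0 := by
    intro z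
    rw [h.sub_left, h.sub_left, h.smul_left, h.smul_left, hw, hxw]
    ring
  have hzero : ∀ u u' : V, h.f u x₀ = 0 → h.f u w = 0 → h.f u' x₀ = 0 → h.f u' w = 0 →
      h.f u u' = 0 := by
    intro u u' h1 h2 h3 h4
    refine eq_zero_of_trace hF fun c => ?_
    have h5 := hcon (c • u + u') (by rw [h.add_left, h.smul_left, h1, h3, mul_zero, add_zero])
      (by rw [h.add_left, h.smul_left, h2, h4, mul_zero, add_zero])
    rw [h.add_left, h.add_right, h.add_right, h.smul_left, h.smul_right, h.smul_left,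
      h.smul_right, hcon u h1 h2, hcon u' h3 h4, h.symm u u'] at h5
    rw [star_mul']
    linear_combination h5
  have hall : ∀ z, z - h.f z x₀ • w - h.f z w • x₀ = 0 := by
    intro z
    refine h.nondeg _ fun y => ?_
    have h1 : y = (y - h.f y x₀ • w - h.f y w • x₀) + (h.f y x₀ • w + h.f y w • x₀) := by abel
    rw [h1, h.add_right, h.add_right, h.smul_right, h.smul_right, hp1, hp2,
      hzero _ _ (hp1 z) (hp2 z) (hp1 y) (hp2 y)]
    ring
  have hspan : (⊤ : Submodule F V) ≤ Submodule.span F (Set.range ![w, x₀]) := by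
    intro z _
    have h1 : z = h.f z x₀ • w + h.f z w • x₀ := by
      have h2 := hall z
      rw [sub_sub, sub_eq_zero] at h2
      exact h2
    rw [h1]
    exact Submodule.add_mem _
      (Submodule.smul_mem _ _ (Submodule.subset_span ⟨0, rfl⟩))
      (Submodule.smul_mem _ _ (Submodule.subset_span ⟨1, rfl⟩))
  have h2 := Submodule.finrank_mono hspan
  rw [finrank_top] at h2
  have h3 := finrank_range_le_card (R := F) ![w, x₀]
  rw [Set.finrank, Fintype.card_fin] at h3
  omega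

/-- The elements of `rad h x₀` of the form `z ↦ z + (a * h z x₀) • x₀`, `a + star a = 0`, are commutators. Choose `w` isotropic with
`h w x₀ = 1` (`exists_one`, `G3_exists_iso`) and `u` with `h u x₀ = 0`, `h u w = 0`, `h u u ≠ 0` (`finrank F V ≥ 3`: an orthogonal
space of a nondegenerate plane is not zero and nondegenerate; if all its vectors were isotropic then by `h (x + c y) (x + c y)` and
`eq_zero_of_trace` it would be in its own radical). For `v₁ = l • u`, `v₂ = u` and suitable `a₁, a₂` (`exists_trace`) the commutator of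
`E (v₁, a₁)` and `E (v₂, a₂)` (from `exists_eichler_rad`) is in `rad h x₀` and maps `w` to `w ± (h v₁ v₂ - h v₂ v₁) • x₀`
`= w ± ((l - star l) * h u u) • x₀`. Every skew `a` is `(l - star l) * h u u` for some `l`: take `κ` skew, `l = m * κ`, then
`l - star l = κ * (m + star m)`, `exists_trace`. To avoid the inverse: `E (v₁, a₁) * E (v₂, a₂) = Z * (E (v₂, a₂) * E (v₁, a₁))` with
`Z` the given element, checked at `w` with `rad_ext`. -/
theorem center_comm (hF : IsUF F q) (h : Herm F V) (hn : 3 ≤ finrank F V) {x₀ : V} (h0 : x₀ ≠ 0)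
    (hx : h.f x₀ x₀ = 0) {a : F} (ha : a + star a = 0) {g : SU h}
    (hg : ∀ z, g.1 z = z + (a * h.f z x₀) • x₀) : g ∈ commutator (SU h) := by
  obtain ⟨w', hw'⟩ := exists_one h h0
  obtain ⟨b, hb⟩ := G3_exists_iso hF h hx hw'
  obtain ⟨w, hw, hwx⟩ : ∃ w : V, h.f w w = 0 ∧ h.f w x₀ = 1 :=
    ⟨w' + b • x₀, hb, by rw [h.add_left, h.smul_left, hx, mul_zero, add_zero, hw']⟩
  obtain ⟨u, hux, huw, huu⟩ := Y12_exists hF h hn hx hw hwx
  obtain ⟨κ, hκ, hκ'⟩ := exists_skew hF
  have hsκ : star κ = -κ := by linear_combination hκ'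
  have hsa : star a = -a := by linear_combination ha
  have hsu : star (h.f u u) = h.f u u := h.self_star u
  obtain ⟨m, hm⟩ := exists_trace hF (a := a * (κ * h.f u u)⁻¹) (by
    rw [star_mul', star_inv₀, star_mul', hsκ, hsa, hsu, neg_mul κ, inv_neg, neg_mul_neg])
  have hl : (m * κ - star (m * κ)) * h.f u u = a := by
    rw [star_mul', hsκ]
    have h1 : (m * κ - star m * -κ) * h.f u u = (m + star m) * (κ * h.f u u) := by ring
    rw [h1, hm, inv_mul_cancel_right₀ (mul_ne_zero hκ huu)]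
  set l := m * κ with hldef
  obtain ⟨a₁, ha₁⟩ := exists_trace hF (a := -h.f (l • u) (l • u))
    (by rw [star_neg, h.self_star])
  obtain ⟨a₂, ha₂⟩ := exists_trace hF (a := -h.f u u) (by rw [star_neg, h.self_star])
  obtain ⟨E₁, hE₁, hE₁'⟩ := exists_eichler_rad h (v := l • u) (a := a₁) hx
    (by rw [h.smul_left, hux, mul_zero]) (by rw [ha₁, neg_add_cancel])
  obtain ⟨E₂, hE₂, hE₂'⟩ := exists_eichler_rad h (v := u) (a := a₂) hx hux
    (by rw [ha₂, neg_add_cancel])
  have hwu : h.f w u = 0 := by rw [h.symm u w, huw, star_zero]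
  have hx₀u : h.f x₀ u = 0 := by rw [h.symm u x₀, hux, star_zero]
  have hgr : g ∈ rad h x₀ := by
    refine ⟨by rw [hg, hx, mul_zero, zero_smul, add_zero], fun y hy => ⟨0, ?_⟩⟩
    rw [hg, hy, mul_zero]
  have e1 : E₁.1 x₀ = x₀ := hE₁.1
  have e2 : E₂.1 x₀ = x₀ := hE₂.1
  have e3 : E₁.1 w = w + l • u + a₁ • x₀ := by
    rw [hE₁', hwx, h.smul_right, hwu, mul_zero, zero_smul, sub_zero, one_smul, mul_one]
  have e4 : E₂.1 w = w + u + a₂ • x₀ := by
    rw [hE₂', hwx, hwu, zero_smul, sub_zero, one_smul, mul_one]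
  have e5 : E₁.1 u = u - (star l * h.f u u) • x₀ := by
    rw [hE₁', hux, h.smul_right, zero_smul, mul_zero, zero_smul, add_zero, add_zero]
  have e6 : E₂.1 u = u - h.f u u • x₀ := by
    rw [hE₂', hux, zero_smul, mul_zero, zero_smul, add_zero, add_zero]
  have key : E₁ * E₂ = g * (E₂ * E₁) := by
    refine rad_ext h hx hw hwx (mul_mem hE₁ hE₂) (mul_mem hgr (mul_mem hE₂ hE₁)) ?_
    rw [SU.mul_apply, SU.mul_apply, SU.mul_apply, e4, e3]
    have e7 : E₂.1 (w + l • u + a₁ • x₀) = w + u + a₂ • x₀ + l • (u - h.f u u • x₀) + a₁ • x₀ := by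
      rw [map_add, map_add, map_smul, map_smul, e2, e4, e6]
    have e8 : h.f (w + u + a₂ • x₀ + l • (u - h.f u u • x₀) + a₁ • x₀) x₀ = 1 := by
      rw [h.add_left, h.add_left, h.add_left, h.add_left, h.smul_left, h.smul_left, h.smul_left,
        h.sub_left, h.smul_left, hx, hux, hwx]
      ring
    rw [e7, hg, e8, map_add, map_add, map_smul, e1, e3, e5, ← hl]
    module
  have hcomm : g = E₁ * E₂ * E₁⁻¹ * E₂⁻¹ := by
    have h1 : g = E₁ * E₂ * (E₂ * E₁)⁻¹ := by
      rw [key, mul_inv_cancel_right]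
    rw [h1, mul_inv_rev, ← mul_assoc]
  have h2 := Subgroup.commutator_mem_commutator (Subgroup.mem_top E₁) (Subgroup.mem_top E₂)
  rw [commutatorElement_def, ← hcomm] at h2
  rw [commutator_def]
  exact h2

/-! ### Row psu-Y13 -/

theorem Y13_fix (hF : IsUF F q) : ∃ c : F, star c = c ∧ c ≠ 0 ∧ c ≠ 1 := by
  classical
  have h1 := card_skew hF
  have h3 := hF.three_le
  have hfin : Finite {a : F // a + star a = 0} := inferInstance
  have := Fintype.ofFinite {a : F // a + star a = 0}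
  rw [Nat.card_eq_fintype_card] at h1
  obtain ⟨κ, hκ0, hκ⟩ := exists_skew hF
  have h4 : ∃ a : {a : F // a + star a = 0},
      a ∉ ({⟨0, by rw [star_zero, add_zero]⟩, ⟨κ, hκ⟩} : Finset {a : F // a + star a = 0}) := by
    by_contra hcon
    push Not at hcon
    have h5 : Fintype.card {a : F // a + star a = 0} ≤ 2 := by
      rw [← Finset.card_univ]
      refine (Finset.card_le_card fun a _ => hcon a).trans ?_
      exact Finset.card_le_two
    omega
  obtain ⟨⟨μ, hμ⟩, hne⟩ := h4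
  rw [Finset.mem_insert, Finset.mem_singleton, not_or] at hne
  have hμ0 : μ ≠ 0 := fun h => hne.1 (Subtype.ext h)
  have hμκ : μ ≠ κ := fun h => hne.2 (Subtype.ext h)
  refine ⟨μ * κ⁻¹, ?_, mul_ne_zero hμ0 (inv_ne_zero hκ0), ?_⟩
  · have e1 : star μ = -μ := by linear_combination hμ
    have e2 : star κ = -κ := by linear_combination hκ
    rw [star_mul', star_inv₀, e1, e2, inv_neg, neg_mul_neg]
  · intro h
    apply hμκ
    have h5 : μ * κ⁻¹ * κ = 1 * κ := by rw [h]
    rwa [inv_mul_cancel_right₀ hκ0, one_mul] at h5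

theorem Y13_rad (hF : IsUF F q) (h : Herm F V) (hn : 3 ≤ finrank F V) {x₀ w : V} (h0 : x₀ ≠ 0)
    (hx : h.f x₀ x₀ = 0) (hw : h.f w w = 0) (hwx : h.f w x₀ = 1) :
    rad h x₀ ≤ commutator (SU h) := by
  intro g hg
  have hxw : h.f x₀ w = 1 := by rw [h.symm w x₀, hwx, star_one]
  obtain ⟨v, a, hvx, hvw, -, hgw, -⟩ := rad_form h hx hw hwx hg
  obtain ⟨c, hcs, hc0, hc1⟩ := Y13_fix hF
  obtain ⟨t, -, htx, htw, htz⟩ := EE_torus_small hF h hx hw hwx hc0 hcs
  obtain ⟨v₀, hv₀⟩ : ∃ v₀ : V, v₀ = v - h.f v w • x₀ := ⟨_, rfl⟩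
  have hv₀x : h.f v₀ x₀ = 0 := by rw [hv₀, h.sub_left, h.smul_left, hx, hvx]; ring
  have hv₀w : h.f v₀ w = 0 := by rw [hv₀, h.sub_left, h.smul_left, hxw]; ring
  have hcc : c - 1 ≠ 0 := sub_ne_zero.2 hc1
  obtain ⟨v', hv'⟩ : ∃ v' : V, v' = (c - 1)⁻¹ • v₀ := ⟨_, rfl⟩
  have hv'x : h.f v' x₀ = 0 := by rw [hv', h.smul_left, hv₀x, mul_zero]
  have hv'w : h.f v' w = 0 := by rw [hv', h.smul_left, hv₀w, mul_zero]
  have hwv' : h.f w v' = 0 := by rw [h.symm v' w, hv'w, star_zero]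
  obtain ⟨a', ha'⟩ := exists_trace hF (a := -h.f v' v') (by rw [star_neg, h.self_star])
  obtain ⟨E, hE, hEx⟩ := exists_eichler_rad h (x₀ := x₀) (v := v') (a := a') hx hv'x
    (by rw [ha', neg_add_cancel])
  have hEw : E.1 w = w + v' + a' • x₀ := by
    rw [hEx, hwx, hwv', one_smul, zero_smul, sub_zero, mul_one]
  have ht : t ∈ stab h x₀ := ⟨c, hc0, htx⟩
  have hE₂ : t * E * t⁻¹ ∈ rad h x₀ := by
    have h1 := rad_conj h t⁻¹ ((stab h x₀).inv_mem ht) E hE
    rwa [inv_inv] at h1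
  have hE₂w : (t * E * t⁻¹).1 w = w + c • v' + (c * (a' * c)) • x₀ := by
    have h1 : (t⁻¹).1 w = c • w := by
      have h2 := SU.inv_apply t w
      rw [htw, map_smul] at h2
      have h3 := congrArg (fun z => c • z) h2
      simpa only [smul_smul, mul_inv_cancel₀ hc0, one_smul] using h3
    rw [SU.mul_apply, SU.mul_apply, h1, map_smul, hEw, map_smul, map_add, map_add, htw,
      htz v' hv'x hv'w, map_smul, htx, smul_add, smul_add, smul_smul, smul_smul, smul_smul,
      mul_inv_cancel₀ hc0, one_smul]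
    congr 2
    ring
  obtain ⟨K, hK⟩ : ∃ K : SU h, K = t * E * t⁻¹ * E⁻¹ := ⟨_, rfl⟩
  have hKr : K ∈ rad h x₀ := by
    rw [hK]
    exact (rad h x₀).mul_mem hE₂ ((rad h x₀).inv_mem hE)
  have hKc : K ∈ commutator (SU h) := by
    rw [hK, commutator_def]
    exact Subgroup.commutator_mem_commutator (Subgroup.mem_top t) (Subgroup.mem_top E)
  have hKx : K.1 x₀ = x₀ := hKr.1
  obtain ⟨d, hd⟩ := hKr.2 v' hv'x
  have hKE : K.1 (E.1 w) = w + c • v' + (c * (a' * c)) • x₀ := by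
    rw [← hE₂w, hK, SU.mul_apply, SU.inv_apply]
  rw [hEw, map_add, map_add, map_smul, hKx, hd] at hKE
  -- `K w = w + v₀ + b' x₀`
  obtain ⟨b', hKw⟩ : ∃ b' : F, K.1 w = w + v₀ + b' • x₀ := by
    refine ⟨c * (a' * c) - a' - d, ?_⟩
    have h1 : v₀ = (c - 1) • v' := by
      rw [hv', smul_smul, mul_inv_cancel₀ hcc, one_smul]
    rw [h1]
    have h2 : K.1 w = w + c • v' + (c * (a' * c)) • x₀ - (v' + d • x₀) - a' • x₀ := by
      rw [← hKE]
      abel
    rw [h2]
    module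
  obtain ⟨r, hr⟩ : ∃ r : SU h, r = K⁻¹ * g := ⟨_, rfl⟩
  have hrr : r ∈ rad h x₀ := by
    rw [hr]
    exact (rad h x₀).mul_mem ((rad h x₀).inv_mem hKr) hg
  obtain ⟨b, hb⟩ : ∃ b : F, b = h.f v w - b' := ⟨_, rfl⟩
  have hKix : (K⁻¹).1 x₀ = x₀ := ((rad h x₀).inv_mem hKr).1
  have hrw : r.1 w = w + b • x₀ := by
    have h1 : g.1 w = K.1 w + b • x₀ := by
      rw [hgw, hKw, hb, hv₀]
      module
    rw [hr, SU.mul_apply, h1, map_add, SU.inv_apply, map_smul, hKix]
  obtain ⟨v₁, a₁, hv₁x, hv₁w, ha₁, hr₁, hrz⟩ := rad_form h hx hw hwx hrr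
  have hv₁ : v₁ = b • x₀ := by
    rw [hrw] at hr₁
    exact (add_left_cancel hr₁).symm
  have hab : star a₁ = b := by
    rw [← hv₁w, hv₁, h.smul_left, hxw, mul_one]
  have hab' : a₁ = star b := by rw [← hab, star_star]
  have hbb : b + star b = 0 := by
    rw [hv₁, h.smul_left, h.smul_right, hx, hab, hab'] at ha₁
    linear_combination ha₁
  have hrc : r ∈ commutator (SU h) := by
    refine center_comm hF h hn h0 hx hbb fun z => ?_
    rw [hrz, hv₁, h.smul_right, hab']
    module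
  have hgr : g = K * r := by rw [hr, mul_inv_cancel_left]
  rw [hgr]
  exact (commutator (SU h)).mul_mem hKc hrc

/-- `SU h` is perfect. By `EE_eq_top` it is enough that `rad h x₀ ≤ commutator (SU h)` for `x₀ ≠ 0` isotropic. Choose `w` isotropic,
`h w x₀ = 1`; let `g ∈ rad h x₀`, `g w = w + v`, `v = v₀ + b • x₀` with `h v₀ x₀ = 0 = h v₀ w` (subtract a multiple of `x₀`; `h v x₀ = 0` by
`rad_form`). Let `c ∈ F` with `star c = c`, `c ≠ 0`, `c ≠ 1` (exists because `q ≥ 3`: for example there are `q` elements with `star c = c`, or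
use `exists_norm`/`card_skew`: `c = κ' * κ⁻¹` for skew `κ, κ'`) and `t` from `EE_torus_small` (with `x = x₀`, `y = w`): `t x₀ = c • x₀`,
`t w = c⁻¹ • w`, `t` trivial on the orthogonal space. Let `E` be the element of `rad h x₀` with vector `v' = (c - 1)⁻¹ • v₀` and some
`a'` with `a' + star a' = - h v' v'`. Then `t * E * t⁻¹ * E⁻¹ ∈ rad h x₀` maps `w` to `w + v₀ + b' • x₀` for some `b'`. So `g` times the
inverse of this commutator maps `w` to `w + b'' • x₀`; it is in `rad h x₀`, so by `rad_form` and `rad_ext` it is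
`z ↦ z + (b'' * h z x₀) • x₀` with `b'' + star b'' = 0`, which is in the commutator by `center_comm`. -/
theorem SU_perfect (hF : IsUF F q) (h : Herm F V) (hn : 3 ≤ finrank F V) :
    commutator (SU h) = ⊤ := by
  rw [eq_top_iff, ← EE_eq_top hF h, EE, Subgroup.closure_le]
  rintro g ⟨x₀, h0, hx, hg⟩
  obtain ⟨y, hy⟩ := exists_one h h0
  obtain ⟨b, hb⟩ := G3_exists_iso hF h hx hy
  refine Y13_rad hF h hn h0 hx hb ?_ hg
  rw [h.add_left, h.smul_left, hx, hy, mul_zero, add_zero]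

/-! ### Row psu-Y14 -/

/-- two isotropic vectors which are not orthogonal -/
theorem Y14_pair (hF : IsUF F q) (h : Herm F V) (z : SU h) (hz : ∀ x : V, x ≠ 0 → h.f x x = 0 → ∃ l : F, z.1 x = l • x) {x y : V}
    (hx : h.f x x = 0) (hy : h.f y y = 0) (hxy : h.f x y ≠ 0) {l : F} (hl : z.1 x = l • x) :
    z.1 y = l • y := by
  obtain ⟨κ, hκ0, hκ⟩ := exists_skew hF
  have hx0 : x ≠ 0 := by
    rintro rfl
    exact hxy (h.zero_left y)
  have hy0 : y ≠ 0 := by
    rintro rfl
    exact hxy (h.zero_right x)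
  obtain ⟨m, hm⟩ := hz _ hy0 hy
  -- `a • y` with `h x (a • y) = 1`
  obtain ⟨a, ha⟩ : ∃ a : F, star a * h.f x y = 1 := ⟨star (h.f x y)⁻¹, by
    rw [star_star, inv_mul_cancel₀ hxy]⟩
  have ha0 : a ≠ 0 := by
    rintro rfl
    rw [star_zero, zero_mul] at ha
    exact zero_ne_one ha
  have hay : h.f (a • y) (a • y) = 0 := by rw [h.smul_left, h.smul_right, hy, mul_zero, mul_zero]
  have hxay : h.f x (a • y) = 1 := by rw [h.smul_right, ha]
  have hiso : h.f (x + κ • (a • y)) (x + κ • (a • y)) = 0 :=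
    G6_iso h hay hxay (by rw [hx, neg_zero, hκ])
  have hne : x + κ • (a • y) ≠ 0 := by
    intro h0
    have h1 : h.f (x + κ • (a • y)) (a • y) = 0 := by rw [h0, h.zero_left]
    rw [h.add_left, hxay, h.smul_left, hay, mul_zero, add_zero] at h1
    exact one_ne_zero h1
  obtain ⟨μ, hμ⟩ := hz _ hne hiso
  rw [map_add, map_smul, map_smul, hl, hm, smul_add] at hμ
  -- pair with `x` and with `a • y`
  have h1 := congrArg (fun u => h.f u (a • y)) hμ
  simp only [h.add_left, h.smul_left, hxay, hay, hy, h.smul_right, mul_zero, add_zero, ha, mul_one] at h1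
  have h2 := congrArg (fun u => h.f x u) hμ
  have hxy' : h.f x y = (star a)⁻¹ := eq_inv_of_mul_eq_one_right ha
  simp only [h.add_right, h.smul_right, hx, mul_zero, zero_add] at h2
  have hsa : star a ≠ 0 := star_ne_zero.2 ha0
  have hsk : star κ ≠ 0 := star_ne_zero.2 hκ0
  have h3 : star m = star μ := by
    have h4 : star κ * (star a * (star m * h.f x y)) = star μ * (star κ * (star a * h.f x y)) := h2
    rw [hxy'] at h4
    field_simp at h4
    exact h4
  rw [hm, star_injective h3, ← h1]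

theorem Y14_all (hF : IsUF F q) (h : Herm F V) (z : SU h) (hz : ∀ x : V, x ≠ 0 → h.f x x = 0 → ∃ l : F, z.1 x = l • x) {x y : V}
    (hx0 : x ≠ 0) (hx : h.f x x = 0) (hy : h.f y y = 0) {l : F} (hl : z.1 x = l • x) :
    z.1 y = l • y := by
  by_cases hxy : h.f x y = 0
  · by_cases hc : ∃ c : F, y = c • x
    · obtain ⟨c, rfl⟩ := hc
      rw [map_smul, hl, smul_comm]
    · obtain ⟨y', h1, h2, h3⟩ := G6_solve hF h hx0 hx (fun c hcy => hc ⟨c, hcy⟩) hxy
      have h4 : h.f x y' ≠ 0 := by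
        rw [h.symm y' x, h2, star_one]
        exact one_ne_zero
      have h5 := Y14_pair hF h z hz hx h1 h4 hl
      exact Y14_pair hF h z hz h1 hy (by rw [h3]; exact one_ne_zero) h5
  · exact Y14_pair hF h z hz hx hy hxy hl

/-- If all isotropic vectors are eigenvectors of `z` then `z` is a scalar. Copy the proofs of `G6_pair`, `G6_all`, `center_scalar`:
they use that `z` is central only to get `G6_eigen`, which is our hypothesis. -/
theorem scalar_of_eigen (hF : IsUF F q) (h : Herm F V) (hn : 2 ≤ finrank F V) (z : SU h)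
    (hz : ∀ x : V, x ≠ 0 → h.f x x = 0 → ∃ l : F, z.1 x = l • x) : ∃ c : F, ∀ x : V, z.1 x = c • x := by
  obtain ⟨x, hx0, hx⟩ := exists_isotropic hF h hn
  obtain ⟨l, hl⟩ := hz _ hx0 hx
  have hall : ∀ y, h.f y y = 0 → z.1 y = l • y := fun y hy => Y14_all hF h z hz hx0 hx hy hl
  refine ⟨l, fun w => ?_⟩
  by_cases hw : h.f w w = 0
  · exact hall w hw
  · -- an isotropic `y` with `h w y ≠ 0`
    obtain ⟨y, hy, hwy⟩ : ∃ y, h.f y y = 0 ∧ h.f w y ≠ 0 := by
      by_cases hxw : h.f x w = 0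
      · obtain ⟨y, h1, -, h3⟩ := G6_solve hF h hx0 hx (w := w) (by
          rintro c rfl
          exact hw (by rw [h.smul_left, h.smul_right, hx, mul_zero, mul_zero])) hxw
        exact ⟨y, h1, by rw [h.symm y w, h3, star_one]; exact one_ne_zero⟩
      · refine ⟨x, hx, ?_⟩
        rw [h.symm x w]
        exact star_ne_zero.2 hxw
    obtain ⟨b, hb⟩ := exists_trace hF (a := -h.f w w) (by rw [star_neg, h.self_star])
    obtain ⟨a, ha⟩ : ∃ a : F, star a * h.f w y = 1 := ⟨star (h.f w y)⁻¹, by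
      rw [star_star, inv_mul_cancel₀ hwy]⟩
    have hay : h.f (a • y) (a • y) = 0 := by rw [h.smul_left, h.smul_right, hy, mul_zero, mul_zero]
    have hway : h.f w (a • y) = 1 := by rw [h.smul_right, ha]
    have h1 := hall _ (G6_iso h hay hway hb)
    have h2 := hall _ hay
    rw [map_add, map_smul, h2, smul_add, smul_comm l b] at h1
    exact add_right_cancel h1

/-! ### Row psu-Y15 -/

omit [Finite F] [FiniteDimensional F V] in
theorem Y15_conj (h : Herm F V) {x₀ y : V} {n g : SU h} {c : F} (hc : c ≠ 0)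
    (hn : n.1 x₀ = c • y) (hg : g ∈ rad h y) : n⁻¹ * g * n ∈ rad h x₀ := by
  obtain ⟨h1, h2⟩ := hg
  have hy : (n⁻¹).1 y = c⁻¹ • x₀ := by
    have h3 := SU.inv_apply n x₀
    rw [hn, map_smul] at h3
    have h4 := congrArg (fun z => c⁻¹ • z) h3
    simpa only [smul_smul, inv_mul_cancel₀ hc, one_smul] using h4
  refine ⟨?_, fun z hz => ?_⟩
  · rw [SU.mul_apply, SU.mul_apply, hn, map_smul, h1, map_smul, hy, smul_smul,
      mul_inv_cancel₀ hc, one_smul]
  · have h3 : h.f (n.1 z) y = 0 := by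
      have h4 := SU.isom n z x₀
      rw [hn, h.smul_right, hz] at h4
      rcases mul_eq_zero.1 h4 with h5 | h5
      · exact absurd (star_eq_zero.1 h5) hc
      · exact h5
    obtain ⟨d, hd⟩ := h2 _ h3
    refine ⟨d * c⁻¹, ?_⟩
    rw [SU.mul_apply, SU.mul_apply, hd, map_add, map_smul, SU.inv_apply, hy, smul_smul]

/-- Iwasawa: `N` a normal subgroup of `SU h` which is not contained in some `stab h x₀` (`x₀ ≠ 0` isotropic). Then `N ⊔ stab h x₀ = ⊤`
(`stab_coatom`). Claim: `N ⊔ rad h x₀ = ⊤`; by `EE_eq_top` it is enough that `rad h y ≤ N ⊔ rad h x₀` for `y ≠ 0` isotropic. By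
`EE_trans` there is `s` with `s x₀ = c • y`, `c ≠ 0`; `s = n * b`, `n ∈ N`, `b ∈ stab h x₀` (`Subgroup.mem_sup_of_normal_left` or the like).
So `n x₀ = c' • y`. For `g ∈ rad h y` the element `r = n⁻¹ * g * n` is in `rad h x₀` (direct check: `r x₀ = x₀`; if `h z x₀ = 0` then
`h (n z) y = 0`, `g (n z) = n z + d • y`), and `g = n * r * n⁻¹ = (n * (r * n⁻¹ * r⁻¹)) * r ∈ N ⊔ rad h x₀`. -/
theorem sup_rad_eq_top (hF : IsUF F q) (h : Herm F V) {N : Subgroup (SU h)} [N.Normal] {x₀ : V}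
    (h0 : x₀ ≠ 0) (hx : h.f x₀ x₀ = 0) (hN : ¬ N ≤ stab h x₀) : N ⊔ rad h x₀ = ⊤ := by
  have hsup : N ⊔ stab h x₀ = ⊤ := by
    refine (stab_coatom hF h h0 hx).2 _ (lt_of_le_of_ne le_sup_right fun heq => ?_)
    exact hN (le_of_le_of_eq le_sup_left heq.symm)
  rw [eq_top_iff, ← EE_eq_top hF h]
  unfold EE
  rw [Subgroup.closure_le]
  rintro g ⟨y, hy0, hy, hg⟩
  obtain ⟨s, -, c, hc, hs⟩ := EE_trans hF h h0 hx hy0 hy
  have hs' : s ∈ ((N ⊔ stab h x₀ : Subgroup (SU h)) : Set (SU h)) := by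
    rw [hsup]
    exact Subgroup.mem_top s
  rw [Subgroup.normal_mul] at hs'
  obtain ⟨n, hn, b, ⟨d, hd, hb⟩, hnb⟩ := Set.mem_mul.1 hs'
  have hnx : n.1 x₀ = (d⁻¹ * c) • y := by
    have h1 : s.1 x₀ = d • n.1 x₀ := by
      rw [← hnb, SU.mul_apply, hb, map_smul]
    rw [hs] at h1
    rw [mul_smul, h1, smul_smul, inv_mul_cancel₀ hd, one_smul]
  have hr := Y15_conj h (mul_ne_zero (inv_ne_zero hd) hc) hnx hg
  have e : g = (n * ((n⁻¹ * g * n) * n⁻¹ * (n⁻¹ * g * n)⁻¹)) * (n⁻¹ * g * n) := by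
    group
  rw [e]
  exact Subgroup.mul_mem_sup
    (N.mul_mem hn (Subgroup.Normal.conj_mem inferInstance _ (N.inv_mem hn) _)) hr

/-! ### Row psu-Y16 -/

/-- With `sup_rad_eq_top` every element of the quotient `SU h ⧸ N` is the image of an element of `rad h x₀`, which is a `p`-group
(`rad_pgroup`, `p` the characteristic of `F`); so `SU h ⧸ N` is a finite `p`-group, nilpotent (`IsPGroup.isNilpotent`), solvable, and by
`SU_perfect` it is equal to its commutator subgroup (`Subgroup.map_commutator`, `commutator_def`); if it were nontrivial this would contradict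
`IsSolvable.commutator_lt_top_of_nontrivial`. So `N = ⊤`. (`SU h` is finite: `V` is finite, `Module.finite_of_finite F`.) -/
theorem normal_eq_top (hF : IsUF F q) (h : Herm F V) (hn : 3 ≤ finrank F V) {N : Subgroup (SU h)}
    [N.Normal] {x₀ : V} (h0 : x₀ ≠ 0) (hx : h.f x₀ x₀ = 0) (hN : ¬ N ≤ stab h x₀) : N = ⊤ := by
  obtain ⟨p, hchar⟩ := CharP.exists F
  have hp : p.Prime := (CharP.char_is_prime_or_zero F p).resolve_right
    (fun h => CharP.char_ne_zero_of_finite F p h)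
  have hpf : Fact p.Prime := ⟨hp⟩
  have hsup := sup_rad_eq_top hF h h0 hx hN
  -- every element of the quotient comes from the radical
  have hmap : (rad h x₀).map (QuotientGroup.mk' N) = ⊤ := by
    rw [eq_top_iff]
    rintro a -
    obtain ⟨g, rfl⟩ := QuotientGroup.mk'_surjective N a
    have hg : g ∈ N ⊔ rad h x₀ := by rw [hsup]; exact Subgroup.mem_top g
    obtain ⟨n, hn', r, hr, rfl⟩ := Subgroup.mem_sup_of_normal_left.1 hg
    refine ⟨r, hr, ?_⟩
    rw [map_mul]
    have h1 : (QuotientGroup.mk' N) n = 1 := (QuotientGroup.eq_one_iff n).2 hn'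
    rw [h1, one_mul]
  have hP : IsPGroup p (SU h ⧸ N) := by
    intro a
    have ha : a ∈ (rad h x₀).map (QuotientGroup.mk' N) := by rw [hmap]; exact Subgroup.mem_top a
    obtain ⟨r, hr, rfl⟩ := ha
    obtain ⟨k, hk⟩ := rad_pgroup (V := V) h (x₀ := x₀) p ⟨r, hr⟩
    refine ⟨k, ?_⟩
    have h1 : r ^ p ^ k = 1 := by
      have h2 := congrArg Subtype.val hk
      simpa using h2
    rw [← map_pow, h1, map_one]
  have hVfin : Finite V := Module.finite_of_finite F
  have hEfin : Finite (V ≃ₗ[F] V) :=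
    Finite.of_injective (fun g : V ≃ₗ[F] V => (g : V → V)) DFunLike.coe_injective
  have hSfin : Finite (SU h) := inferInstance
  have hQfin : Finite (SU h ⧸ N) := inferInstance
  have hnil : Group.IsNilpotent (SU h ⧸ N) := hP.isNilpotent
  have hsol : Group.IsSolvable (SU h ⧸ N) := inferInstance
  by_contra hne
  have hnt : Nontrivial (SU h ⧸ N) := by
    by_contra hcon
    rw [not_nontrivial_iff_subsingleton] at hcon
    exact hne (QuotientGroup.subgroup_eq_top_of_subsingleton N hcon)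
  have hlt := Group.IsSolvable.commutator_lt_top_of_nontrivial (SU h ⧸ N)
  refine hlt.ne ?_
  have h1 : (commutator (SU h)).map (QuotientGroup.mk' N) = commutator (SU h ⧸ N) := by
    rw [commutator_def, commutator_def, Subgroup.map_commutator,
      Subgroup.map_top_of_surjective _ (QuotientGroup.mk'_surjective N)]
  rw [← h1, SU_perfect hF h hn, Subgroup.map_top_of_surjective _ (QuotientGroup.mk'_surjective N)]

/-! ### Row psu-Y17 -/

theorem Y17_nontrivial (hF : IsUF F q) {h : Herm F V} {π : SU h →* G} (hπ : IsProjU h π)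
    (hn : 3 ≤ finrank F V) : Nontrivial G := by
  obtain ⟨x₀, h0, hx⟩ := exists_isotropic hF h (by omega)
  obtain ⟨κ, hκ0, hκ⟩ := exists_skew hF
  obtain ⟨g, hg, hgx⟩ := exists_eichler h (x₀ := x₀) (v := 0) (a := κ) hx (h.zero_left x₀)
    (by rw [h.zero_left, add_zero, hκ])
  refine ⟨π ⟨g, hg⟩, 1, fun h1 => ?_⟩
  obtain ⟨c, hc⟩ := (hπ.ker _).1 h1
  obtain ⟨y, hy⟩ := exists_one h h0
  have e1 : g x₀ = c • x₀ := hc x₀
  rw [hgx, hx, h.zero_right, mul_zero, zero_smul, zero_smul, add_zero, add_zero, sub_zero] at e1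
  have e2 : (1 - c) • x₀ = 0 := by rw [sub_smul, one_smul, ← e1, sub_self]
  have e3 : c = 1 := by
    have := (smul_eq_zero.1 e2).resolve_right h0
    exact (sub_eq_zero.1 this).symm
  have e4 : g y = c • y := hc y
  rw [hgx, hy, h.zero_right, mul_one, smul_zero, zero_smul, add_zero, sub_zero, e3, one_smul] at e4
  have e5 : κ • x₀ = 0 := by
    have := congrArg (fun z => z - y) e4
    simpa only [add_sub_cancel_left, sub_self] using this
  exact hκ0 ((smul_eq_zero.1 e5).resolve_right h0)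

/-- `G` is simple. Nontrivial: for an isotropic `x₀ ≠ 0` (`exists_isotropic`) and `κ ≠ 0`, `κ + star κ = 0`, the element
`z ↦ z + (κ * h z x₀) • x₀` is not a scalar. Let `M` be a normal subgroup of `G`, `M ≠ ⊥`: there is `g : SU h` with `π g ∈ M`,
`π g ≠ 1`; `g` is not a scalar (`hπ.ker`), so by `scalar_of_eigen` there is an isotropic `x₀ ≠ 0` with `g ∉ stab h x₀`. Apply `normal_eq_top` to
`N = M.comap π`: `N = ⊤`, so `M = ⊤` as `π` is surjective. -/
theorem isSimple (hF : IsUF F q) {h : Herm F V} {π : SU h →* G} (hπ : IsProjU h π)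
    (hn : 3 ≤ finrank F V) : IsSimpleGroup G := by
  have hnt := Y17_nontrivial hF hπ hn
  refine { toNontrivial := hnt, eq_bot_or_eq_top_of_normal := fun M hM => ?_ }
  by_cases hb : M = ⊥
  · exact Or.inl hb
  right
  obtain ⟨m, hm1⟩ := Subgroup.ne_bot_iff_exists_ne_one.1 hb
  obtain ⟨g, hg⟩ := hπ.surj m
  have hg1 : π g ≠ 1 := by
    rw [hg]
    intro h1
    exact hm1 (Subtype.ext h1)
  have hex : ∃ x₀ : V, x₀ ≠ 0 ∧ h.f x₀ x₀ = 0 ∧ g ∉ stab h x₀ := by
    by_contra hne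
    push Not at hne
    obtain ⟨c, hc⟩ := scalar_of_eigen hF h (by omega) g fun x hx0 hx => by
      obtain ⟨l, -, hl⟩ := hne x hx0 hx
      exact ⟨l, hl⟩
    exact hg1 ((hπ.ker g).2 ⟨c, hc⟩)
  obtain ⟨x₀, h0, hx, hst⟩ := hex
  have hN : ¬ M.comap π ≤ stab h x₀ := fun hle => hst (hle (by
    rw [Subgroup.mem_comap, hg]
    exact m.2))
  have htop := normal_eq_top hF h hn (N := M.comap π) h0 hx hN
  rw [Subgroup.eq_top_iff']
  intro z
  obtain ⟨g', rfl⟩ := hπ.surj z
  have : g' ∈ M.comap π := by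
    rw [htop]
    exact Subgroup.mem_top g'
  exact this

end Pool.Agent.Lib.MP_8f3271_al.PSU
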