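import Mathlib
import Pool.Agent.Lib.MP_8f3271_al.P.Main
import Pool.Agent.Lib.MP_8f3271_al.P.W
import Pool.Agent.Lib.MP_8f3271_al.P.Y

/-!
# PSU(n, q) is simple and has no nontrivial G-permutable subgroup
-/

set_option autoImplicit false

open Pool.Agent.GPerm59 Pointwise Module

namespace Pool.Agent.Lib.MP_8f3271_al.PSU

/-- `F` a finite field with a nontrivial involution `star`, with more than four elements, `n ≥ 3`. Then `PSU(n, F)` is simple and if
`(n, |F|) ≠ (4, 9)` then its only `G`-permutable subgroups are `1` and the whole group. -/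
theorem final {n : ℕ} (hn : 3 ≤ n) (F : Type*) [Field F] [Finite F] [StarRing F]
    (hs : ∃ a : F, star a ≠ a) (hc : 4 < Nat.card F) :
    IsSimpleGroup (Matrix.specialUnitaryGroup (Fin n) F ⧸
      Subgroup.center (Matrix.specialUnitaryGroup (Fin n) F)) ∧
    ((n = 4 → Nat.card F ≠ 9) → ∀ A : Subgroup (Matrix.specialUnitaryGroup (Fin n) F ⧸
      Subgroup.center (Matrix.specialUnitaryGroup (Fin n) F)), GPermutable A → A = ⊥ ∨ A = ⊤) := by
  obtain ⟨q, hq, hst⟩ := exists_uf F hs
  have hq3 : 3 ≤ q := by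
    rw [hq] at hc
    by_contra hlt
    have : q ≤ 2 := by omega
    nlinarith
  have hF : IsUF F q := ⟨hq, hst, hq3⟩
  obtain ⟨h, π, hπ⟩ := exists_projU (n := n) hF (by omega)
  have hfin : finrank F (Fin n → F) = n := by simp
  have hsimple : IsSimpleGroup (Matrix.specialUnitaryGroup (Fin n) F ⧸
      Subgroup.center (Matrix.specialUnitaryGroup (Fin n) F)) := isSimple hF hπ (by omega)
  refine ⟨hsimple, fun hnc A hA => ?_⟩
  by_cases h3 : n = 3
  · exact main_three hF hπ (by rw [hfin, h3]) hA
  · exact main (by omega) F hs hc hnc A hA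

end Pool.Agent.Lib.MP_8f3271_al.PSU
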